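import Mathlib
import Pool.Agent.MP_602153_ag.ParamModel

set_option autoImplicit false

/-!
# Local-global principle for regular models: definitions

`C` is the homogeneous coordinate ring of a projective variety over `ℚ` (a domain); a lattice
`Λ` in its degree one part gives the model `Proj ℤ[Λ]`; its chart `D_+(f)` is the subring
`ℤ[y / f : y ∈ Λ]` of the fraction field.
-/

namespace Pool.MP_602153_ag

namespace LG

open MvPolynomial

variable {C : Type} [CommRing C] [IsDomain C] [Algebra ℚ C]

/-- The chart `D_+(f)` of the model attached to `Λ`. -/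
noncomputable def chartSub (Λ : Submodule ℤ C) (f : C) : Subalgebra ℤ (FractionRing C) :=
  Algebra.adjoin ℤ {z | ∃ y ∈ Λ, z = algebraMap C (FractionRing C) y /
    algebraMap C (FractionRing C) f}

/-- `Λ` is a lattice in the degree one part. -/
structure IsLat (C₁ : Submodule ℚ C) (Λ : Submodule ℤ C) : Prop where
  fg : Λ.FG
  span : Submodule.span ℚ (Λ : Set C) = C₁

/-- The model attached to `Λ` is regular away from `n`, with degree one charts. -/
def Good (Λ : Submodule ℤ C) (n : ℤ) : Prop :=
  ∃ (κ : Type) (f : κ → C),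
    (∀ i, f i ∈ Λ ∧ f i ≠ 0 ∧ IsRegularRing (chartSub Λ (f i))) ∧
    ∀ y ∈ Λ, ∃ k : ℕ, ((n : C) * y) ^ k ∈
      Submodule.span (Algebra.adjoin ℤ (Λ : Set C)) (Set.range f)

end LG

end Pool.MP_602153_ag
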