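import Mathlib
import Pool.Agent.HermVar.LGDefs

set_option autoImplicit false

/-!
# Local-global principle: the chart rings
-/

namespace Pool.MP_602153_ag

namespace LG

open MvPolynomial

attribute [local instance] MvPolynomial.gradedAlgebra

section Loc

/-- A localisation of a noetherian ring which is regular at all primes not containing the
inverted element is regular. -/
theorem lgcx_regular_of_away {R S : Type} [CommRing R] [CommRing S] [Algebra R S] (a : R)
    [IsLocalization.Away a S] [IsNoetherianRing R]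
    (h : ∀ (Q : Ideal R) [Q.IsPrime], a ∉ Q → IsRegularLocalRing (Localization.AtPrime Q)) :
    IsRegularRing S := by
  have hN : IsNoetherianRing S := IsLocalization.isNoetherianRing (Submonoid.powers a) S inferInstance
  rw [isRegularRing_iff]
  intro p hp
  have hp' : (p.comap (algebraMap R S)).IsPrime := hp.comap _
  have ha : a ∉ p.comap (algebraMap R S) := by
    intro ha
    rw [Ideal.mem_comap] at ha
    exact hp.ne_top (Ideal.eq_top_of_isUnit_mem _ ha (IsLocalization.Away.algebraMap_isUnit a))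
  have h1 := h (p.comap (algebraMap R S)) ha
  have h2 : IsLocalization.AtPrime (Localization.AtPrime p) (p.comap (algebraMap R S)) :=
    IsLocalization.isLocalization_isLocalization_atPrime_isLocalization (Submonoid.powers a)
      (Localization.AtPrime p) p
  exact IsRegularLocalRing.of_ringEquiv
    (IsLocalization.algEquiv (p.comap (algebraMap R S)).primeCompl
      (Localization.AtPrime (p.comap (algebraMap R S))) (Localization.AtPrime p)).toRingEquiv

end Loc

variable {C : Type} [CommRing C] [IsDomain C] [Algebra ℚ C]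

omit [IsDomain C] [Algebra ℚ C] in
theorem lgcx_map_ne {f : C} (hf0 : f ≠ 0) : algebraMap C (FractionRing C) f ≠ 0 := by
  rw [Ne, IsFractionRing.to_map_eq_zero_iff]
  exact hf0

theorem lgcx_int_ne {a : ℤ} (ha : a ≠ 0) : (a : C) ≠ 0 := by
  have h1 : ((a : ℚ) : ℚ) ≠ 0 := by exact_mod_cast ha
  have h2 : (a : C) = algebraMap ℚ C (a : ℚ) := by simp
  rw [h2, Ne, FaithfulSMul.algebraMap_eq_zero_iff]
  exact h1

omit [Algebra ℚ C] in
theorem lgcx_mem {Λ : Submodule ℤ C} {f y : C} (hy : y ∈ Λ) :
    algebraMap C (FractionRing C) y / algebraMap C (FractionRing C) f ∈ chartSub Λ f :=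
  Algebra.subset_adjoin ⟨y, hy, rfl⟩

theorem lgcx_le {Λ : Submodule ℤ C} {f : C} {a : ℤ} (ha : a ≠ 0) :
    chartSub Λ f ≤ chartSub Λ ((a : C) * f) := by
  rw [chartSub, Algebra.adjoin_le_iff]
  rintro z ⟨y, hy, rfl⟩
  have ha' : (a : FractionRing C) ≠ 0 := by
    have := lgcx_map_ne (lgcx_int_ne (C := C) ha)
    rwa [map_intCast] at this
  have h1 : algebraMap C (FractionRing C) y / algebraMap C (FractionRing C) f =
      (a : FractionRing C) * (algebraMap C (FractionRing C) y /
        algebraMap C (FractionRing C) ((a : C) * f)) := by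
    rw [map_mul, map_intCast]
    field_simp
  rw [h1]
  exact mul_mem (intCast_mem _ a) (lgcx_mem hy)

theorem lgcx_inv_mem {Λ : Submodule ℤ C} {f : C} (hf : f ∈ Λ) (hf0 : f ≠ 0) {a : ℤ} :
    ((a : FractionRing C))⁻¹ ∈ chartSub Λ ((a : C) * f) := by
  have h0 := lgcx_map_ne hf0
  have h1 : ((a : FractionRing C))⁻¹ = algebraMap C (FractionRing C) f /
      algebraMap C (FractionRing C) ((a : C) * f) := by
    rw [map_mul, map_intCast]
    by_cases ha : (a : FractionRing C) = 0
    · rw [ha]
      simp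
    · field_simp
  rw [h1]
  exact lgcx_mem hf

/-- Elements of the localised chart become elements of the chart after multiplication by a power
of the integer. -/
theorem lgcx_pow {Λ : Submodule ℤ C} {f : C} {a : ℤ} (ha : a ≠ 0) (z : FractionRing C)
    (hz : z ∈ chartSub Λ ((a : C) * f)) :
    ∃ n : ℕ, (a : FractionRing C) ^ n * z ∈ chartSub Λ f := by
  have ha' : (a : FractionRing C) ≠ 0 := by
    have := lgcx_map_ne (lgcx_int_ne (C := C) ha)
    rwa [map_intCast] at this
  rw [chartSub] at hz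
  induction hz using Algebra.adjoin_induction with
  | mem z hz =>
    obtain ⟨y, hy, rfl⟩ := hz
    refine ⟨1, ?_⟩
    have h1 : (a : FractionRing C) ^ 1 * (algebraMap C (FractionRing C) y /
        algebraMap C (FractionRing C) ((a : C) * f)) =
        algebraMap C (FractionRing C) y / algebraMap C (FractionRing C) f := by
      rw [map_mul, map_intCast, pow_one]
      field_simp
    rw [h1]
    exact lgcx_mem hy
  | algebraMap r =>
    refine ⟨0, ?_⟩
    rw [pow_zero, one_mul]
    exact algebraMap_mem _ r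
  | add x y _ _ hx hy =>
    obtain ⟨n, hn⟩ := hx
    obtain ⟨k, hk⟩ := hy
    refine ⟨n + k, ?_⟩
    have h1 : (a : FractionRing C) ^ (n + k) * (x + y) =
        (a : FractionRing C) ^ k * ((a : FractionRing C) ^ n * x) +
        (a : FractionRing C) ^ n * ((a : FractionRing C) ^ k * y) := by ring
    rw [h1]
    exact add_mem (mul_mem (pow_mem (intCast_mem _ a) k) hn)
      (mul_mem (pow_mem (intCast_mem _ a) n) hk)
  | mul x y _ _ hx hy =>
    obtain ⟨n, hn⟩ := hx
    obtain ⟨k, hk⟩ := hy
    refine ⟨n + k, ?_⟩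
    have h1 : (a : FractionRing C) ^ (n + k) * (x * y) =
        ((a : FractionRing C) ^ n * x) * ((a : FractionRing C) ^ k * y) := by ring
    rw [h1]
    exact mul_mem hn hk

/-- Inverting an integer in a chart. -/
theorem isRegularRing_chartSub_mul {Λ : Submodule ℤ C} {f : C} (hf : f ∈ Λ) (hf0 : f ≠ 0)
    (hnoeth : IsNoetherianRing (chartSub Λ f)) {a : ℤ} (ha : a ≠ 0)
    (h : ∀ (Q : Ideal (chartSub Λ f)) [Q.IsPrime], (a : chartSub Λ f) ∉ Q →
      IsRegularLocalRing (Localization.AtPrime Q)) :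
    IsRegularRing (chartSub Λ ((a : C) * f)) := by
  have ha' : (a : FractionRing C) ≠ 0 := by
    have := lgcx_map_ne (lgcx_int_ne (C := C) ha)
    rwa [map_intCast] at this
  let inc : chartSub Λ f →ₐ[ℤ] chartSub Λ ((a : C) * f) := Subalgebra.inclusion (lgcx_le ha)
  let alg : Algebra (chartSub Λ f) (chartSub Λ ((a : C) * f)) := inc.toRingHom.toAlgebra
  have hmap : ∀ z : chartSub Λ f, ((algebraMap (chartSub Λ f) (chartSub Λ ((a : C) * f)) z :
      chartSub Λ ((a : C) * f)) : FractionRing C) = z := fun z => rfl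
  have hloc : IsLocalization.Away (a : chartSub Λ f) (chartSub Λ ((a : C) * f)) := by
    rw [IsLocalization.Away, isLocalization_iff]
    refine ⟨?_, ?_, ?_⟩
    · rintro ⟨_, n, rfl⟩
      rw [map_pow]
      apply IsUnit.pow
      rw [map_intCast]
      refine IsUnit.of_mul_eq_one ⟨_, lgcx_inv_mem hf hf0 (a := a)⟩ ?_
      apply Subtype.ext
      change ((a : chartSub Λ ((a : C) * f)) : FractionRing C) * (a : FractionRing C)⁻¹ = 1
      have h1 : ((a : chartSub Λ ((a : C) * f)) : FractionRing C) = (a : FractionRing C) := by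
        simp
      rw [h1, mul_inv_cancel₀ ha']
    · rintro ⟨z, hz⟩
      obtain ⟨n, hn⟩ := lgcx_pow ha z hz
      refine ⟨(⟨_, hn⟩, ⟨(a : chartSub Λ f) ^ n, n, rfl⟩), ?_⟩
      apply Subtype.ext
      change z * ((algebraMap (chartSub Λ f) (chartSub Λ ((a : C) * f))
        ((a : chartSub Λ f) ^ n) : chartSub Λ ((a : C) * f)) : FractionRing C) = _
      rw [hmap, hmap]
      have h1 : (((a : chartSub Λ f) ^ n : chartSub Λ f) : FractionRing C) =
          (a : FractionRing C) ^ n := by simp
      rw [h1, mul_comm]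
    · intro x y hxy
      refine ⟨1, ?_⟩
      have h1 : x = y := by
        apply Subtype.ext
        rw [← hmap x, ← hmap y, hxy]
      rw [h1]
  exact lgcx_regular_of_away (R := chartSub Λ f) (a : chartSub Λ f) h

section Coord

variable (𝒞 : ℕ → Submodule ℚ C) [GradedAlgebra 𝒞] {σ : Type} (x : σ → C)

theorem lgcx_mem_of_homogeneous (hx : ∀ s, x s ∈ 𝒞 1) {h : MvPolynomial σ ℤ} {d : ℕ}
    (hh : h.IsHomogeneous d) : aeval x h ∈ 𝒞 d := by
  rw [aeval_def, eval₂_eq]
  refine sum_mem fun m hm => ?_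
  have h1 : m.degree = d := by
    by_contra hne
    exact (mem_support_iff.1 hm) (hh.coeff_eq_zero hne)
  have h2 : ∏ i ∈ m.support, x i ^ m i ∈ 𝒞 d := by
    have h3 : ∏ i ∈ m.support, x i ^ m i ∈ 𝒞 (∑ i ∈ m.support, m i) := by
      apply SetLike.prod_mem_graded
      intro i _
      have h4 := SetLike.pow_mem_graded (m i) (hx i)
      rwa [smul_eq_mul, mul_one] at h4
    rwa [← h1]
  rw [algebraMap_int_eq, eq_intCast, ← zsmul_eq_mul]
  exact zsmul_mem h2 _

theorem lgcx_decompose (hx : ∀ s, x s ∈ 𝒞 1) (h : MvPolynomial σ ℤ) (k : ℕ) :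
    (DirectSum.decompose 𝒞 (aeval x h) k : C) = aeval x (homogeneousComponent k h) := by
  conv_lhs => rw [← sum_homogeneousComponent h, map_sum, DirectSum.decompose_sum]
  rw [DFinsupp.finsetSum_apply, AddSubmonoidClass.coe_finsetSum]
  have h1 : ∀ i, (DirectSum.decompose 𝒞 (aeval x (homogeneousComponent i h)) k : C) =
      if i = k then aeval x (homogeneousComponent i h) else 0 := by
    intro i
    have h2 := lgcx_mem_of_homogeneous 𝒞 x hx (homogeneousComponent_isHomogeneous i h)
    split_ifs with hik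
    · subst hik
      exact DirectSum.decompose_of_mem_same _ h2
    · exact DirectSum.decompose_of_mem_ne _ h2 hik
  simp only [h1]
  rw [Finset.sum_ite_eq']
  split_ifs with hk
  · rfl
  · rw [homogeneousComponent_eq_zero, map_zero]
    rw [Finset.mem_range] at hk
    omega

theorem lgcx_ker_comp (hx : ∀ s, x s ∈ 𝒞 1) {h : MvPolynomial σ ℤ} (hh : aeval x h = 0) (k : ℕ) :
    aeval x (homogeneousComponent k h) = 0 := by
  rw [← lgcx_decompose 𝒞 x hx, hh]
  simp

end Coord

/-- The kernel is homogeneous. -/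
theorem ker_aeval_isHomogeneous (𝒞 : ℕ → Submodule ℚ C) [GradedAlgebra 𝒞] {σ : Type} (x : σ → C)
    (hx : ∀ s, x s ∈ 𝒞 1) :
    (RingHom.ker (aeval x : MvPolynomial σ ℤ →ₐ[ℤ] C)).IsHomogeneous
      (homogeneousSubmodule σ ℤ) := by
  intro k f hf
  rw [RingHom.mem_ker] at hf ⊢
  have h1 : (DirectSum.decompose (homogeneousSubmodule σ ℤ) f k : MvPolynomial σ ℤ) =
      homogeneousComponent k f := MvPolynomial.decomposition.decompose'_apply f k
  rw [h1]
  exact lgcx_ker_comp 𝒞 x hx hf k

section Theta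

variable {σ : Type} (x : σ → C) (f : C)

/-- The coordinates of the chart. -/
noncomputable def lgcx_theta : MvPolynomial σ ℤ →ₐ[ℤ] FractionRing C :=
  aeval fun s => algebraMap C (FractionRing C) (x s) / algebraMap C (FractionRing C) f

theorem lgcx_theta_range : (lgcx_theta x f).range =
    chartSub (Submodule.span ℤ (Set.range x)) f := by
  rw [lgcx_theta, ← Algebra.adjoin_range_eq_range_aeval]
  apply le_antisymm
  · rw [Algebra.adjoin_le_iff]
    rintro _ ⟨s, rfl⟩
    exact lgcx_mem (Submodule.subset_span ⟨s, rfl⟩)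
  · rw [chartSub, Algebra.adjoin_le_iff]
    rintro _ ⟨y, hy, rfl⟩
    induction hy using Submodule.span_induction with
    | mem y hy =>
      obtain ⟨s, rfl⟩ := hy
      exact Algebra.subset_adjoin ⟨s, rfl⟩
    | zero =>
      rw [map_zero, zero_div]
      exact zero_mem _
    | add y z _ _ hy hz =>
      rw [map_add, add_div]
      exact add_mem hy hz
    | smul a y _ hy =>
      rw [zsmul_eq_mul, map_mul, map_intCast, mul_div_assoc]
      exact mul_mem (intCast_mem _ a) hy

theorem lgcx_theta_homogeneous (hf : f ≠ 0) {h : MvPolynomial σ ℤ} {d : ℕ}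
    (hh : h.IsHomogeneous d) :
    algebraMap C (FractionRing C) f ^ d * lgcx_theta x f h =
      algebraMap C (FractionRing C) (aeval x h) := by
  have h1 := scale_hom (lgcx_theta x f : MvPolynomial σ ℤ →+* FractionRing C)
    ((algebraMap C (FractionRing C)).comp (aeval x : MvPolynomial σ ℤ →ₐ[ℤ] C).toRingHom)
    (algebraMap C (FractionRing C) f) ?_ hh
  · exact h1
  · intro s
    have h0 := lgcx_map_ne hf
    simp only [RingHom.coe_coe, lgcx_theta, aeval_X, RingHom.comp_apply, AlgHom.toRingHom_eq_coe]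
    field_simp

end Theta

theorem lgcx_ker (𝒞 : ℕ → Submodule ℚ C) [GradedAlgebra 𝒞] {σ : Type} (x : σ → C)
    (hx : ∀ s, x s ∈ 𝒞 1) {F : MvPolynomial σ ℤ} (hF : F.IsHomogeneous 1)
    (hF0 : aeval x F ≠ 0) (h : MvPolynomial σ ℤ) :
    lgcx_theta x (aeval x F) h = 0 ↔
      Ideal.Quotient.mk (RingHom.ker (aeval x : MvPolynomial σ ℤ →ₐ[ℤ] C)) h ∈
        Ideal.span {Ideal.Quotient.mk (RingHom.ker (aeval x : MvPolynomial σ ℤ →ₐ[ℤ] C)) F - 1} := by
  have h0 := lgcx_map_ne hF0
  have hker : ∀ g : MvPolynomial σ ℤ, aeval x g = 0 → lgcx_theta x (aeval x F) g = 0 := by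
    intro g hg
    rw [← sum_homogeneousComponent g, map_sum]
    refine Finset.sum_eq_zero fun k _ => ?_
    have h1 := lgcx_theta_homogeneous x (aeval x F) hF0 (homogeneousComponent_isHomogeneous k g)
    rw [lgcx_ker_comp 𝒞 x hx hg k, map_zero] at h1
    exact (mul_eq_zero.1 h1).resolve_left (pow_ne_zero _ h0)
  have hFone : lgcx_theta x (aeval x F) F = 1 := by
    have h1 := lgcx_theta_homogeneous x (aeval x F) hF0 hF
    rw [pow_one] at h1
    exact mul_left_cancel₀ h0 (by rw [h1, mul_one])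
  constructor
  · intro hh
    set D := h.totalDegree with hD
    let h' : MvPolynomial σ ℤ := ∑ d ∈ Finset.range (D + 1), homogeneousComponent d h * F ^ (D - d)
    have hhom : h'.IsHomogeneous D := by
      apply IsHomogeneous.sum
      intro d hd
      have h2 := (homogeneousComponent_isHomogeneous d h).mul (hF.pow (D - d))
      have h3 : d + 1 * (D - d) = D := by
        rw [Finset.mem_range] at hd
        omega
      rwa [h3] at h2
    have h1 : aeval x h' = 0 := by
      have h2 := lgcx_theta_homogeneous x (aeval x F) hF0 hhom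
      have h3 : lgcx_theta x (aeval x F) h' = 0 := by
        simp only [h', map_sum, map_mul, map_pow, hFone, one_pow, mul_one]
        rw [← map_sum, hD, sum_homogeneousComponent, hh]
      rw [h3, mul_zero] at h2
      exact (IsFractionRing.to_map_eq_zero_iff).1 h2.symm
    have h2 : Ideal.Quotient.mk (RingHom.ker (aeval x : MvPolynomial σ ℤ →ₐ[ℤ] C)) h' = 0 := by
      rw [Ideal.Quotient.eq_zero_iff_mem, RingHom.mem_ker]
      exact h1
    rw [Ideal.mem_span_singleton]
    have h3 : (F - 1 : MvPolynomial σ ℤ) ∣ h' - h := by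
      have h4 : h' - h = ∑ d ∈ Finset.range (D + 1),
          homogeneousComponent d h * (F ^ (D - d) - 1) := by
        conv_lhs => rw [← sum_homogeneousComponent h]
        rw [← Finset.sum_sub_distrib]
        exact Finset.sum_congr rfl fun d _ => by ring
      rw [h4]
      refine Finset.dvd_sum fun d _ => Dvd.dvd.mul_left ?_ _
      exact sub_one_dvd_pow_sub_one F (D - d)
    obtain ⟨g, hg⟩ := h3
    refine ⟨- Ideal.Quotient.mk _ g, ?_⟩
    have h5 := congrArg (Ideal.Quotient.mk (RingHom.ker (aeval x : MvPolynomial σ ℤ →ₐ[ℤ] C))) hg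
    rw [map_sub, h2, map_mul, map_sub, map_one] at h5
    rw [mul_neg, ← h5]
    ring
  · intro hh
    rw [Ideal.mem_span_singleton] at hh
    obtain ⟨g, hg⟩ := hh
    obtain ⟨g, rfl⟩ := Ideal.Quotient.mk_surjective g
    rw [← map_one (Ideal.Quotient.mk (RingHom.ker (aeval x : MvPolynomial σ ℤ →ₐ[ℤ] C))),
      ← map_sub, ← map_mul, Ideal.Quotient.eq, RingHom.mem_ker] at hg
    have h1 := hker _ hg
    rw [map_sub, map_mul, map_sub, hFone, map_one, sub_self, zero_mul, sub_zero] at h1
    exact h1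

/-- The chart ring in coordinates. -/
theorem chartSub_equiv (𝒞 : ℕ → Submodule ℚ C) [GradedAlgebra 𝒞] {σ : Type} (x : σ → C)
    (hx : ∀ s, x s ∈ 𝒞 1) {F : MvPolynomial σ ℤ} (hF : F.IsHomogeneous 1)
    (hF0 : aeval x F ≠ 0) :
    Nonempty (((MvPolynomial σ ℤ ⧸ RingHom.ker (aeval x : MvPolynomial σ ℤ →ₐ[ℤ] C)) ⧸
      Ideal.span {Ideal.Quotient.mk _ F - 1}) ≃+*
        chartSub (Submodule.span ℤ (Set.range x)) (aeval x F)) := by
  rw [← lgcx_theta_range x (aeval x F)]
  set I := RingHom.ker (aeval x : MvPolynomial σ ℤ →ₐ[ℤ] C) with hI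
  let π : MvPolynomial σ ℤ →+* ((MvPolynomial σ ℤ ⧸ I) ⧸ Ideal.span {Ideal.Quotient.mk I F - 1}) :=
    (Ideal.Quotient.mk (Ideal.span {Ideal.Quotient.mk I F - 1})).comp (Ideal.Quotient.mk I)
  have hπ : Function.Surjective π :=
    Ideal.Quotient.mk_surjective.comp Ideal.Quotient.mk_surjective
  have hπ0 : RingHom.ker π = RingHom.ker (lgcx_theta x (aeval x F)).toRingHom := by
    ext h
    rw [RingHom.mem_ker, RingHom.mem_ker]
    change Ideal.Quotient.mk _ (Ideal.Quotient.mk I h) = 0 ↔ lgcx_theta x (aeval x F) h = 0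
    rw [Ideal.Quotient.eq_zero_iff_mem, lgcx_ker 𝒞 x hx hF hF0 h]
  let e1 : (MvPolynomial σ ℤ ⧸ RingHom.ker π) ≃+*
      ((MvPolynomial σ ℤ ⧸ I) ⧸ Ideal.span {Ideal.Quotient.mk I F - 1}) :=
    RingHom.quotientKerEquivOfSurjective hπ
  let e2 : (MvPolynomial σ ℤ ⧸ RingHom.ker π) ≃+*
      (MvPolynomial σ ℤ ⧸ RingHom.ker (lgcx_theta x (aeval x F)).toRingHom) :=
    Ideal.quotEquivOfEq hπ0
  let e3 : (MvPolynomial σ ℤ ⧸ RingHom.ker (lgcx_theta x (aeval x F)).toRingHom) ≃+*
      (lgcx_theta x (aeval x F)).toRingHom.range :=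
    RingHom.quotientKerEquivRange _
  exact ⟨(e1.symm.trans e2).trans e3⟩

end LG

end Pool.MP_602153_ag
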