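import Mathlib
import Pool.Agent.HermVar.LGChart

set_option autoImplicit false

/-!
# Local-global principle: gluing of lattices
-/

namespace Pool.MP_602153_ag

namespace LG

open MvPolynomial

variable {C : Type} [CommRing C] [IsDomain C] [Algebra ℚ C]

section Aux

omit [IsDomain C] [Algebra ℚ C] in
theorem LGGlue.mul_mem_span {Λ : Submodule ℤ C} {s : Set C} {z w : C}
    (hz : z ∈ Algebra.adjoin ℤ (Λ : Set C))
    (hw : w ∈ Submodule.span (Algebra.adjoin ℤ (Λ : Set C)) s) :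
    z * w ∈ Submodule.span (Algebra.adjoin ℤ (Λ : Set C)) s := by
  have := Submodule.smul_mem (Submodule.span (Algebra.adjoin ℤ (Λ : Set C)) s)
    (⟨z, hz⟩ : Algebra.adjoin ℤ (Λ : Set C)) hw
  exact this

omit [IsDomain C] [Algebra ℚ C] in
theorem LGGlue.int_mem {Λ : Submodule ℤ C} (n : ℤ) : (n : C) ∈ Algebra.adjoin ℤ (Λ : Set C) := by
  exact (Algebra.adjoin ℤ (Λ : Set C)).intCast_mem n

omit [IsDomain C] [Algebra ℚ C] in
theorem LGGlue.lat_mem {Λ : Submodule ℤ C} {y : C} (hy : y ∈ Λ) :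
    y ∈ Algebra.adjoin ℤ (Λ : Set C) := Algebra.subset_adjoin hy

omit [IsDomain C] [Algebra ℚ C] in
theorem LGGlue.int_mul_mem {Λ : Submodule ℤ C} {y : C} (n : ℤ) (hy : y ∈ Λ) : (n : C) * y ∈ Λ := by
  have := Λ.smul_mem n hy
  rwa [zsmul_eq_mul] at this

omit [IsDomain C] [Algebra ℚ C] in
/-- raising the exponent -/
theorem LGGlue.pow_mem_of_le {Λ : Submodule ℤ C} {s : Set C} {y : C} (hy : y ∈ Λ) {n : ℤ}
    {k K : ℕ} (hk : k ≤ K)
    (h : ((n : C) * y) ^ k ∈ Submodule.span (Algebra.adjoin ℤ (Λ : Set C)) s) :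
    ((n : C) * y) ^ K ∈ Submodule.span (Algebra.adjoin ℤ (Λ : Set C)) s := by
  obtain ⟨j, rfl⟩ := Nat.exists_eq_add_of_le hk
  rw [pow_add, mul_comm]
  exact LGGlue.mul_mem_span (pow_mem (mul_mem (LGGlue.int_mem n) (LGGlue.lat_mem hy)) j) h

omit [IsDomain C] [Algebra ℚ C] in
theorem LGGlue.adjoin_scale {Λ Λ' : Submodule ℤ C} {b : ℤ} (h1 : ∀ y ∈ Λ, (b : C) * y ∈ Λ')
    {z : C} (hz : z ∈ Algebra.adjoin ℤ (Λ : Set C)) :
    ∃ j : ℕ, (b : C) ^ j * z ∈ Algebra.adjoin ℤ (Λ' : Set C) := by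
  induction hz using Algebra.adjoin_induction with
  | mem x hx => exact ⟨1, by rw [pow_one]; exact LGGlue.lat_mem (h1 x hx)⟩
  | algebraMap r => exact ⟨0, by
      rw [pow_zero, one_mul]
      exact (Algebra.adjoin ℤ (Λ' : Set C)).algebraMap_mem r⟩
  | add x y _ _ hx hy =>
    obtain ⟨j, hj⟩ := hx
    obtain ⟨k, hk⟩ := hy
    refine ⟨j + k, ?_⟩
    have : (b : C) ^ (j + k) * (x + y) = (b : C) ^ k * ((b : C) ^ j * x) +
        (b : C) ^ j * ((b : C) ^ k * y) := by ring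
    rw [this]
    exact add_mem (mul_mem (pow_mem (LGGlue.int_mem b) k) hj)
      (mul_mem (pow_mem (LGGlue.int_mem b) j) hk)
  | mul x y _ _ hx hy =>
    obtain ⟨j, hj⟩ := hx
    obtain ⟨k, hk⟩ := hy
    refine ⟨j + k, ?_⟩
    have : (b : C) ^ (j + k) * (x * y) = ((b : C) ^ j * x) * ((b : C) ^ k * y) := by ring
    rw [this]
    exact mul_mem hj hk

omit [IsDomain C] [Algebra ℚ C] in
theorem LGGlue.span_scale {Λ Λ' : Submodule ℤ C} {b : ℤ} (h1 : ∀ y ∈ Λ, (b : C) * y ∈ Λ')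
    {κ : Type} (f : κ → C) {w : C}
    (hw : w ∈ Submodule.span (Algebra.adjoin ℤ (Λ : Set C)) (Set.range f)) :
    ∃ j : ℕ, (b : C) ^ j * w ∈ Submodule.span (Algebra.adjoin ℤ (Λ' : Set C))
      (Set.range fun i => (b : C) ^ 2 * f i) := by
  induction hw using Submodule.span_induction with
  | mem x hx =>
    obtain ⟨i, rfl⟩ := hx
    exact ⟨2, Submodule.subset_span ⟨i, rfl⟩⟩
  | zero => exact ⟨0, by simp⟩
  | add x y _ _ hx hy =>
    obtain ⟨j, hj⟩ := hx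
    obtain ⟨k, hk⟩ := hy
    refine ⟨j + k, ?_⟩
    have : (b : C) ^ (j + k) * (x + y) = (b : C) ^ k * ((b : C) ^ j * x) +
        (b : C) ^ j * ((b : C) ^ k * y) := by ring
    rw [this]
    exact add_mem (LGGlue.mul_mem_span (pow_mem (LGGlue.int_mem b) k) hj)
      (LGGlue.mul_mem_span (pow_mem (LGGlue.int_mem b) j) hk)
  | smul a x _ hx =>
    obtain ⟨j, hj⟩ := LGGlue.adjoin_scale h1 a.2
    obtain ⟨k, hk⟩ := hx
    refine ⟨j + k, ?_⟩
    have : (b : C) ^ (j + k) * (a • x) = ((b : C) ^ j * (a : C)) * ((b : C) ^ k * x) := by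
      rw [Subalgebra.smul_def, smul_eq_mul]
      ring
    rw [this]
    exact LGGlue.mul_mem_span hj hk

omit [Algebra ℚ C] in
theorem LGGlue.chartSub_eq {Λ Λ' : Submodule ℤ C} {b : ℤ} (hb : (b : C) ≠ 0)
    (h1 : ∀ y ∈ Λ, (b : C) * y ∈ Λ') (h2 : ∀ y ∈ Λ', (b : C) * y ∈ Λ) {f : C} (hf : f ∈ Λ)
    (hf0 : f ≠ 0) : chartSub Λ' ((b : C) ^ 2 * f) = chartSub Λ ((b : C) * f) := by
  set φ := algebraMap C (FractionRing C) with hφ
  have hinj : Function.Injective φ := IsFractionRing.injective C (FractionRing C)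
  have hbφ : φ (b : C) ≠ 0 := by
    rw [Ne, map_eq_zero_iff _ hinj]
    exact hb
  have hfφ : φ f ≠ 0 := by
    rw [Ne, map_eq_zero_iff _ hinj]
    exact hf0
  apply le_antisymm
  · unfold chartSub
    rw [Algebra.adjoin_le_iff]
    rintro z ⟨y, hy, rfl⟩
    have e1 : φ y / φ ((b : C) ^ 2 * f) = (φ ((b : C) * y) / φ ((b : C) * f)) *
        ((φ f / φ ((b : C) * f)) * (φ f / φ ((b : C) * f))) := by
      simp only [map_mul, map_pow]
      field_simp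
    have m1 : φ ((b : C) * y) / φ ((b : C) * f) ∈ chartSub Λ ((b : C) * f) :=
      Algebra.subset_adjoin ⟨_, h2 y hy, rfl⟩
    have m2 : φ f / φ ((b : C) * f) ∈ chartSub Λ ((b : C) * f) :=
      Algebra.subset_adjoin ⟨_, hf, rfl⟩
    change φ y / φ ((b : C) ^ 2 * f) ∈ chartSub Λ ((b : C) * f)
    rw [e1]
    exact mul_mem m1 (mul_mem m2 m2)
  · unfold chartSub
    rw [Algebra.adjoin_le_iff]
    rintro z ⟨y, hy, rfl⟩
    have e1 : φ y / φ ((b : C) * f) = φ ((b : C) * y) / φ ((b : C) ^ 2 * f) := by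
      simp only [map_mul, map_pow]
      field_simp
    change φ y / φ ((b : C) * f) ∈ chartSub Λ' ((b : C) ^ 2 * f)
    rw [e1]
    exact Algebra.subset_adjoin ⟨_, h1 y hy, rfl⟩

end Aux

/-- `Good` only depends on the localisation of the lattice. -/
theorem Good.transfer {Λ Λ' : Submodule ℤ C} {n b : ℤ} (hb : b ≠ 0)
    (h1 : ∀ y ∈ Λ, (b : C) * y ∈ Λ') (h2 : ∀ y ∈ Λ', (b : C) * y ∈ Λ) (hΛ : Good Λ n) :
    Good Λ' (n * b) := by
  have hchar : CharZero C := algebraRat.charZero C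
  have hbC : (b : C) ≠ 0 := by exact_mod_cast hb
  obtain ⟨κ, f, hf, hcov⟩ := hΛ
  refine ⟨κ, fun i => (b : C) ^ 2 * f i, ?_, ?_⟩
  · intro i
    obtain ⟨hfi, hfi0, hreg⟩ := hf i
    refine ⟨?_, mul_ne_zero (pow_ne_zero 2 hbC) hfi0, ?_⟩
    · have : (b : C) ^ 2 * f i = (b : C) * ((b : C) * f i) := by ring
      change (b : C) ^ 2 * f i ∈ Λ'
      rw [this]
      exact LGGlue.int_mul_mem b (h1 _ hfi)
    · rw [LGGlue.chartSub_eq hbC h1 h2 hfi hfi0]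
      exact isRegularRing_chartSub_mul hfi hfi0 inferInstance hb
        (fun Q _ _ => IsRegularRing.isRegularLocalRing_localization Q)
  · intro y hy
    obtain ⟨k, hk⟩ := hcov _ (h2 y hy)
    obtain ⟨j, hj⟩ := LGGlue.span_scale h1 f hk
    refine ⟨k + j, ?_⟩
    have : (((n * b : ℤ) : C) * y) ^ (k + j) =
        (((n : ℤ) : C) * y) ^ j * ((b : C) ^ j * ((n : C) * ((b : C) * y)) ^ k) := by
      push_cast
      ring
    rw [this]
    exact LGGlue.mul_mem_span (pow_mem (mul_mem (LGGlue.int_mem n) (LGGlue.lat_mem hy)) j) hj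

section Aux2

omit [IsDomain C] in
theorem LGGlue.exists_den {Λ : Submodule ℤ C} {v : C}
    (hv : v ∈ Submodule.span ℚ (Λ : Set C)) : ∃ c : ℤ, c ≠ 0 ∧ (c : C) * v ∈ Λ := by
  induction hv using Submodule.span_induction with
  | mem x hx => exact ⟨1, one_ne_zero, by simpa using hx⟩
  | zero => exact ⟨1, one_ne_zero, by simp⟩
  | add x y _ _ hx hy =>
    obtain ⟨c, hc, hcx⟩ := hx
    obtain ⟨d, hd, hdy⟩ := hy
    refine ⟨c * d, mul_ne_zero hc hd, ?_⟩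
    have : ((c * d : ℤ) : C) * (x + y) = (d : C) * ((c : C) * x) + (c : C) * ((d : C) * y) := by
      push_cast
      ring
    rw [this]
    exact add_mem (LGGlue.int_mul_mem d hcx) (LGGlue.int_mul_mem c hdy)
  | smul a x _ hx =>
    obtain ⟨c, hc, hcx⟩ := hx
    refine ⟨c * a.den, mul_ne_zero hc (by exact_mod_cast a.den_nz), ?_⟩
    have h3 : ((a.den : ℤ) : C) * (a • x) = (a.num : C) * x := by
      rw [Algebra.smul_def, ← mul_assoc]
      congr 1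
      have h4 : ((a.den : ℤ) : C) = algebraMap ℚ C (a.den : ℚ) := by simp
      have h5 : (a.num : C) = algebraMap ℚ C (a.num : ℚ) := by simp
      rw [h4, h5, ← map_mul]
      congr 1
      rw [mul_comm]
      exact Rat.mul_den_eq_num a
    have : ((c * a.den : ℤ) : C) * (a • x) = (a.num : C) * ((c : C) * x) := by
      push_cast at h3 ⊢
      rw [mul_assoc, h3]
      ring
    rw [this]
    exact LGGlue.int_mul_mem _ hcx

omit [IsDomain C] in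
theorem LGGlue.exists_den_lat {Λ₁ Λ₂ : Submodule ℤ C} (h1 : Λ₁.FG)
    (h : ∀ y ∈ Λ₁, y ∈ Submodule.span ℚ (Λ₂ : Set C)) :
    ∃ c : ℤ, c ≠ 0 ∧ ∀ y ∈ Λ₁, (c : C) * y ∈ Λ₂ := by
  obtain ⟨S, hS⟩ := h1
  have hS' : ∀ y ∈ S, y ∈ Submodule.span ℚ (Λ₂ : Set C) := fun y hy => h y (by
    rw [← hS]; exact Submodule.subset_span hy)
  have key : ∀ T : Finset C, (∀ y ∈ T, y ∈ Submodule.span ℚ (Λ₂ : Set C)) →
      ∃ c : ℤ, c ≠ 0 ∧ ∀ y ∈ T, (c : C) * y ∈ Λ₂ := by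
    classical
    intro T
    induction T using Finset.induction_on with
    | empty => exact fun _ => ⟨1, one_ne_zero, by simp⟩
    | insert x T hx ih =>
      intro hT
      obtain ⟨c, hc, hcT⟩ := ih fun y hy => hT y (Finset.mem_insert_of_mem hy)
      obtain ⟨d, hd, hdx⟩ := LGGlue.exists_den (hT x (Finset.mem_insert_self _ _))
      refine ⟨c * d, mul_ne_zero hc hd, ?_⟩
      intro y hy
      rw [Finset.mem_insert] at hy
      rcases hy with rfl | hy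
      · have : ((c * d : ℤ) : C) * y = (c : C) * ((d : C) * y) := by push_cast; ring
        rw [this]
        exact LGGlue.int_mul_mem c hdx
      · have : ((c * d : ℤ) : C) * y = (d : C) * ((c : C) * y) := by push_cast; ring
        rw [this]
        exact LGGlue.int_mul_mem d (hcT y hy)
  obtain ⟨c, hc, hcS⟩ := key S hS'
  refine ⟨c, hc, ?_⟩
  intro y hy
  rw [← hS] at hy
  induction hy using Submodule.span_induction with
  | mem x hx => exact hcS x hx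
  | zero => simp
  | add x y _ _ hx hy => rw [mul_add]; exact add_mem hx hy
  | smul a x _ hx =>
    have : (c : C) * (a • x) = a • ((c : C) * x) := by
      rw [zsmul_eq_mul, zsmul_eq_mul]
      ring
    rw [this]
    exact Λ₂.smul_mem a hx

theorem LGGlue.exists_split {a : ℤ} (c : ℤ) (hc : c ≠ 0) :
    ∃ c₁ c₂ d : ℤ, ∃ k : ℕ, c = c₁ * c₂ ∧ a ^ k = c₁ * d ∧ IsCoprime a c₂ := by
  induction hN : c.natAbs using Nat.strong_induction_on generalizing c with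
  | _ N ih =>
    by_cases hcop : IsCoprime a c
    · exact ⟨1, c, 1, 0, by ring, by ring, hcop⟩
    · set g : ℤ := ((Int.gcd a c : ℕ) : ℤ) with hg
      have hgne : Int.gcd a c ≠ 1 := fun h => hcop (Int.isCoprime_iff_gcd_eq_one.2 h)
      have hg0 : Int.gcd a c ≠ 0 := fun h => hc (Int.gcd_eq_zero_iff.1 h).2
      obtain ⟨c', hc'⟩ : g ∣ c := by rw [hg]; exact Int.gcd_dvd_right ..
      obtain ⟨a', ha'⟩ : g ∣ a := by rw [hg]; exact Int.gcd_dvd_left ..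
      have hc'0 : c' ≠ 0 := by
        rintro rfl
        rw [mul_zero] at hc'
        exact hc hc'
      have hlt : c'.natAbs < N := by
        rw [← hN, hc', Int.natAbs_mul]
        have h1 : g.natAbs = Int.gcd a c := by rw [hg]; simp
        rw [h1]
        have h2 : 1 < Int.gcd a c := by omega
        have h3 : 0 < c'.natAbs := Int.natAbs_pos.2 hc'0
        nlinarith
      obtain ⟨c₁, c₂, d, k, e1, e2, e3⟩ := ih _ hlt c' hc'0 rfl
      refine ⟨g * c₁, c₂, a' * d, k + 1, ?_, ?_, e3⟩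
      · rw [hc', e1]; ring
      · rw [pow_succ, e2]
        nth_rewrite 1 [ha']
        ring

end Aux2

/-- Two lattices can be glued. -/
theorem exists_glue {C₁ : Submodule ℚ C} {Λ₁ Λ₂ : Submodule ℤ C} (h1 : IsLat C₁ Λ₁)
    (h2 : IsLat C₁ Λ₂) {a : ℤ} (ha : a ≠ 0) :
    ∃ Λ, IsLat C₁ Λ ∧
      (∃ n : ℕ, (∀ y ∈ Λ, (a : C) ^ n * y ∈ Λ₁) ∧ (∀ y ∈ Λ₁, (a : C) ^ n * y ∈ Λ)) ∧
      (∃ b : ℤ, b ≠ 0 ∧ IsCoprime a b ∧ (∀ y ∈ Λ, (b : C) * y ∈ Λ₂) ∧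
        (∀ y ∈ Λ₂, (b : C) * y ∈ Λ)) := by
  have hchar : CharZero C := algebraRat.charZero C
  have haC : (a : C) ≠ 0 := by exact_mod_cast ha
  have hsub1 : ∀ y ∈ Λ₁, y ∈ C₁ := fun y hy => by
    rw [← h1.span]; exact Submodule.subset_span hy
  have hsub2 : ∀ y ∈ Λ₂, y ∈ C₁ := fun y hy => by
    rw [← h2.span]; exact Submodule.subset_span hy
  obtain ⟨c, hc, hc1⟩ := LGGlue.exists_den_lat (Λ₂ := Λ₂) h1.fg (fun y hy => by
    rw [h2.span]; exact hsub1 y hy)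
  obtain ⟨c', hc', hc2⟩ := LGGlue.exists_den_lat (Λ₂ := Λ₁) h2.fg (fun y hy => by
    rw [h1.span]; exact hsub2 y hy)
  obtain ⟨c₁, c₂, d, k, e1, e2, e3⟩ := LGGlue.exists_split (a := a) (c * c') (mul_ne_zero hc hc')
  have hc₂ : c₂ ≠ 0 := by
    rintro rfl
    rw [mul_zero] at e1
    exact mul_ne_zero hc hc' e1
  have hc₁ : c₁ ≠ 0 := by
    rintro rfl
    rw [zero_mul] at e1
    exact mul_ne_zero hc hc' e1
  have hcc1 : ∀ y ∈ Λ₁, ((c₁ : C) * (c₂ : C)) * y ∈ Λ₂ := by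
    intro y hy
    have : ((c₁ : C) * (c₂ : C)) * y = (c' : C) * ((c : C) * y) := by
      have : ((c₁ : C) * (c₂ : C)) = (c : C) * (c' : C) := by exact_mod_cast e1.symm
      rw [this]
      ring
    rw [this]
    exact LGGlue.int_mul_mem c' (hc1 y hy)
  have hcc2 : ∀ y ∈ Λ₂, ((c₁ : C) * (c₂ : C)) * y ∈ Λ₁ := by
    intro y hy
    have : ((c₁ : C) * (c₂ : C)) * y = (c : C) * ((c' : C) * y) := by
      have : ((c₁ : C) * (c₂ : C)) = (c : C) * (c' : C) := by exact_mod_cast e1.symm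
      rw [this]
      ring
    rw [this]
    exact LGGlue.int_mul_mem c (hc2 y hy)
  have hak : (a : C) ^ k = (c₁ : C) * (d : C) := by exact_mod_cast e2
  let m : ℤ → C →ₗ[ℤ] C := fun n => LinearMap.lsmul ℤ C n
  have hm : ∀ (n : ℤ) (y : C), m n y = (n : C) * y := fun n y => by
    simp [m, zsmul_eq_mul]
  let Λ : Submodule ℤ C := Λ₁.map (m c₁) ⊔ Λ₂.map (m c₂)
  have hΛ : ∀ y, y ∈ Λ ↔ ∃ u ∈ Λ₁, ∃ v ∈ Λ₂, (c₁ : C) * u + (c₂ : C) * v = y := by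
    intro y
    simp only [Λ, Submodule.mem_sup, Submodule.mem_map, hm]
    constructor
    · rintro ⟨_, ⟨u, hu, rfl⟩, _, ⟨v, hv, rfl⟩, rfl⟩
      exact ⟨u, hu, v, hv, rfl⟩
    · rintro ⟨u, hu, v, hv, rfl⟩
      exact ⟨_, ⟨u, hu, rfl⟩, _, ⟨v, hv, rfl⟩, rfl⟩
  have hn1 : ∀ y ∈ Λ, (a : C) ^ k * y ∈ Λ₁ := by
    intro y hy
    obtain ⟨u, hu, v, hv, rfl⟩ := (hΛ y).1 hy
    have : (a : C) ^ k * ((c₁ : C) * u + (c₂ : C) * v) =
        ((c₁ * d * c₁ : ℤ) : C) * u + (d : C) * (((c₁ : C) * (c₂ : C)) * v) := by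
      rw [hak]
      push_cast
      ring
    rw [this]
    exact add_mem (LGGlue.int_mul_mem _ hu) (LGGlue.int_mul_mem _ (hcc2 v hv))
  have hn2 : ∀ y ∈ Λ₁, (a : C) ^ k * y ∈ Λ := by
    intro y hy
    rw [hΛ]
    refine ⟨(d : C) * y, LGGlue.int_mul_mem _ hy, 0, zero_mem _, ?_⟩
    rw [hak]
    ring
  refine ⟨Λ, ⟨?_, ?_⟩, ⟨k, hn1, hn2⟩, ⟨c₂, hc₂, e3, ?_, ?_⟩⟩
  · exact (h1.fg.map _).sup (h2.fg.map _)
  · apply le_antisymm
    · rw [Submodule.span_le]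
      intro y hy
      obtain ⟨u, hu, v, hv, rfl⟩ := (hΛ y).1 hy
      have e4 : (c₁ : C) * u + (c₂ : C) * v = (c₁ : ℚ) • u + (c₂ : ℚ) • v := by
        simp [Algebra.smul_def]
      rw [SetLike.mem_coe, e4]
      exact add_mem (C₁.smul_mem _ (hsub1 u hu)) (C₁.smul_mem _ (hsub2 v hv))
    · rw [← h1.span, Submodule.span_le]
      intro y hy
      have h3 : (a : C) ^ k * y ∈ Submodule.span ℚ (Λ : Set C) :=
        Submodule.subset_span (hn2 y hy)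
      have h4 : y = (((a : ℚ) ^ k)⁻¹ : ℚ) • ((a : C) ^ k * y) := by
        have h5 : (a : C) ^ k * y = ((a : ℚ) ^ k) • y := by simp [Algebra.smul_def]
        have ha' : (a : ℚ) ^ k ≠ 0 := pow_ne_zero k (by exact_mod_cast ha)
        rw [h5, smul_smul, inv_mul_cancel₀ ha', one_smul]
      rw [SetLike.mem_coe, h4]
      exact Submodule.smul_mem _ _ h3
  · intro y hy
    obtain ⟨u, hu, v, hv, rfl⟩ := (hΛ y).1 hy
    have : (c₂ : C) * ((c₁ : C) * u + (c₂ : C) * v) =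
        ((c₁ : C) * (c₂ : C)) * u + ((c₂ * c₂ : ℤ) : C) * v := by
      push_cast
      ring
    rw [this]
    exact add_mem (hcc1 u hu) (LGGlue.int_mul_mem _ hv)
  · intro y hy
    rw [hΛ]
    exact ⟨0, zero_mem _, y, hy, by ring⟩

section Aux3

omit [Algebra ℚ C] in
theorem LGGlue.good_of_dvd {Λ : Submodule ℤ C} {n n' : ℤ} (h : n ∣ n') (hΛ : Good Λ n) :
    Good Λ n' := by
  obtain ⟨κ, f, hf, hcov⟩ := hΛ
  obtain ⟨d, rfl⟩ := h
  refine ⟨κ, f, hf, fun y hy => ?_⟩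
  obtain ⟨k, hk⟩ := hcov y hy
  refine ⟨k, ?_⟩
  have : (((n * d : ℤ) : C) * y) ^ k = (d : C) ^ k * ((n : C) * y) ^ k := by
    push_cast
    ring
  rw [this]
  exact LGGlue.mul_mem_span (pow_mem (LGGlue.int_mem d) k) hk

omit [Algebra ℚ C] in
theorem LGGlue.good_of_pow {Λ : Submodule ℤ C} {n : ℤ} {j : ℕ} (hΛ : Good Λ (n ^ (j + 1))) :
    Good Λ n := by
  obtain ⟨κ, f, hf, hcov⟩ := hΛ
  refine ⟨κ, f, hf, fun y hy => ?_⟩
  obtain ⟨k, hk⟩ := hcov y hy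
  refine ⟨(j + 1) * k, ?_⟩
  have : ((n : C) * y) ^ ((j + 1) * k) = y ^ (j * k) * (((n ^ (j + 1) : ℤ) : C) * y) ^ k := by
    push_cast
    rw [mul_pow, mul_pow, ← pow_mul]
    ring
  rw [this]
  exact LGGlue.mul_mem_span (pow_mem (LGGlue.lat_mem hy) _) hk

omit [Algebra ℚ C] in
theorem LGGlue.good_comb {Λ : Submodule ℤ C} {g n₁ n₂ : ℤ} (hcop : IsCoprime n₁ n₂)
    (hΛ₁ : Good Λ (g * n₁)) (hΛ₂ : Good Λ (g * n₂)) : Good Λ g := by
  obtain ⟨κ₁, f₁, hf₁, hcov₁⟩ := hΛ₁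
  obtain ⟨κ₂, f₂, hf₂, hcov₂⟩ := hΛ₂
  refine ⟨κ₁ ⊕ κ₂, Sum.elim f₁ f₂, ?_, fun y hy => ?_⟩
  · rintro (i | i)
    · exact hf₁ i
    · exact hf₂ i
  · obtain ⟨k₁, hk₁⟩ := hcov₁ y hy
    obtain ⟨k₂, hk₂⟩ := hcov₂ y hy
    have h1 := LGGlue.pow_mem_of_le hy (le_max_left k₁ k₂) hk₁
    have h2 := LGGlue.pow_mem_of_le hy (le_max_right k₁ k₂) hk₂
    set K := max k₁ k₂
    have hr1 : Set.range f₁ ⊆ Set.range (Sum.elim f₁ f₂) := by
      rintro _ ⟨i, rfl⟩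
      exact ⟨Sum.inl i, rfl⟩
    have hr2 : Set.range f₂ ⊆ Set.range (Sum.elim f₁ f₂) := by
      rintro _ ⟨i, rfl⟩
      exact ⟨Sum.inr i, rfl⟩
    have h1' := Submodule.span_mono hr1 h1
    have h2' := Submodule.span_mono hr2 h2
    obtain ⟨u, w, huw⟩ := hcop.pow (m := K) (n := K)
    refine ⟨K, ?_⟩
    have huw' : (u : C) * (n₁ : C) ^ K + (w : C) * (n₂ : C) ^ K = 1 := by
      have := congrArg (Int.cast : ℤ → C) huw
      push_cast at this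
      exact this
    have : ((g : C) * y) ^ K = (u : C) * (((g * n₁ : ℤ) : C) * y) ^ K +
        (w : C) * (((g * n₂ : ℤ) : C) * y) ^ K := by
      push_cast
      calc ((g : C) * y) ^ K = 1 * ((g : C) * y) ^ K := by ring
        _ = ((u : C) * (n₁ : C) ^ K + (w : C) * (n₂ : C) ^ K) * ((g : C) * y) ^ K := by rw [huw']
        _ = _ := by ring
    rw [this]
    exact add_mem (LGGlue.mul_mem_span (LGGlue.int_mem u) h1')
      (LGGlue.mul_mem_span (LGGlue.int_mem w) h2')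

omit [Algebra ℚ C] in
theorem LGGlue.good_gcd {Λ : Submodule ℤ C} {n₁ n₂ : ℤ} (h0 : n₁ ≠ 0) (hΛ₁ : Good Λ n₁)
    (hΛ₂ : Good Λ n₂) : Good Λ (gcd n₁ n₂) := by
  have hg : gcd n₁ n₂ ≠ 0 := fun h => h0 ((gcd_eq_zero_iff _ _).1 h).1
  obtain ⟨m₁, hm₁⟩ := gcd_dvd_left n₁ n₂
  obtain ⟨m₂, hm₂⟩ := gcd_dvd_right n₁ n₂
  have hcop : IsCoprime m₁ m₂ := by
    obtain ⟨u, w, huw⟩ := exists_gcd_eq_mul_add_mul n₁ n₂
    refine ⟨u, w, ?_⟩
    apply mul_left_cancel₀ hg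
    calc gcd n₁ n₂ * (u * m₁ + w * m₂) = (gcd n₁ n₂ * m₁) * u + (gcd n₁ n₂ * m₂) * w := by ring
      _ = n₁ * u + n₂ * w := by rw [← hm₁, ← hm₂]
      _ = gcd n₁ n₂ := huw.symm
      _ = gcd n₁ n₂ * 1 := by ring
  apply LGGlue.good_comb hcop
  · rw [← hm₁]; exact hΛ₁
  · rw [← hm₂]; exact hΛ₂

end Aux3

/-- Local-global principle for lattices. -/
theorem exists_good {C₁ : Submodule ℚ C} (h : ∀ p : ℕ, p.Prime → ∃ (Λ : Submodule ℤ C) (a : ℤ),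
    IsLat C₁ Λ ∧ ¬ (p : ℤ) ∣ a ∧ Good Λ a) : ∃ Λ : Submodule ℤ C, IsLat C₁ Λ ∧ Good Λ 1 := by
  classical
  have hex : ∃ n : ℕ, n ≠ 0 ∧ ∃ Λ : Submodule ℤ C, IsLat C₁ Λ ∧ Good Λ (n : ℤ) := by
    obtain ⟨Λ, a, h1, h2, h3⟩ := h 2 Nat.prime_two
    refine ⟨a.natAbs, ?_, Λ, h1, LGGlue.good_of_dvd (Int.dvd_natAbs.2 dvd_rfl) h3⟩
    intro h4
    rw [Int.natAbs_eq_zero] at h4
    rw [h4] at h2
    exact h2 (dvd_zero _)
  obtain ⟨hn0, Λ₁, hlat₁, hgood₁⟩ := Nat.find_spec hex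
  have hmin : ∀ m : ℕ, m < Nat.find hex → ¬ (m ≠ 0 ∧ ∃ Λ : Submodule ℤ C, IsLat C₁ Λ ∧
      Good Λ (m : ℤ)) := fun m hm => Nat.find_min hex hm
  set n := Nat.find hex with hn
  by_cases h1 : n = 1
  · refine ⟨Λ₁, hlat₁, ?_⟩
    rw [h1] at hgood₁
    simpa using hgood₁
  exfalso
  obtain ⟨p, hp, hpn⟩ := Nat.exists_prime_and_dvd h1
  obtain ⟨Λ₂, a₂, hlat₂, hpa₂, hgood₂⟩ := h p hp
  have hnz : (n : ℤ) ≠ 0 := by exact_mod_cast hn0
  obtain ⟨Λ, hlat, ⟨k, hk1, hk2⟩, ⟨b, hb0, hbc, hb1, hb2⟩⟩ := exists_glue hlat₁ hlat₂ hnz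
  have ha₂ : a₂ ≠ 0 := by
    rintro rfl
    exact hpa₂ (dvd_zero _)
  have g1 : Good Λ ((n : ℤ) ^ (k + 1)) := by
    have := Good.transfer (Λ := Λ₁) (Λ' := Λ) (n := (n : ℤ)) (b := (n : ℤ) ^ k)
      (pow_ne_zero k hnz) (by
        intro y hy
        have := hk2 y hy
        push_cast at this ⊢
        exact this) (by
        intro y hy
        have := hk1 y hy
        push_cast at this ⊢
        exact this) hgood₁
    rwa [← pow_succ'] at this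
  have g2 : Good Λ (a₂ * b) := Good.transfer hb0 hb2 hb1 hgood₂
  have g3 := LGGlue.good_gcd (pow_ne_zero _ hnz) g1 g2
  have hdvd : gcd ((n : ℤ) ^ (k + 1)) (a₂ * b) ∣ gcd (n : ℤ) a₂ ^ (k + 1) := by
    have hA : IsCoprime ((n : ℤ) ^ (k + 1)) b := hbc.pow_left
    have hB : IsCoprime (gcd ((n : ℤ) ^ (k + 1)) (a₂ * b)) b :=
      hA.of_isCoprime_of_dvd_left (gcd_dvd_left _ _)
    have hC : gcd ((n : ℤ) ^ (k + 1)) (a₂ * b) ∣ a₂ :=
      hB.dvd_of_dvd_mul_right (gcd_dvd_right _ _)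
    exact (dvd_gcd (gcd_dvd_left _ _) hC).trans gcd_pow_left_dvd_pow_gcd
  have g4 : Good Λ (gcd (n : ℤ) a₂) := LGGlue.good_of_pow (LGGlue.good_of_dvd hdvd g3)
  have hgcd0 : gcd (n : ℤ) a₂ ≠ 0 := fun h => hnz ((gcd_eq_zero_iff _ _).1 h).1
  have hlt : (gcd (n : ℤ) a₂).natAbs < n := by
    have hd : (gcd (n : ℤ) a₂).natAbs ∣ n := by
      have := Int.natAbs_dvd_natAbs.2 (gcd_dvd_left (n : ℤ) a₂)
      simpa using this
    refine lt_of_le_of_ne (Nat.le_of_dvd (Nat.pos_of_ne_zero hn0) hd) ?_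
    intro heq
    apply hpa₂
    have h5 : (p : ℤ) ∣ gcd (n : ℤ) a₂ := by
      have h6 : (p : ℤ) ∣ (((gcd (n : ℤ) a₂).natAbs : ℕ) : ℤ) := by
        rw [heq]
        exact_mod_cast hpn
      exact Int.dvd_natAbs.1 h6
    exact h5.trans (gcd_dvd_right _ _)
  exact hmin _ hlt ⟨Int.natAbs_ne_zero.2 hgcd0, Λ, hlat,
    LGGlue.good_of_dvd (Int.dvd_natAbs.2 dvd_rfl) g4⟩

end LG

end Pool.MP_602153_ag
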