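import Mathlib
import Pool.Agent.HermVar.LGGlue

set_option autoImplicit false

/-!
# Local-global principle: the model
-/

namespace Pool.MP_602153_ag

namespace LG

open MvPolynomial AlgebraicGeometry CategoryTheory CategoryTheory.Limits

attribute [local instance] MvPolynomial.gradedAlgebra

section Model

variable {σ B : Type} [CommRing B] [Algebra ℚ B] {ℬ : ℕ → Submodule ℚ B} [GradedAlgebra ℬ]
  {I : Ideal (MvPolynomial σ ℤ)} (hI : I.IsHomogeneous (homogeneousSubmodule σ ℤ))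
  (ψ : MvPolynomial σ ℚ →ₐ[ℚ] B)
  (hker : ∀ f : MvPolynomial σ ℤ, ψ (map (algebraMap ℤ ℚ) f) = 0 ↔ f ∈ I)

include hI hker in
/-- Models from homogeneous prime ideals, with charts given by linear forms. -/
theorem LGModel.model_of_forms [Finite σ] [hprime : I.IsPrime]
    (hZ : ∀ m : ℤ, (MvPolynomial.C m : MvPolynomial σ ℤ) ∈ I → m = 0)
    (hX : ∃ s : σ, (X s : MvPolynomial σ ℤ) ∉ I)
    {ι : Type} (F : ι → MvPolynomial σ ℤ) (hF : ∀ i, (F i).IsHomogeneous 1)
    (hcov : ∀ s, ∃ k : ℕ, icoord I s ^ k ∈ Ideal.span (Set.range fun i => Ideal.Quotient.mk I (F i)))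
    (hreg : ∀ i, IsRegularRing ((MvPolynomial σ ℤ ⧸ I) ⧸
      Ideal.span {Ideal.Quotient.mk I (F i) - 1}))
    (hψ : ∀ s, ψ (X s) ∈ ℬ 1) (hsurj : Function.Surjective ψ)
    (Z : Scheme) (e : Nonempty (Z ≅ Proj ℬ)) :
    HasModel Z := by
  let _ := iGraded I hI
  have _ := Fintype.ofFinite σ
  obtain ⟨e⟩ := e
  have hdom : IsDomain (MvPolynomial σ ℤ ⧸ I) := Ideal.Quotient.isDomain _
  have hchar : CharZero (MvPolynomial σ ℤ ⧸ I) := by
    refine charZero_of_injective_ringHom (f := Int.castRingHom (MvPolynomial σ ℤ ⧸ I)) ?_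
    rw [injective_iff_map_eq_zero]
    intro m hm
    apply hZ
    rw [← Ideal.Quotient.eq_zero_iff_mem]
    simpa using hm
  have hspan := irrelevant_le_icoord hI
  have hrad : (HomogeneousIdeal.irrelevant (igrad I)).toIdeal ≤
      (Ideal.span (Set.range (fun i => Ideal.Quotient.mk I (F i)))).radical := by
    refine hspan.trans ?_
    rw [Ideal.span_le]
    rintro _ ⟨s, rfl⟩
    obtain ⟨k, hk⟩ := hcov s
    exact ⟨k, hk⟩
  refine ⟨Proj (igrad I), ?_, ?_, ?_, ⟨MvPolynomial σ ℤ ⧸ I, inferInstance, igrad I,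
    inferInstance, ?_, ?_, ⟨Iso.refl _⟩⟩, ?_, ?_⟩
  · obtain ⟨s, hs⟩ := hX
    refine isIntegral_proj (igrad I) (icoord I s) (icoord_mem s) ?_
    intro h
    exact hs (Ideal.Quotient.eq_zero_iff_mem.1 h)
  · exact isLocallyNoetherian_proj (igrad I) (icoord I) icoord_mem hspan
      (fun i => inferInstance)
  · exact regular_proj_radical (igrad I) (fun i => Ideal.Quotient.mk I (F i))
      (fun i => mem_igrad.2 ⟨F i, hF i, rfl⟩) hrad hreg
  · intro a ha
    obtain ⟨r, hr⟩ := igrad_zero ha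
    exact ⟨r, by rw [← hr]; simp⟩
  · classical
    refine ⟨Finset.univ.image (icoord I), ?_, ?_⟩
    · intro a ha
      obtain ⟨i, _, rfl⟩ := Finset.mem_image.1 ha
      exact icoord_mem i
    · rw [Finset.coe_image, Finset.coe_univ, Set.image_univ]
      exact adjoin_icoord
  · exact flat_proj (igrad I)
  · obtain ⟨e'⟩ := (isGeneric_irho ψ hker hψ hsurj).nonempty_iso (icoord I) icoord_mem hspan
    exact ⟨e' ≪≫ e.symm⟩

end Model

variable {C : Type} [CommRing C] [IsDomain C] [Algebra ℚ C]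

section Aux

variable {r : ℕ} (x : Fin r → C)

/-- The ideal of relations. -/
noncomputable abbrev LGModel.J (x : Fin r → C) : Ideal (MvPolynomial (Fin r) ℤ) :=
  RingHom.ker (aeval x : MvPolynomial (Fin r) ℤ →ₐ[ℤ] C)

/-- The embedding of the homogeneous coordinate ring of the model. -/
noncomputable def LGModel.rho (x : Fin r → C) :
    (MvPolynomial (Fin r) ℤ ⧸ LGModel.J x) →+* C :=
  Ideal.Quotient.lift (LGModel.J x)
    ((aeval x : MvPolynomial (Fin r) ℤ →ₐ[ℤ] C) : MvPolynomial (Fin r) ℤ →+* C)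
    (fun a ha => ha)

omit [IsDomain C] [Algebra ℚ C] in
theorem LGModel.rho_mk (g : MvPolynomial (Fin r) ℤ) :
    LGModel.rho x (Ideal.Quotient.mk (LGModel.J x) g) = aeval x g := rfl

omit [IsDomain C] [Algebra ℚ C] in
theorem LGModel.rho_inj : Function.Injective (LGModel.rho x) := by
  rw [injective_iff_map_eq_zero]
  intro a ha
  obtain ⟨g, rfl⟩ := Ideal.Quotient.mk_surjective a
  rw [LGModel.rho_mk] at ha
  exact Ideal.Quotient.eq_zero_iff_mem.2 ha

omit [IsDomain C] [Algebra ℚ C] in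
theorem LGModel.exists_lin {y : C} (hy : y ∈ Submodule.span ℤ (Set.range x)) :
    ∃ F : MvPolynomial (Fin r) ℤ, F.IsHomogeneous 1 ∧ aeval x F = y := by
  obtain ⟨n, hn⟩ := (Submodule.mem_span_range_iff_exists_fun ℤ).1 hy
  refine ⟨∑ s, MvPolynomial.C (n s) * X s, ?_, ?_⟩
  · apply IsHomogeneous.sum
    intro s _
    have := (isHomogeneous_C (Fin r) (n s)).mul (isHomogeneous_X ℤ s)
    simpa using this
  · rw [map_sum, ← hn]
    refine Finset.sum_congr rfl fun s _ => ?_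
    rw [map_mul]
    simp

omit [IsDomain C] [Algebra ℚ C] in
theorem LGModel.exists_of_adjoin {Λ : Submodule ℤ C} (hx : Submodule.span ℤ (Set.range x) = Λ)
    {a : C} (ha : a ∈ Algebra.adjoin ℤ (Λ : Set C)) :
    ∃ g : MvPolynomial (Fin r) ℤ, aeval x g = a := by
  have h1 : Algebra.adjoin ℤ (Λ : Set C) ≤ (aeval x : MvPolynomial (Fin r) ℤ →ₐ[ℤ] C).range := by
    rw [Algebra.adjoin_le_iff]
    intro y hy
    have h2 : y ∈ Submodule.span ℤ (Set.range x) := by rw [hx]; exact hy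
    obtain ⟨F, -, hF⟩ := LGModel.exists_lin x h2
    exact ⟨F, hF⟩
  exact h1 ha

omit [IsDomain C] [Algebra ℚ C] in
theorem LGModel.exists_span {Λ : Submodule ℤ C} (hx : Submodule.span ℤ (Set.range x) = Λ)
    {κ : Type} (f : κ → C) (F : κ → MvPolynomial (Fin r) ℤ) (hF : ∀ i, aeval x (F i) = f i)
    {z : C} (hz : z ∈ Submodule.span (Algebra.adjoin ℤ (Λ : Set C)) (Set.range f)) :
    ∃ w ∈ Ideal.span (Set.range fun i => Ideal.Quotient.mk (LGModel.J x) (F i)),
      LGModel.rho x w = z := by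
  induction hz using Submodule.span_induction with
  | mem z hz =>
    obtain ⟨i, rfl⟩ := hz
    exact ⟨_, Ideal.subset_span ⟨i, rfl⟩, by rw [LGModel.rho_mk, hF]⟩
  | zero => exact ⟨0, zero_mem _, map_zero _⟩
  | add a b _ _ ha hb =>
    obtain ⟨u, hu, rfl⟩ := ha
    obtain ⟨v, hv, rfl⟩ := hb
    exact ⟨u + v, add_mem hu hv, map_add _ _ _⟩
  | smul a b _ hb =>
    obtain ⟨v, hv, rfl⟩ := hb
    obtain ⟨g, hg⟩ := LGModel.exists_of_adjoin x hx a.2
    refine ⟨Ideal.Quotient.mk _ g * v, Ideal.mul_mem_left _ _ hv, ?_⟩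
    rw [map_mul, LGModel.rho_mk, hg]
    rfl

omit [IsDomain C] in
theorem LGModel.span_eq {C₁ : Submodule ℚ C} {Λ : Submodule ℤ C} (hΛ : IsLat C₁ Λ)
    (hx : Submodule.span ℤ (Set.range x) = Λ) : C₁ = Submodule.span ℚ (Set.range x) := by
  rw [← hΛ.span]
  apply le_antisymm
  · rw [Submodule.span_le, ← hx]
    intro y hy
    rw [SetLike.mem_coe] at hy
    induction hy using Submodule.span_induction with
    | mem z hz => exact Submodule.subset_span hz
    | zero => exact zero_mem _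
    | add a b _ _ ha hb => exact add_mem ha hb
    | smul n a _ ha =>
      have : n • a = (n : ℚ) • a := by simp [Algebra.smul_def]
      rw [SetLike.mem_coe, this]
      exact Submodule.smul_mem _ _ ha
  · apply Submodule.span_mono
    rintro _ ⟨s, rfl⟩
    rw [← hx]
    exact Submodule.subset_span ⟨s, rfl⟩

omit [IsDomain C] in
theorem LGModel.aeval_map (g : MvPolynomial (Fin r) ℤ) :
    (aeval x : MvPolynomial (Fin r) ℚ →ₐ[ℚ] C) (map (algebraMap ℤ ℚ) g) = aeval x g := by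
  rw [aeval_def, eval₂_map, aeval_def]
  congr 1
  exact RingHom.ext_int _ _

end Aux

/-- The model attached to a good lattice. -/
theorem hasModel_of_good (𝒞 : ℕ → Submodule ℚ C) [GradedAlgebra 𝒞]
    (hgen : Algebra.adjoin ℚ (𝒞 1 : Set C) = ⊤) (hne : 𝒞 1 ≠ ⊥) {Λ : Submodule ℤ C}
    (hΛ : IsLat (𝒞 1) Λ) (hgood : Good Λ 1) (Z : Scheme) (e : Nonempty (Z ≅ Proj 𝒞)) :
    HasModel Z := by
  have hchar : CharZero C := algebraRat.charZero C
  obtain ⟨r, x, hx⟩ := Submodule.fg_iff_exists_fin_generating_family.1 hΛ.fg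
  obtain ⟨κ, f, hf, hcov⟩ := hgood
  have hspanQ : 𝒞 1 = Submodule.span ℚ (Set.range x) := LGModel.span_eq x hΛ hx
  have hxΛ : ∀ s, x s ∈ Λ := fun s => by
    rw [← hx]; exact Submodule.subset_span ⟨s, rfl⟩
  have hx1 : ∀ s, x s ∈ 𝒞 1 := fun s => by
    rw [hspanQ]; exact Submodule.subset_span ⟨s, rfl⟩
  have hprime : (LGModel.J x).IsPrime := RingHom.ker_isPrime _
  have hlin : ∀ i, ∃ F : MvPolynomial (Fin r) ℤ, F.IsHomogeneous 1 ∧ aeval x F = f i :=
    fun i => LGModel.exists_lin x (by rw [hx]; exact (hf i).1)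
  choose F hF hφF using hlin
  have hX : ∃ s, (X s : MvPolynomial (Fin r) ℤ) ∉ LGModel.J x := by
    by_contra hcon
    push Not at hcon
    apply hne
    rw [hspanQ, Submodule.span_eq_bot]
    rintro _ ⟨s, rfl⟩
    have := hcon s
    rw [RingHom.mem_ker, aeval_X] at this
    exact this
  have hZ : ∀ m : ℤ, (MvPolynomial.C m : MvPolynomial (Fin r) ℤ) ∈ LGModel.J x → m = 0 := by
    intro m hm
    rw [RingHom.mem_ker] at hm
    have h1 : (m : C) = 0 := by simpa using hm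
    exact_mod_cast h1
  have hcov' : ∀ s, ∃ k : ℕ, icoord (LGModel.J x) s ^ k ∈
      Ideal.span (Set.range fun i => Ideal.Quotient.mk (LGModel.J x) (F i)) := by
    intro s
    obtain ⟨k, hk⟩ := hcov (x s) (hxΛ s)
    obtain ⟨w, hw, hw'⟩ := LGModel.exists_span x hx f F hφF hk
    refine ⟨k, ?_⟩
    have h1 : icoord (LGModel.J x) s ^ k = w := by
      apply LGModel.rho_inj x
      rw [hw', map_pow, icoord, LGModel.rho_mk, aeval_X, Int.cast_one, one_mul]
    rw [h1]
    exact hw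
  have hreg : ∀ i, IsRegularRing ((MvPolynomial (Fin r) ℤ ⧸ LGModel.J x) ⧸
      Ideal.span {Ideal.Quotient.mk (LGModel.J x) (F i) - 1}) := by
    intro i
    obtain ⟨hfi, hfi0, hreg⟩ := hf i
    have hne0 : aeval x (F i) ≠ 0 := by rw [hφF]; exact hfi0
    obtain ⟨E⟩ := chartSub_equiv 𝒞 x hx1 (hF i) hne0
    have hreg' : IsRegularRing (chartSub (Submodule.span ℤ (Set.range x)) (aeval x (F i))) := by
      rw [hφF, hx]
      exact hreg
    exact IsRegularRing.of_ringEquiv E.symm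
  have hsurj : Function.Surjective (aeval x : MvPolynomial (Fin r) ℚ →ₐ[ℚ] C) := by
    rw [← AlgHom.range_eq_top, eq_top_iff, ← hgen, Algebra.adjoin_le_iff]
    intro y hy
    have h1 : y ∈ Submodule.span ℚ (Set.range x) := by rw [← hspanQ]; exact hy
    have h2 : Submodule.span ℚ (Set.range x) ≤ Subalgebra.toSubmodule
        (aeval x : MvPolynomial (Fin r) ℚ →ₐ[ℚ] C).range := by
      rw [Submodule.span_le]
      rintro _ ⟨s, rfl⟩
      exact ⟨X s, by simp⟩
    exact h2 h1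
  have hker : ∀ g : MvPolynomial (Fin r) ℤ,
      (aeval x : MvPolynomial (Fin r) ℚ →ₐ[ℚ] C) (map (algebraMap ℤ ℚ) g) = 0 ↔
        g ∈ LGModel.J x := by
    intro g
    rw [LGModel.aeval_map, RingHom.mem_ker]
  have hψ : ∀ s, (aeval x : MvPolynomial (Fin r) ℚ →ₐ[ℚ] C) (X s) ∈ 𝒞 1 := by
    intro s
    rw [aeval_X]
    exact hx1 s
  exact LGModel.model_of_forms (ker_aeval_isHomogeneous 𝒞 x hx1) _ hker hZ hX F hF hcov' hreg hψ
    hsurj Z e

/-- Local-global principle for regular projective models. -/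
theorem hasModel_of_local (𝒞 : ℕ → Submodule ℚ C) [GradedAlgebra 𝒞]
    (hgen : Algebra.adjoin ℚ (𝒞 1 : Set C) = ⊤) (hne : 𝒞 1 ≠ ⊥)
    (h : ∀ p : ℕ, p.Prime → ∃ (Λ : Submodule ℤ C) (a : ℤ),
      IsLat (𝒞 1) Λ ∧ ¬ (p : ℤ) ∣ a ∧ Good Λ a)
    (Z : Scheme) (e : Nonempty (Z ≅ Proj 𝒞)) : HasModel Z := by
  obtain ⟨Λ, hΛ, hgood⟩ := exists_good h
  exact hasModel_of_good 𝒞 hgen hne hΛ hgood Z e

end LG

end Pool.MP_602153_ag
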