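import Mathlib
import Pool.Agent.MP_602153_ag.WeilQuadMain

set_option autoImplicit false

/-!
# Hermitian forms in coordinates

A vector over `A ⊗ ℤ[ω]` (with `ω ^ 2 = t ω - m`) is given by its coordinates
`v : Par ι → A`, the `k`-th entry being `v (inl k) + v (inr k) * ω`.
-/

namespace Pool.MP_602153_ag

namespace Herm

open WeilQuad

variable {ι : Type} (t m : ℤ)

section Alg

variable {A : Type} [CommRing A]

/-- The coordinates of `v_i * conj v_j`. -/
def gv (v : Par ι → A) (s : Idx ι) : A := gen t m (fun i => v (Sum.inl i)) (fun i => v (Sum.inr i)) s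

/-- The polarisation of `gv`. -/
def pgv (v w : Par ι → A) : Idx ι → A :=
  Sum.elim
    (fun q => (v (.inl q.1) * w (.inl q.2) + w (.inl q.1) * v (.inl q.2)) +
      (t : A) * (v (.inl q.1) * w (.inr q.2) + w (.inl q.1) * v (.inr q.2)) +
      (m : A) * (v (.inr q.1) * w (.inr q.2) + w (.inr q.1) * v (.inr q.2)))
    (fun q => (v (.inr q.1) * w (.inl q.2) + w (.inr q.1) * v (.inl q.2)) -
      (v (.inl q.1) * w (.inr q.2) + w (.inl q.1) * v (.inr q.2)))

/-- Multiplication by `x + y ω`. -/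
def sm (x y : A) (v : Par ι → A) : Par ι → A :=
  Sum.elim (fun i => x * v (.inl i) - (m : A) * y * v (.inr i))
    (fun i => x * v (.inr i) + y * v (.inl i) + (t : A) * y * v (.inr i))

/-- The real vector with given entries. -/
def rl (u : ι → A) : Par ι → A := Sum.elim u 0

theorem gv_inl (v : Par ι → A) (i j : ι) : gv t m v (.inl (i, j)) =
    v (.inl i) * v (.inl j) + (t : A) * v (.inl i) * v (.inr j) + (m : A) * v (.inr i) * v (.inr j) :=
  rfl

theorem gv_inr (v : Par ι → A) (i j : ι) : gv t m v (.inr (i, j)) =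
    v (.inr i) * v (.inl j) - v (.inl i) * v (.inr j) := rfl

theorem sm_inl (x y : A) (v : Par ι → A) (i : ι) :
    sm t m x y v (.inl i) = x * v (.inl i) - (m : A) * y * v (.inr i) := rfl

theorem sm_inr (x y : A) (v : Par ι → A) (i : ι) :
    sm t m x y v (.inr i) = x * v (.inr i) + y * v (.inl i) + (t : A) * y * v (.inr i) := rfl

theorem rl_inl (u : ι → A) (i : ι) : rl u (.inl i) = u i := rfl
theorem rl_inr (u : ι → A) (i : ι) : rl u (.inr i) = 0 := rfl

theorem gv_add (v w : Par ι → A) (s : Idx ι) :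
    gv t m (v + w) s = gv t m v s + gv t m w s + pgv t m v w s := by
  rcases s with ⟨i, j⟩ | ⟨i, j⟩
  · simp only [gv, gen, pgv, Sum.elim_inl, Pi.add_apply]
    ring
  · simp only [gv, gen, pgv, Sum.elim_inr, Pi.add_apply]
    ring

theorem gv_sm (x y : A) (v : Par ι → A) (s : Idx ι) :
    gv t m (sm t m x y v) s = (x ^ 2 + (t : A) * x * y + (m : A) * y ^ 2) * gv t m v s := by
  rcases s with ⟨i, j⟩ | ⟨i, j⟩
  · simp only [gv_inl, sm_inl, sm_inr]
    ring
  · simp only [gv_inr, sm_inl, sm_inr]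
    ring

theorem pgv_symm (v w : Par ι → A) (s : Idx ι) : pgv t m v w s = pgv t m w v s := by
  rcases s with ⟨i, j⟩ | ⟨i, j⟩
  · simp only [pgv, Sum.elim_inl]
    ring
  · simp only [pgv, Sum.elim_inr]
    ring

theorem pgv_add (v v' w : Par ι → A) (s : Idx ι) :
    pgv t m (v + v') w s = pgv t m v w s + pgv t m v' w s := by
  rcases s with ⟨i, j⟩ | ⟨i, j⟩
  · simp only [pgv, Sum.elim_inl, Pi.add_apply]
    ring
  · simp only [pgv, Sum.elim_inr, Pi.add_apply]
    ring

theorem pgv_smul (a : A) (v w : Par ι → A) (s : Idx ι) :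
    pgv t m (a • v) w s = a * pgv t m v w s := by
  rcases s with ⟨i, j⟩ | ⟨i, j⟩
  · simp only [pgv, Sum.elim_inl, Pi.smul_apply, smul_eq_mul]
    ring
  · simp only [pgv, Sum.elim_inr, Pi.smul_apply, smul_eq_mul]
    ring

theorem pgv_sm (x y : A) (v w : Par ι → A) (s : Idx ι) :
    pgv t m (sm t m x y v) w s = pgv t m v (sm t m (x + (t : A) * y) (-y) w) s := by
  rcases s with ⟨i, j⟩ | ⟨i, j⟩
  · simp only [pgv, Sum.elim_inl, sm_inl, sm_inr]
    ring
  · simp only [pgv, Sum.elim_inr, sm_inl, sm_inr]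
    ring

theorem pgv_self_sm (x y : A) (v : Par ι → A) (s : Idx ι) :
    pgv t m v (sm t m x y v) s = (2 * x + (t : A) * y) * gv t m v s := by
  rcases s with ⟨i, j⟩ | ⟨i, j⟩
  · simp only [pgv, Sum.elim_inl, sm_inl, sm_inr, gv_inl]
    ring
  · simp only [pgv, Sum.elim_inr, sm_inl, sm_inr, gv_inr]
    ring

theorem map_gv {A' : Type} [CommRing A'] (f : A →+* A') (v : Par ι → A) (s : Idx ι) :
    f (gv t m v s) = gv t m (fun k => f (v k)) s := by
  rcases s with ⟨i, j⟩ | ⟨i, j⟩
  · simp only [gv_inl, map_add, map_mul, map_intCast]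
  · simp only [gv_inr, map_sub, map_mul]

theorem map_pgv {A' : Type} [CommRing A'] (f : A →+* A') (v w : Par ι → A) (s : Idx ι) :
    f (pgv t m v w s) = pgv t m (fun k => f (v k)) (fun k => f (w k)) s := by
  rcases s with ⟨i, j⟩ | ⟨i, j⟩
  · simp only [pgv, Sum.elim_inl, map_add, map_mul, map_intCast]
  · simp only [pgv, Sum.elim_inr, map_sub, map_add, map_mul]

theorem map_sm {A' : Type} [CommRing A'] (f : A →+* A') (x y : A) (v : Par ι → A) (k : Par ι) :
    f (sm t m x y v k) = sm t m (f x) (f y) (fun k => f (v k)) k := by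
  rcases k with i | i
  · simp only [sm_inl, map_sub, map_mul, map_intCast]
  · simp only [sm_inr, map_add, map_mul, map_intCast]

theorem sm_add (x y : A) (v w : Par ι → A) :
    sm t m x y (v + w) = sm t m x y v + sm t m x y w := by
  funext k
  rcases k with i | i
  · simp only [sm_inl, Pi.add_apply]
    ring
  · simp only [sm_inr, Pi.add_apply]
    ring

theorem sm_smul (x y a : A) (v : Par ι → A) :
    sm t m x y (a • v) = a • sm t m x y v := by
  funext k
  rcases k with i | i
  · simp only [sm_inl, Pi.smul_apply, smul_eq_mul]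
    ring
  · simp only [sm_inr, Pi.smul_apply, smul_eq_mul]
    ring

theorem sm_sm (x y x' y' : A) (v : Par ι → A) :
    sm t m x y (sm t m x' y' v) =
      sm t m (x * x' - (m : A) * y * y') (x * y' + y * x' + (t : A) * y * y') v := by
  funext k
  rcases k with i | i
  · simp only [sm_inl, sm_inr]
    ring
  · simp only [sm_inl, sm_inr]
    ring

theorem sm_zero_right (x : A) (v : Par ι → A) : sm t m x 0 v = x • v := by
  funext k
  rcases k with i | i
  · simp only [sm_inl, Pi.smul_apply, smul_eq_mul]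
    ring
  · simp only [sm_inr, Pi.smul_apply, smul_eq_mul]
    ring

theorem sm_zero_vec (x y : A) : sm t m x y (0 : Par ι → A) = 0 := by
  funext k
  rcases k with i | i
  · simp only [sm_inl, Pi.zero_apply]
    ring
  · simp only [sm_inr, Pi.zero_apply]
    ring

end Alg

section Form

variable [Fintype ι] (c : Idx ι → ℤ) {A : Type} [CommRing A]

/-- The Hermitian form with coefficients `c`. -/
def qf (v : Par ι → A) : A := ∑ s, (c s : A) * gv t m v s

/-- The polar form. -/
def bf (v w : Par ι → A) : A := ∑ s, (c s : A) * pgv t m v w s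

theorem qf_add (v w : Par ι → A) :
    qf t m c (v + w) = qf t m c v + qf t m c w + bf t m c v w := by
  simp only [qf, bf, gv_add, ← Finset.sum_add_distrib]
  exact Finset.sum_congr rfl fun s _ => by ring

theorem qf_sm (x y : A) (v : Par ι → A) :
    qf t m c (sm t m x y v) = (x ^ 2 + (t : A) * x * y + (m : A) * y ^ 2) * qf t m c v := by
  simp only [qf, gv_sm, Finset.mul_sum]
  exact Finset.sum_congr rfl fun s _ => by ring

theorem qf_smul (a : A) (v : Par ι → A) : qf t m c (a • v) = a ^ 2 * qf t m c v := by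
  rw [← sm_zero_right t m, qf_sm]
  ring

theorem bf_symm (v w : Par ι → A) : bf t m c v w = bf t m c w v := by
  simp only [bf, pgv_symm t m v w]

theorem bf_add_left (v v' w : Par ι → A) :
    bf t m c (v + v') w = bf t m c v w + bf t m c v' w := by
  simp only [bf, pgv_add, ← Finset.sum_add_distrib]
  exact Finset.sum_congr rfl fun s _ => by ring

theorem bf_add_right (v w w' : Par ι → A) :
    bf t m c v (w + w') = bf t m c v w + bf t m c v w' := by
  rw [bf_symm, bf_add_left, bf_symm, bf_symm t m c w']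

theorem bf_smul_left (a : A) (v w : Par ι → A) :
    bf t m c (a • v) w = a * bf t m c v w := by
  simp only [bf, pgv_smul, Finset.mul_sum]
  exact Finset.sum_congr rfl fun s _ => by ring

theorem bf_smul_right (a : A) (v w : Par ι → A) :
    bf t m c v (a • w) = a * bf t m c v w := by
  rw [bf_symm, bf_smul_left, bf_symm]

theorem bf_sm (x y : A) (v w : Par ι → A) :
    bf t m c (sm t m x y v) w = bf t m c v (sm t m (x + (t : A) * y) (-y) w) := by
  simp only [bf, pgv_sm]

theorem bf_sm_right (x y : A) (v w : Par ι → A) :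
    bf t m c v (sm t m x y w) = bf t m c (sm t m (x + (t : A) * y) (-y) v) w := by
  rw [bf_symm, bf_sm, bf_symm]

theorem bf_self_sm (x y : A) (v : Par ι → A) :
    bf t m c v (sm t m x y v) = (2 * x + (t : A) * y) * qf t m c v := by
  simp only [bf, qf, pgv_self_sm, Finset.mul_sum]
  exact Finset.sum_congr rfl fun s _ => by ring

theorem bf_self (v : Par ι → A) : bf t m c v v = 2 * qf t m c v := by
  have h := bf_self_sm t m c 1 0 v
  rw [sm_zero_right, one_smul] at h
  rw [h]
  ring

theorem map_qf {A' : Type} [CommRing A'] (f : A →+* A') (v : Par ι → A) :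
    f (qf t m c v) = qf t m c (fun k => f (v k)) := by
  simp only [qf, map_sum, map_mul, map_intCast, map_gv]

theorem map_bf {A' : Type} [CommRing A'] (f : A →+* A') (v w : Par ι → A) :
    f (bf t m c v w) = bf t m c (fun k => f (v k)) (fun k => f (w k)) := by
  simp only [bf, map_sum, map_mul, map_intCast, map_pgv]

theorem bf_zero_right (v : Par ι → A) : bf t m c v 0 = 0 := by
  have h := bf_smul_right t m c 0 v (0 : Par ι → A)
  rw [smul_zero, zero_mul] at h
  exact h

theorem bf_sum_right {κ : Type} (S : Finset κ) (v : Par ι → A) (w : κ → Par ι → A) :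
    bf t m c v (∑ k ∈ S, w k) = ∑ k ∈ S, bf t m c v (w k) := by
  classical
  induction S using Finset.induction_on with
  | empty => simp only [Finset.sum_empty, bf_zero_right]
  | insert a S ha ih => rw [Finset.sum_insert ha, Finset.sum_insert ha, bf_add_right, ih]

/-- The hypotheses on an integral Hermitian form at a prime `p`. -/
structure LocGood (p : ℕ) (a₀ : ℤ) : Prop where
  prime : p.Prime
  not_dvd : ¬ (p : ℤ) ∣ a₀
  ne_zero : a₀ ≠ 0
  /-- nondegenerate at all other primes not dividing `a₀`, and in characteristic zero -/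
  nd : ∀ ℓ : ℕ, ℓ = 0 ∨ ℓ.Prime → ℓ ≠ p → ¬ (ℓ : ℤ) ∣ a₀ →
    ∀ v : Par ι → ℤ, (∀ w, (ℓ : ℤ) ∣ bf t m c v w) → ∀ k, (ℓ : ℤ) ∣ v k
  /-- no improvement along a unimodular vector -/
  m1 : ∀ v : Par ι → ℤ, (∃ s, ¬ (p : ℤ) ∣ gv t m v s) → (∀ w, (p : ℤ) ∣ bf t m c v w) →
    ¬ (p : ℤ) ^ 2 ∣ qf t m c v
  /-- no improvement at a ramified prime -/
  m2 : ∀ x₀ : ℤ, (p : ℤ) ∣ x₀ ^ 2 + t * x₀ + m → (p : ℤ) ∣ 2 * x₀ + t → ∀ u : ι → ℤ,
    (∃ k, ¬ (p : ℤ) ∣ u k) → (∀ w, (p : ℤ) ∣ bf t m c (sm t m x₀ 1 (rl u)) w) →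
    ¬ (p : ℤ) ∣ qf t m c (rl u)
  /-- primitive -/
  prim : ∀ ℓ : ℕ, ℓ.Prime → ∃ v : Par ι → ℤ, ¬ (ℓ : ℤ) ∣ qf t m c v

end Form

end Herm

end Pool.MP_602153_ag
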