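import Mathlib
import Pool.Agent.HermVar.Defs

set_option autoImplicit false

/-!
# Hermitian forms in coordinates: the Gram matrix
-/

namespace Pool.MP_602153_ag

namespace Herm

open WeilQuad

variable {ι : Type} [Fintype ι] (t m : ℤ) (c : Idx ι → ℤ) {A : Type} [CommRing A]

theorem bf_sum_left {κ : Type} (S : Finset κ) (v : κ → Par ι → A) (w : Par ι → A) :
    bf t m c (∑ k ∈ S, v k) w = ∑ k ∈ S, bf t m c (v k) w := by
  rw [bf_symm, bf_sum_right]
  exact Finset.sum_congr rfl fun k _ => bf_symm t m c _ _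

variable [DecidableEq ι]

/-- The Gram matrix. -/
def gram (k l : Par ι) : ℤ := bf t m c (Pi.single k (1 : ℤ)) (Pi.single l 1)

theorem vec_eq_sum (v : Par ι → A) : v = ∑ k, v k • (Pi.single k (1 : A) : Par ι → A) := by
  funext l
  rw [Finset.sum_apply, Finset.sum_eq_single l]
  · simp
  · intro b _ hb
    simp [hb.symm]
  · simp

theorem bf_single (k l : Par ι) :
    bf t m c (Pi.single k (1 : A)) (Pi.single l 1) = (gram t m c k l : A) := by
  have h := map_bf t m c (Int.castRingHom A) (Pi.single k (1 : ℤ)) (Pi.single l 1)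
  rw [gram]
  have e : ∀ k : Par ι, (fun x => (Int.castRingHom A) ((Pi.single k (1 : ℤ) : Par ι → ℤ) x)) =
      Pi.single k (1 : A) := by
    intro k
    funext x
    by_cases hx : x = k
    · subst hx
      simp
    · simp [hx]
  rw [e, e] at h
  exact h.symm

theorem bf_single_right (v : Par ι → A) (l : Par ι) :
    bf t m c v (Pi.single l 1) = ∑ k, v k * (gram t m c k l : A) := by
  conv_lhs => rw [vec_eq_sum v]
  rw [bf_sum_left]
  refine Finset.sum_congr rfl fun k _ => ?_
  rw [bf_smul_left, bf_single]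

theorem bf_eq_sum (v w : Par ι → A) :
    bf t m c v w = ∑ k, ∑ l, v k * w l * (gram t m c k l : A) := by
  conv_lhs => rw [vec_eq_sum w]
  rw [bf_sum_right, Finset.sum_comm]
  refine Finset.sum_congr rfl fun l _ => ?_
  rw [bf_smul_right, bf_single_right, Finset.mul_sum]
  refine Finset.sum_congr rfl fun k _ => ?_
  ring

/-- A vector is in the radical as soon as it is orthogonal to the basis vectors. -/
theorem bf_eq_zero_of_single {v : Par ι → A} (h : ∀ l, bf t m c v (Pi.single l 1) = 0)
    (w : Par ι → A) : bf t m c v w = 0 := by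
  rw [vec_eq_sum w, bf_sum_right]
  refine Finset.sum_eq_zero fun k _ => ?_
  rw [bf_smul_right, h, mul_zero]

theorem rad_iff_vecMul (v : Par ι → A) : (∀ w, bf t m c v w = 0) ↔
    Matrix.vecMul v (Matrix.of fun k l => (gram t m c k l : A)) = 0 := by
  constructor
  · intro h
    funext l
    have := h (Pi.single l 1)
    rw [bf_single_right] at this
    exact this
  · intro h
    apply bf_eq_zero_of_single
    intro l
    rw [bf_single_right]
    exact congrFun h l

/-- Nondegeneracy passes to extension fields. -/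
theorem rad_eq_zero {κ : Type} [Field κ] (ℓ : ℕ) [CharP κ ℓ] (hℓ : ℓ = 0 ∨ ℓ.Prime)
    (hnd : ∀ v : Par ι → ℤ, (∀ w, (ℓ : ℤ) ∣ bf t m c v w) → ∀ k, (ℓ : ℤ) ∣ v k)
    (v : Par ι → κ) (hv : ∀ w, bf t m c v w = 0) : v = 0 := by
  by_contra hne
  let G : Matrix (Par ι) (Par ι) ℤ := Matrix.of fun k l => gram t m c k l
  have h1 : Matrix.vecMul v (G.map (Int.castRingHom κ)) = 0 := (rad_iff_vecMul t m c v).1 hv
  have h2 : (G.map (Int.castRingHom κ)).det = 0 := by
    rw [← Matrix.exists_vecMul_eq_zero_iff]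
    exact ⟨v, hne, h1⟩
  have h3 : ((G.det : ℤ) : κ) = 0 := by
    have h4 := (Int.castRingHom κ).map_det G
    rw [RingHom.mapMatrix_apply, h2] at h4
    exact h4
  rw [CharP.intCast_eq_zero_iff κ ℓ] at h3
  rcases hℓ with rfl | hp
  · have h5 : G.det = 0 := by simpa using h3
    rw [← Matrix.exists_vecMul_eq_zero_iff] at h5
    obtain ⟨u, hu, hu2⟩ := h5
    apply hu
    funext k
    have h6 : ∀ w, bf t m c u w = 0 := by
      rw [rad_iff_vecMul]
      exact hu2
    have := hnd u (fun w => by rw [h6]; exact dvd_zero _) k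
    simpa using this
  · have : Fact ℓ.Prime := ⟨hp⟩
    have h5 : (G.map (Int.castRingHom (ZMod ℓ))).det = 0 := by
      have h4 := (Int.castRingHom (ZMod ℓ)).map_det G
      rw [RingHom.mapMatrix_apply] at h4
      rw [← h4]
      exact (ZMod.intCast_zmod_eq_zero_iff_dvd _ _).2 h3
    rw [← Matrix.exists_vecMul_eq_zero_iff] at h5
    obtain ⟨u, hu, hu2⟩ := h5
    have h6 : ∀ w, bf t m c u w = 0 := by
      rw [rad_iff_vecMul]
      exact hu2
    apply hu
    have h7 : ∀ k, (ZMod.cast (u k) : ℤ) = ZMod.cast (u k) := fun _ => rfl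
    let u' : Par ι → ℤ := fun k => (u k).cast
    have hu' : ∀ k, ((u' k : ℤ) : ZMod ℓ) = u k := by
      intro k
      simp [u']
    have h8 : ∀ w : Par ι → ℤ, (ℓ : ℤ) ∣ bf t m c u' w := by
      intro w
      rw [← ZMod.intCast_zmod_eq_zero_iff_dvd]
      have h9 := map_bf t m c (Int.castRingHom (ZMod ℓ)) u' w
      have h10 : (fun k => (Int.castRingHom (ZMod ℓ)) (u' k)) = u := by
        funext k
        exact hu' k
      rw [h10, h6] at h9
      exact h9
    funext k
    have h11 := hnd u' h8 k
    rw [← ZMod.intCast_zmod_eq_zero_iff_dvd, hu'] at h11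
    exact h11

/-- The coordinates of a radical vector over an extension of the prime field are radical. -/
theorem rad_coords {p : ℕ} [Fact p.Prime] {κ : Type} [Field κ] [Algebra (ZMod p) κ]
    {J : Type} (b : Module.Basis J (ZMod p) κ) (v : Par ι → κ) (hv : ∀ w, bf t m c v w = 0)
    (j : J) (w : Par ι → ZMod p) : bf t m c (fun k => b.repr (v k) j) w = 0 := by
  apply bf_eq_zero_of_single
  intro l
  rw [bf_single_right]
  have h1 := hv (Pi.single l 1)
  rw [bf_single_right] at h1
  have h2 := congrArg (fun z => b.repr z j) h1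
  simp only [map_sum, map_zero, Finsupp.coe_finset_sum, Finset.sum_apply, Finsupp.coe_zero,
    Pi.zero_apply] at h2
  rw [← h2]
  refine Finset.sum_congr rfl fun k _ => ?_
  have h3 : v k * (gram t m c k l : κ) = (gram t m c k l : ZMod p) • v k := by
    rw [Algebra.smul_def, map_intCast, mul_comm]
  rw [h3, map_smul, Finsupp.smul_apply, smul_eq_mul, mul_comm]

end Herm

end Pool.MP_602153_ag
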