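import Mathlib
import Pool.Agent.HermVar.Gram

set_option autoImplicit false

/-!
# Regularity of hypersurfaces at a point: tangent vectors and evaluation modulo `p ^ 2`
-/

namespace Pool.MP_602153_ag

open IsLocalRing

theorem regularLocal_quotient_at {R : Type} [CommRing R] [IsRegularRing R] (g : R)
    (Q : Ideal (R ⧸ Ideal.span {g})) [hQ : Q.IsPrime]
    (hg : ∀ b : R, b * g ∈ (Q.comap (Ideal.Quotient.mk (Ideal.span {g}))) ^ 2 →
      b ∈ Q.comap (Ideal.Quotient.mk (Ideal.span {g}))) :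
    IsRegularLocalRing (Localization.AtPrime Q) := by
  let P : Ideal R := Q.comap (Ideal.Quotient.mk (Ideal.span {g}))
  have hP : P.IsPrime := inferInstance
  have hgP : g ∈ P := by
    change Ideal.Quotient.mk (Ideal.span {g}) g ∈ Q
    have h2 : Ideal.Quotient.mk (Ideal.span {g}) g = 0 :=
      Ideal.Quotient.eq_zero_iff_mem.2 (Ideal.subset_span rfl)
    rw [h2]
    exact Q.zero_mem
  let S := Localization.AtPrime P
  have hreg : IsRegularLocalRing S := inferInstance
  have hmax : maximalIdeal S = P.map (algebraMap R S) :=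
    (Localization.AtPrime.map_eq_maximalIdeal (I := P)).symm
  have hx : algebraMap R S g ∈ maximalIdeal S := by
    rw [hmax]
    exact Ideal.mem_map_of_mem _ hgP
  have hx2 : algebraMap R S g ∉ maximalIdeal S ^ 2 := by
    rw [hmax, ← Ideal.map_pow, IsLocalization.algebraMap_mem_map_algebraMap_iff P.primeCompl]
    rintro ⟨m, hm, hmg⟩
    exact hm (hg m hmg)
  have h1 : IsRegularLocalRing (S ⧸ Ideal.span {algebraMap R S g}) :=
    regular_quotient _ hx hx2
  have hI : (Ideal.span {g}).map (algebraMap R S) = Ideal.span {algebraMap R S g} := by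
    rw [Ideal.map_span, Set.image_singleton]
  have h2 : IsRegularLocalRing (S ⧸ (Ideal.span {g}).map (algebraMap R S)) :=
    IsRegularLocalRing.of_ringEquiv (Ideal.quotEquivOfEq hI.symm)
  have hM : Algebra.algebraMapSubmonoid (R ⧸ Ideal.span {g}) P.primeCompl = Q.primeCompl := by
    exact Q.map_primeCompl_comap_of_surjective (Ideal.Quotient.mk (Ideal.span {g}))
      Ideal.Quotient.mk_surjective
  have h3 : IsLocalization (Algebra.algebraMapSubmonoid (R ⧸ Ideal.span {g}) P.primeCompl)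
      (S ⧸ (Ideal.span {g}).map (algebraMap R S)) := inferInstance
  rw [hM] at h3
  exact IsRegularLocalRing.of_ringEquiv
    (IsLocalization.algEquiv Q.primeCompl (S ⧸ (Ideal.span {g}).map (algebraMap R S))
      (Localization.AtPrime Q)).toRingEquiv

/-- Elements of the square of the kernel vanish along tangent vectors. -/
theorem tangent {T κ : Type} [CommRing T] [Field κ] (χ : T →+* κ) {b h : T} (hb : χ b ≠ 0)
    (hbh : b * h ∈ RingHom.ker χ ^ 2) (δ : T →+* DualNumber κ)
    (hδ : ∀ z, TrivSqZeroExt.fst (δ z) = χ z) : δ h = 0 := by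
  have h1 : RingHom.ker χ ^ 2 ≤ RingHom.ker δ := by
    rw [pow_two, Ideal.mul_le]
    intro x hx y hy
    rw [RingHom.mem_ker] at hx hy ⊢
    rw [map_mul]
    apply TrivSqZeroExt.ext
    · rw [TrivSqZeroExt.fst_mul, hδ, hδ, hx, zero_mul, TrivSqZeroExt.fst_zero]
    · rw [DualNumber.snd_mul, hδ, hδ, hx, hy, zero_mul, mul_zero, add_zero,
        TrivSqZeroExt.snd_zero]
  have h2 := h1 hbh
  rw [RingHom.mem_ker, map_mul] at h2
  have h3 : IsUnit (δ b) := by
    rw [TrivSqZeroExt.isUnit_iff_isUnit_fst, hδ]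
    exact isUnit_iff_ne_zero.2 hb
  exact (h3.mul_right_eq_zero).1 h2

/-- Evaluation at a point with values in `ZMod (p ^ 2)`. -/
theorem eval_sq {T κ : Type} [CommRing T] [Field κ] {p : ℕ} (hp : p.Prime) [CharP κ p]
    (χ : T →+* κ) (e : T →+* ZMod (p ^ 2))
    (he : (ZMod.castHom (dvd_pow_self p two_ne_zero) κ).comp e = χ) {b h : T} (hb : χ b ≠ 0)
    (hbh : b * h ∈ RingHom.ker χ ^ 2) : e h = 0 := by
  have hval : ∀ z : ZMod (p ^ 2), ∃ n : ℤ, z = (n : ZMod (p ^ 2)) ∧
      ZMod.castHom (dvd_pow_self p two_ne_zero) κ z = (n : κ) := by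
    intro z
    obtain ⟨n, rfl⟩ := ZMod.intCast_surjective z
    exact ⟨n, rfl, by rw [map_intCast]⟩
  have hp2 : ((p : ZMod (p ^ 2))) ^ 2 = 0 := by
    rw [← Nat.cast_pow]
    exact ZMod.natCast_self _
  have h0 : ∀ z : T, χ z = 0 → (p : ZMod (p ^ 2)) ∣ e z := by
    intro z hz
    obtain ⟨n, hn, hn2⟩ := hval (e z)
    rw [← RingHom.comp_apply, he, hz] at hn2
    have h1 : (p : ℤ) ∣ n := (CharP.intCast_eq_zero_iff κ p n).1 hn2.symm
    obtain ⟨k, rfl⟩ := h1
    rw [hn]
    exact ⟨(k : ZMod (p ^ 2)), by push_cast; ring⟩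
  have h1 : RingHom.ker χ ^ 2 ≤ RingHom.ker e := by
    rw [pow_two, Ideal.mul_le]
    intro x hx y hy
    rw [RingHom.mem_ker] at hx hy ⊢
    obtain ⟨a, ha⟩ := h0 x hx
    obtain ⟨b, hb⟩ := h0 y hy
    rw [map_mul, ha, hb]
    linear_combination (a * b) * hp2
  have h2 := h1 hbh
  rw [RingHom.mem_ker, map_mul] at h2
  have h3 : IsUnit (e b) := by
    obtain ⟨n, hn, hn2⟩ := hval (e b)
    rw [← RingHom.comp_apply, he] at hn2
    rw [hn]
    have h4 : ¬ (p : ℤ) ∣ n := by
      intro h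
      apply hb
      rw [hn2]
      exact (CharP.intCast_eq_zero_iff κ p n).2 h
    have h5 : IsCoprime n ((p ^ 2 : ℕ) : ℤ) := by
      push_cast
      apply IsCoprime.pow_right
      exact ((Nat.prime_iff_prime_int.1 hp).coprime_iff_not_dvd.2 h4).symm
    obtain ⟨u, v, huv⟩ := h5
    refine IsUnit.of_mul_eq_one (u : ZMod (p ^ 2)) ?_
    have h6 := congrArg (Int.cast : ℤ → ZMod (p ^ 2)) huv
    push_cast at h6
    rw [hp2] at h6
    linear_combination h6
  exact (h3.mul_right_eq_zero).1 h2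

end Pool.MP_602153_ag
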