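import Mathlib
import Pool.Agent.HermVar.Defs

set_option autoImplicit false

/-!
# The radical of a Hermitian form at a ramified prime
-/

namespace Pool.MP_602153_ag

namespace Herm

open WeilQuad

variable {ι : Type} [Fintype ι] {t m : ℤ} {c : Idx ι → ℤ}

namespace RadRAux

section Dual

variable {p : ℕ} {κ : Type} [Field κ] [Algebra (ZMod p) κ]

omit [Fintype ι] in
theorem dual_int (φ : κ →ₗ[ZMod p] ZMod p) (n : ℤ) (x : κ) :
    φ ((n : κ) * x) = (n : ZMod p) * φ x := by
  rw [← zsmul_eq_mul, map_zsmul, zsmul_eq_mul]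

omit [Fintype ι] in
theorem dual_mul (φ : κ →ₗ[ZMod p] ZMod p) (x : κ) (a : ZMod p) :
    φ (x * algebraMap (ZMod p) κ a) = φ x * a := by
  rw [mul_comm, ← Algebra.smul_def, map_smul, smul_eq_mul, mul_comm]

omit [Fintype ι] in
theorem dual_mul' (φ : κ →ₗ[ZMod p] ZMod p) (x : κ) (a : ZMod p) :
    φ (algebraMap (ZMod p) κ a * x) = φ x * a := by
  rw [mul_comm, dual_mul]

omit [Fintype ι] in
theorem dual_pgv (φ : κ →ₗ[ZMod p] ZMod p) (v : Par ι → κ) (w : Par ι → ZMod p) (s : Idx ι) :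
    φ (pgv t m v (fun k => algebraMap (ZMod p) κ (w k)) s) = pgv t m (fun k => φ (v k)) w s := by
  rcases s with ⟨i, j⟩ | ⟨i, j⟩
  · simp only [pgv, Sum.elim_inl, map_add, dual_int, dual_mul, dual_mul']
    ring
  · simp only [pgv, Sum.elim_inr, map_add, map_sub, dual_mul, dual_mul']
    ring

theorem dual_bf (φ : κ →ₗ[ZMod p] ZMod p) (v : Par ι → κ) (w : Par ι → ZMod p) :
    φ (bf t m c v (fun k => algebraMap (ZMod p) κ (w k))) = bf t m c (fun k => φ (v k)) w := by
  simp only [bf, map_sum, dual_int, dual_pgv]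

omit [Fintype ι] in
theorem dual_sm (φ : κ →ₗ[ZMod p] ZMod p) (x₀ : ℤ) (u : ι → κ) :
    (fun k => φ (sm t m (x₀ : κ) 1 (rl u) k)) = sm t m (x₀ : ZMod p) 1 (rl fun i => φ (u i)) := by
  funext k
  rcases k with i | i
  · simp only [sm_inl, rl_inl, rl_inr, mul_zero, sub_zero, dual_int]
  · simp only [sm_inr, rl_inl, rl_inr, mul_zero, add_zero, one_mul, zero_add]

omit [Fintype ι] in
theorem dual_rl (φ : κ →ₗ[ZMod p] ZMod p) (u : ι → κ) :
    (fun k => φ (rl u k)) = rl fun i => φ (u i) := by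
  funext k
  rcases k with i | i
  · rfl
  · simp only [rl_inr, map_zero]

end Dual

omit [Fintype ι] in
theorem rl_map {A B : Type} [CommRing A] [CommRing B] (f : A →+* B) (u : ι → A) :
    (fun k => f (rl u k)) = rl fun i => f (u i) := by
  funext k
  rcases k with i | i
  · rfl
  · simp only [rl_inr, map_zero]

omit [Fintype ι] in
theorem rl_add {A : Type} [CommRing A] (u v : ι → A) :
    (rl (u + v) : Par ι → A) = rl u + rl v := by
  funext k
  rcases k with i | i
  · rfl
  · simp [rl_inr]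

omit [Fintype ι] in
theorem rl_smul {A : Type} [CommRing A] (a : A) (u : ι → A) :
    (rl (a • u) : Par ι → A) = a • rl u := by
  funext k
  rcases k with i | i
  · rfl
  · simp [rl_inr]

omit [Fintype ι] in
theorem rl_zero {A : Type} [CommRing A] : (rl (0 : ι → A) : Par ι → A) = 0 := by
  funext k
  rcases k with i | i
  · rfl
  · rfl

/-- A ternary quadratic form over `𝔽_p` has a nontrivial zero. -/
theorem exists_tern {p : ℕ} [hp : Fact p.Prime] (b : Fin 3 → Fin 3 → ZMod p) :
    ∃ a : Fin 3 → ZMod p, a ≠ 0 ∧ ∑ i, ∑ j, b i j * (a i * a j) = 0 := by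
  classical
  let f : MvPolynomial (Fin 3) (ZMod p) :=
    ∑ i, ∑ j, MvPolynomial.C (b i j) * (MvPolynomial.X i * MvPolynomial.X j)
  have hf : ∀ a : Fin 3 → ZMod p, MvPolynomial.eval a f = ∑ i, ∑ j, b i j * (a i * a j) := by
    intro a
    simp only [f, map_sum, map_mul, MvPolynomial.eval_C, MvPolynomial.eval_X]
  have hdeg : f.totalDegree < Fintype.card (Fin 3) := by
    rw [Fintype.card_fin]
    have : f.totalDegree ≤ 2 := by
      apply MvPolynomial.totalDegree_finsetSum_le
      intro i _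
      apply MvPolynomial.totalDegree_finsetSum_le
      intro j _
      refine (MvPolynomial.totalDegree_mul _ _).trans ?_
      rw [MvPolynomial.totalDegree_C, zero_add]
      refine (MvPolynomial.totalDegree_mul _ _).trans ?_
      rw [MvPolynomial.totalDegree_X, MvPolynomial.totalDegree_X]
    omega
  have hcw := char_dvd_card_solutions p hdeg
  by_contra hcon
  push Not at hcon
  have : Fintype.card {x : Fin 3 → ZMod p // MvPolynomial.eval x f = 0} = 1 := by
    rw [Fintype.card_eq_one_iff]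
    refine ⟨⟨0, ?_⟩, ?_⟩
    · rw [hf]; simp
    · rintro ⟨y, hy⟩
      apply Subtype.ext
      by_contra hy0
      exact hcon y hy0 (by rw [← hf]; exact hy)
  rw [this] at hcw
  exact hp.out.one_lt.ne' (Nat.dvd_one.mp hcw)

omit [Fintype ι] in
theorem zmod2_one {p : ℕ} (h : p = 2) : ∀ x : ZMod p, x ≠ 0 → x = 1 := by
  subst h
  decide

omit [Fintype ι] in
theorem zmod2_dbl {p : ℕ} (h : p = 2) : ∀ x : ZMod p, x + x = 0 := by
  subst h
  decide

section Main

variable {p : ℕ} [hp : Fact p.Prime] {x₀ : ℤ}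

/-- the space `R` of real vectors `u` with `π u` in the radical -/
def InR (t m : ℤ) (c : Idx ι → ℤ) (x₀ : ℤ) {F : Type} [CommRing F] (u : ι → F) : Prop :=
  ∀ w : Par ι → F, bf t m c (sm t m (x₀ : F) 1 (rl u)) w = 0

/-- `m2` over `𝔽_p` -/
theorem m2' (m2 : ∀ u : ι → ℤ, (∃ k, ¬ (p : ℤ) ∣ u k) →
      (∀ w, (p : ℤ) ∣ bf t m c (sm t m x₀ 1 (rl u)) w) → ¬ (p : ℤ) ∣ qf t m c (rl u))
    (u : ι → ZMod p) (hR : InR t m c x₀ u) (hq : qf t m c (rl u) = 0) : u = 0 := by
  by_contra hu
  obtain ⟨k, hk⟩ : ∃ k, u k ≠ 0 := by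
    by_contra hcon
    push Not at hcon
    exact hu (funext hcon)
  choose U hU using fun i => ZMod.intCast_surjective (u i)
  have hUu : (fun i => (Int.castRingHom (ZMod p)) (U i)) = u := funext hU
  refine m2 U ⟨k, fun hd => hk ?_⟩ (fun w => ?_) ?_
  · rw [← hU k]; exact (ZMod.intCast_zmod_eq_zero_iff_dvd _ p).2 hd
  · rw [← ZMod.intCast_zmod_eq_zero_iff_dvd]
    have h1 := map_bf t m c (Int.castRingHom (ZMod p)) (sm t m x₀ 1 (rl U)) w
    have h2 : (fun k => (Int.castRingHom (ZMod p)) (sm t m x₀ 1 (rl U) k)) =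
        sm t m (x₀ : ZMod p) 1 (rl u) := by
      funext k
      rw [map_sm, rl_map, hUu, map_one]
      rfl
    rw [h2] at h1
    rw [hR] at h1
    exact h1
  · rw [← ZMod.intCast_zmod_eq_zero_iff_dvd]
    have h1 := map_qf t m c (Int.castRingHom (ZMod p)) (rl U)
    rw [rl_map, hUu, hq] at h1
    exact h1

variable {κ : Type} [Field κ] [CharP κ p] [Algebra (ZMod p) κ]

omit [CharP κ p] in
theorem dual_inR (φ : κ →ₗ[ZMod p] ZMod p) {u : ι → κ} (hu : InR t m c x₀ u) :
    InR t m c x₀ (fun i => φ (u i)) := by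
  intro w
  rw [← dual_sm, ← dual_bf, hu, map_zero]

end Main

end RadRAux

open RadRAux

/-- Singular radical vectors vanish modulo the prime above `p`. -/
theorem rad_ram_zero {p : ℕ} (hp : p.Prime) {x₀ : ℤ} (h1 : (p : ℤ) ∣ x₀ ^ 2 + t * x₀ + m)
    (h2 : (p : ℤ) ∣ 2 * x₀ + t)
    (m2 : ∀ u : ι → ℤ, (∃ k, ¬ (p : ℤ) ∣ u k) →
      (∀ w, (p : ℤ) ∣ bf t m c (sm t m x₀ 1 (rl u)) w) → ¬ (p : ℤ) ∣ qf t m c (rl u))
    {κ : Type} [Field κ] [CharP κ p] (v : Par ι → κ) (hv : ∀ w, bf t m c v w = 0)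
    (hq : qf t m c v = 0) (i : ι) : v (.inl i) = (x₀ : κ) * v (.inr i) := by
  haveI : Fact p.Prime := ⟨hp⟩
  letI : Algebra (ZMod p) κ := ZMod.algebra κ p
  have e1 : ((x₀ : κ) ^ 2 + (t : κ) * x₀ + m) = 0 := by
    have := (CharP.intCast_eq_zero_iff κ p (x₀ ^ 2 + t * x₀ + m)).2 h1
    push_cast at this
    exact this
  have e2 : (2 * (x₀ : κ) + t) = 0 := by
    have := (CharP.intCast_eq_zero_iff κ p (2 * x₀ + t)).2 h2
    push_cast at this
    exact this
  set v0 : ι → κ := fun i => v (.inl i) - (x₀ : κ) * v (.inr i) with hv0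
  set v1 : ι → κ := fun i => v (.inr i) with hv1
  set a : Par ι → κ := rl v0 with ha
  set b : Par ι → κ := rl v1 with hb
  set πb : Par ι → κ := sm t m (x₀ : κ) 1 b with hπb
  have hdec : v = a + πb := by
    funext k
    rcases k with i | i
    · simp only [ha, hb, hπb, Pi.add_apply, sm_inl, rl_inl, rl_inr, hv0, hv1]
      ring
    · simp only [ha, hb, hπb, Pi.add_apply, sm_inr, rl_inl, rl_inr, hv1]
      ring
  -- conjugation of `π`
  have hconj : ∀ x y : Par ι → κ, bf t m c (sm t m (x₀ : κ) 1 x) y =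
      - bf t m c x (sm t m (x₀ : κ) 1 y) := by
    intro x y
    rw [bf_sm]
    have : sm t m ((x₀ : κ) + (t : κ) * 1) (-1) y = (-1 : κ) • sm t m (x₀ : κ) 1 y := by
      rw [← sm_zero_right t m, sm_sm]
      congr 1
      · linear_combination e2
      · ring
    rw [this, bf_smul_right]
    ring
  have hππ : ∀ x : Par ι → κ, sm t m (x₀ : κ) 1 (sm t m (x₀ : κ) 1 x) = 0 := by
    intro x
    rw [sm_sm]
    have f1 : (x₀ : κ) * x₀ - (m : κ) * 1 * 1 = 0 := by linear_combination x₀ * e2 - e1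
    have f2 : (x₀ : κ) * 1 + 1 * (x₀ : κ) + (t : κ) * 1 * 1 = 0 := by linear_combination e2
    rw [f1, f2, sm_zero_right, zero_smul]
  have hBa : ∀ w, bf t m c a w = - bf t m c πb w := by
    intro w
    have := hv w
    rw [hdec, bf_add_left] at this
    linear_combination this
  -- `v0 ∈ R`
  have hR : InR t m c x₀ v0 := by
    intro w
    show bf t m c (sm t m (x₀ : κ) 1 a) w = 0
    rw [hconj, hBa, hπb, hconj, hππ, bf_zero_right]
    ring
  have hqa : qf t m c a = 0 := by
    have h3 := hq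
    rw [hdec, qf_add, hπb, qf_sm, ← hπb, hBa, bf_self, hπb, qf_sm] at h3
    linear_combination h3 + (qf t m c b) * e1
  have hBR : ∀ w : ι → κ, InR t m c x₀ w → bf t m c a (rl w) = 0 := by
    intro w hw
    rw [hBa, hπb, hconj, neg_neg, bf_symm]
    exact hw b
  -- functionals
  have hφR : ∀ φ : κ →ₗ[ZMod p] ZMod p, InR t m c x₀ (fun i => φ (v0 i)) := fun φ => dual_inR φ hR
  have hcast : ∀ r : ι → ZMod p, InR t m c x₀ r →
      InR t m c x₀ (fun i => algebraMap (ZMod p) κ (r i)) := by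
    intro r hr w
    rw [← Module.forall_dual_apply_eq_zero_iff (ZMod p)]
    intro φ
    rw [bf_symm]
    have h3 : (sm t m (x₀ : κ) 1 (rl fun i => algebraMap (ZMod p) κ (r i))) =
        fun k => algebraMap (ZMod p) κ (sm t m (x₀ : ZMod p) 1 (rl r) k) := by
      funext k
      rw [map_sm, rl_map, map_one, map_intCast]
    rw [h3, dual_bf, bf_symm]
    exact hr _
  have hBφ : ∀ φ : κ →ₗ[ZMod p] ZMod p, ∀ r : ι → ZMod p, InR t m c x₀ r →
      bf t m c (rl fun i => φ (v0 i)) (rl r) = 0 := by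
    intro φ r hr
    have h3 := hBR _ (hcast r hr)
    rw [← rl_map] at h3
    have h4 := dual_bf (t := t) (m := m) (c := c) φ a (rl r)
    rw [h3, map_zero] at h4
    rw [ha, dual_rl] at h4
    exact h4.symm
  have hz : v0 = 0 := by
    by_cases hp2 : p = 2
    · by_contra hne
      obtain ⟨i₀, hi₀⟩ : ∃ i₀, v0 i₀ ≠ 0 := by
        by_contra hcon
        push Not at hcon
        exact hne (funext hcon)
      obtain ⟨φ, hφ⟩ := Module.Projective.exists_dual_ne_zero (ZMod p) hi₀
      have hone : ∀ x : ZMod p, x ≠ 0 → x = 1 := zmod2_one hp2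
      have hdbl : ∀ x : ZMod p, x + x = 0 := zmod2_dbl hp2
      set s : ι → ZMod p := fun i => φ (v0 i) with hs
      have hs0 : s ≠ 0 := fun h => hφ (congrFun h i₀)
      have hsR := hφR φ
      have hqs : qf t m c (rl s) = 1 := hone _ fun h => hs0 (m2' m2 s hsR h)
      have hall : ∀ ψ : κ →ₗ[ZMod p] ZMod p, (fun i => ψ (v0 i)) ≠ 0 →
          (fun i => ψ (v0 i)) = s := by
        intro ψ hψ
        set s' : ι → ZMod p := fun i => ψ (v0 i) with hs'
        have hs'R := hφR ψ
        have hqs' : qf t m c (rl s') = 1 := hone _ fun h => hψ (m2' m2 s' hs'R h)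
        have hsum : s' + s = 0 := by
          apply m2' m2
          · intro w
            rw [rl_add, sm_add, bf_add_left, hs'R, hsR, add_zero]
          · rw [rl_add, qf_add, hqs, hqs', hBφ ψ s hsR, add_zero]
            exact hdbl 1
        funext i
        have h3 := congrFun hsum i
        have h4 := hdbl (s i)
        simp only [Pi.add_apply, Pi.zero_apply] at h3
        exact add_right_cancel (h3.trans h4.symm)
      have hsi : s i₀ = 1 := hone _ hφ
      have hval : ∀ i, v0 i = v0 i₀ * algebraMap (ZMod p) κ (s i) := by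
        intro i
        rw [← sub_eq_zero, ← Module.forall_dual_apply_eq_zero_iff (ZMod p)]
        intro ψ
        rw [map_sub, dual_mul]
        by_cases hψ : (fun i => ψ (v0 i)) = 0
        · rw [congrFun hψ i, congrFun hψ i₀]; simp
        · have h3 := hall ψ hψ
          rw [congrFun h3 i, congrFun h3 i₀, hsi, one_mul, sub_self]
      have h5 : a = (v0 i₀) • (fun k => algebraMap (ZMod p) κ (rl s k)) := by
        rw [rl_map, ← rl_smul, ha]
        congr 1
        funext i
        exact hval i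
      rw [h5, qf_smul, ← map_qf, hqs, map_one, mul_one] at hqa
      exact hi₀ (pow_eq_zero_iff (by norm_num) |>.1 hqa)
    · have h2ne : (2 : ZMod p) ≠ 0 := by
        intro h
        have : p ∣ 2 := (ZMod.natCast_eq_zero_iff 2 p).1 (by exact_mod_cast h)
        exact hp2 ((Nat.prime_dvd_prime_iff_eq hp Nat.prime_two).1 this)
      funext i
      show v0 i = 0
      rw [← Module.forall_dual_apply_eq_zero_iff (ZMod p)]
      intro φ
      have h3 := hBφ φ _ (hφR φ)
      rw [bf_self] at h3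
      have h4 := (mul_eq_zero.1 h3).resolve_left h2ne
      exact congrFun (m2' m2 _ (hφR φ) h4) i
  have h3 := congrFun hz i
  simp only [hv0, Pi.zero_apply] at h3
  linear_combination h3

/-- There are no totally singular planes. -/
theorem rad_ram_plane {p : ℕ} (hp : p.Prime) {x₀ : ℤ} (h1 : (p : ℤ) ∣ x₀ ^ 2 + t * x₀ + m)
    (h2 : (p : ℤ) ∣ 2 * x₀ + t)
    (m2 : ∀ u : ι → ℤ, (∃ k, ¬ (p : ℤ) ∣ u k) →
      (∀ w, (p : ℤ) ∣ bf t m c (sm t m x₀ 1 (rl u)) w) → ¬ (p : ℤ) ∣ qf t m c (rl u))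
    {κ : Type} [Field κ] [CharP κ p] (l μ : ι → κ)
    (hl : ∀ w, bf t m c (sm t m (x₀ : κ) 1 (rl l)) w = 0)
    (hμ : ∀ w, bf t m c (sm t m (x₀ : κ) 1 (rl μ)) w = 0)
    (ql : qf t m c (rl l) = 0) (qμ : qf t m c (rl μ) = 0) (hb : bf t m c (rl l) (rl μ) = 0)
    {i j : ι} (hli : l i = 1) (hlj : l j = 0) (hμi : μ i = 0) (hμj : μ j = 1) : False := by
  haveI : Fact p.Prime := ⟨hp⟩
  letI : Algebra (ZMod p) κ := ZMod.algebra κ p
  obtain ⟨φ, hφ⟩ := Module.Projective.exists_dual_eq_one (ZMod p) (one_ne_zero : (1 : κ) ≠ 0)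
  have hlR : ∀ ψ : κ →ₗ[ZMod p] ZMod p, InR t m c x₀ (fun i => ψ (l i)) := fun ψ => dual_inR ψ hl
  have hμR : InR t m c x₀ (fun i => φ (μ i)) := dual_inR φ hμ
  -- injectivity of `r ↦ (r i, r j)` on `R`
  have hinj : ∀ r : ι → ZMod p, InR t m c x₀ r → r i = 0 → r j = 0 → r = 0 := by
    intro r hr hri hrj
    by_contra hne
    set r1 : ι → ZMod p := fun i => φ (l i) with hr1
    set r2 : ι → ZMod p := fun i => φ (μ i) with hr2
    let q := fun u : ι → ZMod p => qf t m c (rl u)
    let B := fun u v : ι → ZMod p => bf t m c (rl u) (rl v)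
    obtain ⟨a, ha0, ha⟩ := exists_tern (p := p)
      ![![q r1, B r1 r2, B r1 r], ![0, q r2, B r2 r], ![0, 0, q r]]
    have h3 : qf t m c (rl (a 0 • r1 + a 1 • r2 + a 2 • r)) = 0 := by
      rw [rl_add, rl_add, rl_smul, rl_smul, rl_smul, qf_add, qf_add, qf_smul, qf_smul, qf_smul,
        bf_add_left, bf_smul_left, bf_smul_left, bf_smul_left, bf_smul_right, bf_smul_right,
        bf_smul_right]
      simp only [Fin.sum_univ_three, Matrix.cons_val_zero, Matrix.cons_val_one, Matrix.cons_val,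
        q, B] at ha
      linear_combination ha
    have h4 : InR t m c x₀ (a 0 • r1 + a 1 • r2 + a 2 • r) := by
      intro w
      rw [rl_add, rl_add, rl_smul, rl_smul, rl_smul, sm_add, sm_add, sm_smul, sm_smul, sm_smul,
        bf_add_left, bf_add_left, bf_smul_left, bf_smul_left, bf_smul_left, hlR φ, hμR, hr]
      ring
    have h5 := m2' m2 _ h4 h3
    have h6 := congrFun h5 i
    have h7 := congrFun h5 j
    simp only [Pi.add_apply, Pi.smul_apply, smul_eq_mul, Pi.zero_apply, hr1, hr2, hli, hlj, hμi,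
      hμj, hφ, map_zero, hri, hrj, mul_one, mul_zero, add_zero, zero_add] at h6 h7
    apply ha0
    funext k
    fin_cases k
    · exact h6
    · exact h7
    · show a 2 = 0
      by_contra h8
      apply hne
      rw [h6, h7, zero_smul, zero_smul, zero_add, zero_add] at h5
      exact (smul_eq_zero.1 h5).resolve_left h8
  -- all entries of `l` lie in `𝔽_p`
  have hmem : ∀ k, l k ∈ Submodule.span (ZMod p) {(1 : κ)} := by
    intro k
    by_contra hk
    obtain ⟨ψ, hψ, hψ1⟩ := Submodule.exists_dual_map_eq_bot_of_notMem hk inferInstance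
    have hψ0 : ψ 1 = 0 := by
      have : ψ 1 ∈ (Submodule.span (ZMod p) {(1 : κ)}).map ψ :=
        Submodule.mem_map_of_mem (Submodule.mem_span_singleton_self _)
      rw [hψ1] at this
      exact this
    have h3 := hinj _ (hlR ψ) (by rw [hli]; exact hψ0) (by rw [hlj]; exact map_zero ψ)
    exact hψ (congrFun h3 k)
  have hval : l = fun k => algebraMap (ZMod p) κ (φ (l k)) := by
    funext k
    obtain ⟨a, ha⟩ := Submodule.mem_span_singleton.1 (hmem k)
    rw [← ha, map_smul, hφ, smul_eq_mul, mul_one, Algebra.smul_def, mul_one]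
  have h3 : qf t m c (rl fun k => φ (l k)) = 0 := by
    rw [hval, ← rl_map, ← map_qf] at ql
    exact (map_eq_zero_iff _ (algebraMap (ZMod p) κ).injective).1 ql
  have h4 := congrFun (m2' m2 _ (hlR φ) h3) i
  simp only [hli, hφ, Pi.zero_apply] at h4
  exact one_ne_zero h4

end Herm

end Pool.MP_602153_ag
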