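import Mathlib
import Pool.Agent.HermVar.Gram

set_option autoImplicit false

/-!
# The radical of a Hermitian form at an unramified prime
-/

namespace Pool.MP_602153_ag

namespace Herm

open WeilQuad

namespace RadU

section IntPart

variable {ι : Type} [Fintype ι] {t m : ℤ} {c : Idx ι → ℤ} {p : ℕ}

variable (t m c p) in
/-- The integral radical modulo `p`. -/
def InRad (V : Par ι → ℤ) : Prop := ∀ w, (p : ℤ) ∣ bf t m c V w

theorem InRad.add {V W : Par ι → ℤ} (hV : InRad t m c p V) (hW : InRad t m c p W) :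
    InRad t m c p (V + W) := by
  intro w
  rw [bf_add_left]
  exact dvd_add (hV w) (hW w)

theorem InRad.smul (a : ℤ) {V : Par ι → ℤ} (hV : InRad t m c p V) :
    InRad t m c p (a • V) := by
  intro w
  rw [bf_smul_left]
  exact Dvd.dvd.mul_left (hV w) a

theorem InRad.sm (x y : ℤ) {V : Par ι → ℤ} (hV : InRad t m c p V) :
    InRad t m c p (sm t m x y V) := by
  intro w
  rw [bf_sm]
  exact hV _

theorem InRad.qf (hp : p.Prime) (hD : ¬ (p : ℤ) ∣ t ^ 2 - 4 * m) {V : Par ι → ℤ}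
    (hV : InRad t m c p V) : (p : ℤ) ∣ qf t m c V := by
  have h1 : (p : ℤ) ∣ 2 * Herm.qf t m c V := by
    rw [← bf_self]
    exact hV V
  have h2 : (p : ℤ) ∣ t * Herm.qf t m c V := by
    have := hV (Herm.sm t m 0 1 V)
    rw [bf_self_sm] at this
    simpa using this
  have hpp := Nat.prime_iff_prime_int.1 hp
  rcases hpp.dvd_or_dvd h1 with h | h
  · rcases hpp.dvd_or_dvd h2 with h' | h'
    · exfalso
      apply hD
      have h3 : t ^ 2 - 4 * m = t * t - 2 * (2 * m) := by ring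
      rw [h3]
      exact dvd_sub (Dvd.dvd.mul_right h' _) (Dvd.dvd.mul_right h _)
    · exact h'
  · exact h

theorem norm_inert (hp : p.Prime) (hin : ∀ x : ℤ, ¬ (p : ℤ) ∣ x ^ 2 + t * x + m) {x y : ℤ}
    (h : (p : ℤ) ∣ x ^ 2 + t * x * y + m * y ^ 2) : (p : ℤ) ∣ x ∧ (p : ℤ) ∣ y := by
  have : Fact p.Prime := ⟨hp⟩
  have hpp := Nat.prime_iff_prime_int.1 hp
  have hy : (p : ℤ) ∣ y := by
    by_contra hy
    have hy' : (y : ZMod p) ≠ 0 := fun h0 => hy ((ZMod.intCast_zmod_eq_zero_iff_dvd _ _).1 h0)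
    obtain ⟨z, hz⟩ := ZMod.intCast_surjective ((x : ZMod p) * (y : ZMod p)⁻¹)
    apply hin z
    rw [← ZMod.intCast_zmod_eq_zero_iff_dvd] at h ⊢
    push_cast at h ⊢
    rw [hz]
    field_simp
    linear_combination h
  refine ⟨?_, hy⟩
  have h2 : (p : ℤ) ∣ x ^ 2 := by
    have h3 : x ^ 2 = (x ^ 2 + t * x * y + m * y ^ 2) - y * (t * x + m * y) := by ring
    rw [h3]
    exact dvd_sub h (Dvd.dvd.mul_right hy _)
  exact hpp.dvd_of_dvd_pow h2

end IntPart

section Chev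

open MvPolynomial

/-- A ternary quadratic form over `𝔽_p` is isotropic. -/
theorem quad3 {p : ℕ} [Fact p.Prime] (a1 a2 a3 a4 a5 a6 : ZMod p) :
    ∃ x : Fin 3 → ZMod p, x ≠ 0 ∧ a1 * x 0 ^ 2 + a2 * x 1 ^ 2 + a3 * x 2 ^ 2 +
      a4 * (x 0 * x 1) + a5 * (x 0 * x 2) + a6 * (x 1 * x 2) = 0 := by
  classical
  let f : MvPolynomial (Fin 3) (ZMod p) := C a1 * X 0 ^ 2 + C a2 * X 1 ^ 2 + C a3 * X 2 ^ 2 +
      C a4 * (X 0 * X 1) + C a5 * (X 0 * X 2) + C a6 * (X 1 * X 2)
  have hsq : ∀ (a : ZMod p) (i : Fin 3), (C a * X i ^ 2 : MvPolynomial (Fin 3) (ZMod p)).IsHomogeneous 2 := by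
    intro a i
    have h := (isHomogeneous_C (Fin 3) a).mul ((isHomogeneous_X (ZMod p) i).pow 2)
    simpa using h
  have hmul : ∀ (a : ZMod p) (i j : Fin 3),
      (C a * (X i * X j) : MvPolynomial (Fin 3) (ZMod p)).IsHomogeneous 2 := by
    intro a i j
    have h := (isHomogeneous_C (Fin 3) a).mul ((isHomogeneous_X (ZMod p) i).mul
      (isHomogeneous_X (ZMod p) j))
    simpa using h
  have hf : f.IsHomogeneous 2 := by
    refine IsHomogeneous.add (IsHomogeneous.add (IsHomogeneous.add (IsHomogeneous.add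
      (IsHomogeneous.add ?_ ?_) ?_) ?_) ?_) ?_
    · exact hsq _ _
    · exact hsq _ _
    · exact hsq _ _
    · exact hmul _ _ _
    · exact hmul _ _ _
    · exact hmul _ _ _
  have hdeg : f.totalDegree < Fintype.card (Fin 3) :=
    lt_of_le_of_lt hf.totalDegree_le (by simp)
  have hev : ∀ x : Fin 3 → ZMod p, eval x f = a1 * x 0 ^ 2 + a2 * x 1 ^ 2 + a3 * x 2 ^ 2 +
      a4 * (x 0 * x 1) + a5 * (x 0 * x 2) + a6 * (x 1 * x 2) := by
    intro x
    simp only [f, map_add, map_mul, map_pow, eval_C, eval_X]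
  have hcard := char_dvd_card_solutions p hdeg
  by_contra hcon
  push Not at hcon
  have hone : Fintype.card {x : Fin 3 → ZMod p // eval x f = 0} = 1 := by
    rw [Fintype.card_eq_one_iff]
    refine ⟨⟨0, ?_⟩, ?_⟩
    · rw [hev]
      simp
    · rintro ⟨x, hx⟩
      apply Subtype.ext
      by_contra hne
      exact hcon x hne (by rw [← hev]; exact hx)
  rw [hone] at hcard
  have hp : p.Prime := Fact.out
  exact hp.one_lt.ne' (Nat.dvd_one.1 hcard)

variable {ι : Type} [Fintype ι] {t m : ℤ} {c : Idx ι → ℤ} {p : ℕ}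

theorem chev (hp : p.Prime) (hD : ¬ (p : ℤ) ∣ t ^ 2 - 4 * m) {V₁ V₂ V₃ : Par ι → ℤ}
    (h₁ : InRad t m c p V₁) (h₂ : InRad t m c p V₂) (h₃ : InRad t m c p V₃) :
    ∃ x y z : ℤ, ¬ ((p : ℤ) ∣ x ∧ (p : ℤ) ∣ y ∧ (p : ℤ) ∣ z) ∧
      (p : ℤ) ^ 2 ∣ qf t m c (x • V₁ + y • V₂ + z • V₃) := by
  have : Fact p.Prime := ⟨hp⟩
  obtain ⟨q1, hq1⟩ := h₁.qf hp hD
  obtain ⟨q2, hq2⟩ := h₂.qf hp hD
  obtain ⟨q3, hq3⟩ := h₃.qf hp hD
  obtain ⟨b12, hb12⟩ := h₁ V₂
  obtain ⟨b13, hb13⟩ := h₁ V₃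
  obtain ⟨b23, hb23⟩ := h₂ V₃
  obtain ⟨x, hx0, hx⟩ := quad3 (q1 : ZMod p) q2 q3 b12 b13 b23
  obtain ⟨a, ha⟩ := ZMod.intCast_surjective (x 0)
  obtain ⟨b, hb⟩ := ZMod.intCast_surjective (x 1)
  obtain ⟨d, hd⟩ := ZMod.intCast_surjective (x 2)
  refine ⟨a, b, d, ?_, ?_⟩
  · rintro ⟨h1, h2, h3⟩
    apply hx0
    rw [← ZMod.intCast_zmod_eq_zero_iff_dvd] at h1 h2 h3
    rw [ha] at h1
    rw [hb] at h2
    rw [hd] at h3
    funext i
    fin_cases i
    · exact h1
    · exact h2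
    · exact h3
  · have hexp : qf t m c (a • V₁ + b • V₂ + d • V₃) =
        p * (q1 * a ^ 2 + q2 * b ^ 2 + q3 * d ^ 2 + b12 * (a * b) + b13 * (a * d) +
          b23 * (b * d)) := by
      rw [qf_add, qf_add, bf_add_left, qf_smul, qf_smul, qf_smul, bf_smul_left, bf_smul_right,
        bf_smul_left, bf_smul_right, bf_smul_left, bf_smul_right, hq1, hq2, hq3, hb12, hb13, hb23]
      ring
    rw [hexp, pow_two]
    apply mul_dvd_mul_left
    rw [← ZMod.intCast_zmod_eq_zero_iff_dvd]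
    push_cast
    rw [ha, hb, hd]
    exact hx

end Chev

section Red

variable {ι : Type} {t m : ℤ} {p : ℕ}

variable (p) in
/-- Reduction modulo `p`. -/
def red (V : Par ι → ℤ) : Par ι → ZMod p := fun k => (V k : ZMod p)

theorem red_eq_zero {V : Par ι → ℤ} : red p V = 0 ↔ ∀ k, (p : ℤ) ∣ V k := by
  constructor
  · intro h k
    rw [← ZMod.intCast_zmod_eq_zero_iff_dvd]
    exact congrFun h k
  · intro h
    funext k
    exact (ZMod.intCast_zmod_eq_zero_iff_dvd _ _).2 (h k)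

theorem red_surjective (v : Par ι → ZMod p) : ∃ V : Par ι → ℤ, red p V = v := by
  choose V hV using fun k => ZMod.intCast_surjective (v k)
  exact ⟨V, funext hV⟩

theorem red_add (V W : Par ι → ℤ) : red p (V + W) = red p V + red p W := by
  funext k
  simp [red]

theorem red_smul (a : ℤ) (V : Par ι → ℤ) : red p (a • V) = (a : ZMod p) • red p V := by
  funext k
  simp [red]

theorem red_sm (x y : ℤ) (V : Par ι → ℤ) :
    red p (sm t m x y V) = sm t m (x : ZMod p) (y : ZMod p) (red p V) := by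
  funext k
  exact map_sm t m (Int.castRingHom (ZMod p)) x y V k

theorem red_gv (V : Par ι → ℤ) (s : Idx ι) :
    ((gv t m V s : ℤ) : ZMod p) = gv t m (red p V) s :=
  map_gv t m (Int.castRingHom (ZMod p)) V s

theorem red_bf [Fintype ι] (c : Idx ι → ℤ) (V W : Par ι → ℤ) :
    ((bf t m c V W : ℤ) : ZMod p) = bf t m c (red p V) (red p W) :=
  map_bf t m c (Int.castRingHom (ZMod p)) V W

theorem inRad_iff [Fintype ι] (c : Idx ι → ℤ) (V : Par ι → ℤ) :
    InRad t m c p V ↔ ∀ w, bf t m c (red p V) w = 0 := by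
  constructor
  · intro h w
    obtain ⟨W, rfl⟩ := red_surjective w
    rw [← red_bf, ZMod.intCast_zmod_eq_zero_iff_dvd]
    exact h W
  · intro h W
    rw [← ZMod.intCast_zmod_eq_zero_iff_dvd, red_bf]
    exact h _

end Red

section Inert

variable {ι : Type} [Fintype ι] {t m : ℤ} {c : Idx ι → ℤ} {p : ℕ}

omit [Fintype ι] in
theorem unimod_inert (hp : p.Prime) (hin : ∀ x : ℤ, ¬ (p : ℤ) ∣ x ^ 2 + t * x + m)
    {V : Par ι → ℤ} (hV : ∀ s, (p : ℤ) ∣ gv t m V s) (k : Par ι) : (p : ℤ) ∣ V k := by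
  have key : ∀ i, (p : ℤ) ∣ V (.inl i) ∧ (p : ℤ) ∣ V (.inr i) := by
    intro i
    apply norm_inert hp hin
    have h := hV (.inl (i, i))
    rw [gv_inl] at h
    have h2 : V (Sum.inl i) ^ 2 + t * V (Sum.inl i) * V (Sum.inr i) + m * V (Sum.inr i) ^ 2 =
        V (Sum.inl i) * V (Sum.inl i) + (t : ℤ) * V (Sum.inl i) * V (Sum.inr i) +
          (m : ℤ) * V (Sum.inr i) * V (Sum.inr i) := by ring
    rw [h2]
    exact_mod_cast h
  rcases k with i | i
  · exact (key i).1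
  · exact (key i).2

theorem inert (hp : p.Prime) (hD : ¬ (p : ℤ) ∣ t ^ 2 - 4 * m)
    (m1 : ∀ v : Par ι → ℤ, (∃ s, ¬ (p : ℤ) ∣ gv t m v s) → (∀ w, (p : ℤ) ∣ bf t m c v w) →
      ¬ (p : ℤ) ^ 2 ∣ qf t m c v)
    (hin : ∀ x : ℤ, ¬ (p : ℤ) ∣ x ^ 2 + t * x + m) :
    ∃ V : Par ι → ℤ, InRad t m c p V ∧ ∀ W, InRad t m c p W →
      ∃ x y : ZMod p, red p W = sm t m x y (red p V) := by
  have : Fact p.Prime := ⟨hp⟩
  have hpp := Nat.prime_iff_prime_int.1 hp
  by_cases h0 : ∀ W, InRad t m c p W → red p W = 0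
  · refine ⟨0, ?_, ?_⟩
    · intro w
      rw [bf_symm, bf_zero_right]
      exact dvd_zero _
    · intro W hW
      refine ⟨0, 0, ?_⟩
      rw [h0 W hW, sm_zero_right, zero_smul]
  · push Not at h0
    obtain ⟨V, hV, hV0⟩ := h0
    refine ⟨V, hV, ?_⟩
    intro W hW
    obtain ⟨x, y, z, hxyz, hq⟩ := chev hp hD hV (hV.sm 0 1) hW
    have hU : InRad t m c p (x • V + y • sm t m 0 1 V + z • W) :=
      ((hV.smul x).add ((hV.sm 0 1).smul y)).add (hW.smul z)
    have hU0 : red p (x • V + y • sm t m 0 1 V + z • W) = 0 := by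
      rw [red_eq_zero]
      refine unimod_inert hp hin ?_
      by_contra hcon
      push Not at hcon
      exact m1 _ hcon hU hq
    rw [red_add, red_add, red_smul, red_smul, red_smul, red_sm] at hU0
    have hcomb : (x : ZMod p) • red p V + (y : ZMod p) • sm t m ((0 : ℤ) : ZMod p) ((1 : ℤ) : ZMod p)
        (red p V) = sm t m (x : ZMod p) (y : ZMod p) (red p V) := by
      funext k
      rcases k with i | i
      · simp only [Pi.add_apply, Pi.smul_apply, smul_eq_mul, sm_inl, Int.cast_zero, Int.cast_one]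
        ring
      · simp only [Pi.add_apply, Pi.smul_apply, smul_eq_mul, sm_inr, Int.cast_zero, Int.cast_one]
        ring
    rw [hcomb] at hU0
    by_cases hz : (z : ZMod p) = 0
    · exfalso
      rw [hz, zero_smul, add_zero] at hU0
      have h2 := congrArg (sm t m ((x : ZMod p) + (t : ZMod p) * y) (-(y : ZMod p))) hU0
      rw [sm_sm, sm_zero_vec] at h2
      have hn : ((x : ZMod p) + (t : ZMod p) * y) * x - (m : ZMod p) * (-(y : ZMod p)) * y ≠ 0 := by
        intro hn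
        have h3 : (p : ℤ) ∣ x ^ 2 + t * x * y + m * y ^ 2 := by
          rw [← ZMod.intCast_zmod_eq_zero_iff_dvd]
          push_cast
          rw [← hn]
          ring
        have h4 := norm_inert hp hin h3
        exact hxyz ⟨h4.1, h4.2, (ZMod.intCast_zmod_eq_zero_iff_dvd _ _).1 hz⟩
      have hz2 : ((x : ZMod p) + (t : ZMod p) * y) * y + -(y : ZMod p) * x +
          (t : ZMod p) * -(y : ZMod p) * y = 0 := by ring
      rw [hz2, sm_zero_right] at h2
      rcases smul_eq_zero.1 h2 with h5 | h5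
      · exact hn h5
      · exact hV0 h5
    · refine ⟨-(z : ZMod p)⁻¹ * x, -(z : ZMod p)⁻¹ * y, ?_⟩
      have h3 : red p W = -(z : ZMod p)⁻¹ • sm t m (x : ZMod p) (y : ZMod p) (red p V) := by
        have h4 : (z : ZMod p) • red p W = - sm t m (x : ZMod p) (y : ZMod p) (red p V) := by
          rw [eq_neg_iff_add_eq_zero, add_comm]
          exact hU0
        calc red p W = (z : ZMod p)⁻¹ • ((z : ZMod p) • red p W) := by
              rw [smul_smul, inv_mul_cancel₀ hz, one_smul]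
          _ = _ := by
              rw [h4, smul_neg, neg_smul]
      rw [h3]
      funext k
      rcases k with i | i
      · simp only [Pi.smul_apply, smul_eq_mul, sm_inl]
        ring
      · simp only [Pi.smul_apply, smul_eq_mul, sm_inr]
        ring

end Inert

section Split

variable {ι : Type} {t m : ℤ} {p : ℕ}

theorem unimod_split [Fact p.Prime] {x₀ x₁ : ZMod p} (h1 : x₁ = -(t + x₀))
    (h0 : x₀ ^ 2 + t * x₀ + m = 0) (hd : x₀ - x₁ ≠ 0) {u y : Par ι → ZMod p}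
    (hu : sm t m x₀ 1 u = 0) (hy : sm t m x₁ 1 y = 0) (hgv : ∀ s, gv t m (u + y) s = 0) :
    u = 0 ∨ y = 0 := by
  have hu' : ∀ i, u (.inl i) = x₁ * u (.inr i) := by
    intro i
    have h := congrFun hu (.inr i)
    rw [sm_inr] at h
    simp only [Pi.zero_apply] at h
    rw [h1]
    linear_combination h
  have hy' : ∀ i, y (.inl i) = x₀ * y (.inr i) := by
    intro i
    have h := congrFun hy (.inr i)
    rw [sm_inr] at h
    simp only [Pi.zero_apply] at h
    rw [h1] at h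
    linear_combination h
  have hprod : ∀ i j, u (.inr i) * y (.inr j) = 0 := by
    intro i j
    have ha := hgv (.inl (i, j))
    have hb := hgv (.inr (i, j))
    rw [gv_inl] at ha
    rw [gv_inr] at hb
    simp only [Pi.add_apply] at ha hb
    rw [hu' i, hu' j, hy' i, hy' j] at ha hb
    have h2 : (x₀ - x₁) ^ 2 * (u (.inr i) * y (.inr j)) = 0 := by
      have hx1 : x₁ ^ 2 + t * x₁ + m = 0 := by
        rw [h1]
        linear_combination h0
      subst h1
      linear_combination (-1 : ZMod p) * ha + x₀ * hb + ((u (.inr i) + y (.inr i)) *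
        (u (.inr j) + y (.inr j))) * h0
    rcases mul_eq_zero.1 h2 with h3 | h3
    · exact absurd (pow_eq_zero_iff (two_ne_zero) |>.1 h3) hd
    · exact h3
  by_cases hu0 : ∀ i, u (.inr i) = 0
  · left
    funext k
    rcases k with i | i
    · rw [hu' i, hu0 i, mul_zero]
      rfl
    · exact hu0 i
  · push Not at hu0
    obtain ⟨i, hi⟩ := hu0
    right
    have hy0 : ∀ j, y (.inr j) = 0 := fun j => (mul_eq_zero.1 (hprod i j)).resolve_left hi
    funext k
    rcases k with j | j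
    · rw [hy' j, hy0 j, mul_zero]
      rfl
    · exact hy0 j

end Split

section Split2

variable {ι : Type} [Fintype ι] {t m : ℤ} {c : Idx ι → ℤ} {p : ℕ}

/-- Rank one if both parts of the radical are nonzero. -/
theorem split_both [Fact p.Prime] (hD : ¬ (p : ℤ) ∣ t ^ 2 - 4 * m)
    (m1 : ∀ v : Par ι → ℤ, (∃ s, ¬ (p : ℤ) ∣ gv t m v s) → (∀ w, (p : ℤ) ∣ bf t m c v w) →
      ¬ (p : ℤ) ^ 2 ∣ qf t m c v)
    {x₀ x₁ : ℤ} (h1 : x₁ = -(t + x₀)) (h0 : (p : ℤ) ∣ x₀ ^ 2 + t * x₀ + m)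
    {X Y : Par ι → ℤ} (hX : InRad t m c p X) (hY : InRad t m c p Y)
    (hX0 : sm t m (x₁ : ZMod p) 1 (red p X) ≠ 0) (hY0 : sm t m (x₀ : ZMod p) 1 (red p Y) ≠ 0) :
    ∃ V : Par ι → ℤ, InRad t m c p V ∧ ∀ W, InRad t m c p W →
      ∃ x y : ZMod p, red p W = sm t m x y (red p V) := by
  have hp : p.Prime := Fact.out
  have hpp := Nat.prime_iff_prime_int.1 hp
  -- arithmetic of `x₀`, `x₁` modulo `p`
  have h0' : (x₀ : ZMod p) ^ 2 + t * x₀ + m = 0 := by
    rw [← ZMod.intCast_zmod_eq_zero_iff_dvd] at h0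
    push_cast at h0
    exact h0
  have h1' : (x₁ : ZMod p) = -(t + x₀) := by
    rw [h1]
    push_cast
    ring
  have h0x : (p : ℤ) ∣ x₁ ^ 2 + t * x₁ + m := by
    have : x₁ ^ 2 + t * x₁ + m = x₀ ^ 2 + t * x₀ + m := by
      rw [h1]
      ring
    rw [this]
    exact h0
  have h0x' : (x₁ : ZMod p) ^ 2 + t * x₁ + m = 0 := by
    rw [h1']
    linear_combination h0'
  have hd : (x₀ : ZMod p) - x₁ ≠ 0 := by
    intro hd
    apply hD
    rw [← ZMod.intCast_zmod_eq_zero_iff_dvd]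
    push_cast
    rw [h1'] at hd
    linear_combination (2 * (x₀ : ZMod p) + t) * hd - 4 * h0'
  -- the product of the two idempotents vanishes
  have hee : ∀ v : Par ι → ZMod p, sm t m (x₀ : ZMod p) 1 (sm t m (x₁ : ZMod p) 1 v) = 0 := by
    intro v
    rw [sm_sm]
    have e1 : (x₀ : ZMod p) * x₁ - (m : ZMod p) * 1 * 1 = 0 := by
      rw [h1']
      linear_combination (-1 : ZMod p) * h0'
    have e2 : (x₀ : ZMod p) * 1 + 1 * x₁ + (t : ZMod p) * 1 * 1 = 0 := by
      rw [h1']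
      ring
    rw [e1, e2, sm_zero_right, zero_smul]
  have hee' : ∀ v : Par ι → ZMod p, sm t m (x₁ : ZMod p) 1 (sm t m (x₀ : ZMod p) 1 v) = 0 := by
    intro v
    rw [sm_sm]
    have e1 : (x₁ : ZMod p) * x₀ - (m : ZMod p) * 1 * 1 = 0 := by
      rw [h1']
      linear_combination (-1 : ZMod p) * h0'
    have e2 : (x₁ : ZMod p) * 1 + 1 * x₀ + (t : ZMod p) * 1 * 1 = 0 := by
      rw [h1']
      ring
    rw [e1, e2, sm_zero_right, zero_smul]
  -- the difference
  have hdiff : ∀ v : Par ι → ZMod p, sm t m (x₀ : ZMod p) 1 v - sm t m (x₁ : ZMod p) 1 v =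
      ((x₀ : ZMod p) - x₁) • v := by
    intro v
    funext k
    rcases k with i | i
    · simp only [Pi.sub_apply, Pi.smul_apply, smul_eq_mul, sm_inl]
      ring
    · simp only [Pi.sub_apply, Pi.smul_apply, smul_eq_mul, sm_inr]
      ring
  have hsub : ∀ (a : ZMod p) (v w : Par ι → ZMod p), sm t m a 1 (v - w) =
      sm t m a 1 v - sm t m a 1 w := by
    intro a v w
    funext k
    rcases k with i | i
    · simp only [Pi.sub_apply, sm_inl]
      ring
    · simp only [Pi.sub_apply, sm_inr]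
      ring
  -- forms
  have hq : ∀ (a : ℤ), (p : ℤ) ∣ a ^ 2 + t * a + m → ∀ V : Par ι → ℤ, InRad t m c p V →
      (p : ℤ) ^ 2 ∣ qf t m c (sm t m a 1 V) := by
    intro a ha V hV
    rw [qf_sm, pow_two]
    have e : a ^ 2 + t * a * 1 + m * 1 ^ 2 = a ^ 2 + t * a + m := by ring
    have e' : ((a : ℤ) ^ 2 + (t : ℤ) * a * 1 + (m : ℤ) * 1 ^ 2) = a ^ 2 + t * a + m := by ring
    apply mul_dvd_mul
    · have h := ha
      rw [← e] at h
      exact_mod_cast h
    · exact hV.qf hp hD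
  -- the vanishing criterion
  have hvan : ∀ U Z : Par ι → ℤ, InRad t m c p U → InRad t m c p Z →
      sm t m (x₀ : ZMod p) 1 (red p U) = 0 → sm t m (x₁ : ZMod p) 1 (red p Z) = 0 →
      (p : ℤ) ^ 2 ∣ qf t m c U → (p : ℤ) ^ 2 ∣ qf t m c Z → (p : ℤ) ^ 2 ∣ bf t m c U Z →
      red p U = 0 ∨ red p Z = 0 := by
    intro U Z hU hZ eU eZ qU qZ bUZ
    apply unimod_split h1' h0' hd eU eZ
    by_contra hcon
    push Not at hcon
    obtain ⟨s, hs⟩ := hcon
    refine m1 (U + Z) ⟨s, ?_⟩ (hU.add hZ) ?_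
    · rw [← ZMod.intCast_zmod_eq_zero_iff_dvd, red_gv, red_add]
      exact hs
    · rw [qf_add]
      exact dvd_add (dvd_add qU qZ) bUZ
  -- the generators
  obtain ⟨x, hx⟩ : ∃ x, x = sm t m x₁ 1 X := ⟨_, rfl⟩
  obtain ⟨y, hy⟩ : ∃ y, y = sm t m x₀ 1 Y := ⟨_, rfl⟩
  have hxr : InRad t m c p x := by
    rw [hx]
    exact hX.sm _ _
  have hyr : InRad t m c p y := by
    rw [hy]
    exact hY.sm _ _
  have hxred : red p x = sm t m (x₁ : ZMod p) 1 (red p X) := by
    rw [hx, red_sm, Int.cast_one]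
  have hyred : red p y = sm t m (x₀ : ZMod p) 1 (red p Y) := by
    rw [hy, red_sm, Int.cast_one]
  have hx0 : red p x ≠ 0 := by
    rw [hxred]
    exact hX0
  have hy0 : red p y ≠ 0 := by
    rw [hyred]
    exact hY0
  have ex : sm t m (x₀ : ZMod p) 1 (red p x) = 0 := by
    rw [hxred]
    exact hee _
  have ey : sm t m (x₁ : ZMod p) 1 (red p y) = 0 := by
    rw [hyred]
    exact hee' _
  have qx : (p : ℤ) ^ 2 ∣ qf t m c x := by
    rw [hx]
    exact hq _ h0x _ hX
  have qy : (p : ℤ) ^ 2 ∣ qf t m c y := by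
    rw [hy]
    exact hq _ h0 _ hY
  obtain ⟨β, hβ⟩ := hxr y
  have hβ0 : (β : ZMod p) ≠ 0 := by
    intro hb
    rw [ZMod.intCast_zmod_eq_zero_iff_dvd] at hb
    have hb2 : (p : ℤ) ^ 2 ∣ bf t m c x y := by
      rw [hβ, pow_two]
      exact mul_dvd_mul_left _ hb
    rcases hvan x y hxr hyr ex ey qx qy hb2 with h | h
    · exact hx0 h
    · exact hy0 h
  -- multiples
  have hqs : ∀ (a b : ℤ) (U Z : Par ι → ℤ), (p : ℤ) ^ 2 ∣ qf t m c U → (p : ℤ) ^ 2 ∣ qf t m c Z →
      (p : ℤ) ^ 2 ∣ bf t m c U Z → (p : ℤ) ^ 2 ∣ qf t m c (a • U + b • Z) := by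
    intro a b U Z hU hZ hb
    rw [qf_add, qf_smul, qf_smul, bf_smul_left, bf_smul_right]
    refine dvd_add (dvd_add (Dvd.dvd.mul_left hU _) (Dvd.dvd.mul_left hZ _)) ?_
    exact Dvd.dvd.mul_left (Dvd.dvd.mul_left hb _) _
  -- two vectors on the same side are orthogonal modulo `p ^ 2`
  have hbb : ∀ (a b : ℤ), (p : ℤ) ∣ a ^ 2 + t * a + m → ∀ U Z : Par ι → ℤ, InRad t m c p U →
      InRad t m c p Z → (p : ℤ) ^ 2 ∣ bf t m c (sm t m a 1 U) (sm t m a 1 Z) := by
    intro a _ ha U Z hU hZ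
    rw [bf_sm, sm_sm]
    have e2 : ((a : ℤ) + (t : ℤ) * 1) * 1 + -1 * a + (t : ℤ) * -1 * 1 = 0 := by ring
    have e3 : (((a : ℤ) + ((t : ℤ) : ℤ) * 1) * a - ((m : ℤ) : ℤ) * -1 * 1) = a ^ 2 + t * a + m := by
      ring
    have e2' : ((a : ℤ) + ((t : ℤ) : ℤ) * 1) * 1 + -1 * a + ((t : ℤ) : ℤ) * -1 * 1 = 0 := by ring
    simp only [Int.cast_id] at e2' e3 ⊢
    rw [e2', e3, sm_zero_right, bf_smul_right, pow_two]
    exact mul_dvd_mul ha (hU Z)
  have key1 : ∀ W, InRad t m c p W → ∃ s : ZMod p,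
      sm t m (x₁ : ZMod p) 1 (red p W) = s • red p x := by
    intro W hW
    obtain ⟨u, hu⟩ : ∃ u, u = sm t m x₁ 1 W := ⟨_, rfl⟩
    have hur : InRad t m c p u := by
      rw [hu]
      exact hW.sm _ _
    have hured : red p u = sm t m (x₁ : ZMod p) 1 (red p W) := by
      rw [hu, red_sm, Int.cast_one]
    obtain ⟨γ, hγ⟩ := hur y
    have hU : InRad t m c p (β • u + (-γ) • x) := (hur.smul _).add (hxr.smul _)
    have qu : (p : ℤ) ^ 2 ∣ qf t m c u := by
      rw [hu]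
      exact hq _ h0x _ hW
    have bux : (p : ℤ) ^ 2 ∣ bf t m c u x := by
      rw [hu, hx]
      exact hbb x₁ x₁ h0x W X hW hX
    have hUy : (p : ℤ) ^ 2 ∣ bf t m c (β • u + (-γ) • x) y := by
      rw [bf_add_left, bf_smul_left, bf_smul_left, hβ, hγ]
      have : β * (p * γ) + -γ * (p * β) = 0 := by ring
      rw [this]
      exact dvd_zero _
    have eU : sm t m (x₀ : ZMod p) 1 (red p (β • u + (-γ) • x)) = 0 := by
      rw [red_add, red_smul, red_smul, sm_add, sm_smul, sm_smul, ex, hured, hee, smul_zero,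
        smul_zero, add_zero]
    rcases hvan _ y hU hyr eU ey (hqs _ _ _ _ qu qx bux) qy hUy with h | h
    · rw [red_add, red_smul, red_smul, hured] at h
      refine ⟨(β : ZMod p)⁻¹ * γ, ?_⟩
      have h2 : (β : ZMod p) • sm t m (x₁ : ZMod p) 1 (red p W) = (γ : ZMod p) • red p x := by
        have h3 : ((-γ : ℤ) : ZMod p) = -(γ : ZMod p) := by push_cast; ring
        rw [h3, neg_smul, add_neg_eq_zero] at h
        exact h
      rw [mul_smul, ← h2, smul_smul, inv_mul_cancel₀ hβ0, one_smul]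
    · exact absurd h hy0
  have key2 : ∀ W, InRad t m c p W → ∃ s : ZMod p,
      sm t m (x₀ : ZMod p) 1 (red p W) = s • red p y := by
    intro W hW
    obtain ⟨u, hu⟩ : ∃ u, u = sm t m x₀ 1 W := ⟨_, rfl⟩
    have hur : InRad t m c p u := by
      rw [hu]
      exact hW.sm _ _
    have hured : red p u = sm t m (x₀ : ZMod p) 1 (red p W) := by
      rw [hu, red_sm, Int.cast_one]
    obtain ⟨γ, hγ⟩ := hxr u
    have hU : InRad t m c p (β • u + (-γ) • y) := (hur.smul _).add (hyr.smul _)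
    have qu : (p : ℤ) ^ 2 ∣ qf t m c u := by
      rw [hu]
      exact hq _ h0 _ hW
    have bux : (p : ℤ) ^ 2 ∣ bf t m c u y := by
      rw [hu, hy]
      exact hbb x₀ x₀ h0 W Y hW hY
    have hUy : (p : ℤ) ^ 2 ∣ bf t m c x (β • u + (-γ) • y) := by
      rw [bf_add_right, bf_smul_right, bf_smul_right, hβ, hγ]
      have : β * (p * γ) + -γ * (p * β) = 0 := by ring
      rw [this]
      exact dvd_zero _
    have eU : sm t m (x₁ : ZMod p) 1 (red p (β • u + (-γ) • y)) = 0 := by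
      rw [red_add, red_smul, red_smul, sm_add, sm_smul, sm_smul, ey, hured, hee', smul_zero,
        smul_zero, add_zero]
    rcases hvan x _ hxr hU ex eU qx (hqs _ _ _ _ qu qy bux) hUy with h | h
    · exact absurd h hx0
    · rw [red_add, red_smul, red_smul, hured] at h
      refine ⟨(β : ZMod p)⁻¹ * γ, ?_⟩
      have h2 : (β : ZMod p) • sm t m (x₀ : ZMod p) 1 (red p W) = (γ : ZMod p) • red p y := by
        have h3 : ((-γ : ℤ) : ZMod p) = -(γ : ZMod p) := by push_cast; ring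
        rw [h3, neg_smul, add_neg_eq_zero] at h
        exact h
      rw [mul_smul, ← h2, smul_smul, inv_mul_cancel₀ hβ0, one_smul]
  -- `e V` and `e' V`
  have ee_x : sm t m (x₁ : ZMod p) 1 (red p x) = (-((x₀ : ZMod p) - x₁)) • red p x := by
    have h := hdiff (red p x)
    rw [ex, zero_sub] at h
    rw [neg_smul, ← h, neg_neg]
  have ee_y : sm t m (x₀ : ZMod p) 1 (red p y) = ((x₀ : ZMod p) - x₁) • red p y := by
    have h := hdiff (red p y)
    rw [ey, sub_zero] at h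
    exact h
  refine ⟨x + y, hxr.add hyr, ?_⟩
  intro W hW
  obtain ⟨s, hs⟩ := key1 W hW
  obtain ⟨s', hs'⟩ := key2 W hW
  have hWd := hdiff (red p W)
  rw [hs, hs'] at hWd
  obtain ⟨d, hd'⟩ : ∃ d, d = (x₀ : ZMod p) - x₁ := ⟨_, rfl⟩
  rw [← hd'] at hd ee_x ee_y hWd
  have hV1 : sm t m (x₁ : ZMod p) 1 (red p (x + y)) = (-d) • red p x := by
    rw [red_add, sm_add, ee_x, ey, add_zero]
  have hV2 : sm t m (x₀ : ZMod p) 1 (red p (x + y)) = d • red p y := by
    rw [red_add, sm_add, ee_y, ex, zero_add]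
  refine ⟨d⁻¹ * d⁻¹ * (s' * x₀ + s * x₁), d⁻¹ * d⁻¹ * (s' + s), ?_⟩
  have hW1 : red p W = d⁻¹ • (s' • red p y - s • red p x) := by
    rw [hWd, smul_smul, inv_mul_cancel₀ hd, one_smul]
  have hy1 : red p y = d⁻¹ • sm t m (x₀ : ZMod p) 1 (red p (x + y)) := by
    rw [hV2, smul_smul, inv_mul_cancel₀ hd, one_smul]
  have hx1 : red p x = (-d⁻¹) • sm t m (x₁ : ZMod p) 1 (red p (x + y)) := by
    rw [hV1, smul_smul, neg_mul_neg, inv_mul_cancel₀ hd, one_smul]
  obtain ⟨V, hV⟩ : ∃ V, V = red p (x + y) := ⟨_, rfl⟩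
  rw [← hV] at hy1 hx1 ⊢
  rw [hW1, hy1, hx1]
  funext k
  rcases k with i | i
  · simp only [Pi.sub_apply, Pi.smul_apply, smul_eq_mul, sm_inl]
    ring
  · simp only [Pi.sub_apply, Pi.smul_apply, smul_eq_mul, sm_inr]
    ring

end Split2

section Transfer

variable {ι : Type} [Fintype ι] {t m : ℤ} {c : Idx ι → ℤ} {F : Type} [Field F]

theorem rl_eq_sum [DecidableEq ι] (u : ι → F) :
    (rl u : Par ι → F) = ∑ k, u k • rl (Pi.single k (1 : F)) := by
  funext l
  rw [Finset.sum_apply]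
  rcases l with i | i
  · rw [Finset.sum_eq_single i]
    · simp [rl_inl]
    · intro b _ hb
      simp [rl_inl, hb.symm]
    · simp
  · simp [rl_inr]

omit [Fintype ι] in
theorem sm_sum {κ : Type} (S : Finset κ) (x y : F) (v : κ → Par ι → F) :
    sm t m x y (∑ k ∈ S, v k) = ∑ k ∈ S, sm t m x y (v k) := by
  classical
  induction S using Finset.induction_on with
  | empty => simp only [Finset.sum_empty, sm_zero_vec]
  | insert a S ha ih => rw [Finset.sum_insert ha, Finset.sum_insert ha, sm_add, ih]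

/-- Both parts of the radical have the same dimension; we only need this. -/
theorem transfer {x₀ x₁ : F} (h1 : x₁ = -(t + x₀)) (h0 : x₀ ^ 2 + t * x₀ + m = 0)
    (hd : x₀ - x₁ ≠ 0)
    (h : ∃ v : Par ι → F, (∀ w, bf t m c v w = 0) ∧ sm t m x₀ 1 v ≠ 0) :
    ∃ v : Par ι → F, (∀ w, bf t m c v w = 0) ∧ sm t m x₁ 1 v ≠ 0 := by
  classical
  obtain ⟨v, hv, hv0⟩ := h
  have h0x : x₁ ^ 2 + t * x₁ + m = 0 := by
    rw [h1]
    linear_combination h0
  -- every vector in the image of `x₀ + ω` comes from a real one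
  have hreal : ∀ z : Par ι → F, sm t m x₀ 1 z =
      sm t m x₀ 1 (rl fun i => z (.inl i) - x₁ * z (.inr i)) := by
    intro z
    funext k
    rcases k with i | i
    · simp only [sm_inl, rl_inl, rl_inr]
      rw [h1]
      linear_combination (-z (.inr i)) * h0
    · simp only [sm_inr, rl_inl, rl_inr]
      rw [h1]
      ring
  let M : Matrix ι ι F := Matrix.of fun k l =>
    bf t m c (sm t m x₁ 1 (rl (Pi.single k 1))) (sm t m x₀ 1 (rl (Pi.single l 1)))
  have hMkl : ∀ k l, M k l =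
      bf t m c (sm t m x₁ 1 (rl (Pi.single k 1))) (sm t m x₀ 1 (rl (Pi.single l 1))) :=
    fun _ _ => rfl
  have hM1 : ∀ (k : ι) (w : ι → F), Matrix.mulVec M w k =
      bf t m c (sm t m x₁ 1 (rl (Pi.single k 1))) (sm t m x₀ 1 (rl w)) := by
    intro k w
    conv_rhs => rw [rl_eq_sum w]
    rw [sm_sum, bf_sum_right, Matrix.mulVec, dotProduct]
    refine Finset.sum_congr rfl fun l _ => ?_
    rw [sm_smul, bf_smul_right, hMkl, mul_comm]
  have hM2 : ∀ (l : ι) (u : ι → F), Matrix.vecMul u M l =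
      bf t m c (sm t m x₁ 1 (rl u)) (sm t m x₀ 1 (rl (Pi.single l 1))) := by
    intro l u
    conv_rhs => rw [rl_eq_sum u]
    rw [sm_sum, bf_sum_left, Matrix.vecMul, dotProduct]
    refine Finset.sum_congr rfl fun k _ => ?_
    rw [sm_smul, bf_smul_left, hMkl]
  obtain ⟨w₀, hw₀⟩ : ∃ w₀ : ι → F, w₀ = fun i => v (.inl i) - x₁ * v (.inr i) := ⟨_, rfl⟩
  have hw : sm t m x₀ 1 v = sm t m x₀ 1 (rl w₀) := by
    rw [hw₀]
    exact hreal v
  have hdet : M.det = 0 := by
    rw [← Matrix.exists_mulVec_eq_zero_iff]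
    refine ⟨w₀, ?_, ?_⟩
    · intro h2
      apply hv0
      rw [hw, h2]
      have h3 : (rl (0 : ι → F) : Par ι → F) = 0 := by
        funext k
        rcases k with i | i
        · rfl
        · rfl
      rw [h3, sm_zero_vec]
    · funext k
      rw [hM1, ← hw, bf_symm, bf_sm]
      exact hv _
  rw [← Matrix.exists_vecMul_eq_zero_iff] at hdet
  obtain ⟨u, hu0, hu⟩ := hdet
  refine ⟨sm t m x₁ 1 (rl u), ?_, ?_⟩
  · intro z
    have hz1 : bf t m c (sm t m x₁ 1 (rl u)) (sm t m x₀ 1 z) = 0 := by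
      rw [hreal z]
      obtain ⟨w₁, hw₁⟩ : ∃ w₁ : ι → F, w₁ = fun i => z (.inl i) - x₁ * z (.inr i) := ⟨_, rfl⟩
      rw [← hw₁, rl_eq_sum w₁, sm_sum, bf_sum_right]
      refine Finset.sum_eq_zero fun l _ => ?_
      rw [sm_smul, bf_smul_right, ← hM2, hu]
      exact mul_zero _
    have hz2 : bf t m c (sm t m x₁ 1 (rl u)) (sm t m x₁ 1 z) = 0 := by
      rw [bf_sm, sm_sm]
      have e1 : (x₁ + (t : F) * 1) * x₁ - (m : F) * -1 * 1 = 0 := by
        linear_combination h0x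
      have e2 : (x₁ + (t : F) * 1) * 1 + -1 * x₁ + (t : F) * -1 * 1 = 0 := by ring
      rw [e1, e2, sm_zero_right, zero_smul, bf_zero_right]
    have hz : z = (x₀ - x₁)⁻¹ • (sm t m x₀ 1 z + (-1 : F) • sm t m x₁ 1 z) := by
      have h3 : sm t m x₀ 1 z + (-1 : F) • sm t m x₁ 1 z = (x₀ - x₁) • z := by
        funext k
        rcases k with i | i
        · simp only [Pi.add_apply, Pi.smul_apply, smul_eq_mul, sm_inl]
          ring
        · simp only [Pi.add_apply, Pi.smul_apply, smul_eq_mul, sm_inr]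
          ring
      rw [h3, smul_smul, inv_mul_cancel₀ hd, one_smul]
    rw [hz, bf_smul_right, bf_add_right, bf_smul_right, hz1, hz2, mul_zero, add_zero, mul_zero]
  · intro h2
    apply hu0
    funext i
    have h3 := congrFun h2 (.inr i)
    simp only [sm_inr, sm_inl, rl_inl, rl_inr, Pi.zero_apply] at h3
    have h4 : (x₀ - x₁) * u i = 0 := by
      rw [h1] at h3 ⊢
      linear_combination (-1 : F) * h3
    exact (mul_eq_zero.1 h4).resolve_left hd

end Transfer

section Main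

variable {ι : Type} [Fintype ι] {t m : ℤ} {c : Idx ι → ℤ} {p : ℕ}

theorem split (hp : p.Prime) (hD : ¬ (p : ℤ) ∣ t ^ 2 - 4 * m)
    (m1 : ∀ v : Par ι → ℤ, (∃ s, ¬ (p : ℤ) ∣ gv t m v s) → (∀ w, (p : ℤ) ∣ bf t m c v w) →
      ¬ (p : ℤ) ^ 2 ∣ qf t m c v)
    {x₀ : ℤ} (h0 : (p : ℤ) ∣ x₀ ^ 2 + t * x₀ + m) :
    ∃ V : Par ι → ℤ, InRad t m c p V ∧ ∀ W, InRad t m c p W →
      ∃ x y : ZMod p, red p W = sm t m x y (red p V) := by
  have : Fact p.Prime := ⟨hp⟩
  obtain ⟨x₁, h1⟩ : ∃ x₁, x₁ = -(t + x₀) := ⟨_, rfl⟩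
  have h0' : (x₀ : ZMod p) ^ 2 + t * x₀ + m = 0 := by
    rw [← ZMod.intCast_zmod_eq_zero_iff_dvd] at h0
    push_cast at h0
    exact h0
  have h1' : (x₁ : ZMod p) = -(t + x₀) := by
    rw [h1]
    push_cast
    ring
  have h1'' : (x₀ : ZMod p) = -(t + x₁) := by
    rw [h1']
    ring
  have h0x' : (x₁ : ZMod p) ^ 2 + t * x₁ + m = 0 := by
    rw [h1']
    linear_combination h0'
  have hd : (x₀ : ZMod p) - x₁ ≠ 0 := by
    intro hd
    apply hD
    rw [← ZMod.intCast_zmod_eq_zero_iff_dvd]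
    push_cast
    rw [h1'] at hd
    linear_combination (2 * (x₀ : ZMod p) + t) * hd - 4 * h0'
  have hd' : (x₁ : ZMod p) - x₀ ≠ 0 := by
    intro h
    apply hd
    linear_combination (-1 : ZMod p) * h
  by_cases hA : ∃ X, InRad t m c p X ∧ sm t m (x₁ : ZMod p) 1 (red p X) ≠ 0
  · obtain ⟨X, hX, hX0⟩ := hA
    obtain ⟨v, hv, hv0⟩ := transfer (c := c) h1'' h0x' hd' ⟨red p X, (inRad_iff c X).1 hX, hX0⟩
    obtain ⟨Y, rfl⟩ := red_surjective v
    exact split_both hD m1 h1 h0 hX ((inRad_iff c Y).2 hv) hX0 hv0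
  · push Not at hA
    refine ⟨0, ?_, ?_⟩
    · intro w
      rw [bf_symm, bf_zero_right]
      exact dvd_zero _
    · intro W hW
      refine ⟨0, 0, ?_⟩
      have hW1 := hA W hW
      have hW2 : sm t m (x₀ : ZMod p) 1 (red p W) = 0 := by
        by_contra hne
        obtain ⟨v, hv, hv0⟩ := transfer (c := c) h1' h0' hd ⟨red p W, (inRad_iff c W).1 hW, hne⟩
        obtain ⟨Y, rfl⟩ := red_surjective v
        exact hv0 (hA Y ((inRad_iff c Y).2 hv))
      have h3 : ((x₀ : ZMod p) - x₁) • red p W = 0 := by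
        have h4 : sm t m (x₀ : ZMod p) 1 (red p W) - sm t m (x₁ : ZMod p) 1 (red p W) =
            ((x₀ : ZMod p) - x₁) • red p W := by
          funext k
          rcases k with i | i
          · simp only [Pi.sub_apply, Pi.smul_apply, smul_eq_mul, sm_inl]
            ring
          · simp only [Pi.sub_apply, Pi.smul_apply, smul_eq_mul, sm_inr]
            ring
        rw [← h4, hW1, hW2, sub_zero]
      rw [(smul_eq_zero.1 h3).resolve_left hd, sm_zero_right, zero_smul]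

end Main

end RadU

/-- At an unramified prime the radical is generated by at most one vector. -/
theorem rad_unram {ι : Type} [Fintype ι] {t m : ℤ} {c : Idx ι → ℤ} {p : ℕ} (hp : p.Prime)
    (hD : ¬ (p : ℤ) ∣ t ^ 2 - 4 * m)
    (m1 : ∀ v : Par ι → ℤ, (∃ s, ¬ (p : ℤ) ∣ gv t m v s) → (∀ w, (p : ℤ) ∣ bf t m c v w) →
      ¬ (p : ℤ) ^ 2 ∣ qf t m c v) :
    ∃ V : Par ι → ℤ, (∀ w, (p : ℤ) ∣ bf t m c V w) ∧
      ∀ (κ : Type) [Field κ] [CharP κ p] (v : Par ι → κ), (∀ w, bf t m c v w = 0) →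
        ∃ x y : κ, v = sm t m x y (fun k => (V k : κ)) := by
  classical
  have : Fact p.Prime := ⟨hp⟩
  obtain ⟨V, hV, hgen⟩ : ∃ V : Par ι → ℤ, RadU.InRad t m c p V ∧ ∀ W, RadU.InRad t m c p W →
      ∃ x y : ZMod p, RadU.red p W = sm t m x y (RadU.red p V) := by
    by_cases hin : ∀ x : ℤ, ¬ (p : ℤ) ∣ x ^ 2 + t * x + m
    · exact RadU.inert hp hD m1 hin
    · push Not at hin
      obtain ⟨x₀, h0⟩ := hin
      exact RadU.split hp hD m1 h0
  refine ⟨V, hV, ?_⟩
  intro κ _ _ v hv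
  let _ : Algebra (ZMod p) κ := ZMod.algebra κ p
  let b := Module.Basis.ofVectorSpace (ZMod p) κ
  have hcoord := rad_coords t m c b v hv
  have hlift : ∀ j, ∃ x y : ZMod p, (fun k => b.repr (v k) j) = sm t m x y (RadU.red p V) := by
    intro j
    obtain ⟨W, hW⟩ := RadU.red_surjective (fun k => b.repr (v k) j)
    rw [← hW]
    apply hgen
    rw [RadU.inRad_iff, hW]
    exact hcoord j
  choose x y hxy using hlift
  let S : Finset _ := Finset.univ.biUnion fun k : Par ι => (b.repr (v k)).support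
  have hvk : ∀ k, v k = ∑ j ∈ S, (b.repr (v k) j) • b j := by
    intro k
    conv_lhs => rw [← b.linearCombination_repr (v k), Finsupp.linearCombination_apply, Finsupp.sum]
    refine Finset.sum_subset ?_ ?_
    · exact Finset.subset_biUnion_of_mem (fun k : Par ι => (b.repr (v k)).support)
        (Finset.mem_univ k)
    · intro j _ hj
      rw [Finsupp.notMem_support_iff.1 hj, zero_smul]
  refine ⟨∑ j ∈ S, x j • b j, ∑ j ∈ S, y j • b j, ?_⟩
  funext k
  rw [hvk k]
  have hcast : ∀ k, ((V k : ℤ) : κ) = algebraMap (ZMod p) κ (RadU.red p V k) := by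
    intro k
    simp [RadU.red]
  have hterm : ∀ j, (b.repr (v k) j) • b j =
      sm t m (x j • b j) (y j • b j) (fun k => ((V k : ℤ) : κ)) k := by
    intro j
    have h := congrFun (hxy j) k
    rw [h]
    rcases k with i | i
    · rw [sm_inl, sm_inl, hcast, hcast, Algebra.smul_def, Algebra.smul_def, Algebra.smul_def,
        map_sub, map_mul, map_mul, map_mul, map_intCast]
      ring
    · rw [sm_inr, sm_inr, hcast, hcast, Algebra.smul_def, Algebra.smul_def, Algebra.smul_def,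
        map_add, map_add, map_mul, map_mul, map_mul, map_mul, map_intCast]
      ring
  rw [Finset.sum_congr rfl fun j _ => hterm j]
  rcases k with i | i
  · simp only [sm_inl]
    rw [Finset.sum_sub_distrib, Finset.sum_mul, Finset.mul_sum, Finset.sum_mul]
  · simp only [sm_inr]
    rw [Finset.sum_add_distrib, Finset.sum_add_distrib, Finset.sum_mul, Finset.sum_mul,
      Finset.mul_sum, Finset.sum_mul]

end Herm

end Pool.MP_602153_ag
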