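import Mathlib
import Pool.Agent.HermVar.RadU
import Pool.Agent.HermVar.RadR
import Pool.Agent.HermVar.ChartPt

set_option autoImplicit false

/-!
# Hermitian varieties: the charts `x_ii = 1`
-/

namespace Pool.MP_602153_ag

namespace Herm

open WeilQuad MvPolynomial

section Dual

variable {ι : Type} [Fintype ι] (t m : ℤ) (c : Idx ι → ℤ) {κ : Type} [Field κ]

theorem inl_add_inr (a b : κ) : (TrivSqZeroExt.inl a + TrivSqZeroExt.inr b : DualNumber κ) =
    TrivSqZeroExt.inl a + DualNumber.eps * TrivSqZeroExt.inl b := by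
  apply TrivSqZeroExt.ext
  · simp
  · simp

theorem eps_sq : (DualNumber.eps : DualNumber κ) ^ 2 = 0 := by
  rw [pow_two]
  exact DualNumber.eps_mul_eps

/-- The first order expansion of the form. -/
theorem qf_dual (v w : Par ι → κ) :
    qf t m c (fun k => (TrivSqZeroExt.inl (v k) + TrivSqZeroExt.inr (w k) : DualNumber κ)) =
      TrivSqZeroExt.inl (qf t m c v) + TrivSqZeroExt.inr (bf t m c v w) := by
  let f : κ →+* DualNumber κ := TrivSqZeroExt.inlHom κ κ
  have h1 : (fun k => (TrivSqZeroExt.inl (v k) + TrivSqZeroExt.inr (w k) : DualNumber κ)) =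
      (fun k => f (v k)) + (DualNumber.eps : DualNumber κ) • (fun k => f (w k)) := by
    funext k
    rw [inl_add_inr]
    rfl
  rw [h1, qf_add, qf_smul, bf_smul_right, eps_sq, ← map_qf, ← map_qf, ← map_bf, inl_add_inr]
  simp only [zero_mul, add_zero]
  rfl

end Dual

section Cast

variable {ι : Type} (t m : ℤ) {A : Type} [CommRing A]

theorem gv_cast (V : Par ι → ℤ) (s : Idx ι) :
    gv t m (fun k => ((V k : ℤ) : A)) s = ((gv t m V s : ℤ) : A) :=
  (map_gv t m (Int.castRingHom A) V s).symm

theorem qf_cast [Fintype ι] (c : Idx ι → ℤ) (V : Par ι → ℤ) :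
    qf t m c (fun k => ((V k : ℤ) : A)) = ((qf t m c V : ℤ) : A) :=
  (map_qf t m c (Int.castRingHom A) V).symm

end Cast

section Arith

/-- At a ramified prime the polynomial has a double root. -/
theorem exists_x0 {t m : ℤ} {p : ℕ} (hp : p.Prime) (hD : (p : ℤ) ∣ t ^ 2 - 4 * m) :
    ∃ x₀ : ℤ, (p : ℤ) ∣ x₀ ^ 2 + t * x₀ + m ∧ (p : ℤ) ∣ 2 * x₀ + t := by
  have hpi : Prime (p : ℤ) := Nat.prime_iff_prime_int.1 hp
  by_cases hp2 : p = 2
  · subst hp2
    have h1 : (2 : ℤ) ∣ t := by
      have h2 : (2 : ℤ) ∣ t ^ 2 := by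
        obtain ⟨k, hk⟩ := hD
        exact ⟨k + 2 * m, by push_cast at hk; linarith⟩
      exact Int.prime_two.dvd_of_dvd_pow h2
    obtain ⟨t', rfl⟩ := h1
    refine ⟨m, ?_, ?_⟩
    · have h3 : (2 : ℤ) ∣ m * (m + 1) := by
        have := Int.even_mul_succ_self m
        exact this.two_dvd
      obtain ⟨k, hk⟩ := h3
      exact ⟨k + t' * m, by push_cast; linear_combination hk⟩
    · exact ⟨m + t', by push_cast; ring⟩
  · have hcop : IsCoprime (p : ℤ) 2 := by
      rw [hpi.coprime_iff_not_dvd]
      intro h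
      have h3 : p ∣ 2 := by exact_mod_cast h
      exact hp2 ((Nat.prime_dvd_prime_iff_eq hp Nat.prime_two).1 h3)
    obtain ⟨a, b, hab⟩ := hcop
    -- `b * 2 = 1 - a p`
    refine ⟨-(b * t), ?_, ?_⟩
    · have h4 : (p : ℤ) ∣ 4 * ((-(b * t)) ^ 2 + t * (-(b * t)) + m) := by
        have h5 : 4 * ((-(b * t)) ^ 2 + t * (-(b * t)) + m) =
            (t - 2 * b * t) ^ 2 - (t ^ 2 - 4 * m) := by ring
        rw [h5]
        refine dvd_sub ?_ hD
        have h6 : t - 2 * b * t = p * (a * t) := by linear_combination (-t) * hab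
        rw [h6, mul_pow]
        exact (dvd_pow_self _ two_ne_zero).mul_right _
      rcases hpi.dvd_or_dvd h4 with h7 | h7
      · exfalso
        have h8 : (p : ℤ) ∣ 2 := by
          have : (4 : ℤ) = 2 ^ 2 := by norm_num
          rw [this] at h7
          exact hpi.dvd_of_dvd_pow h7
        have h3 : p ∣ 2 := by exact_mod_cast h8
        exact hp2 ((Nat.prime_dvd_prime_iff_eq hp Nat.prime_two).1 h3)
      · exact h7
    · exact ⟨a * t, by linear_combination (-t) * hab⟩

/-- Inverses modulo `p ^ 2`. -/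
theorem exists_inv {p : ℕ} (hp : p.Prime) {u : ℤ} (hu : ¬ (p : ℤ) ∣ u) :
    ∃ w : ZMod (p ^ 2), (u : ZMod (p ^ 2)) * w = 1 := by
  have h5 : IsCoprime u ((p ^ 2 : ℕ) : ℤ) := by
    push_cast
    apply IsCoprime.pow_right
    exact ((Nat.prime_iff_prime_int.1 hp).coprime_iff_not_dvd.2 hu).symm
  obtain ⟨a, b, hab⟩ := h5
  refine ⟨(a : ZMod (p ^ 2)), ?_⟩
  have h6 := congrArg (Int.cast : ℤ → ZMod (p ^ 2)) hab
  rw [Int.cast_add, Int.cast_mul, Int.cast_mul, Int.cast_natCast, ZMod.natCast_self, mul_zero,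
    add_zero, Int.cast_one] at h6
  linear_combination h6

end Arith

variable {ι : Type} [Fintype ι] [DecidableEq ι] {t m : ℤ} {c : Idx ι → ℤ}

variable (t m c) in
/-- The equation on the chart `x_ii = 1`. -/
noncomputable def hA (i : ι) : TA i := ∑ s, (c s : TA i) * gen t m (aA t i) (bA i) s

variable (t) in
/-- The universal vector on the chart `x_ii = 1`. -/
noncomputable def vA (i : ι) : Par ι → TA i := Sum.elim (aA t i) (bA i)

theorem hA_eq (i : ι) : hA t m c i = qf t m c (vA t i) := rfl

omit [Fintype ι] in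
theorem xA_self (i : ι) : xA i i = 1 := by simp [xA]
omit [Fintype ι] in
theorem yA_self (i : ι) : yA i i = 0 := by simp [yA]

omit [Fintype ι] in
theorem vA_inl (i k : ι) : vA t i (.inl k) = xA i k + (t : TA i) * yA i k := rfl
omit [Fintype ι] in
theorem vA_inr (i k : ι) : vA t i (.inr k) = - yA i k := rfl

/-- A point of the chart at which the equation vanishes to second order. -/
theorem chartA_rad {κ : Type} [Field κ] (i : ι) (χ : TA i →+* κ) {b : TA i} (hb : χ b ≠ 0)
    (hbh : b * hA t m c i ∈ RingHom.ker χ ^ 2) (hq : qf t m c (fun k => χ (vA t i k)) = 0)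
    (w : Par ι → κ) : bf t m c (fun k => χ (vA t i k)) w = 0 := by
  classical
  set v : Par ι → κ := fun k => χ (vA t i k) with hv
  have hvi : v (.inl i) = 1 := by
    simp only [v]
    rw [vA_inl, xA_self, yA_self, mul_zero, add_zero, map_one]
  have hvi' : v (.inr i) = 0 := by
    simp only [v]
    rw [vA_inr, yA_self, neg_zero, map_zero]
  have h1 : ∀ w : Par ι → κ, w (.inl i) = 0 → w (.inr i) = 0 → bf t m c v w = 0 := by
    intro w hw1 hw2
    let δ : TA i →+* DualNumber κ := eval₂Hom (Int.castRingHom _)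
      (fun q => if q.2 then
        (TrivSqZeroExt.inl (χ (X q)) + TrivSqZeroExt.inr (- w (.inr q.1)) : DualNumber κ) else
        (TrivSqZeroExt.inl (χ (X q)) +
          TrivSqZeroExt.inr (w (.inl q.1) + (t : κ) * w (.inr q.1)) : DualNumber κ))
    have hδ0 : (TrivSqZeroExt.fstHom κ κ κ).toRingHom.comp δ = χ := by
      apply MvPolynomial.ringHom_ext
      · intro z
        simp
      · rintro ⟨k, b⟩
        cases b
        · simp [δ]
        · simp [δ]
    have hδ : ∀ z, TrivSqZeroExt.fst (δ z) = χ z := fun z => RingHom.congr_fun hδ0 z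
    have hx : ∀ k, δ (xA i k) = TrivSqZeroExt.inl (χ (xA i k)) +
        TrivSqZeroExt.inr (w (.inl k) + (t : κ) * w (.inr k)) := by
      intro k
      by_cases hk : k = i
      · subst hk
        rw [xA_self, map_one, map_one, hw1, hw2]
        simp
      · rw [xA, dif_pos hk]
        simp [δ]
    have hy : ∀ k, δ (yA i k) = TrivSqZeroExt.inl (χ (yA i k)) +
        TrivSqZeroExt.inr (- w (.inr k)) := by
      intro k
      by_cases hk : k = i
      · subst hk
        rw [yA_self, map_zero, map_zero, hw2]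
        simp
      · rw [yA, dif_pos hk]
        simp [δ]
    have hvδ : (fun k => δ (vA t i k)) = fun k => (TrivSqZeroExt.inl (v k) +
        TrivSqZeroExt.inr (w k) : DualNumber κ) := by
      funext k
      rcases k with k | k
      · rw [vA_inl, map_add, map_mul, map_intCast, hx, hy]
        simp only [v, vA_inl, map_add, map_mul, map_intCast]
        apply TrivSqZeroExt.ext
        · simp
        · simp
      · rw [vA_inr, map_neg, hy]
        simp only [v, vA_inr, map_neg]
        apply TrivSqZeroExt.ext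
        · simp
        · simp
    have h2 := tangent χ hb hbh δ hδ
    rw [hA_eq, map_qf, hvδ, qf_dual] at h2
    have h3 := congrArg TrivSqZeroExt.snd h2
    simpa using h3
  have h2 : w = sm t m (w (.inl i)) (w (.inr i)) v +
      (w - sm t m (w (.inl i)) (w (.inr i)) v) := by
    rw [add_sub_cancel]
  rw [h2, bf_add_right, bf_self_sm, hq, mul_zero, zero_add]
  apply h1
  · rw [Pi.sub_apply, sm_inl, hvi, hvi']
    ring
  · rw [Pi.sub_apply, sm_inr, hvi, hvi']
    ring

theorem chartA_regular {p : ℕ} {a₀ : ℤ} (hc : LocGood t m c p a₀)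
    (i : ι) (Q : Ideal (TA i ⧸ Ideal.span {hA t m c i})) [Q.IsPrime]
    (hQ : (a₀ : TA i ⧸ Ideal.span {hA t m c i}) ∉ Q) :
    IsRegularLocalRing (Localization.AtPrime Q) := by
  classical
  apply regularLocal_quotient_at
  intro b hb
  by_contra hbP
  set P : Ideal (TA i) := Q.comap (Ideal.Quotient.mk (Ideal.span {hA t m c i})) with hPdef
  have hP : P.IsPrime := inferInstance
  obtain ⟨κ, _, χ, hker⟩ := exists_residue P hP
  have hPk : P = RingHom.ker χ := by
    ext z
    rw [RingHom.mem_ker, hker]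
  have hχb : χ b ≠ 0 := fun h => hbP ((hker b).1 h)
  rw [hPk] at hb
  have hhP : χ (hA t m c i) = 0 := by
    rw [hker]
    change Ideal.Quotient.mk _ (hA t m c i) ∈ Q
    have h0 : Ideal.Quotient.mk (Ideal.span {hA t m c i}) (hA t m c i) = 0 :=
      Ideal.Quotient.eq_zero_iff_mem.2 (Ideal.subset_span rfl)
    rw [h0]
    exact Q.zero_mem
  have ha : ((a₀ : ℤ) : κ) ≠ 0 := by
    intro h
    apply hQ
    have h1 : ((a₀ : ℤ) : TA i) ∈ P := by
      rw [← hker, map_intCast, h]
    have h2 : Ideal.Quotient.mk (Ideal.span {hA t m c i}) ((a₀ : ℤ) : TA i) ∈ Q := h1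
    rwa [map_intCast] at h2
  set v : Par ι → κ := fun k => χ (vA t i k) with hv
  have hvi : v (.inl i) = 1 := by
    simp only [v]
    rw [vA_inl, xA_self, yA_self, mul_zero, add_zero, map_one]
  have hvi' : v (.inr i) = 0 := by
    simp only [v]
    rw [vA_inr, yA_self, neg_zero, map_zero]
  have hq : qf t m c v = 0 := by
    rw [hA_eq, map_qf] at hhP
    exact hhP
  have hrad : ∀ w, bf t m c v w = 0 := chartA_rad i χ hχb hb hq
  obtain ⟨ℓ, hℓ⟩ := CharP.exists κ
  have hℓ' : ℓ = 0 ∨ ℓ.Prime := (CharP.char_is_prime_or_zero κ ℓ).symm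
  have hℓa : ¬ (ℓ : ℤ) ∣ a₀ := by
    intro h
    exact ha ((CharP.intCast_eq_zero_iff κ ℓ a₀).2 h)
  by_cases hℓp : ℓ = p
  · subst hℓp
    have hp := hc.prime
    by_cases hD : (ℓ : ℤ) ∣ t ^ 2 - 4 * m
    · obtain ⟨x₀, h1, h2⟩ := exists_x0 hp hD
      have h3 := rad_ram_zero hp h1 h2 (hc.m2 x₀ h1 h2) v hrad hq i
      rw [hvi, hvi', mul_zero] at h3
      exact one_ne_zero h3
    · obtain ⟨V, hV, hV2⟩ := rad_unram hp hD hc.m1
      obtain ⟨x, y, hxy⟩ := hV2 κ v hrad
      have hΘ : ∀ s, gv t m v s =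
          (x ^ 2 + (t : κ) * x * y + (m : κ) * y ^ 2) * ((gv t m V s : ℤ) : κ) := by
        intro s
        rw [hxy, gv_sm, gv_cast]
      have h1 : gv t m v (.inl (i, i)) = 1 := by
        rw [gv_inl, hvi, hvi']
        ring
      have h2 := hΘ (.inl (i, i))
      rw [h1] at h2
      set N : κ := x ^ 2 + (t : κ) * x * y + (m : κ) * y ^ 2
      set u : ℤ := gv t m V (.inl (i, i)) with hu
      have hu0 : (u : κ) ≠ 0 := by
        intro h
        rw [h, mul_zero] at h2
        exact one_ne_zero h2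
      have hup : ¬ (ℓ : ℤ) ∣ u := fun h => hu0 ((CharP.intCast_eq_zero_iff κ ℓ u).2 h)
      obtain ⟨w, hw⟩ := exists_inv hp hup
      have hwN : ZMod.castHom (dvd_pow_self ℓ two_ne_zero) κ w = N := by
        have h3 := congrArg (ZMod.castHom (dvd_pow_self ℓ two_ne_zero) κ) hw
        rw [map_mul, map_intCast, map_one, h2, mul_comm N] at h3
        exact mul_left_cancel₀ hu0 h3
      let e : TA i →+* ZMod (ℓ ^ 2) := eval₂Hom (Int.castRingHom _) (fun q => if q.2 then
        ((gv t m V (.inr (i, q.1)) : ℤ) : ZMod (ℓ ^ 2)) * w else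
        ((gv t m V (.inl (i, q.1)) : ℤ) : ZMod (ℓ ^ 2)) * w)
      have he : (ZMod.castHom (dvd_pow_self ℓ two_ne_zero) κ).comp e = χ := by
        apply MvPolynomial.ringHom_ext
        · intro z
          simp
        · rintro ⟨⟨k, hk⟩, b⟩
          cases b
          · have h4 : e (X (⟨k, hk⟩, false)) =
                ((gv t m V (.inl (i, k)) : ℤ) : ZMod (ℓ ^ 2)) * w := by simp [e]
            rw [RingHom.comp_apply, h4, map_mul, map_intCast, hwN, mul_comm, ← hΘ, gv_inl, hvi,
              hvi']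
            have h5 : (X (⟨k, hk⟩, false) : TA i) = xA i k := by rw [xA, dif_pos hk]
            have h6 : v (.inl k) = χ (xA i k) + (t : κ) * χ (yA i k) := by
              simp only [v, vA_inl, map_add, map_mul, map_intCast]
            have h7 : v (.inr k) = - χ (yA i k) := by
              simp only [v, vA_inr, map_neg]
            rw [h5, h6, h7]
            ring
          · have h4 : e (X (⟨k, hk⟩, true)) =
                ((gv t m V (.inr (i, k)) : ℤ) : ZMod (ℓ ^ 2)) * w := by simp [e]
            rw [RingHom.comp_apply, h4, map_mul, map_intCast, hwN, mul_comm, ← hΘ, gv_inr, hvi,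
              hvi']
            have h5 : (X (⟨k, hk⟩, true) : TA i) = yA i k := by rw [yA, dif_pos hk]
            have h7 : v (.inr k) = - χ (yA i k) := by
              simp only [v, vA_inr, map_neg]
            rw [h5, h7]
            ring
      have hew : (fun k => e (vA t i k)) = sm t m (w * ((V (.inl i) : ℤ) + t * (V (.inr i) : ℤ)))
          (- (w * ((V (.inr i) : ℤ) : ZMod (ℓ ^ 2)))) (fun k => ((V k : ℤ) : ZMod (ℓ ^ 2))) := by
        have hu' : ((V (.inl i) : ℤ) : ZMod (ℓ ^ 2)) * V (.inl i) +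
            t * V (.inl i) * V (.inr i) + m * V (.inr i) * V (.inr i) = (u : ZMod (ℓ ^ 2)) := by
          rw [hu, gv_inl]
          push_cast
          ring
        have hx : ∀ k, e (xA i k) = ((gv t m V (.inl (i, k)) : ℤ) : ZMod (ℓ ^ 2)) * w := by
          intro k
          by_cases hk : k = i
          · subst hk
            rw [xA_self, map_one, ← hu, hw]
          · rw [xA, dif_pos hk]
            simp [e]
        have hy : ∀ k, e (yA i k) = ((gv t m V (.inr (i, k)) : ℤ) : ZMod (ℓ ^ 2)) * w := by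
          intro k
          by_cases hk : k = i
          · subst hk
            rw [yA_self, map_zero, gv_inr]
            push_cast
            ring
          · rw [yA, dif_pos hk]
            simp [e]
        funext k
        rcases k with k | k
        · rw [vA_inl, map_add, map_mul, map_intCast, hx, hy, gv_inl, gv_inr, sm_inl]
          push_cast
          ring
        · rw [vA_inr, map_neg, hy, gv_inr, sm_inr]
          push_cast
          ring
      have h8 := eval_sq hp χ e he hχb hb
      rw [hA_eq, map_qf, hew, qf_sm, qf_cast] at h8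
      have h10 : ((qf t m c V : ℤ) : ZMod (ℓ ^ 2)) = 0 := by
        have hu' : ((V (.inl i) : ℤ) : ZMod (ℓ ^ 2)) * V (.inl i) +
            t * V (.inl i) * V (.inr i) + m * V (.inr i) * V (.inr i) = (u : ZMod (ℓ ^ 2)) := by
          rw [hu, gv_inl]
          push_cast
          ring
        have h11 : ((w * ((V (.inl i) : ℤ) + t * (V (.inr i) : ℤ))) ^ 2 +
            (t : ZMod (ℓ ^ 2)) * (w * ((V (.inl i) : ℤ) + t * (V (.inr i) : ℤ))) *
              (- (w * ((V (.inr i) : ℤ) : ZMod (ℓ ^ 2)))) +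
            (m : ZMod (ℓ ^ 2)) * (- (w * ((V (.inr i) : ℤ) : ZMod (ℓ ^ 2)))) ^ 2) = w := by
          linear_combination (w ^ 2) * hu' + w * hw
        rw [h11] at h8
        linear_combination (u : ZMod (ℓ ^ 2)) * h8 - ((qf t m c V : ℤ) : ZMod (ℓ ^ 2)) * hw
      have h12 : (ℓ : ℤ) ^ 2 ∣ qf t m c V := by
        have h13 := (ZMod.intCast_zmod_eq_zero_iff_dvd (qf t m c V) (ℓ ^ 2)).1 h10
        push_cast at h13
        exact h13
      exact hc.m1 V ⟨.inl (i, i), hup⟩ hV h12
  · have h0 := rad_eq_zero t m c ℓ hℓ' (hc.nd ℓ hℓ' hℓp hℓa) v hrad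
    rw [h0] at hvi
    exact zero_ne_one hvi

end Herm

end Pool.MP_602153_ag
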