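import Mathlib
import Pool.Agent.HermVar.ChartA

set_option autoImplicit false

/-!
# Hermitian varieties: the charts `y_ij = 1`
-/

namespace Pool.MP_602153_ag

namespace Herm

open WeilQuad MvPolynomial

section Val

variable {ι : Type} (t m : ℤ) {A : Type} [CommRing A]

/-- The coordinates on the chart `y_ij = 1`. -/
def Gs (α β x : A) (l μ : ι → A) (s : Idx ι) : A :=
  α * gv t m (rl l) s + β * gv t m (rl μ) s + pgv t m (sm t m x 1 (rl l)) (rl μ) s

theorem Gs_inl (α β x : A) (l μ : ι → A) (k n : ι) : Gs t m α β x l μ (.inl (k, n)) =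
    l k * l n * α + μ k * μ n * β + l k * μ n * x + μ k * l n * (x + (t : A)) := by
  simp only [Gs, gv_inl, pgv, Sum.elim_inl, sm_inl, sm_inr, rl_inl, rl_inr]
  ring

theorem Gs_inr (α β x : A) (l μ : ι → A) (k n : ι) : Gs t m α β x l μ (.inr (k, n)) =
    l k * μ n - μ k * l n := by
  simp only [Gs, gv_inr, pgv, Sum.elim_inr, sm_inl, sm_inr, rl_inl, rl_inr]
  ring

/-- `v'` -/
def v1 (α x : A) (l μ : ι → A) : Par ι → A := α • rl l + sm t m (x + (t : A)) (-1) (rl μ)
/-- `v''` -/
def v2 (β x : A) (l μ : ι → A) : Par ι → A := sm t m x 1 (rl l) + β • rl μ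

theorem v1_inl (α x : A) (l μ : ι → A) (k : ι) : v1 t m α x l μ (.inl k) =
    α * l k + (x + t) * μ k := by
  simp only [v1, Pi.add_apply, Pi.smul_apply, smul_eq_mul, sm_inl, rl_inl, rl_inr]
  ring

theorem v1_inr (α x : A) (l μ : ι → A) (k : ι) : v1 t m α x l μ (.inr k) = - μ k := by
  simp only [v1, Pi.add_apply, Pi.smul_apply, smul_eq_mul, sm_inr, rl_inl, rl_inr]
  ring

theorem v2_inl (β x : A) (l μ : ι → A) (k : ι) : v2 t m β x l μ (.inl k) =
    x * l k + β * μ k := by
  simp only [v2, Pi.add_apply, Pi.smul_apply, smul_eq_mul, sm_inl, rl_inl, rl_inr]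
  ring

theorem v2_inr (β x : A) (l μ : ι → A) (k : ι) : v2 t m β x l μ (.inr k) = l k := by
  simp only [v2, Pi.add_apply, Pi.smul_apply, smul_eq_mul, sm_inr, rl_inl, rl_inr]
  ring

variable {α β x : A} (l μ : ι → A)

theorem sm_v1 (h : α * β = x ^ 2 + (t : A) * x + (m : A)) :
    sm t m x 1 (v1 t m α x l μ) = α • v2 t m β x l μ := by
  funext k
  rcases k with k | k
  · rw [sm_inl, v1_inl, v1_inr, Pi.smul_apply, v2_inl, smul_eq_mul]
    linear_combination - μ k * h
  · rw [sm_inr, v1_inl, v1_inr, Pi.smul_apply, v2_inr, smul_eq_mul]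
    ring

theorem sm_v2 (h : α * β = x ^ 2 + (t : A) * x + (m : A)) :
    sm t m (x + (t : A)) (-1) (v2 t m β x l μ) = β • v1 t m α x l μ := by
  funext k
  rcases k with k | k
  · rw [sm_inl, v2_inl, v2_inr, Pi.smul_apply, v1_inl, smul_eq_mul]
    linear_combination - l k * h
  · rw [sm_inr, v2_inl, v2_inr, Pi.smul_apply, v1_inr, smul_eq_mul]
    ring

theorem gv_v1 (h : α * β = x ^ 2 + (t : A) * x + (m : A)) (s : Idx ι) :
    gv t m (v1 t m α x l μ) s = α * Gs t m α β x l μ s := by
  rcases s with ⟨k, n⟩ | ⟨k, n⟩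
  · rw [gv_inl, v1_inl, v1_inl, v1_inr, v1_inr, Gs_inl]
    linear_combination - μ k * μ n * h
  · rw [gv_inr, v1_inl, v1_inl, v1_inr, v1_inr, Gs_inr]
    ring

theorem gv_v2 (h : α * β = x ^ 2 + (t : A) * x + (m : A)) (s : Idx ι) :
    gv t m (v2 t m β x l μ) s = β * Gs t m α β x l μ s := by
  rcases s with ⟨k, n⟩ | ⟨k, n⟩
  · rw [gv_inl, v2_inl, v2_inl, v2_inr, v2_inr, Gs_inl]
    linear_combination - l k * l n * h
  · rw [gv_inr, v2_inl, v2_inl, v2_inr, v2_inr, Gs_inr]
    ring

theorem pgv_v12 (h : α * β = x ^ 2 + (t : A) * x + (m : A)) (s : Idx ι) :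
    pgv t m (v1 t m α x l μ) (v2 t m β x l μ) s =
      (2 * x + (t : A)) * Gs t m α β x l μ s := by
  rcases s with ⟨k, n⟩ | ⟨k, n⟩
  · rw [Gs_inl]
    simp only [pgv, Sum.elim_inl, v1_inl, v1_inr, v2_inl, v2_inr]
    linear_combination (l k * μ n + l n * μ k) * h
  · rw [Gs_inr]
    simp only [pgv, Sum.elim_inr, v1_inl, v1_inr, v2_inl, v2_inr]
    ring

theorem pgv_sm_sm (x1 y1 x2 y2 : A) (V : Par ι → A) (s : Idx ι) :
    pgv t m (sm t m x1 y1 V) (sm t m x2 y2 V) s =
      (2 * x1 * x2 + (t : A) * (x1 * y2 + y1 * x2) + 2 * (m : A) * y1 * y2) * gv t m V s := by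
  rcases s with ⟨k, n⟩ | ⟨k, n⟩
  · simp only [pgv, Sum.elim_inl, sm_inl, sm_inr, gv_inl]
    ring
  · simp only [pgv, Sum.elim_inr, sm_inl, sm_inr, gv_inr]
    ring

/-- The coordinates at the point defined by a vector. -/
theorem Gs_point (V : Par ι → A) (i j : ι) {w : A} (hw : gv t m V (.inr (i, j)) * w = 1)
    (s : Idx ι) :
    Gs t m (gv t m V (.inl (i, i)) * w) (gv t m V (.inl (j, j)) * w)
      (gv t m V (.inl (i, j)) * w) (fun k => gv t m V (.inr (k, j)) * w)
      (fun k => gv t m V (.inr (i, k)) * w) s = gv t m V s * w := by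
  rw [gv_inr] at hw
  rcases s with ⟨k, n⟩ | ⟨k, n⟩
  · rw [Gs_inl]
    simp only [gv_inl, gv_inr]
    linear_combination ((V (.inl k) * V (.inl n) + (t : A) * V (.inl k) * V (.inr n) +
      (m : A) * V (.inr k) * V (.inr n)) * w *
        ((V (.inr i) * V (.inl j) - V (.inl i) * V (.inr j)) * w + 1) -
      (t : A) * ((V (.inr i) * V (.inl k) - V (.inl i) * V (.inr k)) * w) *
        ((V (.inr n) * V (.inl j) - V (.inl n) * V (.inr j)) * w)) * hw
  · rw [Gs_inr]
    simp only [gv_inr]
    linear_combination ((V (.inr k) * V (.inl n) - V (.inl k) * V (.inr n)) * w) * hw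

end Val

section Form

variable {ι : Type} [Fintype ι] (t m : ℤ) (c : Idx ι → ℤ) {A : Type} [CommRing A]

/-- The equation on the chart `y_ij = 1`. -/
def Gval (α β x : A) (l μ : ι → A) : A :=
  α * qf t m c (rl l) + β * qf t m c (rl μ) + bf t m c (sm t m x 1 (rl l)) (rl μ)

theorem Gval_eq (α β x : A) (l μ : ι → A) :
    Gval t m c α β x l μ = ∑ s, (c s : A) * Gs t m α β x l μ s := by
  simp only [Gval, qf, bf, Gs, Finset.mul_sum, ← Finset.sum_add_distrib]
  exact Finset.sum_congr rfl fun s _ => by ring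

variable {α β x : A} (l μ : ι → A)

theorem qf_v1 (h : α * β = x ^ 2 + (t : A) * x + (m : A)) :
    qf t m c (v1 t m α x l μ) = α * Gval t m c α β x l μ := by
  rw [Gval_eq, qf, Finset.mul_sum]
  refine Finset.sum_congr rfl fun s _ => ?_
  rw [gv_v1 t m l μ h]
  ring

theorem qf_v2 (h : α * β = x ^ 2 + (t : A) * x + (m : A)) :
    qf t m c (v2 t m β x l μ) = β * Gval t m c α β x l μ := by
  rw [Gval_eq, qf, Finset.mul_sum]
  refine Finset.sum_congr rfl fun s _ => ?_
  rw [gv_v2 t m l μ h]
  ring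

theorem map_Gval {A' : Type} [CommRing A'] (f : A →+* A') (α β x : A) (l μ : ι → A) :
    f (Gval t m c α β x l μ) =
      Gval t m c (f α) (f β) (f x) (fun k => f (l k)) (fun k => f (μ k)) := by
  have hrl : ∀ l : ι → A, (fun k => f (rl l k)) = rl (fun k => f (l k)) := by
    intro l
    funext k
    rcases k with k | k
    · rfl
    · simp [rl]
  have hsm : (fun k => f (sm t m x 1 (rl l) k)) = sm t m (f x) 1 (rl (fun k => f (l k))) := by
    funext k
    rw [map_sm, map_one, hrl]
  rw [Gval, map_add, map_add, map_mul, map_mul, map_qf, map_qf, map_bf, hrl, hrl, hsm, Gval]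

/-- `v'` and `v''` are in the radical. -/
theorem rad_v12 {i j : ι} (hli : l i = 1) (hlj : l j = 0) (hμi : μ i = 0) (hμj : μ j = 1)
    (hrel : α * β = x ^ 2 + (t : A) * x + (m : A)) (h0 : Gval t m c α β x l μ = 0)
    (E1 : α * qf t m c (rl l) - β * qf t m c (rl μ) = 0)
    (E2 : (2 * x + (t : A)) * qf t m c (rl l) + β * bf t m c (rl l) (rl μ) = 0)
    (E3 : (2 * x + (t : A)) * qf t m c (rl μ) + α * bf t m c (rl l) (rl μ) = 0)
    (E4 : ∀ b : ι → A, b i = 0 → b j = 0 → bf t m c (v1 t m α x l μ) (rl b) = 0)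
    (E5 : ∀ b : ι → A, b i = 0 → b j = 0 → bf t m c (v2 t m β x l μ) (rl b) = 0)
    (w : Par ι → A) :
    bf t m c (v1 t m α x l μ) w = 0 ∧ bf t m c (v2 t m β x l μ) w = 0 := by
  have hx1 : bf t m c (sm t m (x + (t : A)) (-1) (rl μ)) (rl l) =
      bf t m c (sm t m x 1 (rl l)) (rl μ) := by
    rw [bf_sm, bf_symm]
    congr 1
    · congr 1
      · ring
      · ring
  have h1l : bf t m c (v1 t m α x l μ) (rl l) = 0 := by
    rw [v1, bf_add_left, bf_smul_left, bf_self, hx1]
    rw [Gval] at h0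
    linear_combination h0 + E1
  have h1μ : bf t m c (v1 t m α x l μ) (rl μ) = 0 := by
    rw [v1, bf_add_left, bf_smul_left, bf_symm t m c (sm t m _ _ _), bf_self_sm]
    linear_combination E3
  have h2l : bf t m c (v2 t m β x l μ) (rl l) = 0 := by
    rw [v2, bf_add_left, bf_smul_left, bf_symm t m c (sm t m _ _ _), bf_self_sm,
      bf_symm t m c (rl μ)]
    linear_combination E2
  have h2μ : bf t m c (v2 t m β x l μ) (rl μ) = 0 := by
    rw [v2, bf_add_left, bf_smul_left, bf_self]
    rw [Gval] at h0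
    linear_combination h0 - E1
  have hreal : ∀ b : ι → A, bf t m c (v1 t m α x l μ) (rl b) = 0 ∧
      bf t m c (v2 t m β x l μ) (rl b) = 0 := by
    intro b
    have hb : rl b = b i • rl l + b j • rl μ + rl (b - b i • l - b j • μ) := by
      funext k
      rcases k with k | k
      · simp only [rl_inl, Pi.add_apply, Pi.smul_apply, Pi.sub_apply, smul_eq_mul]
        ring
      · simp only [rl_inr, Pi.add_apply, Pi.smul_apply, smul_eq_mul]
        ring
    have hi : (b - b i • l - b j • μ) i = 0 := by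
      simp [hli, hμi]
    have hj : (b - b i • l - b j • μ) j = 0 := by
      simp [hlj, hμj]
    rw [hb, bf_add_right, bf_add_right, bf_smul_right, bf_smul_right, h1l, h1μ,
      E4 _ hi hj, bf_add_right, bf_add_right, bf_smul_right, bf_smul_right, h2l, h2μ,
      E5 _ hi hj]
    constructor
    · ring
    · ring
  have hdec : w = rl (fun k => w (.inl k)) + sm t m 0 1 (rl (fun k => w (.inr k))) := by
    funext k
    rcases k with k | k
    · simp only [Pi.add_apply, rl_inl, sm_inl, rl_inr]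
      ring
    · simp only [Pi.add_apply, rl_inl, sm_inr, rl_inr]
      ring
  have e1 : sm t m (0 + (t : A) * 1) (-1) (v1 t m α x l μ) =
      (x + t) • v1 t m α x l μ + (-α) • v2 t m β x l μ := by
    have h1 := sm_v1 t m l μ hrel
    funext k
    have h2 := congrFun h1 k
    rcases k with k | k
    · rw [sm_inl, Pi.smul_apply, smul_eq_mul] at h2
      rw [sm_inl, Pi.add_apply, Pi.smul_apply, Pi.smul_apply, smul_eq_mul, smul_eq_mul]
      linear_combination - h2
    · rw [sm_inr, Pi.smul_apply, smul_eq_mul] at h2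
      rw [sm_inr, Pi.add_apply, Pi.smul_apply, Pi.smul_apply, smul_eq_mul, smul_eq_mul]
      linear_combination - h2
  have e2 : sm t m (0 + (t : A) * 1) (-1) (v2 t m β x l μ) =
      (-x) • v2 t m β x l μ + β • v1 t m α x l μ := by
    have h1 := sm_v2 t m l μ hrel
    funext k
    have h2 := congrFun h1 k
    rcases k with k | k
    · rw [sm_inl, Pi.smul_apply, smul_eq_mul] at h2
      rw [sm_inl, Pi.add_apply, Pi.smul_apply, Pi.smul_apply, smul_eq_mul, smul_eq_mul]
      linear_combination h2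
    · rw [sm_inr, Pi.smul_apply, smul_eq_mul] at h2
      rw [sm_inr, Pi.add_apply, Pi.smul_apply, Pi.smul_apply, smul_eq_mul, smul_eq_mul]
      linear_combination h2
  constructor
  · rw [hdec, bf_add_right, (hreal _).1, bf_sm_right, e1, bf_add_left, bf_smul_left,
      bf_smul_left, (hreal _).1, (hreal _).2]
    ring
  · rw [hdec, bf_add_right, (hreal _).2, bf_sm_right, e2, bf_add_left, bf_smul_left,
      bf_smul_left, (hreal _).1, (hreal _).2]
    ring

end Form

section DualB

variable {ι : Type} [Fintype ι] (t m : ℤ) (c : Idx ι → ℤ) {κ : Type} [Field κ]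

theorem bf_dual (v v' w w' : Par ι → κ) :
    bf t m c (fun k => (TrivSqZeroExt.inl (v k) + TrivSqZeroExt.inr (v' k) : DualNumber κ))
      (fun k => (TrivSqZeroExt.inl (w k) + TrivSqZeroExt.inr (w' k) : DualNumber κ)) =
      TrivSqZeroExt.inl (bf t m c v w) +
        TrivSqZeroExt.inr (bf t m c v' w + bf t m c v w') := by
  let f : κ →+* DualNumber κ := TrivSqZeroExt.inlHom κ κ
  have h1 : ∀ v w : Par ι → κ,
      (fun k => (TrivSqZeroExt.inl (v k) + TrivSqZeroExt.inr (w k) : DualNumber κ)) =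
      (fun k => f (v k)) + (DualNumber.eps : DualNumber κ) • (fun k => f (w k)) := by
    intro v w
    funext k
    rw [inl_add_inr]
    rfl
  rw [h1, h1, bf_add_left, bf_add_right, bf_add_right, bf_smul_left, bf_smul_left,
    bf_smul_right, bf_smul_right, ← map_bf, ← map_bf, ← map_bf, ← map_bf, inl_add_inr]
  have h2 : (DualNumber.eps : DualNumber κ) * (DualNumber.eps * f (bf t m c v' w')) = 0 := by
    rw [← mul_assoc, ← pow_two, eps_sq, zero_mul]
  rw [h2]
  have h3 : (TrivSqZeroExt.inl (bf t m c v' w + bf t m c v w') : DualNumber κ) =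
      f (bf t m c v' w) + f (bf t m c v w') := by
    rw [← map_add]
    rfl
  rw [h3]
  change _ = f (bf t m c v w) + _
  ring

theorem Gval_dual (α β x α' β' x' : κ) (l μ l' μ' : ι → κ) :
    TrivSqZeroExt.snd (Gval t m c
      (TrivSqZeroExt.inl α + TrivSqZeroExt.inr α' : DualNumber κ)
      (TrivSqZeroExt.inl β + TrivSqZeroExt.inr β' : DualNumber κ)
      (TrivSqZeroExt.inl x + TrivSqZeroExt.inr x' : DualNumber κ)
      (fun k => (TrivSqZeroExt.inl (l k) + TrivSqZeroExt.inr (l' k) : DualNumber κ))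
      (fun k => (TrivSqZeroExt.inl (μ k) + TrivSqZeroExt.inr (μ' k) : DualNumber κ))) =
    α' * qf t m c (rl l) + β' * qf t m c (rl μ) + x' * bf t m c (rl l) (rl μ) +
      bf t m c (v1 t m α x l μ) (rl l') + bf t m c (v2 t m β x l μ) (rl μ') := by
  have hrl : ∀ l l' : ι → κ,
      rl (fun k => (TrivSqZeroExt.inl (l k) + TrivSqZeroExt.inr (l' k) : DualNumber κ)) =
      fun k => (TrivSqZeroExt.inl (rl l k) + TrivSqZeroExt.inr (rl l' k) : DualNumber κ) := by
    intro l l'
    funext k
    rcases k with k | k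
    · rfl
    · simp [rl]
  have hsm : sm t m (TrivSqZeroExt.inl x + TrivSqZeroExt.inr x' : DualNumber κ) 1
      (fun k => (TrivSqZeroExt.inl (rl l k) + TrivSqZeroExt.inr (rl l' k) : DualNumber κ)) =
      fun k => (TrivSqZeroExt.inl (sm t m x 1 (rl l) k) +
        TrivSqZeroExt.inr ((sm t m x 1 (rl l') + x' • rl l) k) : DualNumber κ) := by
    funext k
    rcases k with k | k
    · simp only [sm_inl, rl_inl, rl_inr, Pi.add_apply, Pi.smul_apply, smul_eq_mul]
      apply TrivSqZeroExt.ext
      · simp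
      · simp
    · simp only [sm_inr, rl_inl, rl_inr, Pi.add_apply, Pi.smul_apply, smul_eq_mul]
      apply TrivSqZeroExt.ext
      · simp
      · simp
  rw [Gval, hrl, hrl, hsm, qf_dual, qf_dual, bf_dual]
  simp only [TrivSqZeroExt.snd_add, DualNumber.snd_mul, TrivSqZeroExt.snd_inl,
    TrivSqZeroExt.snd_inr, TrivSqZeroExt.fst_add, TrivSqZeroExt.fst_inl, TrivSqZeroExt.fst_inr,
    add_zero, zero_add]
  rw [v1, v2, bf_add_left, bf_smul_left, bf_add_left, bf_smul_left, bf_add_left, bf_smul_left]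
  have h1 : bf t m c (sm t m x 1 (rl l')) (rl μ) =
      bf t m c (sm t m (x + (t : κ)) (-1) (rl μ)) (rl l') := by
    rw [bf_sm, bf_symm, mul_one]
  rw [h1]
  ring

end DualB

variable {ι : Type} [Fintype ι] [DecidableEq ι] {t m : ℤ} {c : Idx ι → ℤ}

variable (t m c) in
/-- The equation on the chart `y_ij = 1`. -/
noncomputable def hB (i j : ι) : TB t m i j := ∑ s, (c s : TB t m i j) * genB t m i j s

theorem hB_eq (i j : ι) : hB t m c i j =
    Gval t m c (cα t m i j) (cβ t m i j) (cx t m i j) (lamB t m i j) (muB t m i j) := by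
  rw [Gval_eq, hB]
  refine Finset.sum_congr rfl fun s _ => ?_
  congr 1
  rcases s with ⟨k, n⟩ | ⟨k, n⟩
  · rw [Gs_inl]
    rfl
  · rw [Gs_inr]
    rfl

section Hom

variable {A : Type} [CommRing A] {i j : ι}

/-- Homomorphisms from the ring of the chart. -/
noncomputable def homB (t m : ℤ) (i j : ι) (α β x : A)
    (h : α * β = x ^ 2 + (t : A) * x + (m : A)) (l μ : ι → A) : TB t m i j →+* A :=
  eval₂Hom (slift α β x (by rw [zev_gpol]; exact h)) (fun q => if q.2 then μ q.1 else l q.1)

omit [Fintype ι] in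
theorem homB_α (α β x : A) (h : α * β = x ^ 2 + (t : A) * x + (m : A)) (l μ : ι → A) :
    homB t m i j α β x h l μ (cα t m i j) = α := by
  rw [homB, cα, coe_eval₂Hom, eval₂_C, slift_A]

omit [Fintype ι] in
theorem homB_β (α β x : A) (h : α * β = x ^ 2 + (t : A) * x + (m : A)) (l μ : ι → A) :
    homB t m i j α β x h l μ (cβ t m i j) = β := by
  rw [homB, cβ, coe_eval₂Hom, eval₂_C, slift_B]

omit [Fintype ι] in
theorem homB_x (α β x : A) (h : α * β = x ^ 2 + (t : A) * x + (m : A)) (l μ : ι → A) :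
    homB t m i j α β x h l μ (cx t m i j) = x := by
  rw [homB, cx, coe_eval₂Hom, eval₂_C, slift_X]

omit [Fintype ι] in
theorem homB_lam (hij : i ≠ j) (α β x : A) (h : α * β = x ^ 2 + (t : A) * x + (m : A))
    (l μ : ι → A) (hli : l i = 1) (hlj : l j = 0) (k : ι) :
    homB t m i j α β x h l μ (lamB t m i j k) = l k := by
  by_cases hk : k ≠ i ∧ k ≠ j
  · rw [lamB, dif_pos hk, homB, coe_eval₂Hom, eval₂_X]
    rfl
  · by_cases hki : k = i
    · subst hki
      rw [lam_i, map_one, hli]
    · have hkj : k = j := by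
        by_contra h
        exact hk ⟨hki, h⟩
      subst hkj
      rw [lam_j t m hij, map_zero, hlj]

omit [Fintype ι] in
theorem homB_mu (hij : i ≠ j) (α β x : A) (h : α * β = x ^ 2 + (t : A) * x + (m : A))
    (l μ : ι → A) (hμi : μ i = 0) (hμj : μ j = 1) (k : ι) :
    homB t m i j α β x h l μ (muB t m i j k) = μ k := by
  by_cases hk : k ≠ i ∧ k ≠ j
  · rw [muB, dif_pos hk, homB, coe_eval₂Hom, eval₂_X]
    rfl
  · by_cases hki : k = i
    · subst hki
      rw [mu_i, map_zero, hμi]
    · have hkj : k = j := by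
        by_contra h
        exact hk ⟨hki, h⟩
      subst hkj
      rw [mu_j t m hij, map_one, hμj]

theorem homB_h (hij : i ≠ j) (α β x : A) (h : α * β = x ^ 2 + (t : A) * x + (m : A))
    (l μ : ι → A) (hli : l i = 1) (hlj : l j = 0) (hμi : μ i = 0) (hμj : μ j = 1) :
    homB t m i j α β x h l μ (hB t m c i j) = Gval t m c α β x l μ := by
  rw [hB_eq, map_Gval, homB_α, homB_β, homB_x]
  congr 1
  · funext k
    exact homB_lam hij α β x h l μ hli hlj k
  · funext k
    exact homB_mu hij α β x h l μ hμi hμj k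

omit [Fintype ι] in
/-- Homomorphisms agree if they agree on the generators. -/
theorem homB_ext {u v : TB t m i j →+* A} (hα : u (cα t m i j) = v (cα t m i j))
    (hβ : u (cβ t m i j) = v (cβ t m i j)) (hx : u (cx t m i j) = v (cx t m i j))
    (hl : ∀ k, u (lamB t m i j k) = v (lamB t m i j k))
    (hμ : ∀ k, u (muB t m i j k) = v (muB t m i j k)) : u = v := by
  apply mvSurf_hom_ext
  · exact hα
  · exact hβ
  · exact hx
  · rintro ⟨⟨k, hk⟩, b⟩
    cases b
    · have h2 : (X (⟨k, hk⟩, false) : TB t m i j) = lamB t m i j k := by rw [lamB, dif_pos hk]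
      rw [h2]
      exact hl k
    · have h2 : (X (⟨k, hk⟩, true) : TB t m i j) = muB t m i j k := by rw [muB, dif_pos hk]
      rw [h2]
      exact hμ k

end Hom

/-- The first order conditions at a point at which the equation vanishes to second order. -/
theorem chartB_tangent {κ : Type} [Field κ] {i j : ι} (hij : i ≠ j) (χ : TB t m i j →+* κ)
    {b : TB t m i j} (hb : χ b ≠ 0) (hbh : b * hB t m c i j ∈ RingHom.ker χ ^ 2)
    (α' β' x' : κ) (hrel : χ (cα t m i j) * β' + χ (cβ t m i j) * α' =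
      (2 * χ (cx t m i j) + (t : κ)) * x') (l' μ' : ι → κ) (hl'i : l' i = 0) (hl'j : l' j = 0)
    (hμ'i : μ' i = 0) (hμ'j : μ' j = 0) :
    α' * qf t m c (rl (fun k => χ (lamB t m i j k))) +
      β' * qf t m c (rl (fun k => χ (muB t m i j k))) +
      x' * bf t m c (rl (fun k => χ (lamB t m i j k))) (rl (fun k => χ (muB t m i j k))) +
      bf t m c (v1 t m (χ (cα t m i j)) (χ (cx t m i j)) (fun k => χ (lamB t m i j k))
        (fun k => χ (muB t m i j k))) (rl l') +
      bf t m c (v2 t m (χ (cβ t m i j)) (χ (cx t m i j)) (fun k => χ (lamB t m i j k))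
        (fun k => χ (muB t m i j k))) (rl μ') = 0 := by
  have hχrel : χ (cα t m i j) * χ (cβ t m i j) =
      χ (cx t m i j) ^ 2 + (t : κ) * χ (cx t m i j) + (m : κ) := by
    rw [← map_mul, c_rel]
    simp only [map_add, map_mul, map_pow, map_intCast]
  have hrel' : (TrivSqZeroExt.inl (χ (cα t m i j)) + TrivSqZeroExt.inr α' : DualNumber κ) *
      (TrivSqZeroExt.inl (χ (cβ t m i j)) + TrivSqZeroExt.inr β' : DualNumber κ) =
      (TrivSqZeroExt.inl (χ (cx t m i j)) + TrivSqZeroExt.inr x' : DualNumber κ) ^ 2 +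
      (t : DualNumber κ) * (TrivSqZeroExt.inl (χ (cx t m i j)) + TrivSqZeroExt.inr x') +
      (m : DualNumber κ) := by
    apply TrivSqZeroExt.ext
    · simp only [TrivSqZeroExt.fst_mul, TrivSqZeroExt.fst_add, TrivSqZeroExt.fst_inl,
        TrivSqZeroExt.fst_inr, add_zero, TrivSqZeroExt.fst_pow, TrivSqZeroExt.fst_intCast]
      exact hχrel
    · rw [pow_two]
      simp only [DualNumber.snd_mul, TrivSqZeroExt.fst_mul, TrivSqZeroExt.fst_add,
        TrivSqZeroExt.fst_inl,
        TrivSqZeroExt.fst_inr, add_zero, zero_add, TrivSqZeroExt.snd_add, TrivSqZeroExt.snd_inl,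
        TrivSqZeroExt.snd_inr, TrivSqZeroExt.fst_intCast, TrivSqZeroExt.snd_intCast, zero_mul]
      linear_combination hrel
  let δ : TB t m i j →+* DualNumber κ := homB t m i j
    (TrivSqZeroExt.inl (χ (cα t m i j)) + TrivSqZeroExt.inr α' : DualNumber κ)
    (TrivSqZeroExt.inl (χ (cβ t m i j)) + TrivSqZeroExt.inr β' : DualNumber κ)
    (TrivSqZeroExt.inl (χ (cx t m i j)) + TrivSqZeroExt.inr x' : DualNumber κ) hrel'
    (fun k => (TrivSqZeroExt.inl (χ (lamB t m i j k)) + TrivSqZeroExt.inr (l' k) : DualNumber κ))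
    (fun k => (TrivSqZeroExt.inl (χ (muB t m i j k)) + TrivSqZeroExt.inr (μ' k) : DualNumber κ))
  have e1 : (TrivSqZeroExt.inl (χ (lamB t m i j i)) + TrivSqZeroExt.inr (l' i) : DualNumber κ)
      = 1 := by
    rw [lam_i, map_one, hl'i]
    simp
  have e2 : (TrivSqZeroExt.inl (χ (lamB t m i j j)) + TrivSqZeroExt.inr (l' j) : DualNumber κ)
      = 0 := by
    rw [lam_j t m hij, map_zero, hl'j]
    simp
  have e3 : (TrivSqZeroExt.inl (χ (muB t m i j i)) + TrivSqZeroExt.inr (μ' i) : DualNumber κ)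
      = 0 := by
    rw [mu_i, map_zero, hμ'i]
    simp
  have e4 : (TrivSqZeroExt.inl (χ (muB t m i j j)) + TrivSqZeroExt.inr (μ' j) : DualNumber κ)
      = 1 := by
    rw [mu_j t m hij, map_one, hμ'j]
    simp
  have hδ0 : (TrivSqZeroExt.fstHom κ κ κ).toRingHom.comp δ = χ := by
    apply homB_ext
    · rw [RingHom.comp_apply, homB_α]
      simp
    · rw [RingHom.comp_apply, homB_β]
      simp
    · rw [RingHom.comp_apply, homB_x]
      simp
    · intro k
      rw [RingHom.comp_apply, homB_lam hij _ _ _ _ _ _ e1 e2]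
      simp
    · intro k
      rw [RingHom.comp_apply, homB_mu hij _ _ _ _ _ _ e3 e4]
      simp
  have hδ : ∀ z, TrivSqZeroExt.fst (δ z) = χ z := fun z => RingHom.congr_fun hδ0 z
  have h2 := tangent χ hb hbh δ hδ
  rw [homB_h hij _ _ _ _ _ _ e1 e2 e3 e4] at h2
  have h3 := congrArg TrivSqZeroExt.snd h2
  rw [Gval_dual, TrivSqZeroExt.snd_zero] at h3
  exact h3

theorem rl_zero {A : Type} [CommRing A] : rl (0 : ι → A) = 0 := by
  funext k
  rcases k with k | k
  · rfl
  · rfl

theorem chartB_regular {p : ℕ} {a₀ : ℤ} (hc : LocGood t m c p a₀) (hnice : Nice (gpol t m))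
    {i j : ι} (hij : i ≠ j) (Q : Ideal (TB t m i j ⧸ Ideal.span {hB t m c i j})) [Q.IsPrime]
    (hQ : (a₀ : TB t m i j ⧸ Ideal.span {hB t m c i j}) ∉ Q) :
    IsRegularLocalRing (Localization.AtPrime Q) := by
  classical
  have hsurf := surf_regular hnice
  apply regularLocal_quotient_at
  intro b hb
  by_contra hbP
  set P : Ideal (TB t m i j) := Q.comap (Ideal.Quotient.mk (Ideal.span {hB t m c i j}))
    with hPdef
  have hP : P.IsPrime := inferInstance
  obtain ⟨κ, _, χ, hker⟩ := exists_residue P hP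
  have hPk : P = RingHom.ker χ := by
    ext z
    rw [RingHom.mem_ker, hker]
  have hχb : χ b ≠ 0 := fun h => hbP ((hker b).1 h)
  rw [hPk] at hb
  have hhP : χ (hB t m c i j) = 0 := by
    rw [hker]
    change Ideal.Quotient.mk _ (hB t m c i j) ∈ Q
    have h0 : Ideal.Quotient.mk (Ideal.span {hB t m c i j}) (hB t m c i j) = 0 :=
      Ideal.Quotient.eq_zero_iff_mem.2 (Ideal.subset_span rfl)
    rw [h0]
    exact Q.zero_mem
  have ha : ((a₀ : ℤ) : κ) ≠ 0 := by
    intro h
    apply hQ
    have h1 : ((a₀ : ℤ) : TB t m i j) ∈ P := by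
      rw [← hker, map_intCast, h]
    have h2 : Ideal.Quotient.mk (Ideal.span {hB t m c i j}) ((a₀ : ℤ) : TB t m i j) ∈ Q := h1
    rwa [map_intCast] at h2
  set α : κ := χ (cα t m i j) with hα
  set β : κ := χ (cβ t m i j) with hβ
  set x : κ := χ (cx t m i j) with hx
  set l : ι → κ := fun k => χ (lamB t m i j k) with hl
  set μ : ι → κ := fun k => χ (muB t m i j k) with hμ
  have hli : l i = 1 := by
    simp only [l]
    rw [lam_i, map_one]
  have hlj : l j = 0 := by
    simp only [l]
    rw [lam_j t m hij, map_zero]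
  have hμi : μ i = 0 := by
    simp only [μ]
    rw [mu_i, map_zero]
  have hμj : μ j = 1 := by
    simp only [μ]
    rw [mu_j t m hij, map_one]
  have hrel : α * β = x ^ 2 + (t : κ) * x + (m : κ) := by
    rw [hα, hβ, ← map_mul, c_rel]
    simp only [map_add, map_mul, map_pow, map_intCast, hx]
  have h0 : Gval t m c α β x l μ = 0 := by
    rw [hB_eq, map_Gval] at hhP
    exact hhP
  have htan := fun α' β' x' h l' μ' => chartB_tangent (c := c) hij χ hχb hb α' β' x' h l' μ'
  have hT : ∀ α' β' x' : κ, α * β' + β * α' = (2 * x + (t : κ)) * x' →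
      α' * qf t m c (rl l) + β' * qf t m c (rl μ) + x' * bf t m c (rl l) (rl μ) = 0 := by
    intro α' β' x' h
    have h1 := htan α' β' x' h 0 0 rfl rfl rfl rfl
    rw [rl_zero, bf_zero_right, bf_zero_right, add_zero, add_zero] at h1
    exact h1
  have hrad := rad_v12 t m c l μ hli hlj hμi hμj hrel h0
    (by
      have h1 := hT α (-β) 0 (by ring)
      linear_combination h1)
    (by
      have h1 := hT (2 * x + (t : κ)) 0 β (by ring)
      linear_combination h1)
    (by
      have h1 := hT 0 (2 * x + (t : κ)) α (by ring)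
      linear_combination h1)
    (by
      intro b hbi hbj
      have h1 := htan 0 0 0 (by ring) b 0 hbi hbj rfl rfl
      rw [rl_zero, bf_zero_right] at h1
      simpa using h1)
    (by
      intro b hbi hbj
      have h1 := htan 0 0 0 (by ring) 0 b rfl rfl hbi hbj
      rw [rl_zero, bf_zero_right] at h1
      simpa using h1)
  obtain ⟨ℓ, hℓ⟩ := CharP.exists κ
  have hℓ' : ℓ = 0 ∨ ℓ.Prime := (CharP.char_is_prime_or_zero κ ℓ).symm
  have hℓa : ¬ (ℓ : ℤ) ∣ a₀ := by
    intro h
    exact ha ((CharP.intCast_eq_zero_iff κ ℓ a₀).2 h)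
  by_cases hℓp : ℓ = p
  · subst hℓp
    have hp := hc.prime
    by_cases hD : (ℓ : ℤ) ∣ t ^ 2 - 4 * m
    · obtain ⟨x₀, h1, h2⟩ := exists_x0 hp hD
      have hq1 : qf t m c (v1 t m α x l μ) = 0 := by rw [qf_v1 t m c l μ hrel, h0, mul_zero]
      have hq2 : qf t m c (v2 t m β x l μ) = 0 := by rw [qf_v2 t m c l μ hrel, h0, mul_zero]
      have r1 := rad_ram_zero hp h1 h2 (hc.m2 x₀ h1 h2) (v1 t m α x l μ)
        (fun w => (hrad w).1) hq1
      have r2 := rad_ram_zero hp h1 h2 (hc.m2 x₀ h1 h2) (v2 t m β x l μ)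
        (fun w => (hrad w).2) hq2
      have h2κ : 2 * (x₀ : κ) + (t : κ) = 0 := by
        have := (CharP.intCast_eq_zero_iff κ ℓ (2 * x₀ + t)).2 h2
        push_cast at this
        exact this
      have hα0 : α = 0 := by
        have h3 := r1 i
        rw [v1_inl, v1_inr, hli, hμi] at h3
        linear_combination h3
      have hx0 : x = x₀ := by
        have h3 := r1 j
        rw [v1_inl, v1_inr, hlj, hμj] at h3
        linear_combination h3 - h2κ
      have hβ0 : β = 0 := by
        have h3 := r2 j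
        rw [v2_inl, v2_inr, hlj, hμj] at h3
        linear_combination h3
      have hT' : ∀ α' β' x' : κ, α' * qf t m c (rl l) + β' * qf t m c (rl μ) +
          x' * bf t m c (rl l) (rl μ) = 0 := by
        intro α' β' x'
        apply hT
        rw [hα0, hβ0, hx0, h2κ]
        ring
      have ql : qf t m c (rl l) = 0 := by
        have := hT' 1 0 0
        linear_combination this
      have qμ : qf t m c (rl μ) = 0 := by
        have := hT' 0 1 0
        linear_combination this
      have qb : bf t m c (rl l) (rl μ) = 0 := by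
        have := hT' 0 0 1
        linear_combination this
      have hl' : ∀ w, bf t m c (sm t m (x₀ : κ) 1 (rl l)) w = 0 := by
        intro w
        have h3 := (hrad w).2
        rw [v2, hβ0, zero_smul, add_zero, hx0] at h3
        exact h3
      have hμ' : ∀ w, bf t m c (sm t m (x₀ : κ) 1 (rl μ)) w = 0 := by
        intro w
        have h3 := (hrad w).1
        have h4 : v1 t m α x l μ = (-1 : κ) • sm t m (x₀ : κ) 1 (rl μ) := by
          funext k
          rcases k with k | k
          · rw [v1_inl, Pi.smul_apply, sm_inl, rl_inl, rl_inr, hα0, hx0, smul_eq_mul]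
            linear_combination μ k * h2κ
          · rw [v1_inr, Pi.smul_apply, sm_inr, rl_inl, rl_inr, smul_eq_mul]
            ring
        rw [h4, bf_smul_left] at h3
        linear_combination - h3
      exact rad_ram_plane hp h1 h2 (hc.m2 x₀ h1 h2) l μ hl' hμ' ql qμ qb hli hlj hμi hμj
    · obtain ⟨V, hV, hV2⟩ := rad_unram hp hD hc.m1
      obtain ⟨x1, y1, hxy1⟩ := hV2 κ _ (fun w => (hrad w).1)
      obtain ⟨x2, y2, hxy2⟩ := hV2 κ _ (fun w => (hrad w).2)
      have hDκ : (2 * x + (t : κ)) ^ 2 - 4 * (α * β) ≠ 0 := by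
        intro h
        apply hD
        rw [← CharP.intCast_eq_zero_iff κ ℓ]
        push_cast
        linear_combination h + 4 * hrel
      have hΘ : ∃ N : κ, ∀ s, Gs t m α β x l μ s = N * ((gv t m V s : ℤ) : κ) := by
        have g1 : ∀ s, α * Gs t m α β x l μ s =
            (x1 ^ 2 + (t : κ) * x1 * y1 + (m : κ) * y1 ^ 2) * ((gv t m V s : ℤ) : κ) := by
          intro s
          rw [← gv_v1 t m l μ hrel, hxy1, gv_sm, gv_cast]
        have g2 : ∀ s, β * Gs t m α β x l μ s =
            (x2 ^ 2 + (t : κ) * x2 * y2 + (m : κ) * y2 ^ 2) * ((gv t m V s : ℤ) : κ) := by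
          intro s
          rw [← gv_v2 t m l μ hrel, hxy2, gv_sm, gv_cast]
        have g3 : ∀ s, (2 * x + (t : κ)) * Gs t m α β x l μ s =
            (2 * x1 * x2 + (t : κ) * (x1 * y2 + y1 * x2) + 2 * (m : κ) * y1 * y2) *
              ((gv t m V s : ℤ) : κ) := by
          intro s
          rw [← pgv_v12 t m l μ hrel, hxy1, hxy2, pgv_sm_sm, gv_cast]
        have aux : ∀ (a N : κ), a ≠ 0 → (∀ s, a * Gs t m α β x l μ s =
            N * ((gv t m V s : ℤ) : κ)) →
            ∃ N : κ, ∀ s, Gs t m α β x l μ s = N * ((gv t m V s : ℤ) : κ) := by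
          intro a N ha h
          refine ⟨a⁻¹ * N, fun s => ?_⟩
          rw [mul_assoc, ← h s, inv_mul_cancel_left₀ ha]
        by_cases hα0 : α = 0
        · have h3 : 2 * x + (t : κ) ≠ 0 := by
            intro h3
            apply hDκ
            rw [hα0, h3]
            ring
          exact aux _ _ h3 g3
        · exact aux _ _ hα0 g1
      obtain ⟨N, hN⟩ := hΘ
      have h1 : Gs t m α β x l μ (.inr (i, j)) = 1 := by
        rw [Gs_inr, hli, hlj, hμi, hμj]
        ring
      have h2 := hN (.inr (i, j))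
      rw [h1] at h2
      set u : ℤ := gv t m V (.inr (i, j)) with hu
      have hu0 : (u : κ) ≠ 0 := by
        intro h
        rw [h, mul_zero] at h2
        exact one_ne_zero h2
      have hup : ¬ (ℓ : ℤ) ∣ u := fun h => hu0 ((CharP.intCast_eq_zero_iff κ ℓ u).2 h)
      obtain ⟨w, hw⟩ := exists_inv hp hup
      have hwN : ZMod.castHom (dvd_pow_self ℓ two_ne_zero) κ w = N := by
        have h3 := congrArg (ZMod.castHom (dvd_pow_self ℓ two_ne_zero) κ) hw
        rw [map_mul, map_intCast, map_one, h2, mul_comm N] at h3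
        exact mul_left_cancel₀ hu0 h3
      let Vz : Par ι → ZMod (ℓ ^ 2) := fun k => ((V k : ℤ) : ZMod (ℓ ^ 2))
      have hVz : ∀ s, gv t m Vz s = ((gv t m V s : ℤ) : ZMod (ℓ ^ 2)) := fun s => gv_cast t m V s
      have hw' : gv t m Vz (.inr (i, j)) * w = 1 := by rw [hVz]; exact hw
      have hpt := Gs_point t m Vz i j hw'
      have hval : ∀ s, ZMod.castHom (dvd_pow_self ℓ two_ne_zero) κ (gv t m Vz s * w) =
          Gs t m α β x l μ s := by
        intro s
        rw [map_mul, hVz, map_intCast, hwN, hN, mul_comm]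
      have hrelz : (gv t m Vz (.inl (i, i)) * w) * (gv t m Vz (.inl (j, j)) * w) =
          (gv t m Vz (.inl (i, j)) * w) ^ 2 + (t : ZMod (ℓ ^ 2)) *
            (gv t m Vz (.inl (i, j)) * w) + (m : ZMod (ℓ ^ 2)) := by
        have h3 : gv t m Vz (.inl (i, i)) * gv t m Vz (.inl (j, j)) =
            gv t m Vz (.inl (i, j)) ^ 2 + (t : ZMod (ℓ ^ 2)) * gv t m Vz (.inl (i, j)) *
              gv t m Vz (.inr (i, j)) + (m : ZMod (ℓ ^ 2)) * gv t m Vz (.inr (i, j)) ^ 2 := by
          simp only [gv_inl, gv_inr]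
          ring
        linear_combination (w ^ 2) * h3 + ((t : ZMod (ℓ ^ 2)) * gv t m Vz (.inl (i, j)) * w +
          (m : ZMod (ℓ ^ 2)) * (gv t m Vz (.inr (i, j)) * w + 1)) * hw'
      let e : TB t m i j →+* ZMod (ℓ ^ 2) := homB t m i j _ _ _ hrelz
        (fun k => gv t m Vz (.inr (k, j)) * w) (fun k => gv t m Vz (.inr (i, k)) * w)
      have e1 : gv t m Vz (.inr (i, j)) * w = 1 := hw'
      have e2 : gv t m Vz (.inr (j, j)) * w = 0 := by
        rw [gv_inr]
        ring
      have e3 : gv t m Vz (.inr (i, i)) * w = 0 := by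
        rw [gv_inr]
        ring
      have he : (ZMod.castHom (dvd_pow_self ℓ two_ne_zero) κ).comp e = χ := by
        apply homB_ext
        · rw [RingHom.comp_apply, homB_α, hval, Gs_inl, hli, hμi]
          change _ = α
          ring
        · rw [RingHom.comp_apply, homB_β, hval, Gs_inl, hlj, hμj]
          change _ = β
          ring
        · rw [RingHom.comp_apply, homB_x, hval, Gs_inl, hli, hlj, hμi, hμj]
          change _ = x
          ring
        · intro k
          rw [RingHom.comp_apply, homB_lam hij _ _ _ _ _ _ e1 e2, hval, Gs_inr, hlj, hμj]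
          change _ = l k
          ring
        · intro k
          rw [RingHom.comp_apply, homB_mu hij _ _ _ _ _ _ e3 e1, hval, Gs_inr, hli, hμi]
          change _ = μ k
          ring
      have h8 := eval_sq hp χ e he hχb hb
      rw [homB_h hij _ _ _ _ _ _ e1 e2 e3 e1, Gval_eq] at h8
      have h9 : ∑ s, (c s : ZMod (ℓ ^ 2)) * (gv t m Vz s * w) = 0 := by
        rw [← h8]
        exact Finset.sum_congr rfl fun s _ => by rw [hpt s]
      have h10 : qf t m c Vz = 0 := by
        have h11 : qf t m c Vz * w = 0 := by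
          rw [← h9, qf, Finset.sum_mul]
          exact Finset.sum_congr rfl fun s _ => by ring
        linear_combination (gv t m Vz (.inr (i, j))) * h11 - qf t m c Vz * hw'
      rw [qf_cast] at h10
      have h12 : (ℓ : ℤ) ^ 2 ∣ qf t m c V := by
        have h13 := (ZMod.intCast_zmod_eq_zero_iff_dvd (qf t m c V) (ℓ ^ 2)).1 h10
        push_cast at h13
        exact h13
      exact hc.m1 V ⟨.inr (i, j), hup⟩ hV h12
  · have hz := rad_eq_zero t m c ℓ hℓ' (hc.nd ℓ hℓ' hℓp hℓa) _ (fun w => (hrad w).1)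
    have h1 := congrFun hz (.inr j)
    rw [v1_inr, hμj, Pi.zero_apply] at h1
    exact one_ne_zero (by linear_combination - h1)

end Herm

end Pool.MP_602153_ag
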