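import Mathlib
import Pool.Agent.HermVar.ChartB
import Pool.Agent.HermVar.Gram

set_option autoImplicit false

/-!
# Hermitian varieties: `β` is a nonzerodivisor on the chart `y_ij = 1`
-/

namespace Pool.MP_602153_ag

namespace Herm

open WeilQuad MvPolynomial

section Psi

variable {K : Type} [Field K] [Algebra ℚ K] {ω : K} {t m : ℤ}

omit [Algebra ℚ K] in
theorem nzdx_zev_X (P : Polynomial ℤ) :
    zev (Polynomial.X : Polynomial K) P = P.map (Int.castRingHom K) := by
  have h1 : zev (Polynomial.X : Polynomial K) = Polynomial.mapRingHom (Int.castRingHom K) := by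
    apply Polynomial.ringHom_ext'
    · exact RingHom.ext_int _ _
    · rw [zev_X]
      simp
  rw [h1]
  rfl

theorem nzdx_rel (h : IsGen K t m ω) :
    (Polynomial.X : Polynomial K) * 0 = zev (Polynomial.C (-ω)) (gpol t m) := by
  rw [zev_gpol, mul_zero]
  have h1 : ω ^ 2 - (t : K) * ω + (m : K) = 0 := by
    rw [h.eq]
    ring
  have h2 := congrArg (Polynomial.C : K → Polynomial K) h1
  simp only [map_add, map_sub, map_mul, map_pow, map_zero, map_intCast] at h2
  rw [map_neg]
  linear_combination -h2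

/-- The map `α ↦ X`, `β ↦ 0`, `x ↦ - ω`. -/
noncomputable def nzdx_psi (h : IsGen K t m ω) : Surf (gpol t m) →+* Polynomial K :=
  slift Polynomial.X 0 (Polynomial.C (-ω)) (nzdx_rel h)

theorem nzdx_form (f : Surf (gpol t m)) : ∃ (f' : Surf (gpol t m)) (P Q : Polynomial ℤ),
    f = sB (gpol t m) * f' + zev (sA (gpol t m)) P + zev (sA (gpol t m)) Q * sX (gpol t m) := by
  obtain ⟨F, rfl⟩ := smk_surjective (gpol t m) f
  have hrel := s_rel (gpol t m)
  rw [zev_gpol] at hrel
  induction F using MvPolynomial.induction_on with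
  | C a =>
    refine ⟨0, Polynomial.C a, 0, ?_⟩
    rw [zev_C, map_zero]
    have h1 : smk (gpol t m) (MvPolynomial.C a) = (a : Surf (gpol t m)) := by
      have := RingHom.congr_fun (RingHom.ext_int ((smk (gpol t m)).comp MvPolynomial.C)
        (Int.castRingHom (Surf (gpol t m)))) a
      simpa using this
    rw [h1]
    ring
  | add F G hF hG =>
    obtain ⟨f1, P1, Q1, h1⟩ := hF
    obtain ⟨f2, P2, Q2, h2⟩ := hG
    refine ⟨f1 + f2, P1 + P2, Q1 + Q2, ?_⟩
    rw [map_add, h1, h2, map_add, map_add]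
    ring
  | mul_X F n hF =>
    obtain ⟨f', P, Q, h1⟩ := hF
    rw [map_mul, h1]
    fin_cases n
    · refine ⟨sA (gpol t m) * f', Polynomial.X * P, Polynomial.X * Q, ?_⟩
      change _ * sA (gpol t m) = _
      rw [map_mul, map_mul, zev_X]
      ring
    · refine ⟨sB (gpol t m) * f' + zev (sA (gpol t m)) P + zev (sA (gpol t m)) Q *
        sX (gpol t m), 0, 0, ?_⟩
      change _ * sB (gpol t m) = _
      rw [map_zero]
      ring
    · refine ⟨sX (gpol t m) * f' + sA (gpol t m) * zev (sA (gpol t m)) Q,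
        - (Polynomial.C m * Q), P - Polynomial.C t * Q, ?_⟩
      change _ * sX (gpol t m) = _
      rw [map_neg, map_sub, map_mul, map_mul, zev_C, zev_C]
      linear_combination (-zev (sA (gpol t m)) Q) * hrel

theorem nzdx_dvd (h : IsGen K t m ω) {f : Surf (gpol t m)} (hf : nzdx_psi h f = 0) :
    sB (gpol t m) ∣ f := by
  obtain ⟨f', P, Q, rfl⟩ := nzdx_form f
  rw [map_add, map_add, map_mul, map_mul, zev_map, zev_map] at hf
  rw [nzdx_psi, slift_A, slift_B, slift_X, zero_mul, zero_add, nzdx_zev_X, nzdx_zev_X] at hf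
  have hchar : CharZero K := algebraRat.charZero K
  have h1 : ∀ k, P.coeff k = 0 ∧ Q.coeff k = 0 := by
    intro k
    have h2 := congrArg (fun F => Polynomial.coeff F k) hf
    simp only [Polynomial.coeff_add, Polynomial.coeff_mul_C, Polynomial.coeff_map,
      Polynomial.coeff_zero, eq_intCast] at h2
    have hQ : Q.coeff k = 0 := by
      by_contra hQ
      have hQ' : ((Q.coeff k : ℤ) : K) ≠ 0 := by exact_mod_cast hQ
      apply h.not_rat ((P.coeff k : ℚ) / (Q.coeff k : ℚ))
      rw [map_div₀, map_intCast, map_intCast, div_eq_iff hQ']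
      linear_combination h2
    refine ⟨?_, hQ⟩
    rw [hQ, Int.cast_zero, zero_mul, add_zero] at h2
    exact_mod_cast h2
  have hP : P = 0 := by
    ext k
    rw [(h1 k).1, Polynomial.coeff_zero]
  have hQ : Q = 0 := by
    ext k
    rw [(h1 k).2, Polynomial.coeff_zero]
  rw [hP, hQ, map_zero, zero_mul, add_zero, add_zero]
  exact dvd_mul_right _ _

theorem nzdx_dvd' (h : IsGen K t m ω) {κ : Type} {f : MvPolynomial κ (Surf (gpol t m))}
    (hf : MvPolynomial.map (nzdx_psi h) f = 0) : C (sB (gpol t m)) ∣ f := by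
  rw [MvPolynomial.C_dvd_iff_dvd_coeff]
  intro k
  apply nzdx_dvd h
  rw [← MvPolynomial.coeff_map, hf, coeff_zero]

end Psi

variable {ι : Type} [Fintype ι] [DecidableEq ι] {t m : ℤ} {c : Idx ι → ℤ}

section Ev

variable {K : Type} [Field K] [Algebra ℚ K] {ω : K} (h : IsGen K t m ω) {i j : ι}

omit [Fintype ι] [DecidableEq ι] in
/-- Evaluation of the variables. -/
noncomputable def nzdx_ev (h : IsGen K t m ω) (i j : ι) (mu : ι → ℤ) : TB t m i j →+* Polynomial K :=
  eval₂Hom (nzdx_psi h) (fun q => if q.2 then ((mu q.1 : ℤ) : Polynomial K) else 0)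

omit [Fintype ι] [DecidableEq ι] in
theorem nzdx_ev_eq_zero {mu : ι → ℤ} {f : TB t m i j}
    (hf : MvPolynomial.map (nzdx_psi h) f = 0) : nzdx_ev h i j mu f = 0 := by
  have h1 := MvPolynomial.eval_map (nzdx_psi h)
    (fun q : {k : ι // k ≠ i ∧ k ≠ j} × Bool => if q.2 then ((mu q.1 : ℤ) : Polynomial K) else 0) f
  rw [hf, map_zero] at h1
  exact h1.symm

omit [Fintype ι] in
theorem nzdx_ev_lam (mu : ι → ℤ) (k : ι) : nzdx_ev h i j mu (lamB t m i j k) =
    ((Pi.single i (1 : ℤ) : ι → ℤ) k : Polynomial K) := by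
  rw [lamB]
  split_ifs with hk hki
  · rw [nzdx_ev, coe_eval₂Hom, eval₂_X]
    simp [hk.1]
  · subst hki
    simp
  · simp [hki]

omit [Fintype ι] in
theorem nzdx_ev_mu {mu : ι → ℤ} (hi : mu i = 0) (hj : mu j = 1) (k : ι) :
    nzdx_ev h i j mu (muB t m i j k) = (mu k : Polynomial K) := by
  rw [muB]
  split_ifs with hk hki
  · rw [nzdx_ev, coe_eval₂Hom, eval₂_X]
    simp
  · subst hki
    rw [hi]
    simp
  · have hkj : k = j := by
      by_contra hne
      exact hk ⟨hki, hne⟩
    subst hkj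
    rw [hj]
    simp

omit [Fintype ι] [DecidableEq ι] in
theorem nzdx_ev_α (mu : ι → ℤ) : nzdx_ev h i j mu (cα t m i j) = Polynomial.X := by
  rw [cα, nzdx_ev, coe_eval₂Hom, eval₂_C, nzdx_psi, slift_A]

omit [Fintype ι] [DecidableEq ι] in
theorem nzdx_ev_β (mu : ι → ℤ) : nzdx_ev h i j mu (cβ t m i j) = 0 := by
  rw [cβ, nzdx_ev, coe_eval₂Hom, eval₂_C, nzdx_psi, slift_B]

omit [Fintype ι] [DecidableEq ι] in
theorem nzdx_ev_x (mu : ι → ℤ) : nzdx_ev h i j mu (cx t m i j) = Polynomial.C (-ω) := by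
  rw [cx, nzdx_ev, coe_eval₂Hom, eval₂_C, nzdx_psi, slift_X]

theorem nzdx_ev_gen {mu : ι → ℤ} (hi : mu i = 0) (hj : mu j = 1) (s : Idx ι) :
    nzdx_ev h i j mu (genB t m i j s) =
      ((gv t m (rl (Pi.single i (1 : ℤ))) s : ℤ) : Polynomial K) * Polynomial.X -
      Polynomial.C ω * ((pgv t m (rl (Pi.single i (1 : ℤ))) (rl mu) s : ℤ) : Polynomial K) +
      ((pgv t m (sm t m 0 1 (rl (Pi.single i (1 : ℤ)))) (rl mu) s : ℤ) : Polynomial K) := by
  rcases s with ⟨k, l⟩ | ⟨k, l⟩
  · simp only [genB, Sum.elim_inl, map_add, map_mul, map_intCast, nzdx_ev_lam,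
      nzdx_ev_mu h hi hj, nzdx_ev_α, nzdx_ev_β, nzdx_ev_x, gv_inl, pgv, sm_inl, sm_inr, rl_inl,
      rl_inr, map_neg]
    push_cast
    ring
  · simp only [genB, Sum.elim_inr, map_sub, map_mul, map_intCast, nzdx_ev_lam,
      nzdx_ev_mu h hi hj, gv_inr, pgv, sm_inl, sm_inr, rl_inl, rl_inr]
    push_cast
    ring

theorem nzdx_ev_h {mu : ι → ℤ} (hi : mu i = 0) (hj : mu j = 1) :
    nzdx_ev h i j mu (hB t m c i j) =
      ((qf t m c (rl (Pi.single i (1 : ℤ))) : ℤ) : Polynomial K) * Polynomial.X -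
      Polynomial.C ω * ((bf t m c (rl (Pi.single i (1 : ℤ))) (rl mu) : ℤ) : Polynomial K) +
      ((bf t m c (sm t m 0 1 (rl (Pi.single i (1 : ℤ)))) (rl mu) : ℤ) : Polynomial K) := by
  rw [hB, map_sum]
  simp only [map_mul, map_intCast, nzdx_ev_gen h hi hj, qf, bf]
  push_cast
  rw [Finset.mul_sum, Finset.sum_mul, ← Finset.sum_sub_distrib, ← Finset.sum_add_distrib]
  exact Finset.sum_congr rfl fun s _ => by ring

/-- The consequences of the vanishing of the equation. -/
theorem nzdx_zero (hh : MvPolynomial.map (nzdx_psi h) (hB t m c i j) = 0)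
    {mu : ι → ℤ} (hi : mu i = 0) (hj : mu j = 1) :
    qf t m c (rl (Pi.single i (1 : ℤ))) = 0 ∧
    bf t m c (rl (Pi.single i (1 : ℤ))) (rl mu) = 0 ∧
    bf t m c (sm t m 0 1 (rl (Pi.single i (1 : ℤ)))) (rl mu) = 0 := by
  have hchar : CharZero K := algebraRat.charZero K
  have h1 := nzdx_ev_h (c := c) h hi hj
  rw [nzdx_ev_eq_zero h hh] at h1
  set q := qf t m c (rl (Pi.single i (1 : ℤ)))
  set b := bf t m c (rl (Pi.single i (1 : ℤ))) (rl mu)
  set b' := bf t m c (sm t m 0 1 (rl (Pi.single i (1 : ℤ)))) (rl mu)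
  have e : ∀ z : ℤ, ((z : ℤ) : Polynomial K) = Polynomial.C (z : K) := fun z => by simp
  rw [e, e, e, ← map_mul] at h1
  have h2 := congrArg (fun F => Polynomial.coeff F 1) h1
  have h3 := congrArg (fun F => Polynomial.coeff F 0) h1
  simp only [Polynomial.coeff_add, Polynomial.coeff_sub, Polynomial.coeff_C_mul,
    Polynomial.coeff_X_one, Polynomial.coeff_C_succ, Polynomial.coeff_zero,
    Polynomial.coeff_X_zero, Polynomial.coeff_C_zero, mul_zero, mul_one, sub_zero, add_zero,
    zero_sub] at h2 h3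
  have hq : q = 0 := by exact_mod_cast h2.symm
  have hb : b = 0 := by
    by_contra hb
    have hb' : ((b : ℤ) : K) ≠ 0 := by exact_mod_cast hb
    apply h.not_rat ((b' : ℚ) / (b : ℚ))
    rw [map_div₀, map_intCast, map_intCast, div_eq_iff hb']
    linear_combination -h3
  refine ⟨hq, hb, ?_⟩
  rw [hb, Int.cast_zero, mul_zero, neg_zero, zero_add] at h3
  exact_mod_cast h3.symm

end Ev

omit [Fintype ι] in
theorem nzdx_rl_single (a : ι) : rl (Pi.single a (1 : ℤ)) = (Pi.single (.inl a) 1 : Par ι → ℤ) := by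
  funext k
  rcases k with k | k
  · rw [rl_inl]
    by_cases hk : k = a
    · subst hk
      simp
    · have : (Sum.inl k : Par ι) ≠ .inl a := by simpa using hk
      simp [hk, this]
  · rw [rl_inr]
    simp

omit [Fintype ι] in
theorem nzdx_sm_single (a : ι) : sm t m 0 1 (rl (Pi.single a (1 : ℤ))) =
    (Pi.single (.inr a) 1 : Par ι → ℤ) := by
  funext k
  rcases k with k | k
  · rw [sm_inl, rl_inr]
    simp
  · rw [sm_inr, rl_inr, rl_inl]
    by_cases hk : k = a
    · subst hk
      simp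
    · have : (Sum.inr k : Par ι) ≠ .inr a := by simpa using hk
      simp [hk, this]

theorem nzdx_h_ne {K : Type} [Field K] [Algebra ℚ K] {ω : K} (h : IsGen K t m ω)
    (hnd : ∀ v : Par ι → ℤ, (∀ w, bf t m c v w = 0) → v = 0) {i j : ι} (hij : i ≠ j) :
    MvPolynomial.map (nzdx_psi h) (hB t m c i j) ≠ 0 := by
  intro hh
  have hj0 := nzdx_zero h hh (mu := Pi.single j 1) (by simp [hij]) (by simp)
  obtain ⟨hq, hbj, hbj'⟩ := hj0
  have hb : ∀ a, bf t m c (rl (Pi.single i (1 : ℤ))) (rl (Pi.single a 1)) = 0 ∧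
      bf t m c (sm t m 0 1 (rl (Pi.single i (1 : ℤ)))) (rl (Pi.single a 1)) = 0 := by
    intro a
    by_cases hai : a = i
    · subst hai
      refine ⟨?_, ?_⟩
      · rw [bf_self, hq, mul_zero]
      · rw [bf_symm, bf_self_sm, hq, mul_zero]
    · by_cases haj : a = j
      · subst haj
        exact ⟨hbj, hbj'⟩
      · have h1 := nzdx_zero h hh (mu := Pi.single j 1 + Pi.single a 1)
          (by simp [hij, Ne.symm hai]) (by simp [Ne.symm haj])
        have h2 : rl (Pi.single j (1 : ℤ) + Pi.single a 1 : ι → ℤ) =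
            rl (Pi.single j (1 : ℤ)) + rl (Pi.single a 1) := by
          funext k
          rcases k with k | k
          · rfl
          · simp [rl_inr]
        rw [h2, bf_add_right, bf_add_right, hbj, hbj', zero_add, zero_add] at h1
        exact ⟨h1.2.1, h1.2.2⟩
  have hv : rl (Pi.single i (1 : ℤ)) = 0 := by
    apply hnd
    apply bf_eq_zero_of_single
    rintro (a | a)
    · rw [← nzdx_rl_single]
      exact (hb a).1
    · rw [← nzdx_sm_single (t := t) (m := m), bf_sm_right]
      have h1 : sm t m (0 + (t : ℤ) * 1) (-1) (rl (Pi.single i (1 : ℤ))) =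
          (t : ℤ) • rl (Pi.single i (1 : ℤ)) + (-1 : ℤ) • sm t m 0 1 (rl (Pi.single i (1 : ℤ))) := by
        funext k
        rcases k with k | k
        · simp only [sm_inl, Pi.add_apply, Pi.smul_apply, smul_eq_mul]
          ring
        · simp only [sm_inr, sm_inl, Pi.add_apply, Pi.smul_apply, smul_eq_mul]
          ring
      rw [Int.cast_id, h1, bf_add_left, bf_smul_left, bf_smul_left, (hb a).1, (hb a).2]
      ring
  have h2 := congrFun hv (.inl i)
  rw [rl_inl] at h2
  simp at h2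

theorem chartB_nzd {K : Type} [Field K] [Algebra ℚ K] {ω : K} (h : IsGen K t m ω)
    (hnd : ∀ v : Par ι → ℤ, (∀ w, bf t m c v w = 0) → v = 0) {i j : ι} (hij : i ≠ j)
    (f : TB t m i j) (hf : cβ t m i j * f ∈ Ideal.span {hB t m c i j}) :
    f ∈ Ideal.span {hB t m c i j} := by
  rw [Ideal.mem_span_singleton] at hf ⊢
  obtain ⟨g, hg⟩ := hf
  have h1 : MvPolynomial.map (nzdx_psi h) (hB t m c i j) * MvPolynomial.map (nzdx_psi h) g = 0 := by
    rw [← map_mul, ← hg, map_mul, cβ, map_C, nzdx_psi, slift_B, map_zero, zero_mul]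
  have h2 := (mul_eq_zero.1 h1).resolve_left (nzdx_h_ne h hnd hij)
  obtain ⟨g', rfl⟩ := nzdx_dvd' h h2
  refine ⟨g', ?_⟩
  have h3 : cβ t m i j * (f - hB t m c i j * g') = 0 := by
    rw [mul_sub, hg, cβ]
    ring
  have h4 := (mul_left_mem_nonZeroDivisors_eq_zero_iff
    (surf_nonZeroDivisor' (gpol_ne_zero t m) _)).1 h3
  exact sub_eq_zero.1 h4

end Herm

end Pool.MP_602153_ag
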