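import Mathlib
import Pool.Agent.HermVar.NZD

set_option autoImplicit false

/-!
# Hermitian varieties: identification of the chart rings
-/

namespace Pool.MP_602153_ag

namespace Herm

open WeilQuad MvPolynomial

section General

variable {σ : Type} {I J : Ideal (MvPolynomial σ ℤ)} {T : Type} [CommRing T]

/-- The chart ring of a smaller closed subscheme. -/
theorem chart_quotient (s : σ) (θ : MvPolynomial σ ℤ →+* T) (hθ : Function.Surjective θ)
    (h1 : θ (X s) = 1) (η : T →+* ChartRing J s) (hη : ∀ f, η (θ f) = cmk J s f)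
    (hJI : J ≤ I) {H : MvPolynomial σ ℤ} (hH : H ∈ I)
    (hI : ∀ f ∈ I, θ f ∈ Ideal.span {θ H}) :
    Nonempty (ChartRing I s ≃+* T ⧸ Ideal.span {θ H}) := by
  -- the restriction from the big chart
  let ρ : ChartRing J s →+* ChartRing I s := cdesc s (cmk I s)
    (fun f hf => by
      rw [RingHom.mem_ker]
      exact cmk_eq_zero s (hJI hf)) (cmk_self s)
  have hρ : ∀ f, ρ (cmk J s f) = cmk I s f := fun f => rfl
  let fwd : ChartRing I s →+* T ⧸ Ideal.span {θ H} :=
    cdesc s ((Ideal.Quotient.mk (Ideal.span {θ H})).comp θ)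
      (fun f hf => by
        rw [RingHom.mem_ker, RingHom.comp_apply]
        exact Ideal.Quotient.eq_zero_iff_mem.2 (hI f hf)) (by rw [RingHom.comp_apply, h1, map_one])
  have hfwd : ∀ f, fwd (cmk I s f) = Ideal.Quotient.mk _ (θ f) := fun f => rfl
  let bwd : T ⧸ Ideal.span {θ H} →+* ChartRing I s :=
    Ideal.Quotient.lift (Ideal.span {θ H}) (ρ.comp η) (by
      intro a ha
      rw [Ideal.mem_span_singleton] at ha
      obtain ⟨b, rfl⟩ := ha
      rw [map_mul, RingHom.comp_apply, hη, hρ, cmk_eq_zero s hH, zero_mul])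
  have hbwd : ∀ z, bwd (Ideal.Quotient.mk _ z) = ρ (η z) := fun z => rfl
  refine ⟨RingEquiv.ofRingHom fwd bwd ?_ ?_⟩
  · apply RingHom.ext
    intro z
    obtain ⟨z, rfl⟩ := Ideal.Quotient.mk_surjective z
    obtain ⟨f, rfl⟩ := hθ z
    rw [RingHom.comp_apply, hbwd, hη, hρ, hfwd, RingHom.id_apply]
  · apply RingHom.ext
    intro z
    obtain ⟨f, rfl⟩ := cmk_surjective s z
    rw [RingHom.comp_apply, hfwd, hbwd, hη, hρ, RingHom.id_apply]

theorem hom_ext_of_X {u v : MvPolynomial σ ℤ →+* T} (h : ∀ s, u (X s) = v (X s)) : u = v := by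
  apply MvPolynomial.ringHom_ext
  · intro z
    exact RingHom.congr_fun (RingHom.ext_int (u.comp C) (v.comp C)) z
  · exact h

/-- Membership in the ideal of a chart from divisibility in the ring of parameters. -/
theorem mem_span_of_dvd {τ : Type} {e : ℕ} (φ : MvPolynomial σ ℤ →ₐ[ℤ] MvPolynomial τ ℤ)
    (he : 0 < e) (hφ : ∀ s, (φ (X s)).IsHomogeneous e)
    (θ : MvPolynomial σ ℤ →+* T) (ε : MvPolynomial τ ℤ →+* T) (β : T)
    (h : ∀ s, β * θ (X s) = ε (φ (X s))) {H : MvPolynomial σ ℤ}
    (hH : H.IsHomogeneous 1) (hβ : ∀ f, β * f ∈ Ideal.span {θ H} → f ∈ Ideal.span {θ H})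
    (f : MvPolynomial σ ℤ) (hf : ∀ k, φ H ∣ φ (homogeneousComponent k f)) :
    θ f ∈ Ideal.span {θ H} := by
  rw [← sum_homogeneousComponent f, map_sum]
  refine Ideal.sum_mem _ fun k _ => ?_
  have h1 := scale_hom θ (ε.comp (φ : MvPolynomial σ ℤ →+* MvPolynomial τ ℤ)) β h
    (homogeneousComponent_isHomogeneous k f)
  have h2 := scale_hom θ (ε.comp (φ : MvPolynomial σ ℤ →+* MvPolynomial τ ℤ)) β h hH
  obtain ⟨g, hg⟩ := hf k
  have h3 : β ^ k * θ (homogeneousComponent k f) ∈ Ideal.span {θ H} := by
    rw [h1]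
    change ε (φ (homogeneousComponent k f)) ∈ _
    rw [hg, map_mul]
    have h4 : ε (φ H) = β * θ H := by
      rw [pow_one] at h2
      exact h2.symm
    rw [h4, Ideal.mem_span_singleton]
    exact ⟨β * ε g, by ring⟩
  have h5 : ∀ (k : ℕ) (z : T), β ^ k * z ∈ Ideal.span {θ H} → z ∈ Ideal.span {θ H} := by
    intro k
    induction k with
    | zero =>
      intro z hz
      simpa using hz
    | succ k ih =>
      intro z hz
      apply ih
      apply hβ
      rw [← mul_assoc, ← pow_succ']
      exact hz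
  exact h5 k _ h3

end General

variable {ι : Type} [Fintype ι] [DecidableEq ι] {t m : ℤ} {c : Idx ι → ℤ}

variable (c) in
/-- The linear form with coefficients `c`. -/
noncomputable def Hc : MvPolynomial (Idx ι) ℤ := ∑ s, (c s : MvPolynomial (Idx ι) ℤ) * X s

omit [DecidableEq ι] in
theorem Hc_homogeneous : (Hc c).IsHomogeneous 1 := by
  rw [Hc]
  refine IsHomogeneous.sum _ _ _ fun s _ => ?_
  have h0 : ((c s : ℤ) : MvPolynomial (Idx ι) ℤ).IsHomogeneous 0 := by
    have := isHomogeneous_C (Idx ι) (c s)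
    simpa using this
  have := h0.mul (isHomogeneous_X ℤ s)
  simpa using this

section A

variable (t m) (i : ι)

omit [Fintype ι] in
theorem thetaA_px (k l : ι) : thetaA t m i (px k l) = aA t i k * aA t i l +
    (t : TA i) * aA t i k * bA i l + (m : TA i) * bA i k * bA i l := by
  simp [thetaA, gen, px]

omit [Fintype ι] in
theorem thetaA_py (k l : ι) : thetaA t m i (py k l) = bA i k * aA t i l - aA t i k * bA i l := by
  simp [thetaA, gen, py]

omit [Fintype ι] in
theorem thetaA_surjective : Function.Surjective (thetaA t m i) := by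
  rw [← RingHom.range_eq_top, eq_top_iff]
  rintro z -
  have hx : ∀ k, xA i k ∈ (thetaA t m i).range := by
    intro k
    refine ⟨px i k, ?_⟩
    rw [thetaA_px, aA, aA, bA, bA, xA_self, yA_self]
    ring
  have hy : ∀ k, yA i k ∈ (thetaA t m i).range := by
    intro k
    refine ⟨py i k, ?_⟩
    rw [thetaA_py, aA, aA, bA, bA, xA_self, yA_self]
    ring
  induction z using MvPolynomial.induction_on with
  | C a =>
    refine ⟨C a, ?_⟩
    simp
  | add p q hp hq => exact Subring.add_mem _ hp hq
  | mul_X p q hp =>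
    refine Subring.mul_mem _ hp ?_
    obtain ⟨⟨k, hk⟩, b⟩ := q
    cases b
    · have := hx k
      rwa [xA, dif_pos hk] at this
    · have := hy k
      rwa [yA, dif_pos hk] at this

omit [Fintype ι] in
theorem etaA_thetaA (f : MvPolynomial (Idx ι) ℤ) :
    etaA t m i (thetaA t m i f) = cmk (RingHom.ker (phi (ι := ι) t m)) (Sum.inl (i, i)) f := by
  have hxi : xA i i = 1 := xA_self i
  have hyi : yA i i = 0 := yA_self i
  let M := cmk (RingHom.ker (phi (ι := ι) t m)) (Sum.inl (i, i))
  have hηx : ∀ k, etaA t m i (xA i k) = M (px i k) := by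
    intro k
    by_cases hk : k = i
    · subst hk
      rw [hxi, map_one]
      exact (cmk_self _).symm
    · simp [xA, hk, etaA, M]
  have hηy : ∀ k, etaA t m i (yA i k) = M (py i k) := by
    intro k
    by_cases hk : k = i
    · subst hk
      rw [hyi, map_zero]
      exact (cmk_yii t m _ _).symm
    · simp [yA, hk, etaA, M]
  have hM1 : M (px i i) = 1 := cmk_self _
  have h0 : (etaA t m i).comp (thetaA t m i) =
      cmk (RingHom.ker (phi (ι := ι) t m)) (Sum.inl (i, i)) := by
    apply hom_ext_of_X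
    rintro (⟨k, l⟩ | ⟨k, l⟩)
    · change etaA t m i (thetaA t m i (px k l)) = M (px k l)
      rw [thetaA_px]
      simp only [aA, bA, map_add, map_mul, map_neg, map_intCast, hηx, hηy]
      have h2 : M (px k l) = M (px k l * px i i) := by rw [map_mul, hM1, mul_one]
      rw [h2]
      simp only [← map_mul, ← map_add, ← map_neg, ← map_intCast M]
      apply cmk_eq
      rw [RingHom.mem_ker]
      simp only [map_sub, map_add, map_mul, map_neg, map_intCast, phi_px, phi_py]
      ring
    · change etaA t m i (thetaA t m i (py k l)) = M (py k l)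
      rw [thetaA_py]
      simp only [aA, bA, map_add, map_mul, map_neg, map_intCast, hηx, hηy, map_sub]
      have h2 : M (py k l) = M (py k l * px i i) := by rw [map_mul, hM1, mul_one]
      rw [h2]
      simp only [← map_mul, ← map_add, ← map_neg, ← map_sub, ← map_intCast M]
      apply cmk_eq
      rw [RingHom.mem_ker]
      simp only [map_sub, map_add, map_mul, map_neg, map_intCast, phi_px, phi_py]
      ring
  exact RingHom.congr_fun h0 f

omit [Fintype ι] in
theorem thetaA_one : thetaA t m i (X (Sum.inl (i, i))) = 1 := by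
  change thetaA t m i (px i i) = 1
  rw [thetaA_px, aA, bA, xA_self, yA_self]
  ring

theorem thetaA_Hc : thetaA t m i (Hc c) = hA t m c i := by
  rw [Hc, map_sum, hA]
  refine Finset.sum_congr rfl fun s _ => ?_
  rw [map_mul, map_intCast, thetaA, coe_eval₂Hom, eval₂_X]

theorem chartA_equiv {I : Ideal (MvPolynomial (Idx ι) ℤ)}
    (hI0 : RingHom.ker (phi (ι := ι) t m) ≤ I) (hHI : Hc c ∈ I)
    (hI : ∀ f ∈ I, ∀ k, phi t m (Hc c) ∣ phi t m (homogeneousComponent k f)) :
    Nonempty (ChartRing I (Sum.inl (i, i)) ≃+* TA i ⧸ Ideal.span {hA t m c i}) := by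
  rw [← thetaA_Hc]
  refine chart_quotient (Sum.inl (i, i)) (thetaA t m i) (thetaA_surjective t m i)
    (thetaA_one t m i) (etaA t m i) (etaA_thetaA t m i) hI0 hHI ?_
  intro f hf
  refine mem_span_of_dvd (phi t m) (e := 2) (by norm_num) (phi_homogeneous t m) (thetaA t m i)
    (epsA t i) 1 ?_ Hc_homogeneous (fun f hf => by rwa [one_mul] at hf) f (hI f hf)
  have ha : ∀ k, epsA t i (pa k) = aA t i k := by
    intro k
    simp [epsA, pa]
  have hb : ∀ k, epsA t i (pb k) = bA i k := by
    intro k
    simp [epsA, pb]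
  rintro (⟨k, l⟩ | ⟨k, l⟩)
  · change 1 * thetaA t m i (X (Sum.inl (k, l))) = epsA t i (phi t m (px k l))
    rw [phi_px]
    simp only [map_add, map_mul, map_intCast, ha, hb]
    simp [thetaA, gen]
  · change 1 * thetaA t m i (X (Sum.inr (k, l))) = epsA t i (phi t m (py k l))
    rw [phi_py]
    simp only [map_sub, map_mul, ha, hb]
    simp [thetaA, gen]

end A

section B

variable (t m) (i j : ι)

omit [Fintype ι] in
theorem thetaB_surjective (hij : i ≠ j) : Function.Surjective (thetaB t m i j) := by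
  rw [← RingHom.range_eq_top, eq_top_iff]
  rintro z -
  have hα : cα t m i j ∈ (thetaB t m i j).range := by
    refine ⟨px i i, ?_⟩
    rw [thetaB_px, lam_i, mu_i]
    ring
  have hβ : cβ t m i j ∈ (thetaB t m i j).range := by
    refine ⟨px j j, ?_⟩
    rw [thetaB_px, lam_j t m hij, mu_j t m hij]
    ring
  have hx : cx t m i j ∈ (thetaB t m i j).range := by
    refine ⟨px i j, ?_⟩
    rw [thetaB_px, lam_j t m hij, mu_j t m hij, lam_i, mu_i]
    ring
  have hl : ∀ k, lamB t m i j k ∈ (thetaB t m i j).range := by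
    intro k
    refine ⟨py k j, ?_⟩
    rw [thetaB_py, lam_j t m hij, mu_j t m hij]
    ring
  have hμ : ∀ k, muB t m i j k ∈ (thetaB t m i j).range := by
    intro k
    refine ⟨py i k, ?_⟩
    rw [thetaB_py, lam_i, mu_i]
    ring
  induction z using MvPolynomial.induction_on with
  | C a =>
    obtain ⟨f, rfl⟩ := smk_surjective (gpol t m) a
    induction f using MvPolynomial.induction_on with
    | C a =>
      refine ⟨C a, ?_⟩
      simp
    | add p q hp hq =>
      rw [map_add, map_add]
      exact Subring.add_mem _ hp hq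
    | mul_X p q hp =>
      rw [map_mul, map_mul]
      refine Subring.mul_mem _ hp ?_
      fin_cases q
      · exact hα
      · exact hβ
      · exact hx
  | add p q hp hq => exact Subring.add_mem _ hp hq
  | mul_X p q hp =>
    refine Subring.mul_mem _ hp ?_
    obtain ⟨⟨k, hk⟩, b⟩ := q
    cases b
    · have := hl k
      rwa [lamB, dif_pos hk] at this
    · have := hμ k
      rwa [muB, dif_pos hk] at this

omit [Fintype ι] in
theorem etaB_thetaB (hij : i ≠ j) (f : MvPolynomial (Idx ι) ℤ) :
    etaB t m i j (thetaB t m i j f) =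
      cmk (RingHom.ker (phi (ι := ι) t m)) (Sum.inr (i, j)) f := by
  have hM1 := cmB_one t m i j
  have h0 : (etaB t m i j).comp (thetaB t m i j) =
      cmk (RingHom.ker (phi (ι := ι) t m)) (Sum.inr (i, j)) := by
    apply hom_ext_of_X
    rintro (⟨k, l⟩ | ⟨k, l⟩)
    · change etaB t m i j (thetaB t m i j (px k l)) = cmB t m i j (px k l)
      rw [thetaB_px]
      simp only [map_add, map_mul, map_intCast, etaB_lam t m hij, etaB_mu t m hij, etaB_α,
        etaB_β, etaB_x]
      have h2 : cmB t m i j (px k l) = cmB t m i j (px k l * py i j ^ 2) := by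
        rw [map_mul, map_pow, hM1, one_pow, mul_one]
      have h3 : cmB t m i j (px i j) + ((t : ℤ) : CB t m i j) =
          cmB t m i j (px i j + (t : MvPolynomial (Idx ι) ℤ) * py i j) := by
        rw [map_add, map_mul, hM1, map_intCast, mul_one]
      rw [h2, h3]
      simp only [← map_mul, ← map_add]
      apply cmB_eq
      simp only [map_add, map_mul, map_pow, map_intCast, phi_px, phi_py]
      ring
    · change etaB t m i j (thetaB t m i j (py k l)) = cmB t m i j (py k l)
      rw [thetaB_py]
      simp only [map_sub, map_mul, etaB_lam t m hij, etaB_mu t m hij]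
      have h2 : cmB t m i j (py k l) = cmB t m i j (py k l * py i j) := by
        rw [map_mul, hM1, mul_one]
      rw [h2]
      simp only [← map_mul, ← map_sub]
      apply cmB_eq
      simp only [map_sub, map_mul, phi_py]
      ring
  exact RingHom.congr_fun h0 f

omit [Fintype ι] in
theorem thetaB_one (hij : i ≠ j) : thetaB t m i j (X (Sum.inr (i, j))) = 1 := by
  change thetaB t m i j (py i j) = 1
  rw [thetaB_py, lam_i, lam_j t m hij, mu_i, mu_j t m hij]
  ring

theorem thetaB_Hc : thetaB t m i j (Hc c) = hB t m c i j := by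
  rw [Hc, map_sum, hB]
  refine Finset.sum_congr rfl fun s _ => ?_
  rw [map_mul, map_intCast, thetaB, coe_eval₂Hom, eval₂_X]

theorem chartB_equiv (hij : i ≠ j)
    (hβ : ∀ f, cβ t m i j * f ∈ Ideal.span {hB t m c i j} → f ∈ Ideal.span {hB t m c i j})
    {I : Ideal (MvPolynomial (Idx ι) ℤ)}
    (hI0 : RingHom.ker (phi (ι := ι) t m) ≤ I) (hHI : Hc c ∈ I)
    (hI : ∀ f ∈ I, ∀ k, phi t m (Hc c) ∣ phi t m (homogeneousComponent k f)) :
    Nonempty (ChartRing I (Sum.inr (i, j)) ≃+* TB t m i j ⧸ Ideal.span {hB t m c i j}) := by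
  rw [← thetaB_Hc] at hβ ⊢
  refine chart_quotient (Sum.inr (i, j)) (thetaB t m i j) (thetaB_surjective t m i j hij)
    (thetaB_one t m i j hij) (etaB t m i j) (etaB_thetaB t m i j hij) hI0 hHI ?_
  intro f hf
  refine mem_span_of_dvd (phi t m) (e := 2) (by norm_num) (phi_homogeneous t m) (thetaB t m i j)
    (epsB t m i j) (cβ t m i j) ?_ Hc_homogeneous hβ f (hI f hf)
  have hrel := c_rel t m i j
  rintro (⟨k, l⟩ | ⟨k, l⟩)
  · change cβ t m i j * thetaB t m i j (px k l) = epsB t m i j (phi t m (px k l))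
    rw [phi_px, thetaB_px]
    simp only [map_add, map_mul, map_intCast, epsB_pa, epsB_pb]
    linear_combination (lamB t m i j k * lamB t m i j l) * hrel
  · change cβ t m i j * thetaB t m i j (py k l) = epsB t m i j (phi t m (py k l))
    rw [phi_py, thetaB_py]
    simp only [map_sub, map_mul, epsB_pa, epsB_pb]
    ring

end B

end Herm

end Pool.MP_602153_ag
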