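import Mathlib
import Pool.Agent.HermVar.Defs

set_option autoImplicit false

/-!
# The homogeneous coordinate ring of a Hermitian variety
-/

namespace Pool.MP_602153_ag

namespace Herm

open WeilQuad Matrix MvPolynomial

namespace DomAux

section Weights

variable {ι : Type} {K : Type} [Field K]

/-- The weights of the conjugate coordinates. -/
def wt (ι : Type) : Par ι → ℤ := Sum.elim (fun _ => 1) (fun _ => -1)

theorem weight_inl (d : Par ι →₀ ℕ) (h : ∀ j, d (.inr j) = 0)
    (h0 : Finsupp.weight (wt ι) d = 0) : d = 0 := by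
  rw [Finsupp.weight_apply, Finsupp.sum] at h0
  have h1 : ∀ k ∈ d.support, 0 ≤ d k • wt ι k := by
    intro k hk
    rcases k with i | j
    · simp [wt]
    · exact absurd (h j) (Finsupp.mem_support_iff.1 hk)
  rw [Finset.sum_eq_zero_iff_of_nonneg h1] at h0
  ext k
  by_contra hk
  have hk' : k ∈ d.support := Finsupp.mem_support_iff.2 hk
  have h2 := h0 k hk'
  rcases k with i | j
  · simp only [wt, Sum.elim_inl, nsmul_eq_mul, mul_one] at h2
    exact hk (by exact_mod_cast h2)
  · exact hk (h j)

theorem weight_inr (d : Par ι →₀ ℕ) (h : ∀ j, d (.inl j) = 0)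
    (h0 : Finsupp.weight (wt ι) d = 0) : d = 0 := by
  rw [Finsupp.weight_apply, Finsupp.sum] at h0
  have h1 : ∀ k ∈ d.support, d k • wt ι k ≤ 0 := by
    intro k hk
    rcases k with i | j
    · exact absurd (h i) (Finsupp.mem_support_iff.1 hk)
    · simp [wt]
  rw [Finset.sum_eq_zero_iff_of_nonpos h1] at h0
  ext k
  by_contra hk
  have hk' : k ∈ d.support := Finsupp.mem_support_iff.2 hk
  have h2 := h0 k hk'
  rcases k with i | j
  · exact hk (h i)
  · simp only [wt, Sum.elim_inr, nsmul_eq_mul, mul_neg, mul_one, neg_eq_zero] at h2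
    exact hk (by exact_mod_cast h2)

theorem monomial_mem (n : ℕ) : ∀ d : Par ι →₀ ℕ, d.degree = n → Finsupp.weight (wt ι) d = 0 →
    (monomial d 1 : MvPolynomial (Par ι) K) ∈ Algebra.adjoin K (Set.range fun q : ι × ι =>
      (X (Sum.inl q.1) * X (Sum.inr q.2) : MvPolynomial (Par ι) K)) := by
  classical
  induction n using Nat.strong_induction_on with
  | _ n ih =>
    intro d hd hw
    by_cases h0 : d = 0
    · subst h0
      exact one_mem _
    · have hl : ∃ i, d (.inl i) ≠ 0 := by
        by_contra hcon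
        push Not at hcon
        exact h0 (weight_inr d hcon hw)
      have hr : ∃ i, d (.inr i) ≠ 0 := by
        by_contra hcon
        push Not at hcon
        exact h0 (weight_inl d hcon hw)
      obtain ⟨i, hi⟩ := hl
      obtain ⟨j, hj⟩ := hr
      have hle : Finsupp.single (Sum.inl i) 1 ≤ d := by
        rw [Finsupp.single_le_iff]
        omega
      obtain ⟨e, he⟩ := le_iff_exists_add.1 hle
      have hle2 : Finsupp.single (Sum.inr j) 1 ≤ e := by
        rw [Finsupp.single_le_iff]
        have : d (.inr j) = e (.inr j) := by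
          rw [he]
          simp
        omega
      obtain ⟨f, hf⟩ := le_iff_exists_add.1 hle2
      rw [hf] at he
      have hdeg : d.degree = 1 + (1 + f.degree) := by
        rw [he, map_add, map_add, Finsupp.degree_single, Finsupp.degree_single]
      have hwf : Finsupp.weight (wt ι) f = 0 := by
        rw [he, map_add, map_add, Finsupp.weight_single, Finsupp.weight_single] at hw
        simpa [wt] using hw
      have hmem := ih f.degree (by omega) f rfl hwf
      have hmon : (monomial d 1 : MvPolynomial (Par ι) K) =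
          (X (Sum.inl i) * X (Sum.inr j)) * monomial f 1 := by
        rw [he, X, X, monomial_mul, monomial_mul, one_mul, one_mul, add_assoc]
      rw [hmon]
      exact mul_mem (Algebra.subset_adjoin ⟨(i, j), rfl⟩) hmem

theorem wt_zero_mem (f : MvPolynomial (Par ι) K) (hf : IsWeightedHomogeneous (wt ι) f 0) :
    f ∈ Algebra.adjoin K (Set.range fun q : ι × ι =>
      (X (Sum.inl q.1) * X (Sum.inr q.2) : MvPolynomial (Par ι) K)) := by
  rw [f.as_sum]
  refine Subalgebra.sum_mem _ fun d hd => ?_
  have h1 : Finsupp.weight (wt ι) d = 0 := hf (mem_support_iff.1 hd)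
  have h2 : (monomial d (coeff d f) : MvPolynomial (Par ι) K) = coeff d f • monomial d 1 := by
    rw [smul_monomial, smul_eq_mul, mul_one]
  rw [h2]
  exact Subalgebra.smul_mem _ (monomial_mem _ d rfl h1) _

theorem wt_zero_of_mul {q s : MvPolynomial (Par ι) K} (hq : IsWeightedHomogeneous (wt ι) q 0)
    (hq0 : q ≠ 0) (hqs : IsWeightedHomogeneous (wt ι) (q * s) 0) :
    IsWeightedHomogeneous (wt ι) s 0 := by
  classical
  let _ := weightedGradedAlgebra K (wt ι)
  have hq' : q ∈ weightedHomogeneousSubmodule K (wt ι) 0 := hq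
  have hqs' : q * s ∈ weightedHomogeneousSubmodule K (wt ι) 0 := hqs
  have key : ∀ j : ℤ, j ≠ 0 →
      (DirectSum.decompose (weightedHomogeneousSubmodule K (wt ι)) s j : MvPolynomial (Par ι) K) = 0 := by
    intro j hj
    have h1 := DirectSum.coe_decompose_mul_of_left_mem_zero
      (weightedHomogeneousSubmodule K (wt ι)) (a := q) (b := s) (j := j) hq'
    rw [DirectSum.decompose_of_mem_ne _ hqs' (Ne.symm hj)] at h1
    exact (mul_eq_zero.1 h1.symm).resolve_left hq0
  have h2 := DirectSum.sum_support_decompose (weightedHomogeneousSubmodule K (wt ι)) s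
  have h3 : s ∈ weightedHomogeneousSubmodule K (wt ι) 0 := by
    rw [← h2]
    refine Submodule.sum_mem _ fun j _ => ?_
    by_cases hj : j = 0
    · subst hj
      exact SetLike.coe_mem _
    · rw [key j hj]
      exact zero_mem _
  exact h3

end Weights

section Conj

variable {ι : Type} {t m : ℤ} {K : Type} [Field K] [Algebra ℚ K] {ω : K}

/-- From the conjugate coordinates to the real ones. -/
noncomputable def θ (ι : Type) (t : ℤ) (ω : K) :
    MvPolynomial (Par ι) K →ₐ[K] MvPolynomial (Par ι) K :=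
  aeval (Sum.elim (fun i => X (.inl i) + C ω * X (.inr i))
    (fun i => X (.inl i) + C ((t : K) - ω) * X (.inr i)))

/-- From the real coordinates to the conjugate ones. -/
noncomputable def ψ (ι : Type) (t : ℤ) (ω : K) :
    MvPolynomial (Par ι) ℚ →+* MvPolynomial (Par ι) K :=
  eval₂Hom (C.comp (algebraMap ℚ K)) (Sum.elim
    (fun i => C (2 * ω - (t : K))⁻¹ * (C ω * X (.inr i) - C ((t : K) - ω) * X (.inl i)))
    (fun i => C (2 * ω - (t : K))⁻¹ * (X (.inl i) - X (.inr i))))

theorem delta_ne (h : IsGen K t m ω) : 2 * ω - (t : K) ≠ 0 := by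
  intro h0
  have : CharZero K := algebraRat.charZero K
  apply h.not_rat (t / 2)
  rw [map_div₀, map_intCast]
  have h4 : (algebraMap ℚ K 2) = 2 := by simp
  rw [h4, div_eq_iff (by norm_num)]
  linear_combination - h0

theorem C_rel (h : IsGen K t m ω) : (C ω : MvPolynomial (Par ι) K) ^ 2 =
    C (t : K) * C ω - C (m : K) := by
  rw [← map_pow, h.eq, map_sub, map_mul]

theorem C_inv (h : IsGen K t m ω) :
    (C (2 * ω - (t : K))⁻¹ : MvPolynomial (Par ι) K) * (2 * C ω - C (t : K)) = 1 := by
  have h1 : (2 * C ω - C (t : K) : MvPolynomial (Par ι) K) = C (2 * ω - (t : K)) := by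
    rw [map_sub, map_mul, map_ofNat]
  rw [h1, ← map_mul, inv_mul_cancel₀ (delta_ne h), map_one]

theorem θψ (h : IsGen K t m ω) (p : MvPolynomial (Par ι) ℚ) :
    θ ι t ω (ψ ι t ω p) = map (algebraMap ℚ K) p := by
  have hr := C_rel (ι := ι) h
  have hi := C_inv (ι := ι) h
  have h1 : (θ ι t ω).toRingHom.comp (ψ ι t ω) = map (algebraMap ℚ K) := by
    apply MvPolynomial.ringHom_ext
    · intro r
      simp [ψ, θ, algebraMap_eq]
    · intro k
      rcases k with i | i
      · simp only [ψ, θ, RingHom.comp_apply, coe_eval₂Hom, eval₂_X, Sum.elim_inl,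
          AlgHom.toRingHom_eq_coe, RingHom.coe_coe, map_mul, map_sub, aeval_C, aeval_X,
          Sum.elim_inr, algebraMap_eq, map_X]
        linear_combination (X (Sum.inl i)) * hi
      · simp only [ψ, θ, RingHom.comp_apply, coe_eval₂Hom, eval₂_X, Sum.elim_inl,
          AlgHom.toRingHom_eq_coe, RingHom.coe_coe, map_mul, map_sub, aeval_C, aeval_X,
          Sum.elim_inr, algebraMap_eq, map_X]
        linear_combination (X (Sum.inr i)) * hi
  exact congrArg (fun f => f p) h1

/-- The generators over `ℚ`. -/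
noncomputable def gq (t m : ℤ) (ι : Type) : Idx ι → MvPolynomial (Par ι) ℚ :=
  gen t m (fun i => X (Sum.inl i)) (fun i => X (Sum.inr i))

theorem ψ_gen (h : IsGen K t m ω) (s : Idx ι) :
    IsWeightedHomogeneous (wt ι) (ψ ι t ω (gq t m ι s)) 0 := by
  have hr := C_rel (ι := ι) h
  have hi := C_inv (ι := ι) h
  have hzw : ∀ i j, IsWeightedHomogeneous (wt ι)
      (X (Sum.inl i) * X (Sum.inr j) : MvPolynomial (Par ι) K) 0 := by
    intro i j
    have h1 := (isWeightedHomogeneous_X K (wt ι) (Sum.inl i)).mul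
      (isWeightedHomogeneous_X K (wt ι) (Sum.inr j))
    simpa [wt] using h1
  have hC : ∀ (a : K) (f : MvPolynomial (Par ι) K), IsWeightedHomogeneous (wt ι) f 0 →
      IsWeightedHomogeneous (wt ι) (C a * f) 0 := by
    intro a f hf
    have h1 := (isWeightedHomogeneous_C (wt ι) a).mul hf
    simpa using h1
  have hsub : ∀ f g : MvPolynomial (Par ι) K, IsWeightedHomogeneous (wt ι) f 0 →
      IsWeightedHomogeneous (wt ι) g 0 → IsWeightedHomogeneous (wt ι) (f - g) 0 := by
    intro f g hf hg
    exact (weightedHomogeneousSubmodule K (wt ι) 0).sub_mem hf hg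
  rcases s with ⟨i, j⟩ | ⟨i, j⟩
  · have h2 : ψ ι t ω (gq t m ι (Sum.inl (i, j))) = C (2 * ω - (t : K))⁻¹ *
        (C ω * (X (.inl j) * X (.inr i)) - C ((t : K) - ω) * (X (.inl i) * X (.inr j))) := by
      simp only [gq, gen, ψ, Sum.elim_inl, Sum.elim_inr, map_add, map_mul, map_intCast,
        coe_eval₂Hom, eval₂_X]
      have ht : ((t : ℤ) : MvPolynomial (Par ι) K) = C (t : K) := (map_intCast (C : K →+* MvPolynomial (Par ι) K) t).symm
      have hm : ((m : ℤ) : MvPolynomial (Par ι) K) = C (m : K) := (map_intCast (C : K →+* MvPolynomial (Par ι) K) m).symm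
      rw [ht, hm, map_sub]
      generalize (C (2 * ω - (t : K))⁻¹ : MvPolynomial (Par ι) K) = D at hi ⊢
      generalize (C ω : MvPolynomial (Par ι) K) = W at hr hi ⊢
      generalize (C (t : K) : MvPolynomial (Par ι) K) = T at hr hi ⊢
      generalize (C (m : K) : MvPolynomial (Par ι) K) = M at hr hi ⊢
      generalize (X (Sum.inl i) : MvPolynomial (Par ι) K) = zi
      generalize (X (Sum.inl j) : MvPolynomial (Par ι) K) = zj
      generalize (X (Sum.inr i) : MvPolynomial (Par ι) K) = wi
      generalize (X (Sum.inr j) : MvPolynomial (Par ι) K) = wj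
      linear_combination (D ^ 2 * (wi * wj + zi * zj - wi * zj - zi * wj)) * hr +
        (D * (W * (zj * wi) - (T - W) * (zi * wj))) * hi
    rw [h2]
    exact hC _ _ (hsub _ _ (hC _ _ (hzw _ _)) (hC _ _ (hzw _ _)))
  · have h2 : ψ ι t ω (gq t m ι (Sum.inr (i, j))) = C (2 * ω - (t : K))⁻¹ *
        (X (.inl i) * X (.inr j) - X (.inl j) * X (.inr i)) := by
      simp only [gq, gen, ψ, Sum.elim_inl, Sum.elim_inr, map_sub, map_mul,
        coe_eval₂Hom, eval₂_X]
      have ht : ((t : ℤ) : MvPolynomial (Par ι) K) = C (t : K) := (map_intCast (C : K →+* MvPolynomial (Par ι) K) t).symm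
      generalize (C (2 * ω - (t : K))⁻¹ : MvPolynomial (Par ι) K) = D at hi ⊢
      generalize (C ω : MvPolynomial (Par ι) K) = W at hr hi ⊢
      generalize (C (t : K) : MvPolynomial (Par ι) K) = T at hr hi ⊢
      generalize (X (Sum.inl i) : MvPolynomial (Par ι) K) = zi
      generalize (X (Sum.inl j) : MvPolynomial (Par ι) K) = zj
      generalize (X (Sum.inr i) : MvPolynomial (Par ι) K) = wi
      generalize (X (Sum.inr j) : MvPolynomial (Par ι) K) = wj
      linear_combination (D * (zi * wj - zj * wi)) * hi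
    rw [h2]
    exact hC _ _ (hsub _ _ (hzw _ _) (hzw _ _))

theorem θ_mem (h : IsGen K t m ω) {f : MvPolynomial (Par ι) K}
    (hf : f ∈ Algebra.adjoin K (Set.range fun q : ι × ι =>
      (X (Sum.inl q.1) * X (Sum.inr q.2) : MvPolynomial (Par ι) K))) :
    θ ι t ω f ∈ Algebra.adjoin K (Set.range fun s => map (algebraMap ℚ K) (gq t m ι s)) := by
  have hr := C_rel (ι := ι) h
  have h1 : (θ ι t ω f) ∈ (Algebra.adjoin K (Set.range fun q : ι × ι =>
      (X (Sum.inl q.1) * X (Sum.inr q.2) : MvPolynomial (Par ι) K))).map (θ ι t ω) :=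
    ⟨f, hf, rfl⟩
  rw [AlgHom.map_adjoin] at h1
  refine Algebra.adjoin_le ?_ h1
  rintro _ ⟨_, ⟨⟨i, j⟩, rfl⟩, rfl⟩
  have h2 : θ ι t ω (X (Sum.inl i) * X (Sum.inr j)) =
      map (algebraMap ℚ K) (gq t m ι (Sum.inl (i, j))) +
        ω • map (algebraMap ℚ K) (gq t m ι (Sum.inr (i, j))) := by
    simp only [gq, gen, θ, Sum.elim_inl, Sum.elim_inr, map_add, map_mul, map_intCast, map_sub,
      aeval_X, map_X, smul_eq_C_mul]
    have ht : ((t : ℤ) : MvPolynomial (Par ι) K) = C (t : K) := (map_intCast (C : K →+* MvPolynomial (Par ι) K) t).symm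
    have hm : ((m : ℤ) : MvPolynomial (Par ι) K) = C (m : K) := (map_intCast (C : K →+* MvPolynomial (Par ι) K) m).symm
    rw [ht, hm]
    generalize (C ω : MvPolynomial (Par ι) K) = W at hr ⊢
    generalize (C (t : K) : MvPolynomial (Par ι) K) = T at hr ⊢
    generalize (C (m : K) : MvPolynomial (Par ι) K) = M at hr ⊢
    generalize (X (Sum.inl i) : MvPolynomial (Par ι) K) = ai
    generalize (X (Sum.inl j) : MvPolynomial (Par ι) K) = aj
    generalize (X (Sum.inr i) : MvPolynomial (Par ι) K) = bi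
    generalize (X (Sum.inr j) : MvPolynomial (Par ι) K) = bj
    linear_combination (-bi * bj) * hr
  have h3 : ∀ s : Idx ι, map (algebraMap ℚ K) (gq t m ι s) ∈
      Algebra.adjoin K (Set.range fun s => map (algebraMap ℚ K) (gq t m ι s)) :=
    fun s => Algebra.subset_adjoin (Set.mem_range_self s)
  change θ ι t ω (X (Sum.inl i) * X (Sum.inr j)) ∈ _
  rw [h2]
  exact add_mem (h3 _) (Subalgebra.smul_mem _ (h3 _) _)

end Conj

section Descent

variable {σ : Type} {K : Type} [Field K] [Algebra ℚ K]

/-- Apply a linear functional to the coefficients. -/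
noncomputable def coeffMap (σ : Type) (l : K →ₗ[ℚ] ℚ) : MvPolynomial σ K →ₗ[ℚ] MvPolynomial σ ℚ :=
  (basisMonomials σ ℚ).repr.symm.toLinearMap ∘ₗ Finsupp.mapRange.linearMap l ∘ₗ
    ((basisMonomials σ K).repr.restrictScalars ℚ).toLinearMap

theorem coeff_coeffMap (l : K →ₗ[ℚ] ℚ) (f : MvPolynomial σ K) (d : σ →₀ ℕ) :
    coeff d (coeffMap σ l f) = l (coeff d f) := by
  have h1 : ∀ g : MvPolynomial σ ℚ, coeff d g = (basisMonomials σ ℚ).repr g d := fun g => rfl
  rw [h1, coeffMap]
  simp only [LinearMap.comp_apply, LinearEquiv.coe_coe, LinearEquiv.apply_symm_apply]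
  rfl

theorem coeffMap_smul (l : K →ₗ[ℚ] ℚ) (a : K) (f : MvPolynomial σ ℚ) :
    coeffMap σ l (a • map (algebraMap ℚ K) f) = l a • f := by
  ext d
  rw [coeff_coeffMap, coeff_smul, coeff_smul, coeff_map, smul_eq_mul, smul_eq_mul, mul_comm a,
    ← Algebra.smul_def, map_smul, smul_eq_mul, mul_comm]

theorem descent {ι' : Type} (g : ι' → MvPolynomial σ ℚ) {f : MvPolynomial σ ℚ}
    (hf : map (algebraMap ℚ K) f ∈ Algebra.adjoin K
      (Set.range fun s => map (algebraMap ℚ K) (g s))) :
    f ∈ Algebra.adjoin ℚ (Set.range g) := by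
  have hinj : LinearMap.ker (Algebra.linearMap ℚ K) = ⊥ := by
    rw [LinearMap.ker_eq_bot]
    exact (algebraMap ℚ K).injective
  obtain ⟨l, hl⟩ := LinearMap.exists_leftInverse_of_injective (Algebra.linearMap ℚ K) hinj
  have hl1 : l 1 = 1 := by
    have h1 := congrArg (fun φ : ℚ →ₗ[ℚ] ℚ => φ 1) hl
    simpa using h1
  have key : ∀ F ∈ Algebra.adjoin K (Set.range fun s => map (algebraMap ℚ K) (g s)),
      ∀ a : K, coeffMap σ l (a • F) ∈ Algebra.adjoin ℚ (Set.range g) := by
    intro F hF
    have hF' : F ∈ Submodule.span K ((Submonoid.closure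
        (Set.range fun s => map (algebraMap ℚ K) (g s)) : Submonoid (MvPolynomial σ K)) :
          Set (MvPolynomial σ K)) := by
      rw [← Algebra.adjoin_eq_span]
      exact hF
    induction hF' using Submodule.span_induction with
    | mem x hx =>
      intro a
      have hx' : x ∈ (Algebra.adjoin ℚ (Set.range g)).toSubmonoid.map
          (map (algebraMap ℚ K) : MvPolynomial σ ℚ →+* MvPolynomial σ K) := by
        refine Submonoid.closure_le.2 ?_ hx
        rintro _ ⟨s, rfl⟩
        exact ⟨g s, Algebra.subset_adjoin ⟨s, rfl⟩, rfl⟩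
      obtain ⟨y, hy, rfl⟩ := hx'
      have h3 := coeffMap_smul (σ := σ) l a y
      change coeffMap σ l (a • (map (algebraMap ℚ K) y)) ∈ _
      rw [h3]
      exact Subalgebra.smul_mem _ hy _
    | zero =>
      intro a
      rw [smul_zero, map_zero]
      exact zero_mem _
    | add x y _ _ hx hy =>
      intro a
      rw [smul_add, map_add]
      refine add_mem (hx ?_ a) (hy ?_ a)
      · rw [← Subalgebra.mem_toSubmodule, Algebra.adjoin_eq_span]
        assumption
      · rw [← Subalgebra.mem_toSubmodule, Algebra.adjoin_eq_span]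
        assumption
    | smul b x _ hx =>
      intro a
      rw [smul_smul]
      refine hx ?_ _
      rw [← Subalgebra.mem_toSubmodule, Algebra.adjoin_eq_span]
      assumption
  have h2 := key _ hf 1
  rw [coeffMap_smul, hl1, one_smul] at h2
  exact h2

end Descent

section Affine

variable {σ : Type}

/-- Polynomials of degree at most one are affine functions. -/
theorem affine (g : MvPolynomial σ ℚ) (hg : g.totalDegree ≤ 1) :
    ∃ L : (σ → ℚ) →ₗ[ℚ] ℚ, ∀ v w, eval (v + w) g = eval w g + L v := by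
  classical
  have key : ∀ d ∈ g.support, ∃ L : (σ → ℚ) →ₗ[ℚ] ℚ, ∀ v w,
      eval (v + w) (monomial d (coeff d g)) = eval w (monomial d (coeff d g)) + L v := by
    intro d hd
    have h1 : d.degree ≤ 1 := le_trans (le_totalDegree hd) hg
    by_cases h0 : d = 0
    · refine ⟨0, fun v w => ?_⟩
      subst h0
      simp
    · have h2 : ∃ k, d = Finsupp.single k 1 := by
        obtain ⟨k, hk⟩ := Finsupp.ne_iff.1 h0
        simp only [Finsupp.coe_zero, Pi.zero_apply] at hk
        have hle : Finsupp.single k 1 ≤ d := by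
          rw [Finsupp.single_le_iff]
          omega
        obtain ⟨e, he⟩ := le_iff_exists_add.1 hle
        rw [he, map_add, Finsupp.degree_single] at h1
        have h3 : e.degree = 0 := by omega
        have h4 : e = 0 := by
          rw [Finsupp.degree_eq_zero_iff] at h3
          exact h3
        exact ⟨k, by rw [he, h4, add_zero]⟩
      obtain ⟨k, hk⟩ := h2
      refine ⟨coeff d g • LinearMap.proj k, fun v w => ?_⟩
      rw [eval_monomial, eval_monomial]
      have h5 : ∀ u : σ → ℚ, (d.prod fun n e => u n ^ e) = u k := by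
        intro u
        rw [hk, Finsupp.prod_single_index] <;> simp
      rw [h5, h5, Pi.add_apply, LinearMap.smul_apply, LinearMap.proj_apply, smul_eq_mul]
      ring
  choose L hL using key
  refine ⟨∑ d ∈ g.support.attach, L d.1 d.2, fun v w => ?_⟩
  have h6 : ∀ u : σ → ℚ, eval u g =
      ∑ d ∈ g.support.attach, eval u (monomial d.1 (coeff d.1 g)) := by
    intro u
    conv_lhs => rw [g.as_sum, map_sum]
    rw [← Finset.sum_attach]
  rw [h6, h6, LinearMap.sum_apply, ← Finset.sum_add_distrib]
  exact Finset.sum_congr rfl fun d _ => hL _ _ _ _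

end Affine

end DomAux

variable {ι : Type} [Fintype ι] {t m : ℤ} {K : Type} [Field K] [Algebra ℚ K]
  (hK : Module.finrank ℚ K = 2) {ω : K} (h : IsGen K t m ω)

/-- The algebra generated by the `x_ij, y_ij` over `ℚ`. -/
noncomputable def AQ (t m : ℤ) (ι : Type) : Subalgebra ℚ (MvPolynomial (Par ι) ℚ) :=
  Algebra.adjoin ℚ (Set.range (gen t m (fun i => X (Sum.inl i)) (fun i => X (Sum.inr i))))

/-- The Hermitian form `c` as a polynomial over `ℚ`. -/
noncomputable def qpolQ (t m : ℤ) (c : Idx ι → ℚ) : MvPolynomial (Par ι) ℚ :=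
  ∑ s, C (c s) * gen t m (fun i => X (Sum.inl i)) (fun i => X (Sum.inr i)) s

include h in
/-- Quotients of elements of `AQ` by a nonzero element of `AQ` are in `AQ`. -/
theorem mem_AQ_of_mul {q s : MvPolynomial (Par ι) ℚ} (hq : q ∈ AQ t m ι) (hq0 : q ≠ 0)
    (hqs : q * s ∈ AQ t m ι) : s ∈ AQ t m ι := by
  have hinj : Function.Injective (DomAux.ψ ι t ω) := by
    intro a b hab
    have h1 := DomAux.θψ h a
    have h2 := DomAux.θψ h b
    rw [hab] at h1
    exact map_injective _ (algebraMap ℚ K).injective (h1.symm.trans h2)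
  have hW : ∀ f ∈ AQ t m ι, IsWeightedHomogeneous (DomAux.wt ι) (DomAux.ψ ι t ω f) 0 := by
    intro f hf
    rw [AQ] at hf
    induction hf using Algebra.adjoin_induction with
    | mem x hx =>
      obtain ⟨s, rfl⟩ := hx
      exact DomAux.ψ_gen h s
    | algebraMap r =>
      have h1 : DomAux.ψ ι t ω (algebraMap ℚ (MvPolynomial (Par ι) ℚ) r) =
          C (algebraMap ℚ K r) := by
        simp [DomAux.ψ, algebraMap_eq]
      rw [h1]
      exact isWeightedHomogeneous_C _ _
    | add x y _ _ hx hy =>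
      rw [map_add]
      exact hx.add hy
    | mul x y _ _ hx hy =>
      rw [map_mul]
      have := hx.mul hy
      simpa using this
  have h1 := hW _ hqs
  rw [map_mul] at h1
  have h2 : DomAux.ψ ι t ω q ≠ 0 := by
    intro h0
    apply hq0
    apply hinj
    rw [h0, map_zero]
  have h3 := DomAux.wt_zero_of_mul (hW _ hq) h2 h1
  have h4 := DomAux.θ_mem h (DomAux.wt_zero_mem _ h3)
  rw [DomAux.θψ h] at h4
  exact DomAux.descent _ h4

theorem eval_qpolQ (c : Idx ι → ℚ) (v : Par ι → ℚ) :
    eval v (qpolQ t m c) = ∑ s, c s * gv t m v s := by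
  rw [qpolQ, map_sum]
  refine Finset.sum_congr rfl fun s _ => ?_
  rw [map_mul, eval_C]
  congr 1
  rcases s with ⟨i, j⟩ | ⟨i, j⟩
  · simp [gen, gv_inl]
  · simp [gen, gv_inr]

/-- A nondegenerate Hermitian form in at least two variables is a prime polynomial. -/
theorem qpolQ_prime (hι : 2 ≤ Fintype.card ι) (c : Idx ι → ℚ)
    (hnd : ∀ v : Par ι → ℚ, (∀ w, ∑ s, c s * pgv t m v w s = 0) → v = 0) :
    Prime (qpolQ t m c) := by
  classical
  -- polarisation
  have hpol : ∀ v w : Par ι → ℚ, ∑ s, c s * pgv t m v w s =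
      eval (v + w) (qpolQ t m c) - eval v (qpolQ t m c) - eval w (qpolQ t m c) := by
    intro v w
    rw [eval_qpolQ, eval_qpolQ, eval_qpolQ, ← Finset.sum_sub_distrib, ← Finset.sum_sub_distrib]
    refine Finset.sum_congr rfl fun s _ => ?_
    rw [gv_add]
    ring
  have hfin : Module.finrank ℚ (Par ι → ℚ) = 2 * Fintype.card ι := by
    rw [Module.finrank_fintype_fun_eq_card, Fintype.card_sum]
    ring
  have hgen : ∀ s : Idx ι, (gen t m (fun i => X (Sum.inl i)) (fun i => X (Sum.inr i)) s :
      MvPolynomial (Par ι) ℚ).IsHomogeneous 2 := by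
    intro s
    have hX : ∀ k l : Par ι, (X k * X l : MvPolynomial (Par ι) ℚ).IsHomogeneous 2 := fun k l =>
      (isHomogeneous_X ℚ k).mul (isHomogeneous_X ℚ l)
    have hZ : ∀ (z : ℤ) (k l : Par ι),
        ((z : MvPolynomial (Par ι) ℚ) * X k * X l).IsHomogeneous 2 := by
      intro z k l
      have h1 := (isHomogeneous_C (Par ι) (z : ℚ)).mul (hX k l)
      rw [zero_add, map_intCast, ← mul_assoc] at h1
      exact h1
    rcases s with ⟨i, j⟩ | ⟨i, j⟩
    · exact ((hX _ _).add (hZ _ _ _)).add (hZ _ _ _)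
    · exact (hX _ _).sub (hX _ _)
  have hhom : (qpolQ t m c).IsHomogeneous 2 := by
    rw [qpolQ]
    refine IsHomogeneous.sum _ _ _ fun s _ => ?_
    have h1 := (isHomogeneous_C (Par ι) (c s)).mul (hgen s)
    simpa using h1
  have hq0 : qpolQ t m c ≠ 0 := by
    intro h0
    have hv : ∀ v : Par ι → ℚ, v = 0 := by
      intro v
      apply hnd
      intro w
      rw [hpol, h0]
      simp
    have h1 : Nontrivial (Par ι → ℚ) := by
      apply Module.nontrivial_of_finrank_pos (R := ℚ)
      rw [hfin]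
      omega
    obtain ⟨v, hv'⟩ := exists_ne (0 : Par ι → ℚ)
    exact hv' (hv v)
  have hdeg : (qpolQ t m c).totalDegree = 2 := hhom.totalDegree hq0
  rw [← irreducible_iff_prime]
  refine ⟨?_, ?_⟩
  · intro hu
    have := (isUnit_iff_totalDegree_of_isReduced.mp hu).2
    omega
  · intro a b hab
    have ha0 : a ≠ 0 := by rintro rfl; exact hq0 (by rw [hab, zero_mul])
    have hb0 : b ≠ 0 := by rintro rfl; exact hq0 (by rw [hab, mul_zero])
    have hd : a.totalDegree + b.totalDegree = 2 := by
      rw [← totalDegree_mul_of_isDomain ha0 hb0, ← hab, hdeg]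
    have hunit : ∀ f : MvPolynomial (Par ι) ℚ, f ≠ 0 → f.totalDegree = 0 → IsUnit f := by
      intro f hf0 hf
      have h1 := (totalDegree_eq_zero_iff_eq_C).mp hf
      rw [h1]
      refine IsUnit.map C (IsUnit.mk0 _ ?_)
      intro h2
      apply hf0
      rw [h1, h2, map_zero]
    rcases Nat.eq_zero_or_pos a.totalDegree with ha | ha
    · exact Or.inl (hunit a ha0 ha)
    rcases Nat.eq_zero_or_pos b.totalDegree with hb | hb
    · exact Or.inr (hunit b hb0 hb)
    exfalso
    obtain ⟨L, hL⟩ := DomAux.affine a (by omega)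
    obtain ⟨M, hM⟩ := DomAux.affine b (by omega)
    have hker : LinearMap.ker (L.prod M) ≠ ⊥ := by
      apply LinearMap.ker_ne_bot_of_finrank_lt
      rw [hfin, Module.finrank_prod, Module.finrank_self]
      omega
    obtain ⟨v, hv, hv0⟩ := (Submodule.ne_bot_iff _).mp hker
    rw [LinearMap.mem_ker, LinearMap.prod_apply] at hv
    have hv1 : L v = 0 := congrArg Prod.fst hv
    have hv2 : M v = 0 := congrArg Prod.snd hv
    apply hv0
    apply hnd
    intro w
    rw [hpol, hab, map_mul, map_mul, map_mul, hL v w, hM v w, hv1, hv2]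
    have h1 := hL v 0
    have h2 := hM v 0
    rw [add_zero, hv1, add_zero] at h1
    rw [add_zero, hv2, add_zero] at h2
    rw [h1, h2, add_zero, add_zero]
    have h3 : eval (0 : Par ι → ℚ) a * eval 0 b = 0 := by
      rw [← map_mul, ← hab, eval_qpolQ]
      refine Finset.sum_eq_zero fun s _ => ?_
      rcases s with ⟨i, j⟩ | ⟨i, j⟩
      · simp [gv_inl]
      · simp [gv_inr]
    linear_combination -h3

/-- Evaluation of polynomials at vectors over `K`. -/
noncomputable def evK (v : ι → K) : MvPolynomial (Par ι) ℚ →ₐ[ℚ] ℚ := aeval (coord hK h v)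

end Herm

end Pool.MP_602153_ag
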