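import Mathlib
import Pool.Agent.HermVar.Defs
import Pool.Agent.HermVar.Gram

set_option autoImplicit false

/-!
# Minimal lattices of Hermitian forms
-/

namespace Pool.MP_602153_ag

namespace Herm

open WeilQuad Matrix

variable {ι : Type} [Fintype ι] {t m : ℤ} {K : Type} [Field K] [Algebra ℚ K]

/-- The Hermitian form with matrix `M`. -/
def herm (σ : K ≃ₐ[ℚ] K) (M : Matrix ι ι K) (v : ι → K) : K := ∑ i, ∑ k, M i k * v i * σ (v k)

namespace MinAux

set_option linter.unusedSectionVars false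

section Basic

variable {ω : K}

/-- The order `ℤ[ω]`. -/
def O (h : IsGen K t m ω) : Subring K where
  carrier := {x | ∃ a b : ℤ, x = a + b * ω}
  mul_mem' := by
    rintro _ _ ⟨a, b, rfl⟩ ⟨c, d, rfl⟩
    refine ⟨a * c - m * (b * d), a * d + b * c + t * (b * d), ?_⟩
    push_cast
    linear_combination (b * d : K) * h.eq
  one_mem' := ⟨1, 0, by simp⟩
  add_mem' := by
    rintro _ _ ⟨a, b, rfl⟩ ⟨c, d, rfl⟩
    exact ⟨a + c, b + d, by push_cast; ring⟩
  zero_mem' := ⟨0, 0, by simp⟩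
  neg_mem' := by
    rintro _ ⟨a, b, rfl⟩
    exact ⟨-a, -b, by push_cast; ring⟩

omit [Fintype ι] in
theorem mem_O (h : IsGen K t m ω) {x : K} : x ∈ O h ↔ ∃ a b : ℤ, x = a + b * ω := Iff.rfl

omit [Fintype ι] in
theorem int_mem_O (h : IsGen K t m ω) (a : ℤ) : (a : K) ∈ O h := ⟨a, 0, by simp⟩

omit [Fintype ι] in
theorem gen_mem_O (h : IsGen K t m ω) : ω ∈ O h := ⟨0, 1, by simp⟩

omit [Fintype ι] in
theorem delta_ne (h : IsGen K t m ω) : 2 * ω - t ≠ 0 := by
  intro h0
  have : CharZero K := algebraRat.charZero K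
  apply h.not_rat (t / 2)
  rw [map_div₀, map_intCast]
  have h4 : (algebraMap ℚ K 2) = 2 := by simp
  rw [h4, div_eq_iff (by norm_num)]
  linear_combination - h0

variable (hK : Module.finrank ℚ K = 2) (h : IsGen K t m ω) {σ : K ≃ₐ[ℚ] K} (hσ : σ ≠ 1)

include hK h hσ

omit [Fintype ι] in
theorem sigma_gen : σ ω = t - ω := by
  have h1 : (σ ω) ^ 2 = (t : K) * σ ω - m := by
    have := congrArg σ h.eq
    rw [map_pow, map_sub, map_mul, map_intCast, map_intCast] at this
    exact this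
  have h2 : (σ ω - ω) * (σ ω - (t - ω)) = 0 := by
    linear_combination h1 - h.eq
  rcases mul_eq_zero.1 h2 with h3 | h3
  · exfalso
    apply hσ
    have h4 : σ ω = ω := by linear_combination h3
    ext z
    rw [eq_re_im hK h z, map_add, map_mul, h4, AlgEquiv.commutes, AlgEquiv.commutes]
    rfl
  · linear_combination h3

omit [Fintype ι] in
theorem sigma_sigma (z : K) : σ (σ z) = z := by
  have h1 := sigma_gen hK h hσ
  rw [eq_re_im hK h z, map_add, map_mul, h1, AlgEquiv.commutes, AlgEquiv.commutes, map_add,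
    map_mul, map_sub, h1, AlgEquiv.commutes, AlgEquiv.commutes, map_intCast]
  ring

omit [Fintype ι] in
theorem sigma_O {x : K} (hx : x ∈ O h) : σ x ∈ O h := by
  obtain ⟨a, b, rfl⟩ := hx
  refine ⟨a + b * t, -b, ?_⟩
  rw [map_add, map_mul, map_intCast, map_intCast, sigma_gen hK h hσ]
  push_cast
  ring

omit [Fintype ι] in
/-- fixed elements of the order are integers -/
theorem int_of_fixed {x : K} (hx : x ∈ O h) (hf : σ x = x) : ∃ n : ℤ, x = n := by
  obtain ⟨a, b, rfl⟩ := hx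
  rw [map_add, map_mul, map_intCast, map_intCast, sigma_gen hK h hσ] at hf
  have h1 : (b : K) * (2 * ω - t) = 0 := by linear_combination - hf
  have h2 := (mul_eq_zero.1 h1).resolve_right (delta_ne h)
  exact ⟨a, by rw [h2]; ring⟩

end Basic

section Forms

/-- The sesquilinear form with matrix `M`. -/
def hb (σ : K ≃ₐ[ℚ] K) (M : Matrix ι ι K) (v w : ι → K) : K := ∑ i, ∑ k, M i k * v i * σ (w k)

variable (σ : K ≃ₐ[ℚ] K) (M : Matrix ι ι K)

theorem herm_eq (v : ι → K) : herm σ M v = hb σ M v v := rfl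

theorem hb_add_left (v v' w : ι → K) : hb σ M (v + v') w = hb σ M v w + hb σ M v' w := by
  simp only [hb, ← Finset.sum_add_distrib, Pi.add_apply]
  exact Finset.sum_congr rfl fun i _ => Finset.sum_congr rfl fun k _ => by ring

theorem hb_add_right (v w w' : ι → K) : hb σ M v (w + w') = hb σ M v w + hb σ M v w' := by
  simp only [hb, ← Finset.sum_add_distrib, Pi.add_apply, map_add]
  exact Finset.sum_congr rfl fun i _ => Finset.sum_congr rfl fun k _ => by ring

theorem hb_smul_left (a : K) (v w : ι → K) : hb σ M (a • v) w = a * hb σ M v w := by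
  simp only [hb, Finset.mul_sum, Pi.smul_apply, smul_eq_mul]
  exact Finset.sum_congr rfl fun i _ => Finset.sum_congr rfl fun k _ => by ring

theorem hb_smul_right (a : K) (v w : ι → K) : hb σ M v (a • w) = σ a * hb σ M v w := by
  simp only [hb, Finset.mul_sum, Pi.smul_apply, smul_eq_mul, map_mul]
  exact Finset.sum_congr rfl fun i _ => Finset.sum_congr rfl fun k _ => by ring

variable {σ M}

theorem hb_swap (hs : ∀ z, σ (σ z) = z) (hM : ∀ i k, M k i = σ (M i k)) (v w : ι → K) :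
    hb σ M w v = σ (hb σ M v w) := by
  simp only [hb, map_sum, map_mul]
  rw [Finset.sum_comm]
  refine Finset.sum_congr rfl fun i _ => Finset.sum_congr rfl fun k _ => ?_
  rw [hs, hM]
  ring

theorem herm_fixed (hs : ∀ z, σ (σ z) = z) (hM : ∀ i k, M k i = σ (M i k)) (v : ι → K) :
    σ (herm σ M v) = herm σ M v := by
  rw [herm_eq, ← hb_swap hs hM]

theorem herm_add (hs : ∀ z, σ (σ z) = z) (hM : ∀ i k, M k i = σ (M i k)) (v w : ι → K) :
    herm σ M (v + w) = herm σ M v + herm σ M w + (hb σ M v w + σ (hb σ M v w)) := by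
  rw [herm_eq, herm_eq, herm_eq, hb_add_left, hb_add_right, hb_add_right, hb_swap hs hM v w]
  ring

theorem herm_smul (a : K) (v : ι → K) : herm σ M (a • v) = a * σ a * herm σ M v := by
  rw [herm_eq, herm_eq, hb_smul_left, hb_smul_right]
  ring

variable [DecidableEq ι]

theorem hb_single (i k : ι) : hb σ M (Pi.single i 1) (Pi.single k 1) = M i k := by
  unfold hb
  rw [Finset.sum_eq_single i, Finset.sum_eq_single k]
  · simp
  · intro b _ hb
    simp [hb]
  · simp
  · intro b _ hb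
    apply Finset.sum_eq_zero
    intro k _
    simp [hb]
  · simp

theorem hb_eq_dot (v w : ι → K) : hb σ M v w = v ⬝ᵥ (M *ᵥ fun k => σ (w k)) := by
  simp only [hb, dotProduct, mulVec, Finset.mul_sum]
  exact Finset.sum_congr rfl fun i _ => Finset.sum_congr rfl fun k _ => by ring

/-- The matrix of `r h(g v)`. -/
def Fm (σ : K ≃ₐ[ℚ] K) (M g : Matrix ι ι K) (r : ℚ) : Matrix ι ι K :=
  algebraMap ℚ K r • (gᵀ * M * g.map σ)

theorem herm_Fm (g : Matrix ι ι K) (r : ℚ) (v : ι → K) :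
    herm σ (Fm σ M g r) v = algebraMap ℚ K r * herm σ M (g *ᵥ v) := by
  rw [herm_eq, herm_eq, hb_eq_dot, hb_eq_dot, Fm, smul_mulVec, dotProduct_smul, smul_eq_mul]
  congr 1
  have e1 : (fun k => σ ((g *ᵥ v) k)) = g.map σ *ᵥ fun k => σ (v k) := by
    funext k
    simp only [mulVec, dotProduct, map_sum, map_mul, map_apply]
  rw [e1, ← mulVec_mulVec, ← mulVec_mulVec, dotProduct_mulVec, vecMul_transpose]

theorem Fm_hermitian (hs : ∀ z, σ (σ z) = z) (hM : ∀ i k, M k i = σ (M i k)) (g : Matrix ι ι K)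
    (r : ℚ) (i k : ι) : Fm σ M g r k i = σ (Fm σ M g r i k) := by
  simp only [Fm, Matrix.smul_apply, Matrix.mul_apply, smul_eq_mul, map_mul, map_sum,
    AlgEquiv.commutes, Matrix.transpose_apply, Matrix.map_apply, hs, Finset.sum_mul,
    Finset.mul_sum]
  rw [Finset.sum_comm]
  refine Finset.sum_congr rfl fun a _ => Finset.sum_congr rfl fun b _ => ?_
  rw [hM b a]
  ring

theorem Fm_Fm (g g' : Matrix ι ι K) (r r' : ℚ) :
    Fm σ (Fm σ M g r) g' r' = Fm σ M (g * g') (r * r') := by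
  simp only [Fm, transpose_mul, map_mul, Matrix.map_mul, Matrix.mul_smul, Matrix.smul_mul,
    smul_smul, Matrix.mul_assoc]
  congr 1
  ring

theorem det_Fm (g : Matrix ι ι K) (r : ℚ) :
    (Fm σ M g r).det = algebraMap ℚ K r ^ Fintype.card ι * (g.det * σ g.det * M.det) := by
  rw [Fm, det_smul, det_mul, det_mul, det_transpose]
  have : (g.map σ).det = σ g.det := by
    have := (σ : K →+* K).map_det g
    rw [RingHom.mapMatrix_apply] at this
    exact this.symm
  rw [this]
  ring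

omit [DecidableEq ι] in
theorem det_fixed [DecidableEq ι] (hM : ∀ i k, M k i = σ (M i k)) : σ M.det = M.det := by
  have h1 := (σ : K →+* K).map_det M
  rw [RingHom.mapMatrix_apply] at h1
  have h2 : M.map σ = Mᵀ := by
    ext i k
    simp only [map_apply, transpose_apply, hM i k]
  have h3 : σ M.det = (M.map σ).det := h1
  rw [h3, h2, det_transpose]

end Forms

section Tok

/-- An integral vector as a vector over `K`. -/
def tok (ω : K) (v : Par ι → ℤ) : ι → K := fun i => (v (.inl i) : K) + (v (.inr i) : K) * ω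

variable {ω : K} (hK : Module.finrank ℚ K = 2) (h : IsGen K t m ω) {σ : K ≃ₐ[ℚ] K}

theorem tok_mem (v : Par ι → ℤ) (i : ι) : tok ω v i ∈ O h := ⟨_, _, rfl⟩

theorem exists_tok {y : ι → K} (hy : ∀ i, y i ∈ O h) : ∃ Y : Par ι → ℤ, tok ω Y = y := by
  choose a b hab using hy
  exact ⟨Sum.elim a b, funext fun i => (hab i).symm⟩

theorem tok_add (v w : Par ι → ℤ) : tok ω (v + w) = tok ω v + tok ω w := by
  funext i
  simp only [tok, Pi.add_apply]
  push_cast
  ring

include h in
theorem tok_sm (x y : ℤ) (v : Par ι → ℤ) :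
    tok ω (sm t m x y v) = ((x : K) + y * ω) • tok ω v := by
  funext i
  simp only [tok, Pi.smul_apply, smul_eq_mul, sm_inl, sm_inr, Int.cast_id]
  push_cast
  linear_combination (-(y * v (.inr i)) : K) * h.eq

theorem re_tok (v : Par ι → ℤ) (i : ι) : re hK h (tok ω v i) = v (.inl i) := by
  have := re_add_mul hK h (v (.inl i)) (v (.inr i))
  rw [map_intCast, map_intCast] at this
  exact this

theorem im_tok (v : Par ι → ℤ) (i : ι) : im hK h (tok ω v i) = v (.inr i) := by
  have := im_add_mul hK h (v (.inl i)) (v (.inr i))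
  rw [map_intCast, map_intCast] at this
  exact this

theorem fn_tok (s : Idx ι) (v : Par ι → ℤ) :
    fn hK h s (tok ω v) = ((gv t m v s : ℤ) : ℚ) := by
  rcases s with ⟨i, j⟩ | ⟨i, j⟩
  · rw [fn_inl, re_tok, re_tok, im_tok, im_tok, gv_inl]
    push_cast
    ring
  · rw [fn_inr, re_tok, re_tok, im_tok, im_tok, gv_inr]
    push_cast
    ring

theorem conj_mul (hσ : σ ≠ 1) (v : ι → K) (i j : ι) : v i * σ (v j) =
    algebraMap ℚ K (fn hK h (Sum.inl (i, j)) v) +
      algebraMap ℚ K (fn hK h (Sum.inr (i, j)) v) * ω := by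
  rw [fn_inl, fn_inr]
  have h1 := eq_re_im hK h (v i)
  have h2 := eq_re_im hK h (v j)
  have h3 : σ (v j) = algebraMap ℚ K (re hK h (v j)) +
      algebraMap ℚ K (im hK h (v j)) * (t - ω) := by
    conv_lhs => rw [h2]
    rw [map_add, map_mul, sigma_gen hK h hσ, AlgEquiv.commutes, AlgEquiv.commutes]
  rw [h3]
  conv_lhs => rw [h1]
  simp only [map_add, map_sub, map_mul, map_intCast]
  linear_combination (-(algebraMap ℚ K (im hK h (v i)) * algebraMap ℚ K (im hK h (v j)))) * h.eq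

end Tok

theorem sum_pairs [DecidableEq ι] (e : ι → ℕ) (he : Function.Injective e) (f : ι → ι → K) :
    ∑ i, ∑ j, f i j = ∑ i, ∑ j, ((if i = j then f i j else 0) +
      (if e i < e j then f i j + f j i else 0)) := by
  have h1 : ∑ i, ∑ j, (if e i < e j then f j i else 0) =
      ∑ i, ∑ j, (if e j < e i then f i j else 0) := Finset.sum_comm
  have h2 : ∀ i j, (if e i < e j then f i j + f j i else 0) =
      (if e i < e j then f i j else 0) + (if e i < e j then f j i else 0) := by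
    intro i j
    split_ifs <;> simp
  simp only [h2, Finset.sum_add_distrib]
  rw [h1]
  simp only [← Finset.sum_add_distrib]
  refine Finset.sum_congr rfl fun i _ => Finset.sum_congr rfl fun j _ => ?_
  rcases lt_trichotomy (e i) (e j) with h3 | h3 | h3
  · have h4 : i ≠ j := fun h => by rw [h] at h3; exact lt_irrefl _ h3
    rw [if_neg h4, if_pos h3, if_neg h3.not_gt]
    ring
  · have h4 : i = j := he h3
    rw [if_pos h4, if_neg h3.not_lt, if_neg h3.not_gt]
    ring
  · have h4 : i ≠ j := fun h => by rw [h] at h3; exact lt_irrefl _ h3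
    rw [if_neg h4, if_neg h3.not_gt, if_pos h3]
    ring

section Int

variable {ω : K} (hK : Module.finrank ℚ K = 2) (h : IsGen K t m ω) {σ : K ≃ₐ[ℚ] K} (hσ : σ ≠ 1)
  {M : Matrix ι ι K} (hM : ∀ i k, M k i = σ (M i k))

/-- The form with matrix `M` takes integral values on integral vectors. -/
def IntF (h : IsGen K t m ω) (σ : K ≃ₐ[ℚ] K) (M : Matrix ι ι K) : Prop :=
  ∀ v : ι → K, (∀ i, v i ∈ O h) → ∃ n : ℤ, herm σ M v = n

variable [DecidableEq ι]

theorem single_mem {x : K} (hx : x ∈ O h) (i k : ι) : (Pi.single i x : ι → K) k ∈ O h := by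
  by_cases hk : k = i
  · subst hk
    rw [Pi.single_eq_same]
    exact hx
  · rw [Pi.single_eq_of_ne hk]
    exact (O h).zero_mem

include hK hσ hM

theorem IntF.trace (hI : IntF h σ M) {x : K} (hx : x ∈ O h) (i k : ι) :
    ∃ n : ℤ, x * M i k + σ (x * M i k) = n := by
  have hs := sigma_sigma hK h hσ
  have e1 : (Pi.single i x : ι → K) = x • Pi.single i 1 := by
    rw [← Pi.single_smul, smul_eq_mul, mul_one]
  have h1 := herm_add (σ := σ) hs hM (Pi.single i x) (Pi.single k 1)
  have e2 : hb σ M (Pi.single i x) (Pi.single k 1) = x * M i k := by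
    rw [e1, hb_smul_left, hb_single]
  rw [e2] at h1
  obtain ⟨a, ha⟩ := hI (Pi.single i x + Pi.single k 1) fun j =>
    (O h).add_mem (single_mem h hx i j) (single_mem h (O h).one_mem k j)
  obtain ⟨b, hb'⟩ := hI (Pi.single i x) fun j => single_mem h hx i j
  obtain ⟨c, hc⟩ := hI (Pi.single k 1) fun j => single_mem h (O h).one_mem k j
  rw [ha, hb', hc] at h1
  exact ⟨a - b - c, by push_cast; linear_combination -h1⟩

theorem IntF.diag (hI : IntF h σ M) (i : ι) : ∃ n : ℤ, M i i = n := by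
  obtain ⟨c, hc⟩ := hI (Pi.single i 1) fun j => single_mem h (O h).one_mem i j
  rw [herm_eq, hb_single] at hc
  exact ⟨c, hc⟩

theorem IntF.disc (hI : IntF h σ M) (i k : ι) : ((t : K) ^ 2 - 4 * m) * M i k ∈ O h := by
  obtain ⟨A, hA⟩ := hI.trace hK h hσ hM (O h).one_mem i k
  obtain ⟨B, hB⟩ := hI.trace hK h hσ hM (gen_mem_O h) i k
  rw [one_mul] at hA
  rw [map_mul, sigma_gen hK h hσ] at hB
  have e : ((t : K) ^ 2 - 4 * m) * M i k = (2 * ω - t) * (B - (t - ω) * A) := by
    rw [← hA, ← hB]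
    linear_combination (-4 * M i k) * h.eq
  rw [e]
  refine (O h).mul_mem ((O h).sub_mem ?_ (int_mem_O h t)) ((O h).sub_mem (int_mem_O h B)
    ((O h).mul_mem ((O h).sub_mem (int_mem_O h t) (gen_mem_O h)) (int_mem_O h A)))
  have : (2 : K) ∈ O h := by
    have := int_mem_O h 2
    simpa using this
  exact (O h).mul_mem this (gen_mem_O h)

theorem IntF.det (hI : IntF h σ M) :
    ∃ D : ℤ, (D : K) = ((t : K) ^ 2 - 4 * m) ^ Fintype.card ι * M.det := by
  have h1 : ((t : K) ^ 2 - 4 * m) ^ Fintype.card ι * M.det ∈ O h := by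
    rw [← det_smul, Matrix.det_apply]
    refine (O h).sum_mem fun τ _ => ?_
    rw [Units.smul_def]
    refine (O h).zsmul_mem ((O h).prod_mem fun i _ => ?_) _
    rw [Matrix.smul_apply, smul_eq_mul]
    exact hI.disc hK h hσ hM _ _
  obtain ⟨n, hn⟩ := int_of_fixed hK h hσ h1 (by
    rw [map_mul, map_pow, map_sub, map_mul, map_pow, map_intCast, map_intCast,
      det_fixed hM, map_ofNat])
  exact ⟨n, hn.symm⟩

omit hσ hM in
theorem exists_den (x : K) : ∃ d : ℤ, d ≠ 0 ∧ (d : K) * x ∈ O h := by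
  set a := re hK h x with ha
  set b := im hK h x with hb
  refine ⟨a.den * b.den, by positivity, a.num * b.den, b.num * a.den, ?_⟩
  have h1 := eq_re_im hK h x
  rw [← ha, ← hb] at h1
  have e1 : algebraMap ℚ K (a.den : ℚ) * algebraMap ℚ K a = algebraMap ℚ K (a.num : ℚ) := by
    rw [← map_mul, Rat.den_mul_eq_num]
  have e2 : algebraMap ℚ K (b.den : ℚ) * algebraMap ℚ K b = algebraMap ℚ K (b.num : ℚ) := by
    rw [← map_mul, Rat.den_mul_eq_num]
  rw [map_natCast, map_intCast] at e1 e2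
  rw [h1]
  push_cast
  linear_combination (b.den : K) * e1 + (a.den : K) * ω * e2

omit hσ hM in
theorem exists_den_fin {α : Type} [Fintype α] (f : α → K) :
    ∃ d : ℤ, d ≠ 0 ∧ ∀ a, (d : K) * f a ∈ O h := by
  classical
  choose d hd hd2 using fun a => exists_den hK h (f a)
  refine ⟨∏ a, d a, Finset.prod_ne_zero_iff.2 fun a _ => hd a, fun a => ?_⟩
  rw [← Finset.prod_erase_mul Finset.univ d (Finset.mem_univ a)]
  push_cast
  rw [mul_assoc]
  refine (O h).mul_mem ?_ (hd2 a)
  have := int_mem_O h (∏ b ∈ Finset.univ.erase a, d b)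
  push_cast at this
  exact this

theorem exists_int : ∃ d : ℤ, d ≠ 0 ∧ IntF h σ (Fm σ M 1 d) := by
  obtain ⟨d, hd, hd2⟩ := exists_den_fin hK h (fun q : ι × ι => M q.1 q.2)
  refine ⟨d, hd, fun v hv => ?_⟩
  have hs := sigma_sigma hK h hσ
  have h1 : herm σ (Fm σ M 1 d) v = (d : K) * herm σ M v := by
    rw [herm_Fm, one_mulVec, map_intCast]
  refine int_of_fixed hK h hσ ?_ (herm_fixed hs (Fm_hermitian hs hM 1 d) v)
  rw [h1, herm, Finset.mul_sum]
  refine (O h).sum_mem fun i _ => ?_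
  rw [Finset.mul_sum]
  refine (O h).sum_mem fun k _ => ?_
  have : (d : K) * (M i k * v i * σ (v k)) = ((d : K) * M i k) * v i * σ (v k) := by ring
  rw [this]
  exact (O h).mul_mem ((O h).mul_mem (hd2 (i, k)) (hv i)) (sigma_O hK h hσ (hv k))

/-- Integral forms have integral coefficients. -/
theorem IntF.exists_coeff (hI : IntF h σ M) : ∃ c : Idx ι → ℤ, ∀ v : ι → K,
    algebraMap ℚ K (∑ s, (c s : ℚ) * fn hK h s v) = herm σ M v := by
  have hs := sigma_sigma hK h hσ
  choose D hD using fun i => hI.diag hK h hσ hM i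
  choose A hA using fun q : ι × ι => hI.trace hK h hσ hM (O h).one_mem q.1 q.2
  choose B hB using fun q : ι × ι => hI.trace hK h hσ hM (gen_mem_O h) q.1 q.2
  let e : ι → ℕ := fun i => (Fintype.equivFin ι i : ℕ)
  have he : Function.Injective e := fun i j hij =>
    (Fintype.equivFin ι).injective (Fin.ext hij)
  refine ⟨Sum.elim (fun q => (if q.1 = q.2 then D q.1 else 0) + (if e q.1 < e q.2 then A q else 0))
    (fun q => if e q.1 < e q.2 then B q else 0), fun v => ?_⟩
  have h1 : herm σ M v = ∑ i, ∑ j, M i j * (v i * σ (v j)) := by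
    rw [herm]
    exact Finset.sum_congr rfl fun i _ => Finset.sum_congr rfl fun j _ => by ring
  rw [h1, sum_pairs e he, Fintype.sum_sum_type, Fintype.sum_prod_type, Fintype.sum_prod_type,
    ← Finset.sum_add_distrib, map_sum]
  refine Finset.sum_congr rfl fun i _ => ?_
  rw [← Finset.sum_add_distrib, map_sum]
  refine Finset.sum_congr rfl fun j _ => ?_
  simp only [Sum.elim_inl, Sum.elim_inr]
  rw [map_add, map_mul, map_mul, map_intCast, map_intCast]
  have hz := conj_mul hK h hσ v i j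
  have hd : (if i = j then M i j * (v i * σ (v j)) else 0) =
      ((if i = j then D i else 0 : ℤ) : K) * algebraMap ℚ K (fn hK h (Sum.inl (i, j)) v) := by
    split_ifs with hij
    · subst hij
      rw [hz, hD]
      have : fn hK h (Sum.inr (i, i)) v = 0 := by rw [fn_inr]; ring
      rw [this, map_zero]
      ring
    · simp
  have ho : (if e i < e j then M i j * (v i * σ (v j)) + M j i * (v j * σ (v i)) else 0) =
      ((if e i < e j then A (i, j) else 0 : ℤ) : K) * algebraMap ℚ K (fn hK h (Sum.inl (i, j)) v) +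
      ((if e i < e j then B (i, j) else 0 : ℤ) : K) *
        algebraMap ℚ K (fn hK h (Sum.inr (i, j)) v) := by
    split_ifs with hij
    · have h2 : M j i * (v j * σ (v i)) = σ (M i j * (v i * σ (v j))) := by
        rw [map_mul, map_mul, hs, hM i j]
        ring
      have h3 := hA (i, j)
      have h4 := hB (i, j)
      simp only [one_mul] at h3
      rw [h2, hz]
      simp only [map_add, map_mul, AlgEquiv.commutes] at h4 ⊢
      linear_combination (algebraMap ℚ K (fn hK h (Sum.inl (i, j)) v)) * h3 +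
        (algebraMap ℚ K (fn hK h (Sum.inr (i, j)) v)) * h4
    · simp
  rw [hd, ho]
  push_cast
  ring

end Int

section Nondeg

variable {ω : K} (hK : Module.finrank ℚ K = 2) (h : IsGen K t m ω) {σ : K ≃ₐ[ℚ] K} (hσ : σ ≠ 1)
  {M : Matrix ι ι K} (hM : ∀ i k, M k i = σ (M i k)) {c : Idx ι → ℤ}
  (hc : ∀ v : ι → K, algebraMap ℚ K (∑ s, (c s : ℚ) * fn hK h s v) = herm σ M v)

include hc in
theorem qf_eq (v : Par ι → ℤ) : ((qf t m c v : ℤ) : K) = herm σ M (tok ω v) := by
  rw [← hc, qf]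
  simp only [fn_tok]
  push_cast
  simp only [map_sum, map_mul, map_intCast]

include hσ hM hc in
theorem bf_eq (v w : Par ι → ℤ) : ((bf t m c v w : ℤ) : K) =
    hb σ M (tok ω v) (tok ω w) + σ (hb σ M (tok ω v) (tok ω w)) := by
  have h1 := herm_add (sigma_sigma hK h hσ) hM (tok ω v) (tok ω w)
  have h2 := qf_add t m c v w
  rw [← tok_add, ← qf_eq hK h hc, ← qf_eq hK h hc, ← qf_eq hK h hc, h2] at h1
  push_cast at h1
  linear_combination h1

variable [DecidableEq ι]

include hσ hM hc in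
theorem bf_nondeg (hdet : M.det ≠ 0) {v : Par ι → ℤ} (hv : ∀ w, bf t m c v w = 0) : v = 0 := by
  have h1 : ∀ w : Par ι → ℤ, hb σ M (tok ω v) (tok ω w) = 0 := by
    intro w
    have h2 := bf_eq hK h hσ hM hc v w
    have h3 := bf_eq hK h hσ hM hc v (sm t m 0 1 w)
    rw [hv] at h2 h3
    have e0 : ((0 : ℤ) : K) + ((1 : ℤ) : K) * ω = ω := by simp
    rw [tok_sm h, e0, hb_smul_right, map_mul, sigma_gen hK h hσ, map_sub, sigma_gen hK h hσ,
      map_intCast, Int.cast_zero] at h3
    rw [Int.cast_zero] at h2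
    set β := hb σ M (tok ω v) (tok ω w)
    have h4 : (2 * ω - t) * β = 0 := by linear_combination h3 - ω * h2
    exact (mul_eq_zero.1 h4).resolve_left (delta_ne h)
  have h2 : vecMul (tok ω v) M = 0 := by
    funext k
    have h3 := h1 (Pi.single (.inl k) 1)
    have h4 : tok ω (Pi.single (.inl k) 1 : Par ι → ℤ) = Pi.single k 1 := by
      funext i
      by_cases hi : i = k
      · subst hi
        simp [tok]
      · simp [tok, hi]
    rw [h4] at h3
    rw [Pi.zero_apply, ← h3]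
    unfold hb
    simp only [vecMul, dotProduct]
    refine Finset.sum_congr rfl fun i _ => ?_
    rw [Finset.sum_eq_single k]
    · simp [mul_comm]
    · intro b _ hb
      simp [hb]
    · simp
  have h3 := Matrix.eq_zero_of_vecMul_eq_zero hdet h2
  funext s
  rcases s with i | i
  · have h4 := re_tok hK h v i
    rw [h3] at h4
    have h5 : re hK h ((0 : ι → K) i) = 0 := by simp [re]
    rw [h5] at h4
    exact_mod_cast h4.symm
  · have h4 := im_tok hK h v i
    rw [h3] at h4
    have h5 : im hK h ((0 : ι → K) i) = 0 := by simp [im]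
    rw [h5] at h4
    exact_mod_cast h4.symm

include hσ hM hc in
theorem exists_a0 (hdet : M.det ≠ 0) {p : ℕ} (hp : p.Prime) : ∃ a₀ : ℤ, ¬ (p : ℤ) ∣ a₀ ∧
    a₀ ≠ 0 ∧ ∀ ℓ : ℕ, ℓ = 0 ∨ ℓ.Prime → ℓ ≠ p → ¬ (ℓ : ℤ) ∣ a₀ →
    ∀ v : Par ι → ℤ, (∀ w, (ℓ : ℤ) ∣ bf t m c v w) → ∀ k, (ℓ : ℤ) ∣ v k := by
  let G : Matrix (Par ι) (Par ι) ℤ := Matrix.of fun k l => gram t m c k l
  have hG : G.det ≠ 0 := by
    intro h0
    rw [← Matrix.exists_vecMul_eq_zero_iff] at h0
    obtain ⟨u, hu, hu2⟩ := h0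
    apply hu
    apply bf_nondeg hK h hσ hM hc hdet
    rw [rad_iff_vecMul]
    exact hu2
  have hfin : FiniteMultiplicity (p : ℤ) G.det := by
    rw [Int.finiteMultiplicity_iff]
    exact ⟨by simpa using hp.one_lt.ne', hG⟩
  obtain ⟨a₀, ha, ha2⟩ := hfin.exists_eq_pow_mul_and_not_dvd
  have ha0 : a₀ ≠ 0 := fun h0 => ha2 (by rw [h0]; exact dvd_zero _)
  refine ⟨a₀, ha2, ha0, fun ℓ hℓ hℓp hℓa v hv k => ?_⟩
  choose x hx using hv
  have h1 : vecMul v G = (ℓ : ℤ) • fun l => x (Pi.single l 1) := by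
    funext l
    have h2 := bf_single_right t m c v l
    rw [hx] at h2
    simp only [Pi.smul_apply, smul_eq_mul]
    rw [h2]
    rfl
  have h2 : G.det * v k = ℓ * (vecMul (fun l => x (Pi.single l 1)) G.adjugate) k := by
    have h3 : vecMul (vecMul v G) G.adjugate = G.det • v := by
      rw [vecMul_vecMul, mul_adjugate, vecMul_smul, vecMul_one]
    rw [h1, smul_vecMul] at h3
    have h4 := congrFun h3 k
    simp only [Pi.smul_apply, smul_eq_mul] at h4
    exact h4.symm
  have h3 : (ℓ : ℤ) ∣ G.det * v k := ⟨_, h2⟩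
  rcases hℓ with rfl | hℓ
  · rw [Nat.cast_zero, zero_dvd_iff] at h3 ⊢
    exact (mul_eq_zero.1 h3).resolve_left hG
  · have hpr : Prime (ℓ : ℤ) := Nat.prime_iff_prime_int.1 hℓ
    rcases hpr.dvd_or_dvd h3 with h4 | h4
    · exfalso
      rw [ha] at h4
      rcases hpr.dvd_or_dvd h4 with h5 | h5
      · have h6 := hpr.dvd_of_dvd_pow h5
        have h7 : ℓ ∣ p := by exact_mod_cast h6
        exact hℓp ((Nat.prime_dvd_prime_iff_eq hℓ hp).1 h7)
      · exact hℓa h5
    · exact h4

end Nondeg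

section Improve

/-- If two elements of `O / p` and their sum have norm zero then `a * conj b = 0`. -/
theorem norm_aux {F : Type} [Field F] {t m a1 a2 b1 b2 : F}
    (ha : a1 ^ 2 + t * a1 * a2 + m * a2 ^ 2 = 0) (hb : b1 ^ 2 + t * b1 * b2 + m * b2 ^ 2 = 0)
    (hab : (a1 + b1) ^ 2 + t * (a1 + b1) * (a2 + b2) + m * (a2 + b2) ^ 2 = 0) :
    a1 * b1 + t * a1 * b2 + m * a2 * b2 = 0 ∧ a2 * b1 - a1 * b2 = 0 := by
  by_cases h1 : a2 = 0
  · have h2 : a1 = 0 := by
      rw [h1] at ha
      have : a1 ^ 2 = 0 := by linear_combination ha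
      exact pow_eq_zero_iff (by norm_num) |>.1 this
    rw [h1, h2]
    constructor <;> ring
  by_cases h3 : b2 = 0
  · have h2 : b1 = 0 := by
      rw [h3] at hb
      have : b1 ^ 2 = 0 := by linear_combination hb
      exact pow_eq_zero_iff (by norm_num) |>.1 this
    rw [h3, h2]
    constructor <;> ring
  have hT : 2 * a1 * b1 + t * (a1 * b2 + b1 * a2) + 2 * m * a2 * b2 = 0 := by
    linear_combination hab - ha - hb
  have hy : a2 * b1 - a1 * b2 = 0 := by
    have h4 : (a1 * b2 - a2 * b1) * (a1 * b2 + a2 * b1 + t * a2 * b2) = 0 := by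
      linear_combination b2 ^ 2 * ha - a2 ^ 2 * hb
    rcases mul_eq_zero.1 h4 with h5 | h5
    · linear_combination -h5
    · have h6 : (a2 * b1 - a1 * b2) ^ 2 = 0 := by
        have e1 : 2 * (a1 * b2) * (a2 * b1) = 2 * m * (a2 * b2) ^ 2 := by
          linear_combination (a1 * b2 + a2 * b1) * h5 - b2 ^ 2 * ha - a2 ^ 2 * hb
        have e2 : (4 * m - t ^ 2) * (a2 * b2) ^ 2 = 0 := by
          linear_combination (a2 * b2) * hT - e1 - t * (a2 * b2) * h5
        linear_combination (a1 * b2 + a2 * b1 - t * a2 * b2) * h5 - 2 * e1 - e2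
      exact pow_eq_zero_iff (by norm_num) |>.1 h6
  refine ⟨?_, hy⟩
  have h7 : a2 * (a1 * b1 + t * a1 * b2 + m * a2 * b2) = 0 := by
    linear_combination b2 * ha + a1 * hy
  exact (mul_eq_zero.1 h7).resolve_left h1

variable [DecidableEq ι]

/-- A unimodular vector can be moved, by an integral matrix of determinant one, so that one
entry becomes a unit at `p`. -/
theorem exists_unit_entry {p : ℕ} (hp : p.Prime) (V : Par ι → ℤ)
    (hV : ∃ s, ¬ (p : ℤ) ∣ gv t m V s) : ∃ (E E' : Matrix ι ι ℤ) (i : ι), E' * E = 1 ∧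
      E'.det = 1 ∧ ¬ (p : ℤ) ∣ (∑ k, E i k * V (.inl k)) ^ 2 +
        t * (∑ k, E i k * V (.inl k)) * (∑ k, E i k * V (.inr k)) +
        m * (∑ k, E i k * V (.inr k)) ^ 2 := by
  have : Fact p.Prime := ⟨hp⟩
  -- the case of a unit entry
  have key : ∀ i, ¬ (p : ℤ) ∣ V (.inl i) ^ 2 + t * V (.inl i) * V (.inr i) + m * V (.inr i) ^ 2 →
      ∃ (E E' : Matrix ι ι ℤ) (i : ι), E' * E = 1 ∧
      E'.det = 1 ∧ ¬ (p : ℤ) ∣ (∑ k, E i k * V (.inl k)) ^ 2 +
        t * (∑ k, E i k * V (.inl k)) * (∑ k, E i k * V (.inr k)) +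
        m * (∑ k, E i k * V (.inr k)) ^ 2 := by
    intro i hi
    refine ⟨1, 1, i, by simp, by simp, ?_⟩
    have e : ∀ f : ι → ℤ, ∑ k, (1 : Matrix ι ι ℤ) i k * f k = f i := by
      intro f
      simp [Matrix.one_apply]
    rw [e, e]
    exact hi
  obtain ⟨i, j, hij⟩ : ∃ i j, ¬ (p : ℤ) ∣ gv t m V (.inl (i, j)) ∨
      ¬ (p : ℤ) ∣ gv t m V (.inr (i, j)) := by
    obtain ⟨s, hs⟩ := hV
    rcases s with ⟨i, j⟩ | ⟨i, j⟩
    · exact ⟨i, j, Or.inl hs⟩
    · exact ⟨i, j, Or.inr hs⟩
  by_cases h1 : (p : ℤ) ∣ V (.inl i) ^ 2 + t * V (.inl i) * V (.inr i) + m * V (.inr i) ^ 2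
  swap
  · exact key i h1
  by_cases h2 : (p : ℤ) ∣ V (.inl j) ^ 2 + t * V (.inl j) * V (.inr j) + m * V (.inr j) ^ 2
  swap
  · exact key j h2
  by_cases hne : i = j
  · exfalso
    subst hne
    rw [gv_inl, gv_inr] at hij
    rcases hij with h3 | h3
    · apply h3
      convert h1 using 1
      simp only [Int.cast_id]
      ring
    · apply h3
      have e : V (Sum.inr i) * V (Sum.inl i) - V (Sum.inl i) * V (Sum.inr i) = 0 := by ring
      rw [e]
      exact dvd_zero _
  refine ⟨transvection i j 1, transvection i j (-1), i, ?_, ?_, ?_⟩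
  · rw [transvection_mul_transvection_same i j hne]
    simp
  · exact det_transvection_of_ne i j hne _
  · have e : ∀ f : ι → ℤ, ∑ k, (transvection i j (1 : ℤ)) i k * f k = f i + f j := by
      intro f
      simp only [transvection, Matrix.add_apply, add_mul, Finset.sum_add_distrib]
      congr 1
      · simp [Matrix.one_apply]
      · rw [Finset.sum_eq_single j]
        · simp
        · intro b _ hb
          rw [Matrix.single_apply_of_col_ne _ _ (Ne.symm hb)]
          simp
        · simp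
    rw [e, e]
    intro h3
    have c1 := (ZMod.intCast_zmod_eq_zero_iff_dvd _ p).2 h1
    have c2 := (ZMod.intCast_zmod_eq_zero_iff_dvd _ p).2 h2
    have c3 := (ZMod.intCast_zmod_eq_zero_iff_dvd _ p).2 h3
    push_cast at c1 c2 c3
    obtain ⟨d1, d2⟩ := norm_aux c1 c2 c3
    rcases hij with h4 | h4
    · apply h4
      rw [← ZMod.intCast_zmod_eq_zero_iff_dvd, gv_inl]
      push_cast
      exact d1
    · apply h4
      rw [← ZMod.intCast_zmod_eq_zero_iff_dvd, gv_inr]
      push_cast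
      exact d2

theorem updateCol_one_mulVec (i : ι) (x v : ι → K) :
    ((1 : Matrix ι ι K).updateCol i x) *ᵥ v = (v - Pi.single i (v i)) + v i • x := by
  funext a
  simp only [mulVec, dotProduct, Pi.add_apply, Pi.sub_apply, Pi.smul_apply, smul_eq_mul]
  rw [← Finset.add_sum_erase Finset.univ _ (Finset.mem_univ i)]
  rw [Matrix.updateCol_self]
  have h1 : ∑ b ∈ Finset.univ.erase i, ((1 : Matrix ι ι K).updateCol i x) a b * v b =
      ∑ b ∈ Finset.univ.erase i, (1 : Matrix ι ι K) a b * v b := by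
    refine Finset.sum_congr rfl fun b hb => ?_
    rw [Matrix.updateCol_ne (Finset.ne_of_mem_erase hb)]
  have h2 := Finset.add_sum_erase Finset.univ (fun b => (1 : Matrix ι ι K) a b * v b)
    (Finset.mem_univ i)
  have h3 : ∑ b, (1 : Matrix ι ι K) a b * v b = v a := by
    have := congrFun (one_mulVec v) a
    exact this
  rw [h1]
  by_cases ha : a = i
  · subst ha
    simp only [Matrix.one_apply_eq, one_mul, Pi.single_eq_same] at h2 ⊢
    rw [h3] at h2
    linear_combination h2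
  · rw [Pi.single_eq_of_ne ha]
    simp only [Matrix.one_apply_ne ha, zero_mul, zero_add] at h2
    rw [h3] at h2
    linear_combination h2

theorem det_updateCol_one (i : ι) (x : ι → K) : ((1 : Matrix ι ι K).updateCol i x).det = x i := by
  rw [← Matrix.cramer_apply, Matrix.cramer_one]
  rfl

variable {ω : K} (hK : Module.finrank ℚ K = 2) (h : IsGen K t m ω) {σ : K ≃ₐ[ℚ] K} (hσ : σ ≠ 1)
  {M : Matrix ι ι K} {c : Idx ι → ℤ}
  (hc : ∀ v : ι → K, algebraMap ℚ K (∑ s, (c s : ℚ) * fn hK h s v) = herm σ M v)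

include hσ hc in
/-- Improvement along a unimodular radical vector. -/
theorem improve1 {p : ℕ} (hp : p.Prime) (V : Par ι → ℤ) (hV : ∃ s, ¬ (p : ℤ) ∣ gv t m V s)
    (hr : ∀ w, (p : ℤ) ∣ bf t m c V w) (hq : (p : ℤ) ^ 2 ∣ qf t m c V) :
    ∃ (g' : Matrix ι ι K) (e : ℤ), g'.det ≠ 0 ∧ IntF h σ (Fm σ M g' 1) ∧ ¬ (p : ℤ) ∣ e ∧
      (p : K) ^ 2 * (g'.det * σ g'.det) = e := by
  have : CharZero K := algebraRat.charZero K
  have hp0 : (p : K) ≠ 0 := by exact_mod_cast hp.ne_zero
  obtain ⟨E, E', i, hE, hdetE, hunit⟩ := exists_unit_entry hp V hV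
  set a := ∑ k, E i k * V (.inl k) with ha
  set b := ∑ k, E i k * V (.inr k) with hb'
  set EK : Matrix ι ι K := E.map (Int.castRingHom K) with hEK
  set EK' : Matrix ι ι K := E'.map (Int.castRingHom K) with hEK'
  have hEE : EK' * EK = 1 := by
    rw [hEK, hEK', ← Matrix.map_mul, hE]
    simp
  have hdetE' : EK'.det = 1 := by
    have h1 := (Int.castRingHom K).map_det E'
    rw [RingHom.mapMatrix_apply, hdetE, map_one] at h1
    exact h1.symm
  set x : ι → K := (p : K)⁻¹ • (EK *ᵥ tok ω V) with hx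
  have hxi : x i = (p : K)⁻¹ * (a + b * ω) := by
    rw [hx, Pi.smul_apply, smul_eq_mul]
    congr 1
    rw [ha, hb']
    push_cast
    rw [Finset.sum_mul, ← Finset.sum_add_distrib]
    refine Finset.sum_congr rfl fun k _ => ?_
    simp only [hEK, Matrix.map_apply, eq_intCast, tok]
    ring
  have hdet : (EK' * (1 : Matrix ι ι K).updateCol i x).det = (p : K)⁻¹ * (a + b * ω) := by
    rw [det_mul, hdetE', det_updateCol_one, one_mul, hxi]
  have hprod : (p : K) ^ 2 * ((EK' * (1 : Matrix ι ι K).updateCol i x).det *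
      σ (EK' * (1 : Matrix ι ι K).updateCol i x).det) =
      ((a ^ 2 + t * a * b + m * b ^ 2 : ℤ) : K) := by
    rw [hdet, map_mul, map_inv₀, map_natCast, map_add, map_mul, map_intCast, map_intCast,
      sigma_gen hK h hσ]
    push_cast
    field_simp
    linear_combination (-(b : K) ^ 2) * h.eq
  refine ⟨EK' * (1 : Matrix ι ι K).updateCol i x, a ^ 2 + t * a * b + m * b ^ 2, ?_, ?_, hunit,
    hprod⟩
  · intro h0
    rw [h0, zero_mul, mul_zero] at hprod
    apply hunit
    have : (a ^ 2 + t * a * b + m * b ^ 2 : ℤ) = 0 := by exact_mod_cast hprod.symm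
    rw [this]
    exact dvd_zero _
  · intro v hv
    have hy : ∀ k, (EK' *ᵥ (v - Pi.single i (v i))) k ∈ O h := by
      intro k
      simp only [mulVec, dotProduct]
      refine (O h).sum_mem fun l _ => (O h).mul_mem ?_ ?_
      · simp only [hEK', Matrix.map_apply, eq_intCast]
        exact int_mem_O h _
      · exact (O h).sub_mem (hv l) (single_mem h (hv i) i l)
    obtain ⟨Y, hY⟩ := exists_tok h hy
    obtain ⟨a', b', hab⟩ := hv i
    set Z : Par ι → ℤ := (p : ℤ) • Y + sm t m a' b' V with hZ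
    have hZt : (EK' * (1 : Matrix ι ι K).updateCol i x) *ᵥ v = (p : K)⁻¹ • tok ω Z := by
      have h1 : tok ω ((p : ℤ) • Y) = (p : K) • tok ω Y := by
        rw [← sm_zero_right t m, tok_sm h]
        push_cast
        rw [zero_mul, add_zero]
      rw [← mulVec_mulVec, updateCol_one_mulVec, mulVec_add, mulVec_smul, hx, mulVec_smul,
        mulVec_mulVec, hEE, one_mulVec, hZ, tok_add, h1, tok_sm h, hY, ← hab, smul_add,
        smul_smul, smul_smul, smul_smul, inv_mul_cancel₀ hp0, one_smul, mul_comm]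
    have hdiv : (p : ℤ) ^ 2 ∣ qf t m c Z := by
      rw [hZ, qf_add, qf_smul, bf_smul_left, qf_sm, bf_symm, bf_sm]
      obtain ⟨n1, hn1⟩ := hq
      obtain ⟨n2, hn2⟩ := hr (sm t m (a' + (t : ℤ) * b') (-b') Y)
      simp only [Int.cast_id] at *
      rw [hn1, hn2]
      exact ⟨qf t m c Y + (a' ^ 2 + t * a' * b' + m * b' ^ 2) * n1 + n2, by ring⟩
    obtain ⟨n, hn⟩ := hdiv
    refine ⟨n, ?_⟩
    rw [herm_Fm, map_one, one_mul, hZt, herm_smul, ← qf_eq hK h hc, hn, map_inv₀, map_natCast]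
    push_cast
    field_simp

include hσ hc in
/-- Improvement at a ramified prime. -/
theorem improve2 {p : ℕ} (hp : p.Prime) {x₀ q : ℤ} (h2 : (p : ℤ) ∣ 2 * x₀ + t)
    (hq : x₀ ^ 2 + t * x₀ + m = p * q) (hpq : ¬ (p : ℤ) ∣ q) (u : ι → ℤ) {k : ι}
    (hk : ¬ (p : ℤ) ∣ u k) (hr : ∀ w, (p : ℤ) ∣ bf t m c (sm t m x₀ 1 (rl u)) w)
    (hqu : (p : ℤ) ∣ qf t m c (rl u)) :
    ∃ (g' : Matrix ι ι K) (e : ℤ), g'.det ≠ 0 ∧ IntF h σ (Fm σ M g' (1 / p)) ∧ ¬ (p : ℤ) ∣ e ∧
      (p : K) * (g'.det * σ g'.det) = (p : K) ^ Fintype.card ι * e := by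
  have : CharZero K := algebraRat.charZero K
  have hp0 : (p : K) ≠ 0 := by exact_mod_cast hp.ne_zero
  have hpr : Prime (p : ℤ) := Nat.prime_iff_prime_int.1 hp
  have hcard : Fintype.card ι = (Fintype.card ι - 1) + 1 := by
    have : 0 < Fintype.card ι := Fintype.card_pos_iff.2 ⟨k⟩
    omega
  set π : K := x₀ + ω with hπ
  set d : ι → K := fun b => if b = k then 1 else π with hd
  set g' : Matrix ι ι K := (1 : Matrix ι ι K).updateCol k (fun i => (u i : K)) * diagonal d
    with hg'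
  have hdet : g'.det = u k * π ^ (Fintype.card ι - 1) := by
    rw [hg', det_mul, det_updateCol_one, det_diagonal]
    congr 1
    rw [← Finset.mul_prod_erase Finset.univ d (Finset.mem_univ k)]
    have h1 : ∏ b ∈ Finset.univ.erase k, d b = ∏ b ∈ Finset.univ.erase k, π := by
      refine Finset.prod_congr rfl fun b hb => ?_
      simp only [hd, if_neg (Finset.ne_of_mem_erase hb)]
    rw [h1, Finset.prod_const, Finset.card_erase_of_mem (Finset.mem_univ k), Finset.card_univ]
    simp only [hd, if_pos, one_mul]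
  have hππ : π * σ π = p * q := by
    rw [hπ, map_add, map_intCast, sigma_gen hK h hσ]
    have h3 : ((x₀ ^ 2 + t * x₀ + m : ℤ) : K) = ((p * q : ℤ) : K) := by rw [hq]
    push_cast at h3
    linear_combination h3 - h.eq
  have hprod : (p : K) * (g'.det * σ g'.det) = (p : K) ^ Fintype.card ι *
      ((u k ^ 2 * q ^ (Fintype.card ι - 1) : ℤ) : K) := by
    have hpp : (p : K) ^ Fintype.card ι = (p : K) ^ (Fintype.card ι - 1) * p := by
      conv_lhs => rw [hcard]
      rw [pow_succ]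
    rw [hdet, map_mul, map_intCast, map_pow, hpp]
    have h3 : (u k : K) * π ^ (Fintype.card ι - 1) * (u k * σ π ^ (Fintype.card ι - 1)) =
        (u k : K) ^ 2 * (π * σ π) ^ (Fintype.card ι - 1) := by
      rw [mul_pow]; ring
    rw [h3, hππ, mul_pow]
    push_cast
    ring
  have he : ¬ (p : ℤ) ∣ u k ^ 2 * q ^ (Fintype.card ι - 1) := by
    intro h3
    rcases hpr.dvd_or_dvd h3 with h4 | h4
    · exact hk (hpr.dvd_of_dvd_pow h4)
    · exact hpq (hpr.dvd_of_dvd_pow h4)
  refine ⟨g', u k ^ 2 * q ^ (Fintype.card ι - 1), ?_, ?_, he, hprod⟩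
  · intro h0
    rw [h0, zero_mul, mul_zero] at hprod
    apply he
    have h3 : ((u k ^ 2 * q ^ (Fintype.card ι - 1) : ℤ) : K) = 0 :=
      (mul_eq_zero.1 hprod.symm).resolve_left (pow_ne_zero _ hp0)
    have h4 : (u k ^ 2 * q ^ (Fintype.card ι - 1) : ℤ) = 0 := by exact_mod_cast h3
    rw [h4]
    exact dvd_zero _
  · intro v hv
    have hy : ∀ l, (v - Pi.single k (v k) : ι → K) l ∈ O h := fun l =>
      (O h).sub_mem (hv l) (single_mem h (hv k) k l)
    obtain ⟨Y, hY⟩ := exists_tok h hy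
    obtain ⟨a', b', hab⟩ := hv k
    set Z : Par ι → ℤ := sm t m a' b' (rl u) + sm t m x₀ 1 Y with hZ
    have hZt : g' *ᵥ v = tok ω Z := by
      have h1 : tok ω (rl u : Par ι → ℤ) = fun i => (u i : K) := by
        funext i
        simp [tok, rl_inl, rl_inr]
      have h3 : (diagonal d *ᵥ v) k = v k := by
        rw [mulVec_diagonal]
        simp [hd]
      have h4 : diagonal d *ᵥ v - Pi.single k ((diagonal d *ᵥ v) k) =
          π • (v - Pi.single k (v k)) := by
        rw [h3]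
        funext l
        simp only [Pi.sub_apply, Pi.smul_apply, smul_eq_mul, mulVec_diagonal]
        by_cases hl : l = k
        · subst hl
          simp [hd]
        · rw [Pi.single_eq_of_ne hl]
          simp [hd, hl]
      rw [hg', ← mulVec_mulVec, updateCol_one_mulVec, h4, h3, hZ, tok_add, tok_sm h, tok_sm h,
        h1, hY, ← hab, hπ]
      push_cast
      rw [one_mul, add_comm]
    have hdiv : (p : ℤ) ∣ qf t m c Z := by
      have hS : ∀ S : Par ι → ℤ, sm t m (x₀ + (t : ℤ) * 1) (-1) S =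
          (2 * x₀ + t) • S + (-1 : ℤ) • sm t m x₀ 1 S := by
        intro S
        funext l
        rcases l with l | l
        · simp only [sm_inl, Pi.add_apply, Pi.smul_apply, smul_eq_mul, Int.cast_id]
          ring
        · simp only [sm_inr, Pi.add_apply, Pi.smul_apply, smul_eq_mul, Int.cast_id]
          ring
      have hcomm : sm t m x₀ 1 (sm t m a' b' (rl u)) = sm t m a' b' (sm t m x₀ 1 (rl u)) := by
        rw [sm_sm, sm_sm]
        congr 1
        · ring
        · ring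
      have e1 := bf_sm_right t m c x₀ 1 (sm t m a' b' (rl u)) Y
      simp only [Int.cast_id] at e1
      rw [hZ, qf_add, qf_sm, qf_sm, e1, hS, bf_add_left, bf_smul_left, bf_smul_left, hcomm,
        bf_sm t m c a' b' (sm t m x₀ 1 (rl u))]
      simp only [Int.cast_id]
      have h5 : x₀ ^ 2 + t * x₀ * 1 + m * 1 ^ 2 = p * q := by rw [← hq]; ring
      rw [h5]
      obtain ⟨n1, hn1⟩ := hqu
      obtain ⟨n2, hn2⟩ := h2
      obtain ⟨n3, hn3⟩ := hr (sm t m (a' + t * b') (-b') Y)
      rw [hn1, hn2, hn3]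
      generalize bf t m c (sm t m a' b' (rl u)) Y = z1
      generalize qf t m c Y = z2
      exact ⟨(a' ^ 2 + t * a' * b' + m * b' ^ 2) * n1 + q * z2 + (n2 * z1 - n3), by ring⟩
    obtain ⟨n, hn⟩ := hdiv
    refine ⟨n, ?_⟩
    rw [herm_Fm, hZt, ← qf_eq hK h hc, hn, map_div₀, map_one, map_natCast]
    push_cast
    field_simp

end Improve

/-- comparing valuations -/
theorem val_lt {p : ℕ} (hp : p.Prime) {D D' e : ℤ} {k : ℕ} (hk : 1 ≤ k) (hD : D ≠ 0)
    (he : ¬ (p : ℤ) ∣ e) (h : D * e = p ^ k * D') : padicValInt p D' < padicValInt p D := by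
  have : Fact p.Prime := ⟨hp⟩
  have he0 : e ≠ 0 := fun h0 => he (by rw [h0]; exact dvd_zero _)
  have hp0 : (p : ℤ) ^ k ≠ 0 := pow_ne_zero _ (by exact_mod_cast hp.ne_zero)
  have hD' : D' ≠ 0 := by
    rintro rfl
    rw [mul_zero] at h
    exact (mul_ne_zero hD he0) h
  have h1 := congrArg (padicValInt p) h
  rw [padicValInt.mul hD he0, padicValInt.mul hp0 hD', padicValInt.eq_zero_of_not_dvd he] at h1
  have h2 : padicValInt p ((p : ℤ) ^ k) = k := by
    rw [padicValInt, Int.natAbs_pow, Int.natAbs_natCast, padicValNat.prime_pow]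
  omega

end MinAux

open MinAux

/-- At each prime there is a minimal lattice. -/
theorem exists_local [DecidableEq ι] [Nonempty ι] (hK : Module.finrank ℚ K = 2) {ω : K} (h : IsGen K t m ω)
    (hnice : Nice (gpol t m)) (σ : K ≃ₐ[ℚ] K) (hσ : σ ≠ 1) (M : Matrix ι ι K)
    (hM : ∀ i k, M k i = σ (M i k)) (hdet : M.det ≠ 0) {p : ℕ} (hp : p.Prime) :
    ∃ (g : Matrix ι ι K) (r : ℚ) (c : Idx ι → ℤ) (a₀ : ℤ), g.det ≠ 0 ∧ r ≠ 0 ∧
      (∀ v : ι → K, algebraMap ℚ K (∑ s, (c s : ℚ) * fn hK h s v) =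
        algebraMap ℚ K r * herm σ M (g *ᵥ v)) ∧ LocGood t m c p a₀ := by
  have hchar : CharZero K := algebraRat.charZero K
  have hp0 : (p : K) ≠ 0 := by exact_mod_cast hp.ne_zero
  have hs := sigma_sigma hK h hσ
  have hdisc : ((t : K) ^ 2 - 4 * m) ≠ 0 := by
    have := h.disc_ne
    exact_mod_cast this
  set N := Fintype.card ι with hN
  have hN1 : 1 ≤ N := Fintype.card_pos
  -- admissible data
  let Good : Matrix ι ι K → ℚ → ℤ → Prop := fun g r D => g.det ≠ 0 ∧ r ≠ 0 ∧
    IntF h σ (Fm σ M g r) ∧ (D : K) = ((t : K) ^ 2 - 4 * m) ^ N * (Fm σ M g r).det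
  have hGood0 : ∀ g r D, Good g r D → D ≠ 0 := by
    rintro g r D ⟨h1, h2, _, h4⟩ h0
    rw [h0, det_Fm, Int.cast_zero] at h4
    have h5 : σ g.det ≠ 0 := by
      intro h6
      exact h1 ((map_eq_zero_iff σ σ.injective).1 h6)
    have h6 : algebraMap ℚ K r ≠ 0 := by
      rw [Ne, FaithfulSMul.algebraMap_eq_zero_iff]
      exact h2
    exact (mul_ne_zero (pow_ne_zero _ hdisc) (mul_ne_zero (pow_ne_zero _ h6)
      (mul_ne_zero (mul_ne_zero h1 h5) hdet))) h4.symm
  have hMg : ∀ g r i k, (Fm σ M g r) k i = σ (Fm σ M g r i k) := fun g r =>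
    Fm_hermitian hs hM g r
  have hex1 : ∃ n : ℕ, ∃ g r D, Good g r D ∧ padicValInt p D = n := by
    obtain ⟨d, hd, hd2⟩ := exists_int hK h hσ hM
    obtain ⟨D, hD⟩ := hd2.det hK h hσ (hMg 1 d)
    exact ⟨_, 1, d, D, ⟨by simp, by exact_mod_cast hd, hd2, hD⟩, rfl⟩
  classical
  have hex2 : ∃ n : ℕ, ∃ g r D, Good g r D ∧ padicValInt p D = Nat.find hex1 ∧ D.natAbs = n := by
    obtain ⟨g, r, D, h1, h2⟩ := Nat.find_spec hex1
    exact ⟨_, g, r, D, h1, h2, rfl⟩
  obtain ⟨g, r, D, hG, hv1, hv2⟩ := Nat.find_spec hex2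
  have hD0 := hGood0 g r D hG
  have hmin1 : ∀ g' r' D', Good g' r' D' → ¬ padicValInt p D' < padicValInt p D := by
    intro g' r' D' hG' hlt
    rw [hv1] at hlt
    exact Nat.find_min hex1 hlt ⟨g', r', D', hG', rfl⟩
  have hmin2 : ∀ g' r' D', Good g' r' D' → padicValInt p D' = padicValInt p D →
      ¬ D'.natAbs < D.natAbs := by
    intro g' r' D' hG' heq hlt
    rw [hv2] at hlt
    exact Nat.find_min hex2 hlt ⟨g', r', D', hG', by rw [heq, hv1], rfl⟩
  obtain ⟨hg, hr, hI, hDeq⟩ := hG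
  set M' := Fm σ M g r with hM'
  have hM'h : ∀ i k, M' k i = σ (M' i k) := hMg g r
  have hM'det : M'.det ≠ 0 := by
    intro h0
    rw [h0, mul_zero] at hDeq
    exact hD0 (by exact_mod_cast hDeq)
  obtain ⟨c, hc⟩ := hI.exists_coeff hK h hσ hM'h
  obtain ⟨a₀, ha1, ha2, ha3⟩ := exists_a0 hK h hσ hM'h hc hM'det hp
  -- passing to a new lattice
  have hnew : ∀ (g' : Matrix ι ι K) (r' : ℚ), g'.det ≠ 0 → r' ≠ 0 → IntF h σ (Fm σ M' g' r') →
      ∃ D' : ℤ, Good (g * g') (r * r') D' ∧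
        (D' : K) = D * (algebraMap ℚ K r' ^ N * (g'.det * σ g'.det)) := by
    intro g' r' hg' hr' hI'
    rw [hM', Fm_Fm] at hI'
    obtain ⟨D', hD'⟩ := hI'.det hK h hσ (hMg _ _)
    refine ⟨D', ⟨by rw [det_mul]; exact mul_ne_zero hg hg', mul_ne_zero hr hr', hI', hD'⟩, ?_⟩
    rw [hD', hDeq, ← Fm_Fm, det_Fm]
    ring
  refine ⟨g, r, c, a₀, hg, hr, fun v => by rw [hc, hM', herm_Fm], ?_⟩
  refine ⟨hp, ha1, ha2, ha3, ?_, ?_, ?_⟩
  · intro V hV hrad hq
    obtain ⟨g', e, h1, h2, h3, h4⟩ := improve1 hK h hσ hc hp V hV hrad hq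
    obtain ⟨D', hG', hD'⟩ := hnew g' 1 h1 one_ne_zero h2
    refine hmin1 _ _ _ hG' (val_lt hp (k := 2) (by norm_num) hD0 h3 ?_)
    have h5 : ((D * e : ℤ) : K) = ((p ^ 2 * D' : ℤ) : K) := by
      push_cast
      rw [hD', ← h4, map_one, one_pow]
      ring
    exact_mod_cast h5
  · intro x₀ hx1 hx2 u ⟨k, hk⟩ hrad hqu
    obtain ⟨q, hq⟩ := hx1
    have hpq : ¬ (p : ℤ) ∣ q := by
      rintro ⟨q', rfl⟩
      refine hnice.nosq p hp x₀ ?_ ?_
      · have e : (gpol t m).eval x₀ = x₀ ^ 2 + t * x₀ + m := by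
          rw [gpol]
          simp
        rw [e, hq]
        exact ⟨q', by ring⟩
      · have e : (Polynomial.derivative (gpol t m)).eval x₀ = 2 * x₀ + t := by
          rw [gpol]
          simp
        rw [e]
        exact hx2
    obtain ⟨g', e, h1, h2, h3, h4⟩ := improve2 hK h hσ hc hp hx2 hq hpq u hk hrad hqu
    have hpq0 : (1 / (p : ℚ)) ≠ 0 := by
      have : (p : ℚ) ≠ 0 := by exact_mod_cast hp.ne_zero
      positivity
    obtain ⟨D', hG', hD'⟩ := hnew g' (1 / p) h1 hpq0 h2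
    refine hmin1 _ _ _ hG' (val_lt hp (k := 1) le_rfl hD0 h3 ?_)
    have h5 : ((D * e : ℤ) : K) = ((p ^ 1 * D' : ℤ) : K) := by
      have h6 : (1 / (p : K)) ^ N * (p : K) ^ N = 1 := by
        rw [← mul_pow, one_div_mul_cancel hp0, one_pow]
      push_cast
      rw [hD', map_div₀, map_one, map_natCast]
      linear_combination (-(D : K) * (1 / (p : K)) ^ N) * h4 - (D : K) * e * h6
    exact_mod_cast h5
  · intro ℓ hℓ
    by_contra hcon
    push Not at hcon
    have hℓ0 : (ℓ : K) ≠ 0 := by exact_mod_cast hℓ.ne_zero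
    have hI' : IntF h σ (Fm σ M' 1 (1 / ℓ)) := by
      intro v hv
      obtain ⟨V, hV⟩ := exists_tok h hv
      obtain ⟨n, hn⟩ := hcon V
      refine ⟨n, ?_⟩
      rw [herm_Fm, one_mulVec, ← hV, ← qf_eq hK h hc, hn, map_div₀, map_one, map_natCast]
      push_cast
      field_simp
    have hℓq : (1 / (ℓ : ℚ)) ≠ 0 := by
      have : (ℓ : ℚ) ≠ 0 := by exact_mod_cast hℓ.ne_zero
      positivity
    obtain ⟨D', hG', hD'⟩ := hnew 1 (1 / ℓ) (by simp) hℓq hI'
    have h5 : D = ℓ ^ N * D' := by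
      have h6 : (D : K) = ((ℓ ^ N * D' : ℤ) : K) := by
        push_cast
        rw [hD', map_div₀, map_one, map_natCast, div_pow, one_pow, det_one, map_one]
        field_simp
      exact_mod_cast h6
    by_cases hℓp : ℓ = p
    · subst hℓp
      refine hmin1 _ _ _ hG' (val_lt hp (k := N) (e := 1) hN1 hD0 ?_ ?_)
      · intro h6
        have := Int.isUnit_iff.1 (isUnit_of_dvd_one h6)
        have h7 := hp.one_lt
        omega
      · rw [mul_one]
        exact h5
    · have : Fact p.Prime := ⟨hp⟩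
      have hD'0 := hGood0 _ _ _ hG'
      have hℓN : ((ℓ : ℤ) ^ N) ≠ 0 := pow_ne_zero _ (by exact_mod_cast hℓ.ne_zero)
      refine hmin2 _ _ _ hG' ?_ ?_
      · conv_rhs => rw [h5]
        rw [padicValInt.mul hℓN hD'0]
        have h6 : padicValInt p ((ℓ : ℤ) ^ N) = 0 := by
          apply padicValInt.eq_zero_of_not_dvd
          intro h7
          have h8 := (Nat.prime_iff_prime_int.1 hp).dvd_of_dvd_pow h7
          have h9 : p ∣ ℓ := by exact_mod_cast h8
          exact hℓp ((Nat.prime_dvd_prime_iff_eq hp hℓ).1 h9).symm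
        rw [h6, zero_add]
      · conv_rhs => rw [h5]
        rw [Int.natAbs_mul, Int.natAbs_pow, Int.natAbs_natCast]
        have h6 : 0 < D'.natAbs := Int.natAbs_pos.2 hD'0
        have h7 : 1 < ℓ ^ N := Nat.one_lt_pow (by omega) hℓ.one_lt
        nlinarith

end Herm

end Pool.MP_602153_ag
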