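import Mathlib
import Pool.Agent.HermVar.Dom
import Pool.Agent.HermVar.Gram
import Pool.Agent.HermVar.Min

set_option autoImplicit false

/-!
# The homogeneous coordinate ring as a ring of polynomial functions
-/

namespace Pool.MP_602153_ag

namespace Herm

open WeilQuad MvPolynomial Matrix

variable {ι K : Type} [Fintype ι] [Field K] [Algebra ℚ K] (hK : Module.finrank ℚ K = 2)
  {t m : ℤ} {ω : K} (h : IsGen K t m ω)

omit [Fintype ι] in
theorem fn_eq_gv (s : Idx ι) (v : ι → K) : fn hK h s v = gv t m (coord hK h v) s := by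
  rcases s with ⟨i, j⟩ | ⟨i, j⟩
  · rw [fn_inl, gv_inl]
    rfl
  · rw [fn_inr, gv_inr]
    rfl

/-- The coordinates as polynomials over `ℚ`. -/
noncomputable def genQ (t m : ℤ) (s : Idx ι) : MvPolynomial (Par ι) ℚ :=
  gen t m (fun i => X (Sum.inl i)) (fun i => X (Sum.inr i)) s

omit [Fintype ι] in
theorem genQ_eq (s : Idx ι) : genQ t m s = gv t m (X : Par ι → MvPolynomial (Par ι) ℚ) s := rfl

omit [Fintype ι] in
theorem map_phi_X (s : Idx ι) : map (algebraMap ℤ ℚ) (phi t m (X s)) = genQ t m s := by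
  rcases s with ⟨i, j⟩ | ⟨i, j⟩
  · have h1 := phi_px t m i j
    rw [px] at h1
    rw [h1, genQ_eq, gv_inl]
    simp [pa, pb]
  · have h1 := phi_py t m i j
    rw [py] at h1
    rw [h1, genQ_eq, gv_inr]
    simp [pa, pb]

/-- Polynomials as functions. -/
noncomputable def ev : MvPolynomial (Par ι) ℚ →ₐ[ℚ] ((ι → K) → ℚ) :=
  AlgHom.pi (fun v => aeval (coord hK h v))

omit [Fintype ι] in
theorem ev_apply (f : MvPolynomial (Par ι) ℚ) (v : ι → K) :
    ev hK h f v = aeval (coord hK h v) f := rfl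

omit [Fintype ι] in
theorem ev_injective : Function.Injective (ev (ι := ι) hK h) := by
  rw [injective_iff_map_eq_zero]
  intro f hf
  apply MvPolynomial.funext
  intro x
  obtain ⟨v, rfl⟩ := coord_surjective (ι := ι) hK h x
  have h1 : aeval (coord hK h v) f = 0 := congrFun hf v
  rw [map_zero, ← coe_aeval_eq_eval]
  exact h1

omit [Fintype ι] in
theorem ev_genQ (s : Idx ι) : ev hK h (genQ t m s) = fn hK h s := by
  funext v
  rw [ev_apply, fn_eq_gv, genQ_eq]
  have := map_gv t m ((aeval (coord hK h v) : MvPolynomial (Par ι) ℚ →ₐ[ℚ] ℚ) :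
    MvPolynomial (Par ι) ℚ →+* ℚ) X s
  change _ = _ at this
  simp only [RingHom.coe_coe, aeval_X] at this
  exact this

/-- Precomposition with a linear map preserves the degree one part. -/
theorem fn_comp_mem (g : Matrix ι ι K) (s : Idx ι) :
    (fun v : ι → K => fn hK h s (g *ᵥ v)) ∈ Submodule.span ℚ (Set.range (fn (ι := ι) hK h)) := by
  rw [← span_eq hK h]
  have h1 := fn_mem hK h s
  let L : ((ι → K) → ℚ) →ₗ[ℚ] ((ι → K) → ℚ) :=
    { toFun := fun f v => f (g *ᵥ v)
      map_add' := fun _ _ => rfl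
      map_smul' := fun _ _ => rfl }
  have h2 : Submodule.span ℚ (Set.range (normFn : (ι → K) → (ι → K) → ℚ)) ≤
      (Submodule.span ℚ (Set.range (normFn : (ι → K) → (ι → K) → ℚ))).comap L := by
    rw [Submodule.span_le]
    rintro _ ⟨u, rfl⟩
    refine Submodule.subset_span ⟨gᵀ *ᵥ u, ?_⟩
    funext v
    change normFn (gᵀ *ᵥ u) v = normFn u (g *ᵥ v)
    rw [normFn, normFn]
    congr 1
    change (gᵀ *ᵥ u) ⬝ᵥ v = u ⬝ᵥ (g *ᵥ v)
    rw [Matrix.mulVec_transpose, Matrix.dotProduct_mulVec]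
  exact h2 h1

section Ring

variable {B : Type} [CommRing B] [Algebra ℚ B] {ℬ : ℕ → Submodule ℚ B} [GradedAlgebra ℬ]
  (j : B →ₐ[ℚ] ((ι → K) → ℚ)) (hj : Function.Injective j)
  (hgen : Algebra.adjoin ℚ (ℬ 1 : Set B) = ⊤)
  (hspan : Submodule.map j.toLinearMap (ℬ 1) = Submodule.span ℚ (Set.range (fn (ι := ι) hK h)))

include hj hgen hspan in
/-- The coordinate ring is the algebra `AQ`. -/
theorem exists_rho : ∃ ρ : B →ₐ[ℚ] MvPolynomial (Par ι) ℚ, (∀ b, ev hK h (ρ b) = j b) ∧
    Function.Injective ρ ∧ ρ.range = AQ t m ι := by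
  have hle : ∀ b, j b ∈ (ev (ι := ι) hK h).range := by
    have h1 : (⊤ : Subalgebra ℚ B) ≤ (ev (ι := ι) hK h).range.comap j := by
      rw [← hgen, Algebra.adjoin_le_iff]
      intro b hb
      have h2 : j b ∈ Submodule.map j.toLinearMap (ℬ 1) := ⟨b, hb, rfl⟩
      rw [hspan] at h2
      have h3 : Submodule.span ℚ (Set.range (fn (ι := ι) hK h)) ≤
          Subalgebra.toSubmodule (ev (ι := ι) hK h).range := by
        rw [Submodule.span_le]
        rintro _ ⟨s, rfl⟩
        exact ⟨genQ t m s, ev_genQ hK h s⟩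
      exact h3 h2
    intro b
    exact h1 (Algebra.mem_top : b ∈ (⊤ : Subalgebra ℚ B))
  let e := AlgEquiv.ofInjective (ev (ι := ι) hK h) (ev_injective hK h)
  let ρ : B →ₐ[ℚ] MvPolynomial (Par ι) ℚ := (e.symm : _ →ₐ[ℚ] _).comp (j.codRestrict _ hle)
  have hρ : ∀ b, ev hK h (ρ b) = j b := by
    intro b
    have h1 : e (ρ b) = j.codRestrict _ hle b := by
      change e (e.symm _) = _
      rw [AlgEquiv.apply_symm_apply]
      rfl
    exact congrArg Subtype.val h1
  refine ⟨ρ, hρ, ?_, ?_⟩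
  · intro a b hab
    apply hj
    rw [← hρ, ← hρ, hab]
  · have h1 : ρ.range = Algebra.adjoin ℚ (ρ '' (ℬ 1 : Set B)) := by
      rw [← AlgHom.map_adjoin, hgen, Algebra.map_top]
    have h2 : (ρ '' (ℬ 1 : Set B)) =
        (Submodule.span ℚ (Set.range (genQ (ι := ι) t m)) : Set (MvPolynomial (Par ι) ℚ)) := by
      have h3 : Submodule.map ρ.toLinearMap (ℬ 1) =
          Submodule.span ℚ (Set.range (genQ (ι := ι) t m)) := by
        apply Submodule.map_injective_of_injective (f := (ev (ι := ι) hK h).toLinearMap)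
          (ev_injective hK h)
        rw [← Submodule.map_comp]
        have h4 : (ev (ι := ι) hK h).toLinearMap.comp ρ.toLinearMap = j.toLinearMap := by
          apply LinearMap.ext
          intro b
          exact hρ b
        rw [h4, hspan, Submodule.map_span, ← Set.range_comp]
        congr 2
        funext s
        exact (ev_genQ hK h s).symm
      rw [← h3]
      rfl
    rw [h1, h2, Algebra.adjoin_span]
    rfl

end Ring

end Herm

end Pool.MP_602153_ag
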