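import Mathlib
import Pool.Agent.HermVar.Func
import Pool.Agent.HermVar.ChartEq

set_option autoImplicit false

/-!
# The homogeneous coordinate ring of a Hermitian variety
-/

namespace Pool.MP_602153_ag

namespace Herm

open WeilQuad MvPolynomial Matrix

variable {ι K : Type} [Fintype ι] [DecidableEq ι] [Field K] [Algebra ℚ K]
  (hK : Module.finrank ℚ K = 2) {t m : ℤ} {ω : K} (h : IsGen K t m ω)

/-- The data of a Hermitian lattice for a form given as a function `η`. -/
structure LatData (η : (ι → K) → ℚ) (g : Matrix ι ι K) (r : ℚ) (c : Idx ι → ℤ) : Prop where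
  det : g.det ≠ 0
  r_ne : r ≠ 0
  eq : ∀ v : ι → K, ∑ s, (c s : ℚ) * fn hK h s v = r * η (g *ᵥ v)

variable {hK h}

theorem mulVec_inv {g : Matrix ι ι K} (hg : g.det ≠ 0) (v : ι → K) :
    g *ᵥ (g⁻¹ *ᵥ v) = v := by
  rw [Matrix.mulVec_mulVec, Matrix.mul_nonsing_inv _ (isUnit_iff_ne_zero.2 hg), Matrix.one_mulVec]

theorem inv_mulVec {g : Matrix ι ι K} (hg : g.det ≠ 0) (v : ι → K) :
    g⁻¹ *ᵥ (g *ᵥ v) = v := by
  rw [Matrix.mulVec_mulVec, Matrix.nonsing_inv_mul _ (isUnit_iff_ne_zero.2 hg), Matrix.one_mulVec]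

/-- The form as a combination of the coordinate functions. -/
theorem LatData.exists_coeff {η : (ι → K) → ℚ} {g : Matrix ι ι K} {r : ℚ} {c : Idx ι → ℤ}
    (hd : LatData hK h η g r c) :
    ∃ c₀ : Idx ι → ℚ, η = ∑ s, c₀ s • fn hK h s := by
  have h1 : η ∈ Submodule.span ℚ (Set.range (fn (ι := ι) hK h)) := by
    have h2 : η = r⁻¹ • ∑ s, (c s : ℚ) • (fun v : ι → K => fn hK h s (g⁻¹ *ᵥ v)) := by
      funext v
      have h3 := hd.eq (g⁻¹ *ᵥ v)
      rw [mulVec_inv hd.det] at h3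
      simp only [Pi.smul_apply, Finset.sum_apply, smul_eq_mul]
      rw [h3, inv_mul_cancel_left₀ hd.r_ne]
    rw [h2]
    refine Submodule.smul_mem _ _ (Submodule.sum_mem _ fun s _ => Submodule.smul_mem _ _ ?_)
    exact fn_comp_mem hK h g⁻¹ s
  obtain ⟨c₀, hc₀⟩ := (Submodule.mem_span_range_iff_exists_fun ℚ).1 h1
  exact ⟨c₀, hc₀.symm⟩

/-- The polynomial of the form is prime. -/
theorem LatData.prime {η : (ι → K) → ℚ} {g : Matrix ι ι K} {r : ℚ} {c : Idx ι → ℤ}
    (hd : LatData hK h η g r c) (hι : 2 ≤ Fintype.card ι)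
    (hnd : ∀ v : Par ι → ℤ, (∀ w, bf t m c v w = 0) → v = 0) {c₀ : Idx ι → ℚ}
    (hc₀ : η = ∑ s, c₀ s • fn hK h s) : Prime (qpolQ t m c₀) := by
  apply qpolQ_prime hι
  intro v hv
  -- nondegeneracy of the integral form over `ℚ`
  have hndQ : ∀ v : Par ι → ℚ, (∀ w, bf t m c v w = 0) → v = 0 := by
    intro v hv
    refine rad_eq_zero t m c 0 (Or.inl rfl) ?_ v hv
    intro u hu k
    have : u = 0 := hnd u (fun w => by simpa using hu w)
    rw [this]
    exact dvd_zero _
  -- the polar form of `η`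
  have hpol0 : ∀ v w : ι → K, η (v + w) - η v - η w =
      ∑ s, c₀ s * pgv t m (coord hK h v) (coord hK h w) s := by
    intro v w
    have hadd : coord hK h (v + w) = coord hK h v + coord hK h w := by
      funext k
      rcases k with k | k
      · exact re_add hK h _ _
      · exact im_add hK h _ _
    rw [hc₀]
    simp only [Finset.sum_apply, Pi.smul_apply, smul_eq_mul, fn_eq_gv, hadd, gv_add]
    rw [← Finset.sum_sub_distrib, ← Finset.sum_sub_distrib]
    exact Finset.sum_congr rfl fun s _ => by ring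
  have hpol1 : ∀ v w : ι → K, r * (η (g *ᵥ (v + w)) - η (g *ᵥ v) - η (g *ᵥ w)) =
      bf t m c (coord hK h v) (coord hK h w) := by
    intro v w
    have hadd : coord hK h (v + w) = coord hK h v + coord hK h w := by
      funext k
      rcases k with k | k
      · exact re_add hK h _ _
      · exact im_add hK h _ _
    rw [mul_sub, mul_sub, ← hd.eq, ← hd.eq, ← hd.eq, bf]
    simp only [fn_eq_gv, hadd, gv_add]
    rw [← Finset.sum_sub_distrib, ← Finset.sum_sub_distrib]
    exact Finset.sum_congr rfl fun s _ => by ring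
  obtain ⟨x, rfl⟩ := coord_surjective (ι := ι) hK h v
  have h1 : coord hK h (g⁻¹ *ᵥ x) = 0 := by
    apply hndQ
    intro w
    obtain ⟨y, rfl⟩ := coord_surjective (ι := ι) hK h w
    rw [← hpol1, Matrix.mulVec_add, mulVec_inv hd.det, hpol0, hv, mul_zero]
  have h2 : g⁻¹ *ᵥ x = 0 := by
    funext k
    have e1 := congrFun h1 (.inl k)
    have e2 := congrFun h1 (.inr k)
    have e3 := eq_re_im hK h ((g⁻¹ *ᵥ x) k)
    change re hK h ((g⁻¹ *ᵥ x) k) = 0 at e1
    change im hK h ((g⁻¹ *ᵥ x) k) = 0 at e2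
    rw [e1, e2, map_zero, zero_mul, add_zero] at e3
    exact e3
  have h3 : x = 0 := by
    rw [← mulVec_inv hd.det x, h2, Matrix.mulVec_zero]
  rw [h3]
  funext k
  rcases k with k | k
  · change re hK h 0 = 0
    simp [re]
  · change im hK h 0 = 0
    simp [im]

section Gauss

omit [Fintype ι] [DecidableEq ι] in
theorem phi_X_eq (s : Idx ι) : phi t m (X s) = gv t m (X : Par ι → MvPolynomial (Par ι) ℤ) s := by
  rw [phi, aeval_X]
  rfl

omit [DecidableEq ι] in
theorem eval_phi_Hc (c : Idx ι → ℤ) (v : Par ι → ℤ) :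
    eval v (phi t m (Hc c)) = qf t m c v := by
  rw [Hc, map_sum, map_sum, qf]
  refine Finset.sum_congr rfl fun s _ => ?_
  rw [map_mul, map_mul, map_intCast, map_intCast, phi_X_eq, map_gv]
  simp

/-- Gauss: a primitive polynomial dividing over the rationals divides over the integers. -/
theorem gauss {τ : Type} {q : MvPolynomial τ ℤ}
    (hq : ∀ ℓ : ℕ, ℓ.Prime → ¬ (C (ℓ : ℤ) : MvPolynomial τ ℤ) ∣ q) :
    ∀ (n : ℕ) (N : ℤ), N.natAbs = n → N ≠ 0 → ∀ f D : MvPolynomial τ ℤ, C N * f = q * D →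
      q ∣ f := by
  intro n
  induction n using Nat.strong_induction_on with
  | _ n ih =>
    intro N hN hN0 f D hfD
    by_cases h1 : n = 1
    · have hu : IsUnit N := Int.isUnit_iff_natAbs_eq.2 (by rw [hN, h1])
      obtain ⟨u, hu⟩ := hu.exists_left_inv
      refine ⟨C u * D, ?_⟩
      have h2 : C u * (C N * f) = C u * (q * D) := by rw [hfD]
      rw [← mul_assoc, ← C_mul, hu, C_1, one_mul] at h2
      rw [h2]
      ring
    · obtain ⟨ℓ, hℓ, hℓn⟩ := Nat.exists_prime_and_dvd h1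
      have hℓN : (ℓ : ℤ) ∣ N := by
        rw [← Int.natCast_dvd_natCast, ← hN] at hℓn
        exact hℓn.trans (Int.natAbs_dvd.2 dvd_rfl)
      obtain ⟨N', rfl⟩ := hℓN
      have hℓ0 : (ℓ : ℤ) ≠ 0 := by exact_mod_cast hℓ.ne_zero
      have hp : Prime (C (ℓ : ℤ) : MvPolynomial τ ℤ) :=
        (prime_C_iff τ).2 (Nat.prime_iff_prime_int.1 hℓ)
      have h2 : (C (ℓ : ℤ) : MvPolynomial τ ℤ) ∣ q * D := by
        rw [← hfD, C_mul, mul_assoc]
        exact dvd_mul_right _ _
      obtain ⟨D', rfl⟩ := (hp.dvd_or_dvd h2).resolve_left (hq ℓ hℓ)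
      have h3 : C N' * f = q * D' := by
        apply mul_left_cancel₀ hp.ne_zero
        rw [C_mul] at hfD
        linear_combination hfD
      have hN'0 : N' ≠ 0 := right_ne_zero_of_mul hN0
      refine ih N'.natAbs ?_ N' rfl hN'0 f D' h3
      rw [← hN, Int.natAbs_mul, Int.natAbs_natCast]
      have := Int.natAbs_pos.2 hN'0
      have := hℓ.two_le
      nlinarith

omit [Fintype ι] [DecidableEq ι] in
theorem aeval_coord_phi (f : MvPolynomial (Idx ι) ℤ) (v : ι → K) :
    aeval (coord hK h v) (phi t m f) = aeval (fun s => fn hK h s v) f := by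
  have h1 : (((aeval (coord hK h v) : MvPolynomial (Par ι) ℤ →ₐ[ℤ] ℚ) :
      MvPolynomial (Par ι) ℤ →+* ℚ).comp
        (phi (ι := ι) t m : MvPolynomial (Idx ι) ℤ →+* MvPolynomial (Par ι) ℤ)) =
      ((aeval (fun s => fn hK h s v) : MvPolynomial (Idx ι) ℤ →ₐ[ℤ] ℚ) :
        MvPolynomial (Idx ι) ℤ →+* ℚ) := by
    apply hom_ext_of_X
    intro s
    simp [fn]
  exact RingHom.congr_fun h1 f

end Gauss

section Ring

variable {B : Type} [CommRing B] [Algebra ℚ B] {ℬ : ℕ → Submodule ℚ B} [GradedAlgebra ℬ]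
  {j : B →ₐ[ℚ] ((ι → K) → ℚ)} (hj : Function.Injective j)
  (hgen : Algebra.adjoin ℚ (ℬ 1 : Set B) = ⊤)
  (hspan : Submodule.map j.toLinearMap (ℬ 1) = Submodule.span ℚ (Set.range (fn (ι := ι) hK h)))
  {H : B} {C : Type} [CommRing C] [Algebra ℚ C] {𝒞 : ℕ → Submodule ℚ C} [GradedAlgebra 𝒞]
  {π : B →ₐ[ℚ] C} (hπ : Function.Surjective π) (hker : RingHom.ker π = Ideal.span {H})

include hj hgen hspan hπ hker in
/-- The coordinate ring of the Hermitian variety is a domain. -/
theorem isDomain_of_data {g : Matrix ι ι K} {r : ℚ} {c : Idx ι → ℤ}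
    (hd : LatData hK h (j H) g r c) (hι : 2 ≤ Fintype.card ι)
    (hnd : ∀ v : Par ι → ℤ, (∀ w, bf t m c v w = 0) → v = 0) : IsDomain C := by
  obtain ⟨ρ, hρ, hρi, hρr⟩ := exists_rho hK h j hj hgen hspan
  obtain ⟨c₀, hc₀⟩ := hd.exists_coeff
  have hρH : ρ H = qpolQ t m c₀ := by
    apply ev_injective hK h
    rw [hρ, hc₀, qpolQ, map_sum]
    refine Finset.sum_congr rfl fun s _ => ?_
    rw [map_mul, ← algebraMap_eq, AlgHom.commutes, ← Algebra.smul_def]
    congr 1
    exact (ev_genQ hK h s).symm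
  have hp : Prime (ρ H) := by
    rw [hρH]
    exact hd.prime hι hnd hc₀
  have hmem : ∀ x : B, ρ x ∈ AQ t m ι := by
    intro x
    rw [← hρr]
    exact ⟨x, rfl⟩
  have hdvd : ∀ x : B, ρ H ∣ ρ x → π x = 0 := by
    rintro x ⟨s, hs⟩
    have h1 : s ∈ AQ t m ι := by
      apply mem_AQ_of_mul h (hmem H) hp.ne_zero
      rw [← hs]
      exact hmem x
    rw [← hρr] at h1
    obtain ⟨y, hy⟩ := h1
    have hy' : ρ y = s := hy
    have h2 : x = H * y := by
      apply hρi
      rw [map_mul, hs, hy']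
    have h3 : x ∈ RingHom.ker π := by
      rw [hker, Ideal.mem_span_singleton, h2]
      exact dvd_mul_right _ _
    exact h3
  have hπ0 : ∀ x : B, π x = 0 → ρ H ∣ ρ x := by
    intro x hx
    have h1 : x ∈ RingHom.ker π := hx
    rw [hker, Ideal.mem_span_singleton] at h1
    obtain ⟨y, rfl⟩ := h1
    rw [map_mul]
    exact dvd_mul_right _ _
  have hnt : Nontrivial C := by
    refine ⟨0, 1, ?_⟩
    intro h01
    have h1 : π 1 = 0 := by rw [map_one]; exact h01.symm
    have h2 := hπ0 1 h1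
    rw [map_one] at h2
    exact hp.not_unit (isUnit_of_dvd_one h2)
  have hnzd : NoZeroDivisors C := by
    constructor
    intro a b hab
    obtain ⟨x, rfl⟩ := hπ a
    obtain ⟨y, rfl⟩ := hπ b
    rw [← map_mul] at hab
    have h1 := hπ0 _ hab
    rw [map_mul] at h1
    rcases hp.dvd_or_dvd h1 with h2 | h2
    · exact Or.inl (hdvd x h2)
    · exact Or.inr (hdvd y h2)
  exact NoZeroDivisors.to_isDomain C

omit [DecidableEq ι] in
include hj hgen hspan in
/-- Functions of elements of the coordinate ring composed with a linear map are polynomials. -/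
theorem exists_poly_comp (g : Matrix ι ι K) (d : B) :
    ∃ D : MvPolynomial (Par ι) ℚ, ∀ v, ev hK h D v = j d (g *ᵥ v) := by
  let L : ((ι → K) → ℚ) →ₐ[ℚ] ((ι → K) → ℚ) :=
    { toFun := fun f v => f (g *ᵥ v)
      map_one' := rfl
      map_mul' := fun _ _ => rfl
      map_zero' := rfl
      map_add' := fun _ _ => rfl
      commutes' := fun _ => rfl }
  have h1 : (⊤ : Subalgebra ℚ B) ≤ (ev (ι := ι) hK h).range.comap (L.comp j) := by
    rw [← hgen, Algebra.adjoin_le_iff]
    intro b hb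
    have h2 : j b ∈ Submodule.map j.toLinearMap (ℬ 1) := ⟨b, hb, rfl⟩
    rw [hspan] at h2
    have h3 : Submodule.span ℚ (Set.range (fn (ι := ι) hK h)) ≤
        (Subalgebra.toSubmodule (ev (ι := ι) hK h).range).comap L.toLinearMap := by
      rw [Submodule.span_le]
      rintro _ ⟨s, rfl⟩
      have h4 := fn_comp_mem hK h g s
      have h5 : Submodule.span ℚ (Set.range (fn (ι := ι) hK h)) ≤
          Subalgebra.toSubmodule (ev (ι := ι) hK h).range := by
        rw [Submodule.span_le]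
        rintro _ ⟨s, rfl⟩
        exact ⟨genQ t m s, ev_genQ hK h s⟩
      exact h5 h4
    exact h3 h2
  obtain ⟨D, hD⟩ := h1 (Algebra.mem_top : d ∈ (⊤ : Subalgebra ℚ B))
  exact ⟨D, fun v => congrFun hD v⟩

include hj hgen hspan hπ hker in
/-- The relations between the coordinates attached to a lattice. -/
theorem dvd_of_relation {g : Matrix ι ι K} {r : ℚ} {c : Idx ι → ℤ}
    (hd : LatData hK h (j H) g r c)
    (hprim : ∀ ℓ : ℕ, ℓ.Prime → ∃ v : Par ι → ℤ, ¬ (ℓ : ℤ) ∣ qf t m c v)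
    {b : Idx ι → B} (hb : ∀ s v, j (b s) v = fn hK h s (g⁻¹ *ᵥ v))
    (f : MvPolynomial (Idx ι) ℤ) (hf : π (aeval b f) = 0) :
    phi t m (Hc c) ∣ phi t m f := by
  have h1 : aeval b f ∈ RingHom.ker π := hf
  rw [hker, Ideal.mem_span_singleton] at h1
  obtain ⟨d, hd'⟩ := h1
  obtain ⟨D, hD⟩ := exists_poly_comp hj hgen hspan g d
  have hprim' : ∀ ℓ : ℕ, ℓ.Prime → ¬ (MvPolynomial.C (ℓ : ℤ) : MvPolynomial (Par ι) ℤ) ∣ phi t m (Hc c) := by
    rintro ℓ hℓ ⟨k, hk⟩
    obtain ⟨v, hv⟩ := hprim ℓ hℓ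
    apply hv
    rw [← eval_phi_Hc, hk, map_mul, eval_C]
    exact dvd_mul_right _ _
  have h2 : map (algebraMap ℤ ℚ) (phi t m f) =
      map (algebraMap ℤ ℚ) (phi t m (Hc c)) * (MvPolynomial.C r⁻¹ * D) := by
    apply ev_injective hK h
    funext v
    have e1 : ∀ f : MvPolynomial (Par ι) ℤ, ev hK h (map (algebraMap ℤ ℚ) f) v =
        aeval (coord hK h v) f := by
      intro f
      rw [ev_apply, aeval_map_algebraMap]
    have e2 : j (aeval b f) (g *ᵥ v) = aeval (fun s => fn hK h s v) f := by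
      have e3 : (((Pi.evalRingHom (fun _ : ι → K => ℚ) (g *ᵥ v)).comp
          (j : B →+* ((ι → K) → ℚ))).comp ((aeval b : MvPolynomial (Idx ι) ℤ →ₐ[ℤ] B) :
            MvPolynomial (Idx ι) ℤ →+* B)) =
          ((aeval (fun s => fn hK h s v) : MvPolynomial (Idx ι) ℤ →ₐ[ℤ] ℚ) :
            MvPolynomial (Idx ι) ℤ →+* ℚ) := by
        apply hom_ext_of_X
        intro s
        simp only [RingHom.comp_apply, RingHom.coe_coe, aeval_X, Pi.evalRingHom_apply]
        rw [hb, inv_mulVec hd.det]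
      exact RingHom.congr_fun e3 f
    have e4 : aeval (fun s => fn hK h s v) (Hc c) = r * j H (g *ᵥ v) := by
      rw [← hd.eq, Hc, map_sum]
      refine Finset.sum_congr rfl fun s _ => ?_
      rw [map_mul, map_intCast, aeval_X]
    rw [e1, aeval_coord_phi, ← e2, hd', map_mul, map_mul, Pi.mul_apply, Pi.mul_apply, e1,
      aeval_coord_phi, e4, map_mul, Pi.mul_apply, hD]
    have e5 : ev hK h (MvPolynomial.C r⁻¹) v = r⁻¹ := by
      rw [ev_apply, ← algebraMap_eq, AlgHom.commutes]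
      rfl
    rw [e5]
    have hr := hd.r_ne
    field_simp
  obtain ⟨N, hN, D2, hD2⟩ := exists_clear' (MvPolynomial.C r⁻¹ * D)
  have h3 : MvPolynomial.C N * phi t m f = phi t m (Hc c) * D2 := by
    apply map_injective _ (RingHom.injective_int (algebraMap ℤ ℚ))
    rw [map_mul, map_mul, h2, hD2, map_C]
    have e6 : (MvPolynomial.C ((algebraMap ℤ ℚ) N) : MvPolynomial (Par ι) ℚ) = (N : MvPolynomial (Par ι) ℚ) := by
      simp
    rw [e6]
    ring
  exact gauss hprim' _ N rfl hN _ _ h3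

end Ring

end Herm

end Pool.MP_602153_ag
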