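import Mathlib
import Pool.Agent.HermVar.Coord
import Pool.Agent.HermVar.LGModel
import Pool.Agent.HermVar.Min

set_option autoImplicit false

/-!
# Regular models of Hermitian varieties
-/

namespace Pool.MP_602153_ag

namespace Herm

open WeilQuad MvPolynomial Matrix LG AlgebraicGeometry

attribute [local instance] MvPolynomial.gradedAlgebra

/-- Regularity at the primes not containing an integer is invariant under isomorphisms. -/
theorem regular_transfer {R S : Type} [CommRing R] [CommRing S] (e : R ≃+* S) (a : ℤ)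
    (hR : ∀ (Q : Ideal R) [Q.IsPrime], (a : R) ∉ Q → IsRegularLocalRing (Localization.AtPrime Q))
    (Q : Ideal S) [Q.IsPrime] (hQ : (a : S) ∉ Q) :
    IsRegularLocalRing (Localization.AtPrime Q) := by
  have h1 : (a : R) ∉ Q.comap e := by
    rw [Ideal.mem_comap, map_intCast]
    exact hQ
  have h2 := hR (Q.comap e) h1
  exact IsRegularLocalRing.of_ringEquiv <| IsLocalization.ringEquivOfRingEquiv
    (Localization.AtPrime (Q.comap e)) (Localization.AtPrime Q) e (e.map_primeCompl_comap_eq Q)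

section CoverLat

variable {C : Type} [CommRing C] [IsDomain C] [Algebra ℚ C]

/-- Covering property of charts, from coordinates to lattices. -/
theorem cover_lattice {σ κ : Type} [Finite σ] (x : σ → C) (ch : κ → σ) (a : ℤ)
    (hcov : ∀ s, ∃ k : ℕ, (X s : MvPolynomial σ ℤ) ^ k ∈
      Ideal.span (Set.range (X ∘ ch)) ⊔ RingHom.ker (aeval x : MvPolynomial σ ℤ →ₐ[ℤ] C))
    (f : {i : κ // x (ch i) ≠ 0} → C) (hf : ∀ i, f i = (a : C) * x (ch i.1))
    (y : C) (hy : y ∈ Submodule.span ℤ (Set.range x)) :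
    ∃ k : ℕ, ((a : C) * y) ^ k ∈ Submodule.span
      (Algebra.adjoin ℤ ((Submodule.span ℤ (Set.range x) : Submodule ℤ C) : Set C))
      (Set.range f) := by
  set Λ : Submodule ℤ C := Submodule.span ℤ (Set.range x) with hΛ
  set A : Subalgebra ℤ C := Algebra.adjoin ℤ (Λ : Set C) with hA
  have hxΛ : ∀ s, x s ∈ Λ := fun s => Submodule.subset_span ⟨s, rfl⟩
  have hΛA : ∀ z ∈ Λ, z ∈ A := fun z hz => Algebra.subset_adjoin hz
  have haA : (a : C) ∈ A := by
    have := A.algebraMap_mem a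
    simpa using this
  let J : Ideal A := Ideal.span (Set.range fun i : {i : κ // x (ch i) ≠ 0} =>
    (⟨f i, by rw [hf]; exact A.mul_mem haA (hΛA _ (hxΛ _))⟩ : A))
  have hJ : ∀ z : A, z ∈ J → (z : C) ∈ Submodule.span A (Set.range f) := by
    intro z hz
    have h1 : Submodule.map (Algebra.linearMap A C) J ≤ Submodule.span A (Set.range f) := by
      change Submodule.map (Algebra.linearMap A C) (Submodule.span A _) ≤ _
      rw [Submodule.map_span, Submodule.span_le]
      rintro _ ⟨_, ⟨i, rfl⟩, rfl⟩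
      exact Submodule.subset_span ⟨i, rfl⟩
    exact h1 ⟨z, hz, rfl⟩
  -- every polynomial in the coordinates is in `A`
  have hXi : ∀ p : MvPolynomial σ ℤ, aeval x p ∈ A := by
    intro p
    induction p using MvPolynomial.induction_on with
    | C n =>
      rw [← algebraMap_eq, AlgHom.commutes]
      exact A.algebraMap_mem n
    | add p q hp hq =>
      rw [map_add]
      exact A.add_mem hp hq
    | mul_X p s hp =>
      rw [map_mul, aeval_X]
      exact A.mul_mem hp (hΛA _ (hxΛ s))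
  let Ξ : MvPolynomial σ ℤ →+* A :=
    { toFun := fun p => ⟨aeval x p, hXi p⟩
      map_one' := by
        apply Subtype.ext
        exact map_one _
      map_mul' := by
        intro p q
        apply Subtype.ext
        exact map_mul _ _ _
      map_zero' := by
        apply Subtype.ext
        exact map_zero _
      map_add' := by
        intro p q
        apply Subtype.ext
        exact map_add _ _ _ }
  have hΞ : ∀ p, ((Ξ p : A) : C) = aeval x p := fun p => rfl
  have hgen : ∀ p ∈ Ideal.span (Set.range ((X : σ → MvPolynomial σ ℤ) ∘ ch)) ⊔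
      RingHom.ker (aeval x : MvPolynomial σ ℤ →ₐ[ℤ] C), (a : A) * Ξ p ∈ J := by
    intro p hp
    rw [Submodule.mem_sup] at hp
    obtain ⟨u, hu, v, hv, rfl⟩ := hp
    have hv0 : Ξ v = 0 := by
      apply Subtype.ext
      rw [hΞ]
      exact hv
    rw [map_add, hv0, add_zero]
    refine Submodule.span_induction (p := fun u _ => (a : A) * Ξ u ∈ J) ?_ ?_ ?_ ?_ hu
    · rintro _ ⟨i, rfl⟩
      by_cases hi : x (ch i) = 0
      · have h2 : Ξ (((X : σ → MvPolynomial σ ℤ) ∘ ch) i) = 0 := by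
          apply Subtype.ext
          rw [hΞ, Function.comp_apply, aeval_X, hi]
          rfl
        rw [h2, mul_zero]
        exact J.zero_mem
      · refine Ideal.subset_span ⟨⟨i, hi⟩, ?_⟩
        apply Subtype.ext
        change f ⟨i, hi⟩ = ((a : A) : C) * ((Ξ _ : A) : C)
        rw [hf, hΞ, Function.comp_apply, aeval_X]
        simp
    · rw [map_zero, mul_zero]
      exact J.zero_mem
    · intro u v _ _ hu hv
      rw [map_add, mul_add]
      exact J.add_mem hu hv
    · intro r u _ hu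
      rw [smul_eq_mul, map_mul, mul_left_comm]
      exact J.mul_mem_left _ hu
  have hrad : ∀ s, (⟨(a : C) * x s, A.mul_mem haA (hΛA _ (hxΛ s))⟩ : A) ∈ J.radical := by
    intro s
    obtain ⟨k, hk⟩ := hcov s
    refine ⟨k + 1, ?_⟩
    have h1 := hgen _ hk
    rw [map_pow] at h1
    have h2 : (⟨(a : C) * x s, A.mul_mem haA (hΛA _ (hxΛ s))⟩ : A) = (a : A) * Ξ (X s) := by
      apply Subtype.ext
      change (a : C) * x s = ((a : A) : C) * ((Ξ (X s) : A) : C)
      rw [hΞ, aeval_X]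
      simp
    rw [h2]
    have h3 : ((a : A) * Ξ (X s)) ^ (k + 1) =
        ((a : A) ^ k * Ξ (X s)) * ((a : A) * Ξ (X s) ^ k) := by ring
    rw [h3]
    exact J.mul_mem_left _ h1
  have hay : ∀ y ∈ Λ, ∃ hy : (a : C) * y ∈ A, (⟨(a : C) * y, hy⟩ : A) ∈ J.radical := by
    intro y hy
    refine ⟨A.mul_mem haA (hΛA _ hy), ?_⟩
    refine Submodule.span_induction (p := fun y _ => ∀ hy : (a : C) * y ∈ A,
      (⟨(a : C) * y, hy⟩ : A) ∈ J.radical) ?_ ?_ ?_ ?_ hy _
    · rintro _ ⟨s, rfl⟩ _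
      exact hrad s
    · intro h
      have h2 : (⟨(a : C) * 0, h⟩ : A) = 0 := by
        apply Subtype.ext
        exact mul_zero _
      rw [h2]
      exact J.radical.zero_mem
    · intro u v hu hv hu' hv' h
      have h1 : (a : C) * u ∈ A := A.mul_mem haA (hΛA _ hu)
      have h2 : (a : C) * v ∈ A := A.mul_mem haA (hΛA _ hv)
      have h3 : (⟨(a : C) * (u + v), h⟩ : A) = ⟨(a : C) * u, h1⟩ + ⟨(a : C) * v, h2⟩ := by
        apply Subtype.ext
        exact mul_add _ _ _
      rw [h3]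
      exact J.radical.add_mem (hu' h1) (hv' h2)
    · intro n u hu hu' h
      have h1 : (a : C) * u ∈ A := A.mul_mem haA (hΛA _ hu)
      have h3 : (⟨(a : C) * (n • u), h⟩ : A) = (n : A) * ⟨(a : C) * u, h1⟩ := by
        apply Subtype.ext
        change (a : C) * (n • u) = ((n : A) : C) * ((a : C) * u)
        rw [zsmul_eq_mul]
        have h4 : ((n : A) : C) = (n : C) := by simp
        rw [h4]
        ring
      rw [h3]
      exact J.radical.mul_mem_left _ (hu' h1)
  obtain ⟨hy', k, hk⟩ := hay y hy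
  exact ⟨k, hJ _ hk⟩

end CoverLat

section Final

variable {ι K : Type} [Fintype ι] [DecidableEq ι] [Field K] [Algebra ℚ K]
  {hK : Module.finrank ℚ K = 2} {t m : ℤ} {ω : K} {h : IsGen K t m ω}
  {B : Type} [CommRing B] [Algebra ℚ B] {ℬ : ℕ → Submodule ℚ B} [GradedAlgebra ℬ]
  {j : B →ₐ[ℚ] ((ι → K) → ℚ)} (hj : Function.Injective j)
  (hgen : Algebra.adjoin ℚ (ℬ 1 : Set B) = ⊤)
  (hspan : Submodule.map j.toLinearMap (ℬ 1) = Submodule.span ℚ (Set.range (fn (ι := ι) hK h)))
  {H : B} {C : Type} [CommRing C] [IsDomain C] [Algebra ℚ C] (𝒞 : ℕ → Submodule ℚ C)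
  [GradedAlgebra 𝒞]
  {π : B →ₐ[ℚ] C} (hπ : Function.Surjective π) (hπ1 : Submodule.map π.toLinearMap (ℬ 1) = 𝒞 1)
  (hker : RingHom.ker π = Ideal.span {H})

include hj hgen hspan hπ hπ1 hker in
/-- A minimal lattice gives a model which is regular at `p`. -/
theorem exists_good_lattice (hnice : Nice (gpol t m)) {p : ℕ} {a₀ : ℤ} {g : Matrix ι ι K}
    {r : ℚ} {c : Idx ι → ℤ} (hd : LatData hK h (j H) g r c) (hc : LocGood t m c p a₀) :
    ∃ (Λ : Submodule ℤ C) (a : ℤ), IsLat (𝒞 1) Λ ∧ ¬ (p : ℤ) ∣ a ∧ LG.Good Λ a := by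
  classical
  have hCZ : CharZero C := algebraRat.charZero C
  -- the coordinates
  have hb0 : ∀ s, ∃ b ∈ ℬ 1, ∀ v, j b v = fn hK h s (g⁻¹ *ᵥ v) := by
    intro s
    have h1 := fn_comp_mem hK h g⁻¹ s
    rw [← hspan] at h1
    obtain ⟨b, hb, hb2⟩ := h1
    exact ⟨b, hb, fun v => congrFun hb2 v⟩
  choose b hb1 hb using hb0
  let x : Idx ι → C := fun s => π (b s)
  have hx : ∀ s, x s ∈ 𝒞 1 := by
    intro s
    rw [← hπ1]
    exact ⟨b s, hb1 s, rfl⟩
  have hbspan : Submodule.span ℚ (Set.range b) = ℬ 1 := by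
    apply Submodule.map_injective_of_injective (f := j.toLinearMap) hj
    rw [hspan, Submodule.map_span, ← Set.range_comp]
    apply le_antisymm
    · rw [Submodule.span_le]
      rintro _ ⟨s, rfl⟩
      have h1 : (j.toLinearMap ∘ b) s = fun v => fn hK h s (g⁻¹ *ᵥ v) := by
        funext v
        exact hb s v
      rw [h1]
      exact fn_comp_mem hK h g⁻¹ s
    · rw [Submodule.span_le]
      rintro _ ⟨s, rfl⟩
      let L : ((ι → K) → ℚ) →ₗ[ℚ] ((ι → K) → ℚ) :=
        { toFun := fun f v => f (g⁻¹ *ᵥ v)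
          map_add' := fun _ _ => rfl
          map_smul' := fun _ _ => rfl }
      have h1 := fn_comp_mem hK h g s
      have h2 : Submodule.span ℚ (Set.range (fn (ι := ι) hK h)) ≤
          (Submodule.span ℚ (Set.range (⇑j.toLinearMap ∘ b))).comap L := by
        rw [Submodule.span_le]
        rintro _ ⟨s, rfl⟩
        refine Submodule.subset_span ⟨s, ?_⟩
        funext v
        exact hb s v
      have h3 := h2 h1
      have h4 : L (fun v => fn hK h s (g *ᵥ v)) = fn hK h s := by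
        funext v
        change fn hK h s (g *ᵥ (g⁻¹ *ᵥ v)) = fn hK h s v
        rw [mulVec_inv hd.det]
      rw [Submodule.mem_comap, h4] at h3
      exact h3
  have hxspan : Submodule.span ℚ (Set.range x) = 𝒞 1 := by
    rw [← hπ1, ← hbspan, Submodule.map_span, ← Set.range_comp]
    rfl
  let Λ : Submodule ℤ C := Submodule.span ℤ (Set.range x)
  have hxΛ : ∀ s, x s ∈ Λ := fun s => Submodule.subset_span ⟨s, rfl⟩
  have hLat : IsLat (𝒞 1) Λ := by
    constructor
    · exact Submodule.fg_span (Set.finite_range x)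
    · rw [← hxspan]
      apply le_antisymm
      · rw [Submodule.span_le]
        intro y hy
        have h1 : Λ ≤ (Submodule.span ℚ (Set.range x)).restrictScalars ℤ := by
          rw [Submodule.span_le]
          exact Submodule.subset_span
        exact h1 hy
      · exact Submodule.span_mono Submodule.subset_span
  refine ⟨Λ, a₀, hLat, hc.not_dvd, ?_⟩
  -- the ideal
  let I : Ideal (MvPolynomial (Idx ι) ℤ) :=
    RingHom.ker (aeval x : MvPolynomial (Idx ι) ℤ →ₐ[ℤ] C)
  have haev : ∀ f : MvPolynomial (Idx ι) ℤ, π (aeval b f) = aeval x f := by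
    intro f
    have h1 : ((π : B →+* C).comp ((aeval b : MvPolynomial (Idx ι) ℤ →ₐ[ℤ] B) :
        MvPolynomial (Idx ι) ℤ →+* B)) =
        ((aeval x : MvPolynomial (Idx ι) ℤ →ₐ[ℤ] C) : MvPolynomial (Idx ι) ℤ →+* C) := by
      apply hom_ext_of_X
      intro s
      simp [x]
    exact RingHom.congr_fun h1 f
  have hdvd : ∀ f ∈ I, phi t m (Hc c) ∣ phi t m f := by
    intro f hf
    refine dvd_of_relation hj hgen hspan hπ hker hd hc.prim hb f ?_
    rw [haev]
    exact hf
  have hIhom := ker_aeval_isHomogeneous 𝒞 x hx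
  have hIc : ∀ f ∈ I, ∀ k, phi t m (Hc c) ∣ phi t m (homogeneousComponent k f) := by
    intro f hf k
    apply hdvd
    have h1 := hIhom k hf
    have h2 : (DirectSum.decompose (homogeneousSubmodule (Idx ι) ℤ) f k :
        MvPolynomial (Idx ι) ℤ) = homogeneousComponent k f :=
      MvPolynomial.decomposition.decompose'_apply f k
    rwa [h2] at h1
  have hI0 : RingHom.ker (phi (ι := ι) t m) ≤ I := by
    intro f hf
    change aeval x f = 0
    rw [← haev]
    have h1 : aeval b f = 0 := by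
      apply hj
      rw [map_zero]
      funext v
      have e3 : (((Pi.evalRingHom (fun _ : ι → K => ℚ) v).comp
          (j : B →+* ((ι → K) → ℚ))).comp ((aeval b : MvPolynomial (Idx ι) ℤ →ₐ[ℤ] B) :
            MvPolynomial (Idx ι) ℤ →+* B)) =
          ((aeval (fun s => fn hK h s (g⁻¹ *ᵥ v)) : MvPolynomial (Idx ι) ℤ →ₐ[ℤ] ℚ) :
            MvPolynomial (Idx ι) ℤ →+* ℚ) := by
        apply hom_ext_of_X
        intro s
        simp only [RingHom.comp_apply, RingHom.coe_coe, aeval_X, Pi.evalRingHom_apply]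
        rw [hb]
      have e4 : j (aeval b f) v = aeval (fun s => fn hK h s (g⁻¹ *ᵥ v)) f :=
        RingHom.congr_fun e3 f
      rw [e4, ← aeval_coord_phi]
      have e5 : phi t m f = 0 := hf
      rw [e5, map_zero]
      rfl
    rw [h1, map_zero]
  have hHI : Hc c ∈ I := by
    change aeval x (Hc c) = 0
    rw [← haev]
    have h1 : aeval b (Hc c) = algebraMap ℚ B r * H := by
      apply hj
      funext v
      rw [map_mul, AlgHom.commutes, Pi.mul_apply]
      have e3 : j (aeval b (Hc c)) v = ∑ s, (c s : ℚ) * fn hK h s (g⁻¹ *ᵥ v) := by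
        rw [Hc, map_sum, map_sum, Finset.sum_apply]
        refine Finset.sum_congr rfl fun s _ => ?_
        rw [map_mul, map_intCast, aeval_X, map_mul, map_intCast, Pi.mul_apply, hb]
        rfl
      rw [e3, hd.eq, mulVec_inv hd.det]
      rfl
    have h2 : H ∈ RingHom.ker π := by
      rw [hker]
      exact Ideal.subset_span rfl
    rw [h1, map_mul]
    have h3 : π H = 0 := h2
    rw [h3, mul_zero]
  have hnd0 : ∀ v : Par ι → ℤ, (∀ w, bf t m c v w = 0) → v = 0 := by
    intro v hv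
    have h1 := hc.nd 0 (Or.inl rfl) (fun h => hc.prime.ne_zero h.symm)
      (fun h => hc.ne_zero (by simpa using h)) v (fun w => by rw [hv]; exact dvd_zero _)
    funext k
    simpa using h1 k
  -- the chart rings
  have hchart : ∀ q : ChIdx ι, x (ch q) ≠ 0 →
      IsRegularRing (chartSub Λ ((a₀ : C) * x (ch q))) := by
    intro q hq
    have hF : ((X (ch q) : MvPolynomial (Idx ι) ℤ)).IsHomogeneous 1 := isHomogeneous_X _ _
    have hF0 : aeval x (X (ch q) : MvPolynomial (Idx ι) ℤ) ≠ 0 := by rwa [aeval_X]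
    obtain ⟨E⟩ := chartSub_equiv 𝒞 x hx hF hF0
    rw [aeval_X] at E
    have hsurf := surf_regular hnice
    rcases q with i | ⟨⟨i, k⟩, hik⟩
    · obtain ⟨E'⟩ := chartA_equiv t m i hI0 hHI hIc
      let E'' : (TA i ⧸ Ideal.span {hA t m c i}) ≃+* chartSub Λ (x (ch (Sum.inl i))) :=
        E'.symm.trans E
      have hn : IsNoetherianRing (chartSub Λ (x (ch (Sum.inl i)))) :=
        isNoetherianRing_of_ringEquiv _ E''
      refine isRegularRing_chartSub_mul (hxΛ _) hq hn hc.ne_zero ?_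
      intro Q _ hQ
      exact regular_transfer E'' a₀ (fun Q' _ hQ' => chartA_regular hc i Q' hQ') Q hQ
    · obtain ⟨E'⟩ := chartB_equiv t m i k hik (chartB_nzd h hnd0 hik) hI0 hHI hIc
      let E'' : (TB t m i k ⧸ Ideal.span {hB t m c i k}) ≃+*
          chartSub Λ (x (ch (Sum.inr ⟨(i, k), hik⟩))) :=
        E'.symm.trans E
      have hn : IsNoetherianRing (chartSub Λ (x (ch (Sum.inr ⟨(i, k), hik⟩)))) :=
        isNoetherianRing_of_ringEquiv _ E''
      refine isRegularRing_chartSub_mul (hxΛ _) hq hn hc.ne_zero ?_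
      intro Q _ hQ
      exact regular_transfer E'' a₀ (fun Q' _ hQ' => chartB_regular hc hnice hik Q' hQ') Q hQ
  have ha0 : (a₀ : C) ≠ 0 := by exact_mod_cast hc.ne_zero
  refine ⟨{q : ChIdx ι // x (ch q) ≠ 0}, fun q => (a₀ : C) * x (ch q.1), ?_, ?_⟩
  · intro q
    refine ⟨?_, mul_ne_zero ha0 q.2, hchart q.1 q.2⟩
    have h1 : (a₀ : C) * x (ch q.1) = a₀ • x (ch q.1) := by rw [zsmul_eq_mul]
    change (a₀ : C) * x (ch q.1) ∈ Λ
    rw [h1]
    exact Λ.smul_mem _ (hxΛ _)
  · intro y hy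
    refine cover_lattice x ch a₀ ?_ _ (fun i => rfl) y hy
    intro s
    obtain ⟨k, hk⟩ := cover_px (ι := ι) t m s
    exact ⟨k, (sup_le_sup_left hI0 _) hk⟩

end Final

section Degree

variable {ι K : Type} [Fintype ι] [DecidableEq ι] [Field K] [Algebra ℚ K]
  {hK : Module.finrank ℚ K = 2} {t m : ℤ} {ω : K} {h : IsGen K t m ω}

omit [Fintype ι] [DecidableEq ι] in
theorem genQ_homogeneous (s : Idx ι) : (genQ (ι := ι) t m s).IsHomogeneous 2 := by
  rw [← map_phi_X]
  exact (phi_homogeneous t m s).map _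

omit [DecidableEq ι] in
theorem qpolQ_homogeneous (c₀ : Idx ι → ℚ) : (qpolQ t m c₀).IsHomogeneous 2 := by
  rw [qpolQ]
  refine IsHomogeneous.sum _ _ _ fun s _ => ?_
  have := (isHomogeneous_C (Par ι) (c₀ s)).mul (genQ_homogeneous (t := t) (m := m) s)
  rw [zero_add] at this
  exact this

/-- A form does not divide all the coordinates. -/
theorem not_dvd_all (hι : 2 ≤ Fintype.card ι) {c₀ : Idx ι → ℚ} (h0 : qpolQ t m c₀ ≠ 0)
    (hdvd : ∀ s, qpolQ t m c₀ ∣ genQ t m s) : False := by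
  have hc : ∀ i : ι, ∃ a : ℚ, genQ t m (.inl (i, i)) = qpolQ t m c₀ * C a := by
    intro i
    obtain ⟨s, hs⟩ := hdvd (.inl (i, i))
    by_cases hs0 : s = 0
    · exact ⟨0, by rw [hs, hs0]; simp⟩
    have hg0 : genQ (ι := ι) t m (.inl (i, i)) ≠ 0 := by
      rw [hs]
      exact mul_ne_zero h0 hs0
    have h1 := (genQ_homogeneous (t := t) (m := m) (Sum.inl (i, i))).totalDegree hg0
    have h2 := (qpolQ_homogeneous (t := t) (m := m) c₀).totalDegree h0
    rw [hs, totalDegree_mul_of_isDomain h0 hs0, h2] at h1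
    have h3 : s.totalDegree = 0 := by omega
    rw [totalDegree_eq_zero_iff_eq_C] at h3
    exact ⟨_, by rw [hs, ← h3]⟩
  obtain ⟨i, k, hik⟩ := Fintype.exists_pair_of_one_lt_card (α := ι) (by omega)
  obtain ⟨a, ha⟩ := hc i
  obtain ⟨b, hb⟩ := hc k
  have hv : ∀ (i k : ι) (v : Par ι → ℚ), eval v (genQ t m (.inl (i, i))) =
      v (.inl i) * v (.inl i) + t * v (.inl i) * v (.inr i) + m * v (.inr i) * v (.inr i) := by
    intro i k v
    rw [genQ_eq, map_gv, gv_inl]
    simp
  have e1 := congrArg (eval (Pi.single (Sum.inl i) (1 : ℚ) : Par ι → ℚ)) ha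
  have e2 := congrArg (eval (Pi.single (Sum.inl i) (1 : ℚ) : Par ι → ℚ)) hb
  have e3 := congrArg (eval (Pi.single (Sum.inl k) (1 : ℚ) : Par ι → ℚ)) hb
  rw [hv i i, map_mul, eval_C] at e1
  rw [hv k k, map_mul, eval_C] at e2
  rw [hv k k, map_mul, eval_C] at e3
  simp [hik] at e1
  have hki : (Sum.inl k : Par ι) ≠ Sum.inl i := fun h => hik (Sum.inl_injective h).symm
  rw [Pi.single_eq_of_ne hki] at e2
  simp at e2
  simp at e3
  rcases e2 with e2 | e2
  · rw [e2] at e1
    simp at e1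
  · rw [e2] at e3
    simp at e3

end Degree

section GradedMap

variable {B C : Type} [CommRing B] [Algebra ℚ B] {ℬ : ℕ → Submodule ℚ B} [GradedAlgebra ℬ]
  [CommRing C] [Algebra ℚ C] {𝒞 : ℕ → Submodule ℚ C} [GradedAlgebra 𝒞]

theorem map_graded_one (π : B →ₐ[ℚ] C) (hπ : Function.Surjective π)
    (hπg : ∀ n, ∀ b ∈ ℬ n, π b ∈ 𝒞 n) : Submodule.map π.toLinearMap (ℬ 1) = 𝒞 1 := by
  classical
  apply le_antisymm
  · rintro _ ⟨b, hb, rfl⟩
    exact hπg 1 b hb
  · intro z hz
    obtain ⟨b, rfl⟩ := hπ z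
    refine ⟨(DirectSum.decompose ℬ b 1 : B), SetLike.coe_mem _, ?_⟩
    have h1 : π b = ∑ n ∈ (DirectSum.decompose ℬ b).support,
        π (DirectSum.decompose ℬ b n : B) := by
      rw [← map_sum, DirectSum.sum_support_decompose]
    have h2 : (DirectSum.decompose 𝒞 (π b) 1 : C) = π b :=
      DirectSum.decompose_of_mem_same 𝒞 hz
    have h3 : ∀ n, (DirectSum.decompose 𝒞 (π (DirectSum.decompose ℬ b n : B)) 1 : C) =
        if n = 1 then π (DirectSum.decompose ℬ b n : B) else 0 := by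
      intro n
      have h4 := hπg n _ (SetLike.coe_mem (DirectSum.decompose ℬ b n))
      by_cases hn : n = 1
      · subst hn
        rw [if_pos rfl, DirectSum.decompose_of_mem_same 𝒞 h4]
      · rw [if_neg hn, DirectSum.decompose_of_mem_ne 𝒞 h4 hn]
    change π (DirectSum.decompose ℬ b 1 : B) = π b
    conv_rhs => rw [← h2, h1]
    rw [DirectSum.decompose_sum, DFinsupp.finset_sum_apply, AddSubmonoidClass.coe_finset_sum,
      Finset.sum_congr rfl fun n _ => h3 n]
    by_cases h5 : 1 ∈ (DirectSum.decompose ℬ b).support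
    · rw [Finset.sum_ite_eq' _ 1, if_pos h5]
    · rw [Finset.sum_ite_eq' _ 1, if_neg h5]
      have h6 : DirectSum.decompose ℬ b 1 = 0 := by
        simpa using h5
      rw [h6]
      simp

end GradedMap

/-- Regular models of Hermitian varieties. -/
theorem hasModel {ι K : Type} [Fintype ι] [DecidableEq ι] [Field K] [Algebra ℚ K]
    (hK : Module.finrank ℚ K = 2) (hι : 2 ≤ Fintype.card ι) (σ : K ≃ₐ[ℚ] K) (hσ : σ ≠ 1)
    (M : Matrix ι ι K) (hM : ∀ i k, M k i = σ (M i k)) (hdet : M.det ≠ 0)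
    (B : Type) [CommRing B] [Algebra ℚ B] (ℬ : ℕ → Submodule ℚ B) [GradedAlgebra ℬ]
    (j : B →ₐ[ℚ] ((ι → K) → ℚ)) (hj : Function.Injective j)
    (hgen : Algebra.adjoin ℚ (ℬ 1 : Set B) = ⊤)
    (hspan : Submodule.map j.toLinearMap (ℬ 1) = Submodule.span ℚ
      (Set.range (normFn : (ι → K) → (ι → K) → ℚ)))
    (H : B) (hH : ∀ v, algebraMap ℚ K (j H v) = herm σ M v)
    (C : Type) [CommRing C] [Algebra ℚ C] (𝒞 : ℕ → Submodule ℚ C) [GradedAlgebra 𝒞]
    (π : B →ₐ[ℚ] C) (hπ : Function.Surjective π) (hπg : ∀ n, ∀ b ∈ ℬ n, π b ∈ 𝒞 n)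
    (hker : RingHom.ker π = Ideal.span {H})
    (Z : Scheme) (e : Nonempty (Z ≅ Proj 𝒞)) : HasModel Z := by
  have hne : Nonempty ι := Fintype.card_pos_iff.1 (by omega)
  obtain ⟨t, m, ω, h, hnice⟩ := exists_nice hK
  have hspan' : Submodule.map j.toLinearMap (ℬ 1) =
      Submodule.span ℚ (Set.range (fn (ι := ι) hK h)) := by rw [hspan, span_eq hK h]
  have hloc : ∀ p : ℕ, p.Prime → ∃ (g : Matrix ι ι K) (r : ℚ) (c : Idx ι → ℤ) (a₀ : ℤ),
      LatData hK h (j H) g r c ∧ LocGood t m c p a₀ := by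
    intro p hp
    obtain ⟨g, r, c, a₀, hg, hr, heq, hc⟩ := exists_local hK h hnice σ hσ M hM hdet hp
    refine ⟨g, r, c, a₀, ⟨hg, hr, ?_⟩, hc⟩
    intro v
    apply (algebraMap ℚ K).injective
    rw [heq, map_mul, hH]
  have hnd : ∀ (c : Idx ι → ℤ) (p : ℕ) (a₀ : ℤ), LocGood t m c p a₀ →
      ∀ v : Par ι → ℤ, (∀ w, bf t m c v w = 0) → v = 0 := by
    intro c p a₀ hc v hv
    have h1 := hc.nd 0 (Or.inl rfl) (fun h => hc.prime.ne_zero h.symm)
      (fun h => hc.ne_zero (by simpa using h)) v (fun w => by rw [hv]; exact dvd_zero _)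
    funext k
    simpa using h1 k
  obtain ⟨g, r, c, a₀, hd, hc⟩ := hloc 2 Nat.prime_two
  have hdom : IsDomain C := isDomain_of_data hj hgen hspan' hπ hker hd hι (hnd c 2 a₀ hc)
  have hπ1 := map_graded_one π hπ hπg
  have hgenC : Algebra.adjoin ℚ (𝒞 1 : Set C) = ⊤ := by
    have h1 : (𝒞 1 : Set C) = π '' (ℬ 1 : Set B) := by
      rw [← hπ1]
      rfl
    rw [h1, ← AlgHom.map_adjoin, hgen, Algebra.map_top]
    exact (AlgHom.range_eq_top _).2 hπ
  have hne1 : 𝒞 1 ≠ ⊥ := by
    intro h1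
    obtain ⟨ρ, hρ, hρi, hρr⟩ := exists_rho hK h j hj hgen hspan'
    obtain ⟨c₀, hc₀⟩ := hd.exists_coeff
    have hρH : ρ H = qpolQ t m c₀ := by
      apply ev_injective hK h
      rw [hρ, hc₀, qpolQ, map_sum]
      refine Finset.sum_congr rfl fun s _ => ?_
      rw [map_mul, ← algebraMap_eq, AlgHom.commutes, ← Algebra.smul_def]
      congr 1
      exact (ev_genQ hK h s).symm
    have hp := hd.prime hι (hnd c 2 a₀ hc) hc₀
    refine not_dvd_all hι hp.ne_zero (t := t) (m := m) (c₀ := c₀) ?_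
    intro s
    have h2 : fn hK h s ∈ Submodule.map j.toLinearMap (ℬ 1) := by
      rw [hspan']
      exact Submodule.subset_span ⟨s, rfl⟩
    obtain ⟨b, hb, hbs⟩ := h2
    have h3 : π b ∈ 𝒞 1 := hπg 1 b hb
    rw [h1, Submodule.mem_bot] at h3
    have h4 : b ∈ RingHom.ker π := h3
    rw [hker, Ideal.mem_span_singleton] at h4
    obtain ⟨d, rfl⟩ := h4
    have h5 : ρ (H * d) = genQ t m s := by
      apply ev_injective hK h
      rw [hρ, ev_genQ]
      exact hbs
    rw [← h5, map_mul, hρH]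
    exact dvd_mul_right _ _
  refine hasModel_of_local 𝒞 hgenC hne1 ?_ Z e
  intro p hp
  obtain ⟨g, r, c, a₀, hd, hc⟩ := hloc p hp
  exact exists_good_lattice hj hgen hspan' 𝒞 hπ hπ1 hker hnice hd hc

end Herm

end Pool.MP_602153_ag
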