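import Mathlib
import Pool.Agent.HermVar.Main

set_option autoImplicit false

/-!
# The coordinate ring of a Hermitian variety exists
-/

namespace Pool.MP_602153_ag

namespace Herm

open WeilQuad Matrix

theorem exists_ring {ι K : Type} [Fintype ι] [DecidableEq ι] [Nonempty ι] [Field K] [Algebra ℚ K]
    (hK : Module.finrank ℚ K = 2) (σ : K ≃ₐ[ℚ] K) (hσ : σ ≠ 1)
    (M : Matrix ι ι K) (hM : ∀ i k, M k i = σ (M i k)) (hdet : M.det ≠ 0) :
    ∃ (B : Type) (_ : CommRing B) (_ : Algebra ℚ B) (ℬ : ℕ → Submodule ℚ B) (_ : GradedAlgebra ℬ)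
      (j : B →ₐ[ℚ] ((ι → K) → ℚ)), Function.Injective j ∧
      Algebra.adjoin ℚ (ℬ 1 : Set B) = ⊤ ∧
      Submodule.map j.toLinearMap (ℬ 1) = Submodule.span ℚ
        (Set.range (normFn : (ι → K) → (ι → K) → ℚ)) ∧
      ∃ H : B, (∀ v, algebraMap ℚ K (j H v) = herm σ M v) ∧
      ∃ (C : Type) (_ : CommRing C) (_ : Algebra ℚ C) (𝒞 : ℕ → Submodule ℚ C)
        (_ : GradedAlgebra 𝒞) (π : B →ₐ[ℚ] C), Function.Surjective π ∧
        (∀ n, ∀ b ∈ ℬ n, π b ∈ 𝒞 n) ∧ RingHom.ker π = Ideal.span {H} := by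
  obtain ⟨B, i1, i2, ℬ, i3, j, hj, hgen, hspan⟩ := WeilQuad.exists_ring hK ι
  refine ⟨B, i1, i2, ℬ, i3, j, hj, hgen, hspan, ?_⟩
  obtain ⟨t, m, ω, h, hnice⟩ := exists_nice hK
  obtain ⟨g, r, c, a₀, hg, hr, heq, hc⟩ := exists_local hK h hnice σ hσ M hM hdet Nat.prime_two
  let η : (ι → K) → ℚ := fun v => r⁻¹ * ∑ s, (c s : ℚ) * fn hK h s (g⁻¹ *ᵥ v)
  have hη : ∀ v, algebraMap ℚ K (η v) = herm σ M v := by
    intro v
    have h1 := heq (g⁻¹ *ᵥ v)
    rw [mulVec_inv hg] at h1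
    simp only [η]
    rw [map_mul, h1, ← mul_assoc, ← map_mul, inv_mul_cancel₀ hr, map_one, one_mul]
  have hd : LatData hK h η g r c := by
    refine ⟨hg, hr, ?_⟩
    intro v
    apply (algebraMap ℚ K).injective
    rw [heq, map_mul, hη]
  obtain ⟨c₀, hc₀⟩ := hd.exists_coeff
  have h2 : η ∈ Submodule.map j.toLinearMap (ℬ 1) := by
    rw [hspan, span_eq hK h, hc₀]
    exact Submodule.sum_mem _ fun s _ => Submodule.smul_mem _ _ (Submodule.subset_span ⟨s, rfl⟩)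
  obtain ⟨H, hH1, hH⟩ := h2
  have hH' : j H = η := hH
  refine ⟨H, fun v => by rw [hH', hη], ?_⟩
  have hI : (Ideal.span {H}).IsHomogeneous ℬ := by
    apply Ideal.homogeneous_span
    intro x hx
    rw [Set.mem_singleton_iff] at hx
    rw [hx]
    exact ⟨1, hH1⟩
  exact ⟨B ⧸ Ideal.span {H}, inferInstance, inferInstance, quotGrading ℬ (Ideal.span {H}),
    quotGraded ℬ (Ideal.span {H}) hI, Ideal.Quotient.mkₐ ℚ (Ideal.span {H}),
    Ideal.Quotient.mkₐ_surjective ℚ _, fun n b hb => mk_mem_quotGrading hb,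
    Ideal.Quotient.mkₐ_ker ℚ _⟩

end Herm

end Pool.MP_602153_ag
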